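import Mathlib

/-!
# PF: product formula as an inequality

PROOF. Write `x = a/b`, `a = x.num`, `b = x.den`. `log |x| = log |a| - log b`, and for a natural number `m ≥ 1`
`log m = ∑_{p ≤ C} v_p(m) log p` for every `C ≥ m` (`Nat.factorization_prod_pow_eq_self`, `Real.log_prod`), so with
`C = max B (max |a| b)`: `log |x| = ∑_{p ≤ C, p prime} padicValRat p x · log p` (`padicValRat.def`: difference of the
valuations of numerator and denominator). The terms `p ≤ B` are `≥ w p log p`, the others are `≥ 0`.
-/

set_option autoImplicit false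

open Finset

namespace PWief

private theorem PF_logNat {n : ℕ} (hn : n ≠ 0) (c : ℕ) (hc : n ≤ c) :
    Real.log n = ∑ p ∈ (range (c + 1)).filter Nat.Prime, (padicValNat p n : ℝ) * Real.log p := by
  rw [Real.log_nat_eq_sum_factorization n]
  rw [Finsupp.sum_of_support_subset n.factorization (s := (range (c + 1)).filter Nat.Prime)]
  · refine Finset.sum_congr rfl ?_
    intro p hp
    rw [Finset.mem_filter] at hp
    rw [Nat.factorization_def n hp.2]
  · intro p hp
    rw [Nat.support_factorization, Nat.mem_primeFactors] at hp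
    rw [Finset.mem_filter, Finset.mem_range]
    refine ⟨?_, hp.1⟩
    have := Nat.le_of_dvd (Nat.pos_of_ne_zero hn) hp.2.1
    omega
  · intro p _
    simp

theorem log_ge {x : ℚ} (hx : x ≠ 0) (B : ℕ) (w : ℕ → ℝ)
    (h1 : ∀ p : ℕ, p.Prime → p ≤ B → w p ≤ (padicValRat p x : ℝ))
    (h2 : ∀ p : ℕ, p.Prime → B < p → 0 ≤ padicValRat p x) :
    ∑ p ∈ (range (B + 1)).filter Nat.Prime, w p * Real.log p ≤ Real.log |(x : ℝ)| := by
  have hnum : x.num.natAbs ≠ 0 := by
    rw [Int.natAbs_ne_zero]
    exact Rat.num_ne_zero.mpr hx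
  have hden : x.den ≠ 0 := x.den_ne_zero
  set c : ℕ := max B (max x.num.natAbs x.den) with hcdef
  have hBc : B ≤ c := le_max_left _ _
  have hnc : x.num.natAbs ≤ c := le_trans (le_max_left _ _) (le_max_right _ _)
  have hdc : x.den ≤ c := le_trans (le_max_right _ _) (le_max_right _ _)
  have habs : |(x : ℝ)| = (x.num.natAbs : ℝ) / (x.den : ℝ) := by
    have h3 : (x : ℝ) = (x.num : ℝ) / (x.den : ℝ) := Rat.cast_def x
    rw [h3, abs_div, Nat.abs_cast]
    congr 1
    rw [← Int.cast_abs, Int.abs_eq_natAbs, Int.cast_natCast]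
  have hlog : Real.log |(x : ℝ)| =
      ∑ p ∈ (range (c + 1)).filter Nat.Prime, (padicValRat p x : ℝ) * Real.log p := by
    rw [habs, Real.log_div (Nat.cast_ne_zero.mpr hnum) (Nat.cast_ne_zero.mpr hden),
      PF_logNat hnum c hnc, PF_logNat hden c hdc, ← Finset.sum_sub_distrib]
    refine Finset.sum_congr rfl ?_
    intro p hp
    rw [← sub_mul]
    congr 1
    have h5 : padicValRat p x = (padicValNat p x.num.natAbs : ℤ) - (padicValNat p x.den : ℤ) := rfl
    rw [h5, Int.cast_sub, Int.cast_natCast, Int.cast_natCast]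
  rw [hlog]
  have hsub : (range (B + 1)).filter Nat.Prime ⊆ (range (c + 1)).filter Nat.Prime := by
    refine Finset.filter_subset_filter _ ?_
    exact Finset.range_subset_range.mpr (by omega)
  refine le_trans (Finset.sum_le_sum (g := fun p => (padicValRat p x : ℝ) * Real.log p) ?_)
    (Finset.sum_le_sum_of_subset_of_nonneg hsub ?_)
  · intro p hp
    rw [Finset.mem_filter, Finset.mem_range] at hp
    refine mul_le_mul_of_nonneg_right (h1 p hp.2 (by omega)) ?_
    exact Real.log_natCast_nonneg p
  · intro p hp hp2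
    rw [Finset.mem_filter, Finset.mem_range] at hp
    refine mul_nonneg ?_ (Real.log_natCast_nonneg p)
    have hBp : B < p := by
      by_contra hcon
      exact hp2 (Finset.mem_filter.mpr ⟨Finset.mem_range.mpr (by omega), hp.2⟩)
    exact_mod_cast h2 p hp.2 hBp

end PWief
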