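import Pool.Agent.Lib.PWief.PApi

/-!
# RankDet: a matrix with few independent rows modulo `p`

PROOF (see Lib/Wief/LinD.lean for the same argument over the integers). Let `B` be the matrix with
`B i j = A i j - ∑_k F i k G k j` for `i ∈ R` (`padicNorm ≤ 1/p`, as the norm is `< 1` and a power of `p`) and
`B i j = A i j` for `i ∉ R`, and `F' i k = F i k` for `i ∈ R`, `0` otherwise. Then `A = B - F' * (-G)`, so
`det A = det (fromBlocks B F' (-G) 1)` (`Matrix.det_fromBlocks_one₂₂`). Leibniz formula
(`Matrix.det_apply'`): for every permutation `σ` of `Fin n ⊕ κ` at most `card κ` of the rows `inl i`, `i ∈ R`, are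
sent to `inr`, so at least `R.card - card κ` of the factors are entries of `B` in rows of `R`; all factors are
`p`-integral. `padicNorm` of a sum is at most the maximum (`padicNorm.sum_le'`).
-/

set_option autoImplicit false

open Finset Polynomial

namespace PWief

theorem rd_norm_prod {p : ℕ} [Fact p.Prime] {ι : Type*} (s : Finset ι) (f : ι → ℚ) :
    padicNorm p (∏ i ∈ s, f i) = ∏ i ∈ s, padicNorm p (f i) := by
  classical
  induction s using Finset.induction_on with
  | empty => simp
  | insert a s ha ih => rw [prod_insert ha, prod_insert ha, padicNorm.mul, ih]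

theorem rd_le_inv {p : ℕ} [hp : Fact p.Prime] {x : ℚ} (h : padicNorm p x < 1) :
    padicNorm p x ≤ (p : ℚ)⁻¹ := by
  have hp1 : (1 : ℚ) < p := by exact_mod_cast hp.out.one_lt
  by_cases hx : x = 0
  · rw [hx, padicNorm.zero]
    positivity
  · obtain ⟨z, hz⟩ := padicNorm.values_discrete (p := p) hx
    rw [hz] at h ⊢
    have h1 : -z < 0 := by
      by_contra h2
      push Not at h2
      exact absurd h (not_lt.2 (one_le_zpow₀ hp1.le h2))
    rw [← zpow_neg_one]
    exact zpow_le_zpow_right₀ hp1.le (by omega)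

theorem rd_card {ι κ : Type*} [Fintype ι] [Fintype κ] (R : Finset ι)
    (σ : Equiv.Perm (ι ⊕ κ)) :
    R.card - Fintype.card κ ≤ (R.filter fun i : ι => (σ (Sum.inl i)).isLeft = true).card := by
  classical
  have h1 := Finset.card_filter_add_card_filter_not (s := R)
    (fun i : ι => (σ (Sum.inl i)).isLeft = true)
  have h2 : (R.filter fun i : ι => ¬ (σ (Sum.inl i)).isLeft = true).card ≤ Fintype.card κ := by
    have h3 : ((R.filter fun i : ι => ¬ (σ (Sum.inl i)).isLeft = true).image
        fun i => σ (Sum.inl i)) ⊆ (univ : Finset κ).image Sum.inr := by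
      intro x hx
      rw [Finset.mem_image] at hx
      obtain ⟨i, hi, rfl⟩ := hx
      rw [Finset.mem_filter] at hi
      rcases h4 : σ (Sum.inl i) with y | y
      · rw [h4] at hi
        exact absurd rfl hi.2
      · exact Finset.mem_image_of_mem _ (Finset.mem_univ y)
    have h5 := Finset.card_le_card h3
    have h6 : Function.Injective fun i : ι => σ (Sum.inl i) :=
      σ.injective.comp Sum.inl_injective
    rw [Finset.card_image_of_injective _ h6,
      Finset.card_image_of_injective _ Sum.inr_injective] at h5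
    exact h5
  omega

theorem rd_blocks {n : ℕ} {κ : Type} [Fintype κ] [DecidableEq κ] {p : ℕ} [hp : Fact p.Prime]
    (B : Matrix (Fin n) (Fin n) ℚ) (F : Matrix (Fin n) κ ℚ) (G : Matrix κ (Fin n) ℚ)
    (R : Finset (Fin n)) (hB : ∀ i j, PInt p (B i j)) (hF : ∀ i k, PInt p (F i k))
    (hG : ∀ k j, PInt p (G k j)) (hR : ∀ i ∈ R, ∀ j, padicNorm p (B i j) ≤ (p : ℚ)⁻¹) :
    padicNorm p (Matrix.fromBlocks B F G 1).det * (p : ℚ) ^ (R.card - Fintype.card κ) ≤ 1 := by
  classical
  have hp0 : (0 : ℚ) < p := by exact_mod_cast hp.out.pos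
  have hp1 : (1 : ℚ) ≤ p := by exact_mod_cast hp.out.one_lt.le
  have hint : ∀ x y, padicNorm p (Matrix.fromBlocks B F G 1 x y) ≤ 1 := by
    intro x y
    rcases x with i | k <;> rcases y with j | l
    · rw [Matrix.fromBlocks_apply₁₁]; exact hB i j
    · rw [Matrix.fromBlocks_apply₁₂]; exact hF i l
    · rw [Matrix.fromBlocks_apply₂₁]; exact hG k j
    · rw [Matrix.fromBlocks_apply₂₂, Matrix.one_apply]
      split_ifs
      · rw [padicNorm.one]
      · rw [padicNorm.zero]; exact zero_le_one
  have hpow : (0 : ℚ) < (p : ℚ) ^ (R.card - Fintype.card κ) := by positivity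
  rw [← le_div_iff₀ hpow, ← Matrix.det_transpose, Matrix.det_apply']
  refine padicNorm.sum_le' ?_ (by positivity)
  intro σ _
  rw [padicNorm.mul, rd_norm_prod]
  have hs : padicNorm p ((Equiv.Perm.sign σ : ℤ) : ℚ) ≤ 1 := padicNorm.of_int _
  have hprod : ∏ x, padicNorm p ((Matrix.fromBlocks B F G 1).transpose (σ x) x) ≤
      1 / (p : ℚ) ^ (R.card - Fintype.card κ) := by
    rw [Fintype.prod_sum_type]
    have h2 : ∏ k : κ, padicNorm p
        ((Matrix.fromBlocks B F G 1).transpose (σ (Sum.inr k)) (Sum.inr k)) ≤ 1 :=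
      prod_le_one (fun _ _ => padicNorm.nonneg _) (fun k _ => by
        rw [Matrix.transpose_apply]; exact hint _ _)
    have h1 : ∏ i : Fin n, padicNorm p
        ((Matrix.fromBlocks B F G 1).transpose (σ (Sum.inl i)) (Sum.inl i)) ≤
        1 / (p : ℚ) ^ (R.card - Fintype.card κ) := by
      have h3 : ∀ i ∈ (univ : Finset (Fin n)), padicNorm p
          ((Matrix.fromBlocks B F G 1).transpose (σ (Sum.inl i)) (Sum.inl i)) ≤
          if i ∈ R.filter (fun i : Fin n => (σ (Sum.inl i)).isLeft = true) then (p : ℚ)⁻¹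
          else 1 := by
        intro i _
        split_ifs with hi
        · rw [mem_filter] at hi
          rcases h4 : σ (Sum.inl i) with y | y
          · rw [Matrix.transpose_apply, Matrix.fromBlocks_apply₁₁]
            exact hR i hi.1 y
          · rw [h4] at hi
            exact absurd hi.2 (by simp)
        · rw [Matrix.transpose_apply]; exact hint _ _
      refine (prod_le_prod (fun _ _ => padicNorm.nonneg _) h3).trans ?_
      rw [prod_ite, prod_const_one, mul_one, prod_const]
      have h5 : (univ.filter fun i => i ∈ R.filter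
          (fun i : Fin n => (σ (Sum.inl i)).isLeft = true)) =
          R.filter (fun i : Fin n => (σ (Sum.inl i)).isLeft = true) := by
        ext i; simp
      rw [h5, inv_pow, ← one_div]
      exact one_div_le_one_div_of_le hpow (pow_le_pow_right₀ hp1 (rd_card R σ))
    calc _ ≤ 1 / (p : ℚ) ^ (R.card - Fintype.card κ) * 1 :=
          mul_le_mul h1 h2 (prod_nonneg fun _ _ => padicNorm.nonneg _) (by positivity)
      _ = _ := mul_one _
  calc _ ≤ 1 * (1 / (p : ℚ) ^ (R.card - Fintype.card κ)) :=
        mul_le_mul hs hprod (prod_nonneg fun _ _ => padicNorm.nonneg _) zero_le_one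
    _ = _ := one_mul _

theorem det_rank {n : ℕ} {κ : Type} [Fintype κ] {p : ℕ} [Fact p.Prime]
    (A : Matrix (Fin n) (Fin n) ℚ) (hA : ∀ i j, PInt p (A i j)) (R : Finset (Fin n))
    (F : Fin n → κ → ℚ) (G : κ → Fin n → ℚ) (hF : ∀ i k, PInt p (F i k))
    (hG : ∀ k j, PInt p (G k j))
    (h : ∀ i ∈ R, ∀ j, Cg p (A i j) (∑ k, F i k * G k j)) :
    padicNorm p A.det * (p : ℚ) ^ (R.card - Fintype.card κ) ≤ 1 := by
  classical
  let F' : Matrix (Fin n) κ ℚ := Matrix.of fun i k => if i ∈ R then F i k else 0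
  let G' : Matrix κ (Fin n) ℚ := Matrix.of fun k j => -(G k j)
  let B : Matrix (Fin n) (Fin n) ℚ :=
    Matrix.of fun i j => if i ∈ R then A i j - ∑ k, F i k * G k j else A i j
  have hAB : A = B - F' * G' := by
    ext i j
    rw [Matrix.sub_apply, Matrix.mul_apply]
    simp only [F', G', B, Matrix.of_apply]
    by_cases hi : i ∈ R
    · simp only [hi, if_true, mul_neg, sum_neg_distrib, sub_neg_eq_add, sub_add_cancel]
    · simp only [hi, if_false, zero_mul, sum_const_zero, sub_zero]
  have hsum : ∀ i j, PInt p (∑ k, F i k * G k j) := fun i j =>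
    pint_sum _ _ fun k _ => (hF i k).mul (hG k j)
  have h0 : PInt p 0 := by
    have := pint_int (p := p) 0
    simpa using this
  rw [hAB, ← Matrix.det_fromBlocks_one₂₂]
  refine rd_blocks B F' G' R ?_ ?_ ?_ ?_
  · intro i j
    simp only [B, Matrix.of_apply]
    split_ifs
    · exact (hA i j).sub (hsum i j)
    · exact hA i j
  · intro i k
    simp only [F', Matrix.of_apply]
    split_ifs
    · exact hF i k
    · exact h0
  · intro k j
    exact (hG k j).neg
  · intro i hi j
    simp only [B, Matrix.of_apply, hi, if_true]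
    exact rd_le_inv (h i hi j)

theorem det_pint {n : ℕ} {p : ℕ} [Fact p.Prime] (A : Matrix (Fin n) (Fin n) ℚ)
    (hA : ∀ i j, PInt p (A i j)) : PInt p A.det := by
  rw [Matrix.det_apply']
  refine pint_sum _ _ fun σ _ => ?_
  exact (pint_int _).mul (pint_prod _ _ fun i _ => hA _ _)

theorem rd_cg_prod {p : ℕ} [Fact p.Prime] {ι : Type*} (s : Finset ι) (f g : ι → ℚ)
    (hf : ∀ i ∈ s, PInt p (f i)) (h : ∀ i ∈ s, Cg p (f i) (g i)) :
    Cg p (∏ i ∈ s, f i) (∏ i ∈ s, g i) := by
  classical
  induction s using Finset.induction_on with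
  | empty => simpa using cg_refl (p := p) (1 : ℚ)
  | insert a s ha ih =>
    rw [prod_insert ha, prod_insert ha]
    have hf' : ∀ i ∈ s, PInt p (f i) := fun i hi => hf i (mem_insert_of_mem hi)
    exact (h a (mem_insert_self a s)).mul (ih hf' fun i hi => h i (mem_insert_of_mem hi))
      (hf a (mem_insert_self a s)) (pint_prod _ _ hf')

theorem det_cg {n : ℕ} {p : ℕ} [Fact p.Prime] (A B : Matrix (Fin n) (Fin n) ℚ)
    (hA : ∀ i j, PInt p (A i j)) (h : ∀ i j, Cg p (A i j) (B i j)) : Cg p A.det B.det := by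
  rw [Matrix.det_apply', Matrix.det_apply']
  refine cg_sum _ _ _ fun σ _ => ?_
  exact (cg_refl _).mul (rd_cg_prod _ _ _ (fun i _ => hA _ _) fun i _ => h _ _) (pint_int _)
    (pint_prod _ _ fun i _ => hA _ _)

end PWief
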