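import Pool.Agent.Lib.PWief.DefsR

/-!
# NuFac: the products over all other nodes

PROOF. `nu` is injective, and `{nu i : i < n}` is the set of the `n` consecutive integers from `-(n/2)` to
`n - 1 - n/2`. (1) `abs_bb_self`: `qq k` at `nu k`: `∏_{i<k} |nu k - nu i| = k!`: `k = 2a`: the numbers
`a - j`, `-a ≤ j < a`, are `1, ..., 2a`; `k = 2a+1`: `-1-a-j`, `-a ≤ j ≤ a`, absolute values `1, ..., 2a+1`.
Induction on `a` is also possible. (2) `mm_le_dQ`: `dQ n r` is `(h+e)! (n-1-h-e)!`, `e = nu r`, `h = n/2`
(product of the distances to the other `n-1` of `n` consecutive integers), `≥ h! (n-1-h)!` type minimum at the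
centre: for `x + y = n-1`: `x! y! ≥ ⌊(n-1)/2⌋! ⌈(n-1)/2⌉! = mm (n-1)` (`Nat.choose_le_middle`), and
`mm n = mm (n-1) ((n-1)/2 + 1) ≤ n mm (n-1)`. `mm k = (k/2)! ((k+1)/2)!` by induction.
(3) `dQ_eq`: for `r = n-1`... not needed. (4) `prod_dQ`: `∏_{r<n} dQ n r = (∏_{k<n} k!)^2`: every pair `i < r`
occurs twice: `∏_r dQ n r = (∏_{r<n} ∏_{i<r} |nu r - nu i|)^2` and (1).
(5) `qk_ge`: for `k ≤ r`: `|∏_{i<k} (nu r - nu i)| ≥ k! ≥ mm k`: the product is `k!` times the integer
`C(nu r + ⌊k/2⌋, k)`, which is not zero; directly: the nodes `nu 0, ..., nu (k-1)` are `k` consecutive integers and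
`nu r` is outside, so the distances are `≥ 1, 2, ..., k`.
-/

set_option autoImplicit false

open Finset Polynomial

namespace PWief

theorem nu_inj : Function.Injective nu := by
  intro a b h
  unfold nu at h
  split_ifs at h <;> omega

private theorem NuFac_right (k : ℕ) (x : ℤ) (hx : ∀ i, i < k → nu i ≤ x) :
    ∏ i ∈ range k, |(x : ℚ) - (nu i : ℚ)| =
      ∏ j ∈ range k, ((((x - ((k : ℤ) - 1 - ((k / 2 : ℕ) : ℤ)) : ℤ)) : ℚ) + (j : ℚ)) := by
  induction k with
  | zero => simp
  | succ k ih =>
    have ih' := ih (fun i hi => hx i (by omega))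
    have hk := hx k (by omega)
    have habs : |(x : ℚ) - (nu k : ℚ)| = (x : ℚ) - (nu k : ℚ) := by
      apply abs_of_nonneg
      have : (nu k : ℚ) ≤ (x : ℚ) := by exact_mod_cast hk
      linarith
    rw [prod_range_succ, ih', habs]
    rcases Nat.even_or_odd' k with ⟨b, hb | hb⟩
    · rw [prod_range_succ']
      have h1 : nu k = (b : ℤ) := by
        unfold nu
        rw [if_pos (by omega)]
        omega
      have h2 : (k + 1) / 2 = b := by omega
      have h3 : k / 2 = b := by omega
      rw [h1, h2, h3]
      congr 1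
      · apply prod_congr rfl
        intro j _
        push_cast
        ring
      · subst hb
        push_cast
        ring
    · rw [prod_range_succ]
      have h1 : nu k = -1 - (b : ℤ) := by
        unfold nu
        rw [if_neg (by omega)]
        omega
      have h2 : (k + 1) / 2 = b + 1 := by omega
      have h3 : k / 2 = b := by omega
      rw [h1, h2, h3]
      congr 1
      · apply prod_congr rfl
        intro j _
        push_cast
        ring
      · subst hb
        push_cast
        ring

private theorem NuFac_left (k : ℕ) (x : ℤ) (hx : ∀ i, i < k → x ≤ nu i) :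
    ∏ i ∈ range k, |(x : ℚ) - (nu i : ℚ)| =
      ∏ j ∈ range k, ((((- ((k / 2 : ℕ) : ℤ) - x : ℤ)) : ℚ) + (j : ℚ)) := by
  induction k with
  | zero => simp
  | succ k ih =>
    have ih' := ih (fun i hi => hx i (by omega))
    have hk := hx k (by omega)
    have habs : |(x : ℚ) - (nu k : ℚ)| = (nu k : ℚ) - (x : ℚ) := by
      rw [abs_sub_comm]
      apply abs_of_nonneg
      have : (x : ℚ) ≤ (nu k : ℚ) := by exact_mod_cast hk
      linarith
    rw [prod_range_succ, ih', habs]
    rcases Nat.even_or_odd' k with ⟨b, hb | hb⟩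
    · rw [prod_range_succ]
      have h1 : nu k = (b : ℤ) := by
        unfold nu
        rw [if_pos (by omega)]
        omega
      have h2 : (k + 1) / 2 = b := by omega
      have h3 : k / 2 = b := by omega
      rw [h1, h2, h3]
      congr 1
      subst hb
      push_cast
      ring
    · rw [prod_range_succ']
      have h1 : nu k = -1 - (b : ℤ) := by
        unfold nu
        rw [if_neg (by omega)]
        omega
      have h2 : (k + 1) / 2 = b + 1 := by omega
      have h3 : k / 2 = b := by omega
      rw [h1, h2, h3]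
      congr 1
      · apply prod_congr rfl
        intro j _
        push_cast
        ring
      · push_cast
        ring

private theorem NuFac_eq {k r : ℕ} (h : k ≤ r) : ∃ d : ℕ, 1 ≤ d ∧ (k = r → d = 1) ∧
    ∏ i ∈ range k, |(nu r : ℚ) - (nu i : ℚ)| = ∏ j ∈ range k, ((d : ℚ) + (j : ℚ)) := by
  rcases Nat.even_or_odd' r with ⟨b, hb | hb⟩
  · have h1 : nu r = (b : ℤ) := by
      unfold nu
      rw [if_pos (by omega)]
      omega
    have h2 : ∀ i, i < k → nu i ≤ nu r := by
      intro i hi
      rw [h1]
      unfold nu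
      split_ifs <;> omega
    refine ⟨b + 1 + k / 2 - k, by omega, fun hkr => by omega, ?_⟩
    rw [NuFac_right k (nu r) (fun i hi => h2 i hi)]
    apply prod_congr rfl
    intro j _
    have h3 : nu r - ((k : ℤ) - 1 - ((k / 2 : ℕ) : ℤ)) = ((b + 1 + k / 2 - k : ℕ) : ℤ) := by
      omega
    rw [h3]
    push_cast
    rfl
  · have h1 : nu r = -1 - (b : ℤ) := by
      unfold nu
      rw [if_neg (by omega)]
      omega
    have h2 : ∀ i, i < k → nu r ≤ nu i := by
      intro i hi
      rw [h1]
      unfold nu
      split_ifs <;> omega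
    refine ⟨b + 1 - k / 2, by omega, fun hkr => by omega, ?_⟩
    rw [NuFac_left k (nu r) (fun i hi => h2 i hi)]
    apply prod_congr rfl
    intro j _
    have h3 : -((k / 2 : ℕ) : ℤ) - nu r = ((b + 1 - k / 2 : ℕ) : ℤ) := by
      omega
    rw [h3]
    push_cast
    rfl

theorem prod_nu_self (k : ℕ) : ∏ i ∈ range k, |(nu k : ℚ) - (nu i : ℚ)| = (k.factorial : ℚ) := by
  obtain ⟨d, _, hd, h⟩ := NuFac_eq (le_refl k)
  rw [h, hd rfl]
  have := Finset.prod_range_add_one_eq_factorial k
  rw [← this]
  push_cast
  apply prod_congr rfl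
  intro j _
  ring

theorem mm_le_factorial (k : ℕ) : mm k ≤ k.factorial := by
  rw [← Finset.prod_range_add_one_eq_factorial]
  unfold mm
  apply prod_le_prod'
  intro i _
  omega

theorem factorial_le_prod {k r : ℕ} (h : k ≤ r) :
    (k.factorial : ℚ) ≤ ∏ i ∈ range k, |(nu r : ℚ) - (nu i : ℚ)| := by
  obtain ⟨d, hd, _, h⟩ := NuFac_eq h
  rw [h]
  have := Finset.prod_range_add_one_eq_factorial k
  rw [← this]
  push_cast
  apply prod_le_prod
  · intro i _
    positivity
  · intro j _
    have : (1 : ℚ) ≤ d := by exact_mod_cast hd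
    linarith

private theorem NuFac_mm (m : ℕ) : ∀ x y : ℕ, x + y = m → mm m ≤ x.factorial * y.factorial := by
  induction m with
  | zero =>
    intro x y h
    have hx : x = 0 := by omega
    have hy : y = 0 := by omega
    subst hx hy
    simp [mm]
  | succ m ih =>
    have key : ∀ x y : ℕ, x + y = m + 1 → y ≤ x → mm (m + 1) ≤ x.factorial * y.factorial := by
      intro x y h hyx
      obtain ⟨x', rfl⟩ : ∃ x', x = x' + 1 := ⟨x - 1, by omega⟩
      have h1 := ih x' y (by omega)
      have h2 : mm (m + 1) = mm m * (m / 2 + 1) := by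
        unfold mm
        rw [prod_range_succ]
      rw [h2, Nat.factorial_succ]
      have h3 : m / 2 + 1 ≤ x' + 1 := by omega
      calc mm m * (m / 2 + 1) ≤ (x'.factorial * y.factorial) * (x' + 1) := Nat.mul_le_mul h1 h3
        _ = (x' + 1) * x'.factorial * y.factorial := by ring
    intro x y h
    rcases le_total y x with h1 | h1
    · exact key x y h h1
    · rw [mul_comm]
      exact key y x (by omega) h1

private theorem NuFac_dQ_self (n : ℕ) : dQ (n + 1) n = (n.factorial : ℚ) := by
  unfold dQ
  have : (range (n + 1)).erase n = range n := by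
    rw [range_add_one, erase_insert notMem_range_self]
  rw [this]
  exact prod_nu_self n

private theorem NuFac_dQ_succ {n r : ℕ} (hr : r < n) :
    dQ (n + 1) r = dQ n r * |(nu r : ℚ) - (nu n : ℚ)| := by
  unfold dQ
  have : (range (n + 1)).erase r = insert n ((range n).erase r) := by
    rw [range_add_one, erase_insert_of_ne (by omega)]
  rw [this, prod_insert]
  · ring
  · simp

private theorem NuFac_dQ {n r : ℕ} (hr : r < n) : ∃ x y : ℕ, x + y + 1 = n ∧
    nu r = (x : ℤ) - ((n / 2 : ℕ) : ℤ) ∧ dQ n r = (x.factorial : ℚ) * (y.factorial : ℚ) := by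
  induction n with
  | zero => omega
  | succ n ih =>
    rcases Nat.lt_succ_iff_lt_or_eq.1 hr with h | h
    · obtain ⟨x, y, h1, h2, h3⟩ := ih h
      rw [NuFac_dQ_succ h, h3]
      rcases Nat.even_or_odd' n with ⟨b, hb | hb⟩
      · have h4 : nu n = (b : ℤ) := by
          unfold nu
          rw [if_pos (by omega)]
          omega
        refine ⟨x, y + 1, by omega, by omega, ?_⟩
        have h5 : nu r - nu n = -((y : ℤ) + 1) := by omega
        have h6 : (nu r : ℚ) - (nu n : ℚ) = -((y : ℚ) + 1) := by exact_mod_cast h5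
        rw [h6, abs_neg, abs_of_pos (by positivity), Nat.factorial_succ]
        push_cast
        ring
      · have h4 : nu n = -1 - (b : ℤ) := by
          unfold nu
          rw [if_neg (by omega)]
          omega
        refine ⟨x + 1, y, by omega, by omega, ?_⟩
        have h5 : nu r - nu n = ((x : ℤ) + 1) := by omega
        have h6 : (nu r : ℚ) - (nu n : ℚ) = ((x : ℚ) + 1) := by exact_mod_cast h5
        rw [h6, abs_of_pos (by positivity), Nat.factorial_succ]
        push_cast
        ring
    · subst h
      rw [NuFac_dQ_self]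
      rcases Nat.even_or_odd' r with ⟨b, hb | hb⟩
      · have h4 : nu r = (b : ℤ) := by
          unfold nu
          rw [if_pos (by omega)]
          omega
        refine ⟨r, 0, by omega, by omega, by simp⟩
      · have h4 : nu r = -1 - (b : ℤ) := by
          unfold nu
          rw [if_neg (by omega)]
          omega
        refine ⟨0, r, by omega, by omega, by simp⟩

theorem mm_le_dQ {n r : ℕ} (hr : r < n) : (mm n : ℚ) ≤ n * dQ n r := by
  obtain ⟨x, y, h1, _, h3⟩ := NuFac_dQ hr
  rw [h3]
  have h4 := NuFac_mm (x + y) x y rfl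
  have h5 : mm n = mm (x + y) * ((x + y) / 2 + 1) := by
    rw [← h1]
    unfold mm
    rw [prod_range_succ]
  have h6 : mm n ≤ n * (x.factorial * y.factorial) := by
    rw [h5, mul_comm]
    exact Nat.mul_le_mul (by omega) h4
  exact_mod_cast h6

theorem prod_dQ (n : ℕ) : ∏ r ∈ range n, dQ n r = (∏ k ∈ range n, (k.factorial : ℚ)) ^ 2 := by
  induction n with
  | zero => simp
  | succ n ih =>
    rw [prod_range_succ, prod_range_succ, NuFac_dQ_self]
    have h1 : ∏ r ∈ range n, dQ (n + 1) r =
        (∏ r ∈ range n, dQ n r) * ∏ r ∈ range n, |(nu n : ℚ) - (nu r : ℚ)| := by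
      rw [← prod_mul_distrib]
      apply prod_congr rfl
      intro r hr
      rw [NuFac_dQ_succ (mem_range.1 hr), abs_sub_comm]
    rw [h1, ih, prod_nu_self]
    ring

end PWief
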