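import Pool.Agent.Lib.PWief.Newton
import Pool.Agent.Lib.PWief.NuFac

/-!
# SDiag: the entries on the diagonal

PROOF. `e = nu r`, `P = qd n r = qq r * R`, `R = ∏_{r<i<n} (X - nu i)`. `|P.eval e| = dQ n r`. `|kap e| ≤ 4`:
`kapN` is `4 ∑ (1/(4j-1) - 1/(4j-3))`, absolute value `≤ 4 ∑_{j≥1} (1/(4j-3) - 1/(4j-1)) ≤ 4 · 1`
(`∑_{j ≤ E} (1/(4j-3) - 1/(4j-1)) ≤ 1 - 1/(4E+1)` by induction: `1/(4j-1) ≥ 1/(4j+1)`).
`(P - P(e))/(X-e) = qq r (R - R(e))/(X-e) + R(e) (qq r - qq r (e))/(X-e)`.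
(A) `(R - R(e))/(X - e) = ∑_{j=r+1}^{n-1} [∏_{r<i<j} (X - nu i)] ∏_{j<i<n} (e - nu i)` (Newton, induction on `n`:
`R_(n+1) - R_(n+1)(e) = (X-nu n)(R_n - R_n(e)) + (X - e) R_n(e)`, so
`D_(n+1) = (X - nu n) D_n + R_n(e)`; or symmetric `D_(n+1) = (e - nu n) D_n + R_n`, which gives this formula), and
`qq r ∏_{r<i<j} (X - nu i) = qd j r`: contribution `∑_{j=r+1}^{n-1} ∏_{j<i<n} (e - nu i) S (qd j r)`,
absolute value `≤ ∑ 4 · 4 (j+1)^2 mm n ≤ 16 (n+1)^3 mm n` (`S_qd_le`, `nu_prod_mm` with `a = j+1`).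
(B) `(qq r - qq r (e))/(X-e) = ∑_{k<r} qq k ∏_{k<i<r} (e - nu i)` (the same formula), and
`R(e) ∏_{k<i<r} (e - nu i) = P(e) / ∏_{i ≤ k} (e - nu i)`, `|∏_{i≤k} (e - nu i)| ≥ (k+1)! ≥ mm (k+1) ≥ mm k`
(`factorial_le_prod`, `mm_le_factorial`): contribution `≤ dQ n r ∑_{k<r} (k+2)`.
Sum: `4 dQ + dQ ∑_{k<r} (k+2) ≤ 4 (n+1)^2 dQ`. `P /ₘ (X - C e) = (P - C (P.eval e)) / (X - e)`: with
`P = (X - C e) * D + C (P.eval e)` use `Polynomial.div_modByMonic_unique` or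
`Polynomial.mul_divByMonic_cancel_left` and `Polynomial.add_divByMonic`.
-/

set_option autoImplicit false

open Finset Polynomial

namespace PWief

private theorem SDiag_tel (E : ℕ) :
    ∑ j ∈ Icc 1 E, (1 / (4 * (j : ℚ) - 3) - 1 / (4 * (j : ℚ) - 1)) ≤ 1 - 1 / (4 * (E : ℚ) + 1) := by
  induction E with
  | zero => simp
  | succ E ih =>
    rw [Finset.sum_Icc_succ_top (by omega)]
    have h1 : (4 * ((E + 1 : ℕ) : ℚ) - 3) = 4 * (E : ℚ) + 1 := by push_cast; ring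
    have h2 : (4 * ((E + 1 : ℕ) : ℚ) - 1) = 4 * (E : ℚ) + 3 := by push_cast; ring
    have h3 : (4 * ((E + 1 : ℕ) : ℚ) + 1) = 4 * (E : ℚ) + 5 := by push_cast; ring
    rw [h1, h2, h3]
    have hE : (0 : ℚ) ≤ E := by positivity
    have h4 : 1 / (4 * (E : ℚ) + 5) ≤ 1 / (4 * (E : ℚ) + 3) :=
      one_div_le_one_div_of_le (by positivity) (by linarith)
    linarith

private theorem SDiag_kapN (e : ℕ) : |kapN e| ≤ 4 := by
  unfold kapN
  have hterm : ∀ j ∈ (Icc 1 e).filter (fun j => j % 2 = e % 2),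
      |4 / (4 * (j : ℚ) - 1) - 4 / (4 * (j : ℚ) - 3)| =
        4 * (1 / (4 * (j : ℚ) - 3) - 1 / (4 * (j : ℚ) - 1)) := by
    intro j hj
    rw [mem_filter, mem_Icc] at hj
    have hj1 : (1 : ℚ) ≤ j := by exact_mod_cast hj.1.1
    have h1 : 1 / (4 * (j : ℚ) - 1) ≤ 1 / (4 * (j : ℚ) - 3) :=
      one_div_le_one_div_of_le (by linarith) (by linarith)
    have e1 : 4 / (4 * (j : ℚ) - 1) = 4 * (1 / (4 * (j : ℚ) - 1)) := by ring
    have e2 : 4 / (4 * (j : ℚ) - 3) = 4 * (1 / (4 * (j : ℚ) - 3)) := by ring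
    rw [e1, e2, abs_of_nonpos (by linarith)]
    ring
  calc |∑ j ∈ (Icc 1 e).filter (fun j => j % 2 = e % 2),
        (4 / (4 * (j : ℚ) - 1) - 4 / (4 * (j : ℚ) - 3))|
      ≤ ∑ j ∈ (Icc 1 e).filter (fun j => j % 2 = e % 2),
        |4 / (4 * (j : ℚ) - 1) - 4 / (4 * (j : ℚ) - 3)| := Finset.abs_sum_le_sum_abs _ _
    _ = ∑ j ∈ (Icc 1 e).filter (fun j => j % 2 = e % 2),
        4 * (1 / (4 * (j : ℚ) - 3) - 1 / (4 * (j : ℚ) - 1)) := Finset.sum_congr rfl hterm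
    _ ≤ ∑ j ∈ Icc 1 e, 4 * (1 / (4 * (j : ℚ) - 3) - 1 / (4 * (j : ℚ) - 1)) := by
        apply Finset.sum_le_sum_of_subset_of_nonneg (Finset.filter_subset _ _)
        intro j hj _
        rw [mem_Icc] at hj
        have hj1 : (1 : ℚ) ≤ j := by exact_mod_cast hj.1
        have h1 : 1 / (4 * (j : ℚ) - 1) ≤ 1 / (4 * (j : ℚ) - 3) :=
          one_div_le_one_div_of_le (by linarith) (by linarith)
        linarith
    _ = 4 * ∑ j ∈ Icc 1 e, (1 / (4 * (j : ℚ) - 3) - 1 / (4 * (j : ℚ) - 1)) := by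
        rw [Finset.mul_sum]
    _ ≤ 4 := by
        have h1 := SDiag_tel e
        have h2 : (0 : ℚ) ≤ 1 / (4 * (e : ℚ) + 1) := by positivity
        linarith

theorem kap_le (e : ℤ) : |kap e| ≤ 4 := by
  cases e with
  | ofNat e => exact SDiag_kapN e
  | negSucc e =>
    show |-kapN e| ≤ 4
    rw [abs_neg]
    exact SDiag_kapN e

private theorem SDiag_div_step (P : ℚ[X]) (e v : ℚ) :
    ((X - C v) * P) /ₘ (X - C e) = P + C (e - v) * (P /ₘ (X - C e)) := by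
  have h1 : P %ₘ (X - C e) + (X - C e) * (P /ₘ (X - C e)) = P :=
    modByMonic_add_div P (X - C e)
  rw [modByMonic_X_sub_C_eq_C_eval] at h1
  refine (div_modByMonic_unique (f := (X - C v) * P) (P + C (e - v) * (P /ₘ (X - C e)))
    (C ((e - v) * P.eval e)) (monic_X_sub_C e) ⟨?_, ?_⟩).1
  · have h2 : C (e - v) * C (P.eval e) + (X - C e) * (C (e - v) * (P /ₘ (X - C e))) =
        C (e - v) * P := by
      conv_rhs => rw [← h1]
      ring
    rw [mul_add, C_mul]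
    have h3 : C (e - v) = (C e - C v : ℚ[X]) := C_sub
    have h4 : (X - C v) * P = (X - C e) * P + C (e - v) * P := by
      rw [h3]; ring
    rw [h4, ← h2]
    ring
  · rw [degree_X_sub_C]
    exact lt_of_le_of_lt degree_C_le (by norm_num)

private theorem SDiag_S_C_mul (a : ℚ) (q : ℚ[X]) : S (C a * q) = a * S q := by
  rw [← smul_eq_C_mul, map_smul, smul_eq_mul]

private theorem SDiag_abs_step (P : ℚ[X]) (e v : ℚ) :
    |S (((X - C v) * P) /ₘ (X - C e))| ≤ |S P| + |e - v| * |S (P /ₘ (X - C e))| := by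
  rw [SDiag_div_step, map_add, SDiag_S_C_mul]
  refine (abs_add_le _ _).trans ?_
  rw [abs_mul]

private theorem SDiag_qq_succ (k : ℕ) : qq (k + 1) = (X - C (nu k : ℚ)) * qq k := by
  unfold qq
  rw [prod_range_succ, mul_comm]

private theorem SDiag_qd_succ {n r : ℕ} (h : r < n) :
    qd (n + 1) r = (X - C (nu n : ℚ)) * qd n r := by
  unfold qd
  have : (range (n + 1)).erase r = insert n ((range n).erase r) := by
    ext i
    simp only [mem_erase, mem_range, mem_insert]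
    omega
  rw [this, prod_insert]
  simp

private theorem SDiag_dQ_succ {n r : ℕ} (h : r < n) :
    dQ (n + 1) r = |(nu r : ℚ) - (nu n : ℚ)| * dQ n r := by
  unfold dQ
  have : (range (n + 1)).erase r = insert n ((range n).erase r) := by
    ext i
    simp only [mem_erase, mem_range, mem_insert]
    omega
  rw [this, prod_insert]
  simp

private theorem SDiag_mm_le (k : ℕ) : mm k ≤ mm (k + 1) := by
  unfold mm
  rw [prod_range_succ]
  exact Nat.le_mul_of_pos_right _ (by omega)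

/-- part (B) -/
private theorem SDiag_B {r : ℕ} : ∀ m : ℕ, m ≤ r →
    |S (qq m /ₘ (X - C (nu r : ℚ)))| ≤
      (∑ k ∈ range m, ((k : ℚ) + 2)) * ∏ i ∈ range m, |(nu r : ℚ) - (nu i : ℚ)| := by
  intro m
  induction m with
  | zero =>
    intro _
    have h : qq 0 /ₘ (X - C (nu r : ℚ)) = 0 := by
      unfold qq
      rw [range_zero, prod_empty]
      rw [divByMonic_eq_zero_iff (monic_X_sub_C _), degree_X_sub_C]
      exact lt_of_le_of_lt degree_one_le (by norm_num)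
    rw [h]
    simp
  | succ m ih =>
    intro hm
    have ih' := ih (by omega)
    rw [SDiag_qq_succ]
    refine (SDiag_abs_step _ _ _).trans ?_
    rw [sum_range_succ, prod_range_succ]
    have h1 := S_qq_le m
    have h2 := factorial_le_prod hm
    rw [prod_range_succ] at h2
    have h3 : (mm m : ℚ) ≤ ((m + 1).factorial : ℚ) := by
      have h4 : mm m ≤ m.factorial := mm_le_factorial m
      have h5 : m.factorial ≤ (m + 1).factorial := Nat.factorial_le (by omega)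
      exact_mod_cast h4.trans h5
    have h6 : ((m : ℚ) + 2) * (mm m : ℚ) ≤ ((m : ℚ) + 2) *
        ((∏ i ∈ range m, |(nu r : ℚ) - (nu i : ℚ)|) * |(nu r : ℚ) - (nu m : ℚ)|) :=
      mul_le_mul_of_nonneg_left (h3.trans h2) (by positivity)
    have h7 := mul_le_mul_of_nonneg_left ih' (abs_nonneg ((nu r : ℚ) - (nu m : ℚ)))
    calc |S (qq m)| + |(nu r : ℚ) - (nu m : ℚ)| * |S (qq m /ₘ (X - C (nu r : ℚ)))|
        ≤ ((m : ℚ) + 2) *
          ((∏ i ∈ range m, |(nu r : ℚ) - (nu i : ℚ)|) * |(nu r : ℚ) - (nu m : ℚ)|) +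
          |(nu r : ℚ) - (nu m : ℚ)| * ((∑ k ∈ range m, ((k : ℚ) + 2)) *
            ∏ i ∈ range m, |(nu r : ℚ) - (nu i : ℚ)|) :=
          add_le_add (h1.trans h6) h7
      _ = _ := by ring

private theorem SDiag_qd_base (r : ℕ) : qd (r + 1) r = qq r := by
  unfold qd qq
  congr 1
  ext i
  simp only [mem_erase, mem_range]
  omega

private theorem SDiag_dQ_base (r : ℕ) :
    dQ (r + 1) r = ∏ i ∈ range r, |(nu r : ℚ) - (nu i : ℚ)| := by
  unfold dQ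
  congr 1
  ext i
  simp only [mem_erase, mem_range]
  omega

/-- parts (A) and (B) -/
private theorem SDiag_AB {r n : ℕ} (h : r < n) :
    |S (qd n r /ₘ (X - C (nu r : ℚ)))| ≤ (∑ k ∈ range r, ((k : ℚ) + 2)) * dQ n r +
      ∑ j ∈ Ico (r + 1) n, (∏ i ∈ Ico (j + 1) n, |(nu r : ℚ) - (nu i : ℚ)|) *
        (4 * ((j : ℚ) + 1) ^ 2 * (mm j : ℚ)) := by
  induction n, h using Nat.le_induction with
  | base =>
    rw [SDiag_qd_base, SDiag_dQ_base, Finset.Ico_self, sum_empty, add_zero]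
    exact SDiag_B r le_rfl
  | succ n hn ih =>
    have hrn : r < n := hn
    rw [SDiag_qd_succ hrn, SDiag_dQ_succ hrn]
    refine (SDiag_abs_step _ _ _).trans ?_
    rw [Finset.sum_Ico_succ_top (by omega : r + 1 ≤ n), Finset.Ico_self, prod_empty, one_mul]
    have h1 := S_qd_le hrn
    have h2 := mul_le_mul_of_nonneg_left ih (abs_nonneg ((nu r : ℚ) - (nu n : ℚ)))
    have h3 : ∑ j ∈ Ico (r + 1) n, (∏ i ∈ Ico (j + 1) (n + 1), |(nu r : ℚ) - (nu i : ℚ)|) *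
        (4 * ((j : ℚ) + 1) ^ 2 * (mm j : ℚ)) = |(nu r : ℚ) - (nu n : ℚ)| *
        ∑ j ∈ Ico (r + 1) n, (∏ i ∈ Ico (j + 1) n, |(nu r : ℚ) - (nu i : ℚ)|) *
        (4 * ((j : ℚ) + 1) ^ 2 * (mm j : ℚ)) := by
      rw [Finset.mul_sum]
      refine Finset.sum_congr rfl fun j hj => ?_
      rw [mem_Ico] at hj
      rw [Finset.prod_Ico_succ_top (by omega)]
      ring
    rw [h3]
    calc _ ≤ 4 * ((n : ℚ) + 1) ^ 2 * (mm n : ℚ) + |(nu r : ℚ) - (nu n : ℚ)| *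
          ((∑ k ∈ range r, ((k : ℚ) + 2)) * dQ n r +
          ∑ j ∈ Ico (r + 1) n, (∏ i ∈ Ico (j + 1) n, |(nu r : ℚ) - (nu i : ℚ)|) *
          (4 * ((j : ℚ) + 1) ^ 2 * (mm j : ℚ))) := add_le_add h1 h2
      _ = _ := by ring

private theorem SDiag_sum_le (r : ℕ) : ∑ k ∈ range r, ((k : ℚ) + 2) ≤ ((r : ℚ) + 1) ^ 2 := by
  induction r with
  | zero => simp
  | succ r ih =>
    rw [sum_range_succ]
    push_cast
    have : (0 : ℚ) ≤ r := by positivity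
    nlinarith

theorem SS_diag {n r : ℕ} (hr : r < n) :
    |SS (nu r) (qd n r)| ≤ 4 * ((n : ℚ) + 1) ^ 2 * dQ n r + 16 * ((n : ℚ) + 1) ^ 3 * (mm n : ℚ) := by
  have hev : |(qd n r).eval ((nu r : ℤ) : ℚ)| = dQ n r := by
    unfold qd dQ
    rw [eval_prod, Finset.abs_prod]
    refine Finset.prod_congr rfl fun i _ => ?_
    simp
  have hd0 : 0 ≤ dQ n r := by
    rw [← hev]
    exact abs_nonneg _
  have hnr : (r : ℚ) + 1 ≤ n := by exact_mod_cast hr
  have hr0 : (0 : ℚ) ≤ r := by positivity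
  have h1 : |(qd n r).eval ((nu r : ℤ) : ℚ) * kap (nu r)| ≤ 4 * dQ n r := by
    rw [abs_mul, hev, mul_comm]
    exact mul_le_mul_of_nonneg_right (kap_le _) hd0
  have h2 := SDiag_AB hr
  have h3 : ∑ j ∈ Ico (r + 1) n, (∏ i ∈ Ico (j + 1) n, |(nu r : ℚ) - (nu i : ℚ)|) *
      (4 * ((j : ℚ) + 1) ^ 2 * (mm j : ℚ)) ≤ 16 * ((n : ℚ) + 1) ^ 3 * (mm n : ℚ) := by
    have hterm : ∀ j ∈ Ico (r + 1) n, (∏ i ∈ Ico (j + 1) n, |(nu r : ℚ) - (nu i : ℚ)|) *
        (4 * ((j : ℚ) + 1) ^ 2 * (mm j : ℚ)) ≤ 16 * ((n : ℚ) + 1) ^ 2 * (mm n : ℚ) := by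
      intro j hj
      rw [mem_Ico] at hj
      have g1 := nu_prod_mm (r := r) (a := j + 1) (b := n) (by omega) (by omega)
      have g2 : ((mm (j + 1) : ℕ) : ℚ) * ∏ i ∈ Ico (j + 1) n, |(nu r : ℚ) - (nu i : ℚ)| ≤
          4 * (mm n : ℚ) := by
        exact_mod_cast g1
      have g3 : (mm j : ℚ) ≤ (mm (j + 1) : ℕ) := by exact_mod_cast SDiag_mm_le j
      have hP0 : 0 ≤ ∏ i ∈ Ico (j + 1) n, |(nu r : ℚ) - (nu i : ℚ)| :=
        prod_nonneg fun _ _ => abs_nonneg _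
      set P := ∏ i ∈ Ico (j + 1) n, |(nu r : ℚ) - (nu i : ℚ)|
      have g4 : P * (mm j : ℚ) ≤ 4 * (mm n : ℚ) :=
        (mul_le_mul_of_nonneg_left g3 hP0).trans ((mul_comm _ _).trans_le g2)
      have g5 : ((j : ℚ) + 1) ^ 2 ≤ ((n : ℚ) + 1) ^ 2 := by
        have : (j : ℚ) ≤ n := by exact_mod_cast hj.2.le
        have hj0 : (0 : ℚ) ≤ j := by positivity
        nlinarith
      have hm0 : (0 : ℚ) ≤ 4 * (mm n : ℚ) := by positivity
      calc P * (4 * ((j : ℚ) + 1) ^ 2 * (mm j : ℚ)) =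
            4 * (((j : ℚ) + 1) ^ 2 * (P * (mm j : ℚ))) := by ring
        _ ≤ 4 * (((j : ℚ) + 1) ^ 2 * (4 * (mm n : ℚ))) :=
            mul_le_mul_of_nonneg_left (mul_le_mul_of_nonneg_left g4 (by positivity)) (by norm_num)
        _ ≤ 4 * (((n : ℚ) + 1) ^ 2 * (4 * (mm n : ℚ))) :=
            mul_le_mul_of_nonneg_left (mul_le_mul_of_nonneg_right g5 hm0) (by norm_num)
        _ = _ := by ring
    calc _ ≤ ∑ _j ∈ Ico (r + 1) n, 16 * ((n : ℚ) + 1) ^ 2 * (mm n : ℚ) := Finset.sum_le_sum hterm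
      _ = ((n - (r + 1) : ℕ) : ℚ) * (16 * ((n : ℚ) + 1) ^ 2 * (mm n : ℚ)) := by
          rw [sum_const, Nat.card_Ico, nsmul_eq_mul]
      _ ≤ ((n : ℚ) + 1) * (16 * ((n : ℚ) + 1) ^ 2 * (mm n : ℚ)) := by
          apply mul_le_mul_of_nonneg_right _ (by positivity)
          have : n - (r + 1) ≤ n := Nat.sub_le _ _
          have : ((n - (r + 1) : ℕ) : ℚ) ≤ n := by exact_mod_cast this
          linarith
      _ = _ := by ring
  have h4 := SDiag_sum_le r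
  have h5 : (∑ k ∈ range r, ((k : ℚ) + 2)) * dQ n r + 4 * dQ n r ≤
      4 * ((n : ℚ) + 1) ^ 2 * dQ n r := by
    rw [← add_mul]
    apply mul_le_mul_of_nonneg_right _ hd0
    nlinarith
  unfold SS
  have h6 := abs_add_le ((qd n r).eval ((nu r : ℤ) : ℚ) * kap (nu r))
    (S (qd n r /ₘ (X - C ((nu r : ℤ) : ℚ))))
  linarith

end PWief
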