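import Pool.Agent.Lib.PWief.Newton

/-!
# SOff: the entries off the diagonal

PROOF. `S_two`: let `s < r < n`. `qd n r = ∑_{j ∈ Ico r n} C (∏_{j<i<n} (nu r - nu i)) * qq j` (`qd_eq`), and
`qq j = (X - nu s) qd j s` (`mul_qd`, `s < r ≤ j`); so the product over `range n` without `r, s` (call it `R`;
`(X - nu s) R = qd n r`, cancel) equals `∑_{j ∈ Ico r n} C(...) * qd j s`. By `S_qd_le` and `nu_prod_mm`
(`mm j ≤ mm (j+1)`): `|S R| ≤ ∑_j 4 · 4 (j+1)^2 mm n ≤ 16 (n+1)^3 mm n`.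
`SS_off`: `(qd n s).eval (nu r) = 0` (factor `i = r`) and `qd n s = (X - C (nu r)) * R` gives
`qd n s /ₘ (X - C (nu r)) = R` (`Polynomial.mul_divByMonic_cancel_left`, `monic_X_sub_C`); for `r < s` exchange
the names (`R` is symmetric).
-/

set_option autoImplicit false

open Finset Polynomial

namespace PWief

private theorem SOff_S_C_mul (a : ℚ) (q : ℚ[X]) : S (C a * q) = a * S q := by
  rw [← smul_eq_C_mul, map_smul, smul_eq_mul]

private theorem SOff_mm_le (k : ℕ) : mm k ≤ mm (k + 1) := by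
  unfold mm
  rw [prod_range_succ]
  exact Nat.le_mul_of_pos_right _ (by omega)

private theorem SOff_R {n r s : ℕ} (hs : s < r) (hr : r < n) :
    (∏ i ∈ ((range n).erase r).erase s, (X - C (nu i : ℚ))) =
      ∑ j ∈ Ico r n, C (∏ i ∈ Ico (j + 1) n, ((nu r : ℚ) - (nu i : ℚ))) * qd j s := by
  have h0 : (X - C (nu s : ℚ)) ≠ 0 := X_sub_C_ne_zero _
  refine mul_left_cancel₀ h0 ?_
  have hmem : s ∈ (range n).erase r := by
    rw [mem_erase, mem_range]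
    omega
  rw [Finset.mul_prod_erase ((range n).erase r) (fun i => (X - C (nu i : ℚ))) hmem]
  have h1 : ∏ i ∈ (range n).erase r, (X - C (nu i : ℚ)) = qd n r := rfl
  rw [h1, qd_eq hr, Finset.mul_sum]
  refine Finset.sum_congr rfl fun j hj => ?_
  rw [mem_Ico] at hj
  rw [← mul_qd (show s < j by omega)]
  ring

theorem S_two {n r s : ℕ} (hs : s < r) (hr : r < n) :
    |S (∏ i ∈ ((range n).erase r).erase s, (X - C (nu i : ℚ)))| ≤
      16 * ((n : ℚ) + 1) ^ 3 * (mm n : ℚ) := by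
  rw [SOff_R hs hr, map_sum]
  have hterm : ∀ j ∈ Ico r n,
      |S (C (∏ i ∈ Ico (j + 1) n, ((nu r : ℚ) - (nu i : ℚ))) * qd j s)| ≤
        16 * ((n : ℚ) + 1) ^ 2 * (mm n : ℚ) := by
    intro j hj
    rw [mem_Ico] at hj
    rw [SOff_S_C_mul, abs_mul, Finset.abs_prod]
    have h1 := S_qd_le (j := j) (r := s) (by omega)
    have h2 := nu_prod_mm (r := r) (a := j + 1) (b := n) (by omega) (by omega)
    have h3 : ((mm (j + 1) : ℕ) : ℚ) * ∏ i ∈ Ico (j + 1) n, |(nu r : ℚ) - (nu i : ℚ)| ≤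
        4 * (mm n : ℚ) := by
      exact_mod_cast h2
    have hP0 : 0 ≤ ∏ i ∈ Ico (j + 1) n, |(nu r : ℚ) - (nu i : ℚ)| :=
      prod_nonneg fun _ _ => abs_nonneg _
    set P := ∏ i ∈ Ico (j + 1) n, |(nu r : ℚ) - (nu i : ℚ)|
    have h4 : (mm j : ℚ) ≤ (mm (j + 1) : ℕ) := by exact_mod_cast SOff_mm_le j
    have h5 : P * (mm j : ℚ) ≤ 4 * (mm n : ℚ) := by
      calc P * (mm j : ℚ) ≤ P * (mm (j + 1) : ℕ) := mul_le_mul_of_nonneg_left h4 hP0
        _ = (mm (j + 1) : ℕ) * P := mul_comm _ _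
        _ ≤ _ := h3
    have h6 : (j : ℚ) + 1 ≤ (n : ℚ) + 1 := by
      have : (j : ℚ) ≤ n := by exact_mod_cast (by omega : j ≤ n)
      linarith
    have h7 : ((j : ℚ) + 1) ^ 2 ≤ ((n : ℚ) + 1) ^ 2 :=
      pow_le_pow_left₀ (by positivity) h6 2
    have hm0 : (0 : ℚ) ≤ 4 * (mm n : ℚ) := by positivity
    calc P * |S (qd j s)| ≤ P * (4 * ((j : ℚ) + 1) ^ 2 * (mm j : ℚ)) :=
          mul_le_mul_of_nonneg_left h1 hP0
      _ = 4 * ((j : ℚ) + 1) ^ 2 * (P * (mm j : ℚ)) := by ring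
      _ ≤ 4 * ((j : ℚ) + 1) ^ 2 * (4 * (mm n : ℚ)) :=
          mul_le_mul_of_nonneg_left h5 (by positivity)
      _ ≤ 4 * ((n : ℚ) + 1) ^ 2 * (4 * (mm n : ℚ)) :=
          mul_le_mul_of_nonneg_right (mul_le_mul_of_nonneg_left h7 (by norm_num)) hm0
      _ = _ := by ring
  calc |∑ j ∈ Ico r n, S (C (∏ i ∈ Ico (j + 1) n, ((nu r : ℚ) - (nu i : ℚ))) * qd j s)|
      ≤ ∑ j ∈ Ico r n, |S (C (∏ i ∈ Ico (j + 1) n, ((nu r : ℚ) - (nu i : ℚ))) * qd j s)| :=
        Finset.abs_sum_le_sum_abs _ _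
    _ ≤ ∑ _j ∈ Ico r n, 16 * ((n : ℚ) + 1) ^ 2 * (mm n : ℚ) := Finset.sum_le_sum hterm
    _ = ((n - r : ℕ) : ℚ) * (16 * ((n : ℚ) + 1) ^ 2 * (mm n : ℚ)) := by
        rw [sum_const, Nat.card_Ico, nsmul_eq_mul]
    _ ≤ ((n : ℚ) + 1) * (16 * ((n : ℚ) + 1) ^ 2 * (mm n : ℚ)) := by
        apply mul_le_mul_of_nonneg_right _ (by positivity)
        have : n - r ≤ n := Nat.sub_le _ _
        have : ((n - r : ℕ) : ℚ) ≤ n := by exact_mod_cast this
        linarith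
    _ = _ := by ring

theorem SS_off {n r s : ℕ} (hr : r < n) (hs : s < n) (hne : r ≠ s) :
    |SS (nu r) (qd n s)| ≤ 16 * ((n : ℚ) + 1) ^ 3 * (mm n : ℚ) := by
  have hmem : r ∈ (range n).erase s := by
    rw [mem_erase, mem_range]
    exact ⟨hne, hr⟩
  have hfac : qd n s = (X - C (nu r : ℚ)) *
      ∏ i ∈ ((range n).erase s).erase r, (X - C (nu i : ℚ)) := by
    rw [Finset.mul_prod_erase ((range n).erase s) (fun i => (X - C (nu i : ℚ))) hmem]
    rfl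
  have hev : (qd n s).eval (nu r : ℚ) = 0 := by
    rw [hfac, eval_mul]
    simp
  have hdiv : qd n s /ₘ (X - C (nu r : ℚ)) =
      ∏ i ∈ ((range n).erase s).erase r, (X - C (nu i : ℚ)) := by
    rw [hfac]
    exact Polynomial.mul_divByMonic_cancel_left _ (monic_X_sub_C _)
  have hSS : SS (nu r) (qd n s) = S (∏ i ∈ ((range n).erase s).erase r, (X - C (nu i : ℚ))) := by
    unfold SS
    rw [hev, hdiv, zero_mul, zero_add]
  rw [hSS]
  rcases Nat.lt_or_gt_of_ne hne with h | h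
  · exact S_two h hs
  · rw [Finset.erase_right_comm]
    exact S_two h hr

end PWief
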