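import Pool.Agent.Lib.PWief.LMat
import Pool.Agent.Lib.PWief.SOff
import Pool.Agent.Lib.PWief.SDiag

/-!
# DetReal: the determinant is small

PROOF. Every entry of `Lm n` has absolute value at most `20 (n+1)^4`: off the diagonal
`16 (n+1)^3 mm n / dQ n s ≤ 16 (n+1)^3 n` (`SS_off`, `mm_le_dQ`, `abs_qp`, `dQ > 0`); on the diagonal
`4 (n+1)^2 + 16 (n+1)^3 n` (`SS_diag`). `Matrix.det_le` gives
`|det| ≤ n! (20 (n+1)^4)^n` (`Fintype.card (Fin n) = n`), and `abs_det_M`.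
-/

set_option autoImplicit false

open Finset Polynomial

namespace PWief

private theorem DetReal_entry {n : ℕ} (s r : Fin n) :
    |Lm n s r| ≤ 20 * ((n : ℚ) + 1) ^ 4 := by
  have hd : |(qd n (s : ℕ)).eval (nu s : ℚ)| = dQ n s := abs_qp s.2
  have hpos : 0 < dQ n (s : ℕ) := by
    rw [← hd]
    exact abs_pos.2 (qp_ne s.2)
  have hmm : (mm n : ℚ) ≤ n * dQ n (s : ℕ) := mm_le_dQ s.2
  have hn0 : (0 : ℚ) ≤ (n : ℚ) := Nat.cast_nonneg n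
  have hn1 : (1 : ℚ) ≤ (n : ℚ) + 1 := by linarith
  have h3 : (0 : ℚ) ≤ 16 * ((n : ℚ) + 1) ^ 3 := by positivity
  have hoff : 16 * ((n : ℚ) + 1) ^ 3 * (mm n : ℚ) ≤
      16 * ((n : ℚ) + 1) ^ 4 * dQ n (s : ℕ) := by
    calc 16 * ((n : ℚ) + 1) ^ 3 * (mm n : ℚ)
        ≤ 16 * ((n : ℚ) + 1) ^ 3 * (n * dQ n (s : ℕ)) := mul_le_mul_of_nonneg_left hmm h3
      _ ≤ 16 * ((n : ℚ) + 1) ^ 3 * (((n : ℚ) + 1) * dQ n (s : ℕ)) := by
          apply mul_le_mul_of_nonneg_left _ h3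
          apply mul_le_mul_of_nonneg_right _ hpos.le
          linarith
      _ = 16 * ((n : ℚ) + 1) ^ 4 * dQ n (s : ℕ) := by ring
  have hmain : |SS (nu r) (qd n s)| ≤ 20 * ((n : ℚ) + 1) ^ 4 * dQ n (s : ℕ) := by
    by_cases hrs : (r : ℕ) = s
    · have h1 := SS_diag (n := n) (r := (s : ℕ)) s.2
      rw [hrs]
      have h2 : 4 * ((n : ℚ) + 1) ^ 2 * dQ n (s : ℕ) ≤ 4 * ((n : ℚ) + 1) ^ 4 * dQ n (s : ℕ) := by
        apply mul_le_mul_of_nonneg_right _ hpos.le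
        have h4 : ((n : ℚ) + 1) ^ 2 ≤ ((n : ℚ) + 1) ^ 4 := pow_le_pow_right₀ hn1 (by norm_num)
        linarith
      calc |SS (nu (s : ℕ)) (qd n s)| ≤ _ := h1
        _ ≤ 4 * ((n : ℚ) + 1) ^ 4 * dQ n (s : ℕ) + 16 * ((n : ℚ) + 1) ^ 4 * dQ n (s : ℕ) :=
            add_le_add h2 hoff
        _ = 20 * ((n : ℚ) + 1) ^ 4 * dQ n (s : ℕ) := by ring
    · have h1 := SS_off (n := n) (r := (r : ℕ)) (s := (s : ℕ)) r.2 s.2 hrs
      have h5 : 0 ≤ 4 * ((n : ℚ) + 1) ^ 4 * dQ n (s : ℕ) := by positivity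
      calc |SS (nu r) (qd n s)| ≤ _ := h1
        _ ≤ 16 * ((n : ℚ) + 1) ^ 4 * dQ n (s : ℕ) := hoff
        _ ≤ 20 * ((n : ℚ) + 1) ^ 4 * dQ n (s : ℕ) := by linarith
  have hL : |Lm n s r| = |SS (nu r) (qd n s)| / dQ n (s : ℕ) := by
    rw [Lm, Matrix.of_apply, abs_div, hd]
  rw [hL, div_le_iff₀ hpos]
  exact hmain

theorem det_real (n : ℕ) :
    |(M n).det| ≤ (n.factorial : ℚ) * (20 * ((n : ℚ) + 1) ^ 4) ^ n := by
  rw [abs_det_M]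
  have h := Matrix.det_le (A := Lm n) (abv := AbsoluteValue.abs)
    (x := 20 * ((n : ℚ) + 1) ^ 4) (fun i j => DetReal_entry i j)
  rw [Fintype.card_fin, nsmul_eq_mul] at h
  exact h

end PWief
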