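import Pool.Agent.Lib.PWief.EntMod
import Pool.Agent.Lib.PWief.RankDet
import Pool.Agent.Lib.PWief.NuFac

/-!
# NonV: the determinant is not zero

PROOF. `n = mp p`, `a = ap p`, `a ≥ n`, so no column `j < n` is bad (`j/2 < a`), and `i < n ≤ p`, `j < 2p`.
`ent_good`: `M n ≡ F * G`, `F i x = (bb i).eval (a+2x)`, `G x j = sg/(a+2x - nu j)`, both `n × n` and `p`-integral.
`det_cg`: `det (M n) ≡ det F · det G`, so it suffices that `padicNorm p (det F) = padicNorm p (det G) = 1`.
`det F`: `i! bb i` is monic of degree `i`: `det F = ∏_{x<y} (2y - 2x) / ∏ i!`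
(`Matrix.det_eval_matrixOfPolynomials_eq_det_vandermonde`, `Matrix.det_vandermonde`), all factors prime to `p`
(`0 < 2(y-x) < 2n < p` or `y-x < n < p`). `det G`: Cauchy determinant
`± ∏_{x<y} (u_y - u_x)(v_x - v_y) / ∏_{x,j} (u_x - v_j)`, `u_x = a+2x`, `v_j = nu j`, `|v_i - v_j| < n` (distinct), all
factors prime to `p` (`col_unit`). Alternatively, avoid the Cauchy determinant: reduce modulo `p` and show that
the kernel of `G` mod `p` is zero: `∑_j c_j/(u_x - v_j) = 0` for all `x` means that the polynomial
`∑_j c_j ∏_{i≠j} (X - v_i)` of degree `< n` has the `n` distinct zeros `u_x` mod `p`, hence it is zero, and at `v_j`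
it is `c_j ∏_{i≠j}(v_j - v_i)`.
-/

set_option autoImplicit false

open Finset Polynomial

namespace PWief

theorem nonV_monic_qq (k : ℕ) : (qq k).Monic := by
  unfold qq
  exact monic_prod_of_monic _ _ fun i _ => monic_X_sub_C _

theorem nonV_natDegree_qq (k : ℕ) : (qq k).natDegree = k := by
  unfold qq
  rw [natDegree_prod_of_monic _ _ fun i _ => monic_X_sub_C _,
    Finset.sum_congr rfl fun i _ => natDegree_X_sub_C _]
  simp

theorem nonV_norm_prod {p : ℕ} [Fact p.Prime] {ι : Type*} (s : Finset ι) (f : ι → ℚ)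
    (h : ∀ i ∈ s, padicNorm p (f i) = 1) : padicNorm p (∏ i ∈ s, f i) = 1 := by
  classical
  induction s using Finset.induction_on with
  | empty => simp
  | insert a s ha ih =>
    rw [Finset.prod_insert ha, padicNorm.mul, h a (mem_insert_self a s),
      ih fun i hi => h i (mem_insert_of_mem hi), mul_one]

/-- the matrix `∏_{i≠j} (u_x - v_i)` is invertible -/
theorem nonV_cauchy {K : Type*} [Field K] {n : ℕ} (u v : Fin n → K) (hu : Function.Injective u)
    (hv : Function.Injective v) :
    (Matrix.of fun x j : Fin n => ∏ i ∈ univ.erase j, (u x - v i)).det ≠ 0 := by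
  classical
  intro h0
  obtain ⟨c, hc, hM⟩ := Matrix.exists_mulVec_eq_zero_iff.mpr h0
  apply hc
  set P : K[X] := ∑ j : Fin n, C (c j) * ∏ i ∈ univ.erase j, (X - C (v i)) with hP
  have hev : ∀ y : K, P.eval y = ∑ j : Fin n, c j * ∏ i ∈ univ.erase j, (y - v i) := by
    intro y
    rw [hP, eval_finsetSum]
    refine Finset.sum_congr rfl fun j _ => ?_
    rw [eval_mul, eval_C, eval_prod]
    simp
  have hdeg : P.natDegree < n ∨ n = 0 := by
    rcases Nat.eq_zero_or_pos n with hn | hn
    · right; exact hn
    · left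
      have : P.natDegree ≤ n - 1 := by
        rw [hP]
        refine natDegree_sum_le_of_forall_le _ _ fun j _ => ?_
        refine (natDegree_C_mul_le _ _).trans ?_
        rw [natDegree_prod_of_monic _ _ fun i _ => monic_X_sub_C _]
        simp
      omega
  have hroot : ∀ x, P.eval (u x) = 0 := by
    intro x
    rw [hev]
    have := congrFun hM x
    rw [Matrix.mulVec, dotProduct] at this
    simp only [Matrix.of_apply, Pi.zero_apply] at this
    rw [← this]
    exact Finset.sum_congr rfl fun j _ => mul_comm _ _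
  have hP0 : P = 0 := by
    rcases hdeg with hd | hn
    · refine eq_zero_of_natDegree_lt_card_of_eval_eq_zero P hu hroot ?_
      simpa using hd
    · subst hn
      rw [hP]; simp
  funext j
  have h1 := hev (v j)
  rw [hP0, eval_zero] at h1
  rw [Finset.sum_eq_single j] at h1
  · have h2 : (∏ i ∈ univ.erase j, (v j - v i)) ≠ 0 := by
      rw [Finset.prod_ne_zero_iff]
      intro i hi hz
      exact (Finset.ne_of_mem_erase hi) (hv (sub_eq_zero.mp hz)).symm
    rcases mul_eq_zero.mp h1.symm with h | h
    · exact h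
    · exact absurd h h2
  · intro b _ hb
    apply mul_eq_zero_of_right
    exact Finset.prod_eq_zero (Finset.mem_erase.mpr ⟨hb.symm, mem_univ j⟩) (sub_self _)
  · intro h; exact absurd (mem_univ j) h

theorem det_ne {p : ℕ} (hw : IsPW p) : (M (mp p)).det ≠ 0 := by
  classical
  have : Fact p.Prime := ⟨hw.1⟩
  have h2 : p ≠ 2 := hw.2.1
  have hp3 : 3 ≤ p := by
    have := hw.1.two_le
    omega
  set n := mp p with hn
  have hn' : n = (p + 1) / 4 := rfl
  have ha' : ap p = (p + 3) / 4 := rfl
  have hbad : ∀ j : ℕ, j < n → ¬ Bad p j := by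
    intro j hj hb
    have := hb.1
    omega
  have hnp : n ≤ p := by omega
  -- units
  have hint : ∀ m : ℤ, ¬ (p : ℤ) ∣ m → padicNorm p (m : ℚ) = 1 := fun m hm =>
    padicNorm.int_eq_one_iff m |>.mpr hm
  have hsmall : ∀ m : ℤ, m ≠ 0 → |m| < p → ¬ (p : ℤ) ∣ m := by
    intro m hm hlt hd
    exact absurd (Int.eq_zero_of_abs_lt_dvd hd hlt) hm
  set F : Matrix (Fin n) (Fin n) ℚ :=
    Matrix.of fun i x => (bb i).eval ((ap p + 2 * (x : ℕ) : ℕ) : ℚ) with hF
  set G : Matrix (Fin n) (Fin n) ℚ :=
    Matrix.of fun x j => sg p / (((ap p + 2 * (x : ℕ) : ℕ) : ℚ) - (nu j : ℚ)) with hG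
  have hsg : padicNorm p (sg p) = 1 := by
    unfold sg
    split_ifs
    · simp
    · rw [padicNorm.neg]; simp
  have hunit : ∀ x j : Fin n, padicNorm p (((ap p + 2 * (x : ℕ) : ℕ) : ℚ) - (nu j : ℚ)) = 1 := by
    intro x j
    have h := col_unit (p := p) (j := j) h2 (by have := j.2; omega) (hbad j j.2) (x := x) x.2
    have := hint _ h
    push_cast at this ⊢
    exact this
  have hFint : ∀ i x, PInt p (F i x) := by
    intro i x
    simp only [hF, Matrix.of_apply]
    exact pint_eval (fun k => bb_pint (by have := i.2; omega) k) (pint_nat _)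
  have hGint : ∀ x j, PInt p (G x j) := by
    intro x j
    simp only [hG, Matrix.of_apply]
    unfold PInt
    rw [div_eq_mul_inv, padicNorm.mul, hsg, one_mul]
    have : padicNorm p (((((ap p + 2 * (x : ℕ) : ℕ) : ℚ) - (nu j : ℚ)))⁻¹) *
        padicNorm p (((ap p + 2 * (x : ℕ) : ℕ) : ℚ) - (nu j : ℚ)) = 1 := by
      rw [← padicNorm.mul, inv_mul_cancel₀, padicNorm.one]
      intro h0
      have := hunit x j
      rw [h0] at this
      simp at this
    rw [hunit x j, mul_one] at this
    exact this.le
  have hcg : ∀ i j, Cg p (M n i j) ((F * G) i j) := by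
    intro i j
    have h := ent_good (p := p) (i := i) (j := j) hw (by have := i.2; omega)
      (by have := j.2; omega) (hbad j j.2)
    have e : (F * G) i j = ∑ x ∈ range (mp p), (bb i).eval ((ap p + 2 * x : ℕ) : ℚ) *
      (sg p / (((ap p + 2 * x : ℕ) : ℚ) - (nu j : ℚ))) := by
      rw [Matrix.mul_apply, Finset.sum_range]
      rfl
    rw [e]
    exact h
  have hMint : ∀ i j, PInt p (M n i j) := by
    intro i j
    refine (hcg i j).pint ?_
    rw [Matrix.mul_apply]
    exact pint_sum _ _ fun x _ => (hFint i x).mul (hGint x j)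
  have hdet := det_cg (M n) (F * G) hMint hcg
  rw [Matrix.det_mul] at hdet
  intro h0
  rw [h0] at hdet
  unfold Cg at hdet
  rw [zero_sub, padicNorm.neg, padicNorm.mul] at hdet
  -- det F
  have hdF : padicNorm p F.det = 1 := by
    have e1 : F.transpose = Matrix.of fun x i : Fin n =>
        (1 / ((i : ℕ).factorial : ℚ)) *
          (Matrix.of fun x i : Fin n => (qq i).eval ((ap p + 2 * (x : ℕ) : ℕ) : ℚ)) x i := by
      ext x i
      simp only [Matrix.transpose_apply, hF, Matrix.of_apply]
      unfold bb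
      rw [eval_mul, eval_C]
    rw [← Matrix.det_transpose, e1, Matrix.det_mul_row,
      ← Matrix.det_eval_matrixOfPolynomials_eq_det_vandermonde
        (fun x : Fin n => ((ap p + 2 * (x : ℕ) : ℕ) : ℚ)) (fun i : Fin n => qq i)
        (fun i => nonV_natDegree_qq i) (fun i => nonV_monic_qq i),
      Matrix.det_vandermonde, padicNorm.mul]
    have hA : padicNorm p (∏ i : Fin n, (1 / ((i : ℕ).factorial : ℚ))) = 1 := by
      refine nonV_norm_prod _ _ fun i _ => ?_
      have h1 : padicNorm p (((i : ℕ).factorial : ℕ) : ℚ) = 1 := by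
        rw [padicNorm.nat_eq_one_iff]
        intro hd
        rw [hw.1.dvd_factorial] at hd
        have := i.2
        omega
      have h3 : padicNorm p (1 / ((i : ℕ).factorial : ℚ)) *
          padicNorm p (((i : ℕ).factorial : ℕ) : ℚ) = 1 := by
        rw [← padicNorm.mul, one_div_mul_cancel, padicNorm.one]
        exact_mod_cast (Nat.factorial_pos _).ne'
      rw [h1, mul_one] at h3
      exact h3
    rw [hA, one_mul]
    refine nonV_norm_prod _ _ fun i _ => nonV_norm_prod _ _ fun j hj => ?_
    have hij : i < j := Finset.mem_Ioi.mp hj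
    have e : (((ap p + 2 * (j : ℕ) : ℕ) : ℚ) - ((ap p + 2 * (i : ℕ) : ℕ) : ℚ)) =
        ((2 * ((j : ℕ) : ℤ) - 2 * ((i : ℕ) : ℤ) : ℤ) : ℚ) := by
      push_cast; ring
    rw [e]
    have hij' : (i : ℕ) < (j : ℕ) := hij
    have := j.2
    refine hint _ (hsmall _ (by omega) ?_)
    rw [abs_lt]
    constructor <;> omega
  -- det G
  have hdG : padicNorm p G.det = 1 := by
    set N : Matrix (Fin n) (Fin n) ℤ := Matrix.of fun x j : Fin n =>
      ∏ i ∈ univ.erase j, (((ap p + 2 * (x : ℕ) : ℕ) : ℤ) - nu i) with hN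
    have hNdet : padicNorm p ((N.det : ℤ) : ℚ) = 1 := by
      refine hint _ ?_
      intro hd
      have hz : ((N.det : ℤ) : ZMod p) = 0 := (ZMod.intCast_zmod_eq_zero_iff_dvd _ _).mpr hd
      have hmap : ((N.det : ℤ) : ZMod p) = (Matrix.of fun x j : Fin n => ∏ i ∈ univ.erase j,
          ((((ap p + 2 * (x : ℕ) : ℕ) : ℤ) : ZMod p) - ((nu i : ℤ) : ZMod p))).det := by
        have := RingHom.map_det (Int.castRingHom (ZMod p)) N
        rw [eq_intCast] at this
        rw [this]
        congr 1
        ext x j
        simp only [hN, RingHom.mapMatrix_apply, Matrix.map_apply, Matrix.of_apply, map_prod, map_sub,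
          eq_intCast]
      rw [hmap] at hz
      refine nonV_cauchy (K := ZMod p) (fun x : Fin n => ((((ap p + 2 * (x : ℕ) : ℕ) : ℤ) : ZMod p)))
        (fun i : Fin n => ((nu i : ℤ) : ZMod p)) ?_ ?_ hz
      · intro x y hxy
        simp only at hxy
        rw [ZMod.intCast_eq_intCast_iff_dvd_sub] at hxy
        by_contra hne
        have hne' : (x : ℕ) ≠ (y : ℕ) := fun h => hne (Fin.ext h)
        have h3 := x.2
        have h4 := y.2
        refine hsmall _ ?_ ?_ hxy
        · push_cast; omega
        · rw [abs_lt]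
          push_cast
          constructor <;> omega
      · intro x y hxy
        simp only at hxy
        rw [ZMod.intCast_eq_intCast_iff_dvd_sub] at hxy
        by_contra hne
        have hne' : (x : ℕ) ≠ (y : ℕ) := fun h => hne (Fin.ext h)
        have h3 := x.2
        have h4 := y.2
        refine hsmall _ ?_ ?_ hxy
        · intro h
          exact hne' (nu_inj (sub_eq_zero.mp h)).symm
        · rw [abs_lt]
          unfold nu
          constructor <;> split_ifs <;> push_cast <;> omega
    have e2 : ((N.det : ℤ) : ℚ) = (∏ x : Fin n, (∏ i : Fin n,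
        (((ap p + 2 * (x : ℕ) : ℕ) : ℚ) - (nu i : ℚ))) * (1 / sg p)) * G.det := by
      have hmap : ((N.det : ℤ) : ℚ) = (Matrix.of fun x j : Fin n => ∏ i ∈ univ.erase j,
          ((((ap p + 2 * (x : ℕ) : ℕ) : ℚ)) - ((nu i : ℤ) : ℚ))).det := by
        have := RingHom.map_det (Int.castRingHom ℚ) N
        rw [eq_intCast] at this
        rw [this]
        congr 1
        ext x j
        simp only [hN, RingHom.mapMatrix_apply, Matrix.map_apply, Matrix.of_apply, map_prod, map_sub,
          eq_intCast, Int.cast_natCast]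
      rw [hmap, ← Matrix.det_mul_column]
      congr 1
      ext x j
      simp only [Matrix.of_apply, hG]
      have hne : (((ap p + 2 * (x : ℕ) : ℕ) : ℚ) - (nu j : ℚ)) ≠ 0 := by
        intro h0
        have := hunit x j
        rw [h0] at this
        simp at this
      have hsg0 : sg p ≠ 0 := by
        intro h0
        rw [h0] at hsg
        simp at hsg
      rw [← Finset.mul_prod_erase univ _ (mem_univ j)]
      field_simp
    have hpr : padicNorm p (∏ x : Fin n, (∏ i : Fin n,
        (((ap p + 2 * (x : ℕ) : ℕ) : ℚ) - (nu i : ℚ))) * (1 / sg p)) = 1 := by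
      refine nonV_norm_prod _ _ fun x _ => ?_
      rw [padicNorm.mul, nonV_norm_prod _ _ fun i _ => hunit x i, one_mul]
      have h3 : padicNorm p (1 / sg p) * padicNorm p (sg p) = 1 := by
        rw [← padicNorm.mul, one_div_mul_cancel, padicNorm.one]
        intro h0
        rw [h0] at hsg
        simp at hsg
      rw [hsg, mul_one] at h3
      exact h3
    rw [e2, padicNorm.mul, hpr, one_mul] at hNdet
    exact hNdet
  rw [hdF, hdG, mul_one] at hdet
  exact lt_irrefl _ hdet

end PWief
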