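import Pool.Agent.Lib.PNT.Theta

/-!
# Small: the small primes

PROOF. `Nat.log p (2n) * log p ≤ log (2n)` always (`p^(log) ≤ 2n`), and for `p^2 > 2n` it is `≤ 1 · log p`. So the sum is
`≤ θ(n/2) + ∑_{p ≤ √(2n)} log (2n) ≤ θ(n/2) + (√(2n) + 1) log (2n)`, `θ(n/2) ≤ 1.005 · n/2` for large `n`
(`PNT.theta_tendsto`) and `√(2n) log (2n) = o(n)`.
-/

set_option autoImplicit false

open Finset

namespace PWief

private theorem Small_theta : ∃ n0 : ℕ, ∀ n : ℕ, n0 ≤ n →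
    Chebyshev.theta (n : ℝ) ≤ 1.005 * (n : ℝ) := by
  have h := PNT.theta_tendsto.comp (tendsto_natCast_atTop_atTop (R := ℝ))
  have h1 := (h.eventually (Iio_mem_nhds (show (1 : ℝ) < 1.005 by norm_num)))
  obtain ⟨x1, hx1⟩ := Filter.eventually_atTop.mp h1
  refine ⟨x1 + 1, fun n hn => ?_⟩
  have h2 := hx1 n (by omega)
  have hn0 : (0 : ℝ) < n := by
    have : 0 < n := by omega
    exact_mod_cast this
  simp only [Function.comp] at h2
  rw [div_lt_iff₀ hn0] at h2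
  exact h2.le

private theorem Small_log : ∃ n0 : ℕ, ∀ n : ℕ, n0 ≤ n →
    Real.log (2 * (n : ℝ)) ≤ 0.0001 * Real.sqrt (2 * (n : ℝ)) := by
  have h := (isLittleO_log_rpow_atTop (show (0 : ℝ) < 1 / 2 by norm_num)).bound
    (show (0 : ℝ) < 0.0001 by norm_num)
  obtain ⟨x0, hx0⟩ := Filter.eventually_atTop.1 h
  refine ⟨⌈x0⌉₊ + 1, fun n hn => ?_⟩
  have h1 : x0 ≤ 2 * (n : ℝ) := by
    have := Nat.le_ceil x0
    have h2 : ((⌈x0⌉₊ + 1 : ℕ) : ℝ) ≤ n := by exact_mod_cast hn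
    push_cast at h2
    have h3 : (0 : ℝ) ≤ n := Nat.cast_nonneg n
    linarith
  have h2 := hx0 _ h1
  rw [Real.norm_eq_abs, Real.norm_eq_abs, ← Real.sqrt_eq_rpow,
    abs_of_nonneg (Real.sqrt_nonneg _)] at h2
  exact (le_abs_self _).trans h2

private theorem Small_term {n p : ℕ} (hn : 1 ≤ n) (hp : p.Prime) :
    (Nat.log p (2 * n) : ℝ) * Real.log p ≤
      Real.log p + if p ≤ Nat.sqrt (2 * n) then Real.log (2 * (n : ℝ)) else 0 := by
  have hlp : 0 ≤ Real.log (p : ℝ) := Real.log_natCast_nonneg p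
  by_cases h : p ≤ Nat.sqrt (2 * n)
  · rw [if_pos h]
    have h1 : p ^ Nat.log p (2 * n) ≤ 2 * n := Nat.pow_log_le_self p (by omega)
    have h2 : Real.log ((p : ℝ) ^ Nat.log p (2 * n)) ≤ Real.log (2 * (n : ℝ)) := by
      refine Real.log_le_log (by have := hp.pos; positivity) ?_
      exact_mod_cast h1
    rw [Real.log_pow] at h2
    linarith
  · rw [if_neg h]
    have h3 : Nat.log p (2 * n) < 2 := by
      refine Nat.log_lt_of_lt_pow (by omega) ?_
      rw [pow_two]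
      exact Nat.sqrt_lt.1 (by omega)
    have h4 : (Nat.log p (2 * n) : ℝ) ≤ 1 := by exact_mod_cast (by omega : Nat.log p (2 * n) ≤ 1)
    nlinarith

theorem small : ∃ n0 : ℕ, ∀ n : ℕ, n0 ≤ n →
    ∑ p ∈ (range (n / 2 + 1)).filter Nat.Prime, (Nat.log p (2 * n) : ℝ) * Real.log p ≤
      0.505 * (n : ℝ) := by
  obtain ⟨n1, h1⟩ := Small_theta
  obtain ⟨n2, h2⟩ := Small_log
  refine ⟨2 * n1 + n2 + 10, fun n hn => ?_⟩
  have hn0 : (10 : ℝ) ≤ n := by exact_mod_cast (by omega : 10 ≤ n)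
  have a1 := sum_le_sum fun p (hp : p ∈ (range (n / 2 + 1)).filter Nat.Prime) =>
    Small_term (n := n) (by omega) (mem_filter.1 hp).2
  refine a1.trans ?_
  rw [sum_add_distrib]
  have a2 : ∑ p ∈ (range (n / 2 + 1)).filter Nat.Prime, Real.log (p : ℝ) =
      Chebyshev.theta ((n / 2 : ℕ) : ℝ) := by
    unfold Chebyshev.theta
    rw [Nat.floor_natCast]
    refine sum_congr ?_ fun _ _ => rfl
    ext p
    simp only [mem_filter, mem_range, mem_Ioc]
    constructor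
    · rintro ⟨h, hp⟩
      exact ⟨⟨hp.pos, by omega⟩, hp⟩
    · rintro ⟨h, hp⟩
      exact ⟨by omega, hp⟩
  have a3 := h1 (n / 2) (by omega)
  have a4 : ((n / 2 : ℕ) : ℝ) ≤ (n : ℝ) / 2 := by
    have : 2 * (n / 2) ≤ n := Nat.mul_div_le n 2
    have h : (2 : ℝ) * ((n / 2 : ℕ) : ℝ) ≤ n := by exact_mod_cast this
    linarith
  have hlog : 0 ≤ Real.log (2 * (n : ℝ)) := Real.log_nonneg (by linarith)
  have a5 : ∑ p ∈ (range (n / 2 + 1)).filter Nat.Prime,
      (if p ≤ Nat.sqrt (2 * n) then Real.log (2 * (n : ℝ)) else 0) ≤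
      ((Nat.sqrt (2 * n) : ℝ) + 1) * Real.log (2 * (n : ℝ)) := by
    rw [← sum_filter, sum_const, nsmul_eq_mul]
    refine mul_le_mul_of_nonneg_right ?_ hlog
    have : (((range (n / 2 + 1)).filter Nat.Prime).filter fun p => p ≤ Nat.sqrt (2 * n)).card ≤
        Nat.sqrt (2 * n) + 1 := by
      rw [← card_range (Nat.sqrt (2 * n) + 1)]
      refine card_le_card fun p hp => ?_
      have := (mem_filter.1 hp).2
      exact mem_range.2 (by omega)
    exact_mod_cast this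
  have a6 : (Nat.sqrt (2 * n) : ℝ) ≤ Real.sqrt (2 * (n : ℝ)) := by
    have := Real.nat_sqrt_le_real_sqrt (a := 2 * n)
    push_cast at this
    exact this
  have a7 := h2 n (by omega)
  have a8 : Real.sqrt (2 * (n : ℝ)) * Real.sqrt (2 * (n : ℝ)) = 2 * n :=
    Real.mul_self_sqrt (by linarith)
  have a9 : 1 ≤ Real.sqrt (2 * (n : ℝ)) := Real.one_le_sqrt.2 (by linarith)
  have b1 : ((Nat.sqrt (2 * n) : ℝ) + 1) * Real.log (2 * (n : ℝ)) ≤
      (2 * Real.sqrt (2 * (n : ℝ))) * (0.0001 * Real.sqrt (2 * (n : ℝ))) :=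
    mul_le_mul (by linarith) a7 hlog (by positivity)
  have b2 : (2 * Real.sqrt (2 * (n : ℝ))) * (0.0001 * Real.sqrt (2 * (n : ℝ))) =
      0.0004 * n := by
    linear_combination (0.0002 : ℝ) * a8
  rw [a2]
  linarith

end PWief
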