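import Pool.Agent.Lib.PWief.TPol

/-!
# TGram: the entries in the 2-adic basis

PROOF. `ff_monic`, `ff_deg`: a product of `i` (resp. `k` and `i-k`) monic linear factors
(`Polynomial.monic_prod_of_monic`, `natDegree_prod_of_monic`, `Nat.card_Ico`).
`gram_two`: `i, j` arbitrary. `ff a k i` is the product over the elements of `chn a k` outside
`chn a (k - i)` (truncated subtraction; disjoint, union) times `(X - 3/4)^(i-k)`, the same for `b`; by `LL_union`
(`A = chn a (k-i) ∪ chn b (l-j)`, `B` = the removed elements) `LL (chn a k ∪ chn b l) (ff a k i * ff b l j)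
= LL (chn a (k-i) ∪ chn b (l-j)) ((X - 3/4)^m)`, `m = (i-k) + (j-l)`, and `4^m (X - 3/4)^m = (4X-3)^m`
(`LL_C_mul`), `two_pol`.
-/

set_option autoImplicit false

open Finset Polynomial

namespace PWief

private theorem TGram_monic (a : ℤ) (k i : ℕ) :
    (∏ t ∈ Ico (k - i) k, (X - C (((a + 2 * (t : ℤ) : ℤ)) : ℚ))).Monic :=
  monic_prod_of_monic _ _ fun _ _ => monic_X_sub_C _

theorem ff_monic (a : ℤ) (k i : ℕ) : (ff a k i).Monic := by
  unfold ff
  exact (TGram_monic a k i).mul ((monic_X_sub_C _).pow _)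

theorem ff_deg (a : ℤ) (k i : ℕ) : (ff a k i).natDegree = i := by
  unfold ff
  rw [Monic.natDegree_mul (TGram_monic a k i) ((monic_X_sub_C _).pow _),
    natDegree_prod_of_monic _ _ fun _ _ => monic_X_sub_C _, (monic_X_sub_C _).natDegree_pow]
  simp only [natDegree_X_sub_C, sum_const, Nat.card_Ico, smul_eq_mul, mul_one]
  omega

/-- the removed elements -/
private def TGram_B (a : ℤ) (k i : ℕ) : Finset ℤ :=
  (Ico (k - i) k).image fun t : ℕ => a + 2 * (t : ℤ)

private theorem TGram_split (a : ℤ) (k i : ℕ) : chn a k = chn a (k - i) ∪ TGram_B a k i := by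
  ext x
  simp only [chn, TGram_B, mem_union, mem_image, mem_range, mem_Ico]
  constructor
  · rintro ⟨t, ht, rfl⟩
    by_cases h : t < k - i
    · left
      exact ⟨t, h, rfl⟩
    · right
      exact ⟨t, ⟨by omega, ht⟩, rfl⟩
  · rintro (⟨t, ht, rfl⟩ | ⟨t, ht, rfl⟩)
    · exact ⟨t, by omega, rfl⟩
    · exact ⟨t, ht.2, rfl⟩

private theorem TGram_prod (a : ℤ) (k i : ℕ) :
    (∏ t ∈ Ico (k - i) k, (X - C (((a + 2 * (t : ℤ) : ℤ)) : ℚ))) =
      ∏ x ∈ TGram_B a k i, (X - C (x : ℚ)) := by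
  unfold TGram_B
  rw [prod_image]
  intro s _ t _ h
  simp only at h
  omega

theorem gram_two {a b : ℤ} (ha : a % 2 = 0) (hb : b % 2 = 1) (k l i j : ℕ) :
    PInt 2 (4 * (4 : ℚ) ^ ((i - k) + (j - l)) *
      LL (chn a k ∪ chn b l) (ff a k i * ff b l j)) := by
  have hAB : chn a k ∪ chn b l =
      (chn a (k - i) ∪ chn b (l - j)) ∪ (TGram_B a k i ∪ TGram_B b l j) := by
    rw [TGram_split a k i, TGram_split b l j]
    ext x
    simp only [mem_union]
    tauto
  have hdB : Disjoint (TGram_B a k i) (TGram_B b l j) := by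
    rw [disjoint_left]
    intro x h1 h2
    simp only [TGram_B, mem_image, mem_Ico] at h1 h2
    obtain ⟨s, _, rfl⟩ := h1
    obtain ⟨t, _, h⟩ := h2
    omega
  have hd : Disjoint (chn a (k - i) ∪ chn b (l - j)) (TGram_B a k i ∪ TGram_B b l j) := by
    rw [disjoint_left]
    intro x h1 h2
    simp only [TGram_B, chn, mem_union, mem_image, mem_Ico, mem_range] at h1 h2
    rcases h1 with ⟨s, hs, rfl⟩ | ⟨s, hs, rfl⟩
    · rcases h2 with ⟨t, ht, h⟩ | ⟨t, ht, h⟩ <;> omega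
    · rcases h2 with ⟨t, ht, h⟩ | ⟨t, ht, h⟩ <;> omega
  have hP : ff a k i * ff b l j = (∏ x ∈ TGram_B a k i ∪ TGram_B b l j, (X - C (x : ℚ))) *
      (X - C (3 / 4 : ℚ)) ^ ((i - k) + (j - l)) := by
    unfold ff
    rw [prod_union hdB, ← TGram_prod, ← TGram_prod, pow_add]
    ring
  rw [hAB, hP, LL_union hd]
  have h4 : (C 4 * X - C 3 : ℚ[X]) ^ ((i - k) + (j - l)) =
      C ((4 : ℚ) ^ ((i - k) + (j - l))) * (X - C (3 / 4 : ℚ)) ^ ((i - k) + (j - l)) := by
    have h1 : (C 4 * X - C 3 : ℚ[X]) = C 4 * (X - C (3 / 4 : ℚ)) := by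
      rw [mul_sub, ← C_mul]
      norm_num
    rw [h1, mul_pow, C_pow]
  have h5 := two_pol ha hb (k - i) (l - j) ((i - k) + (j - l))
  rw [h4, LL_C_mul] at h5
  rw [mul_assoc]
  exact h5

end PWief
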