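import Pool.Agent.Lib.PWief.GramDet
import Pool.Agent.Lib.PWief.TGram

/-!
# TVal: `v_2 (det M) ≥ -(n^2/2 + 2n)`

PROOF. `NN n` is the interval of the `n` consecutive integers from `-(n/2)`; let `a` be its smallest even and `b`
its smallest odd element (for `n ≥ 2`; for `n ≤ 1` take any even / odd number and length 0), `k`, `l` the numbers of
even / odd elements: `k + l = n`, `|k - l| ≤ 1`, `NN n = chn a k ∪ chn b l`. By `gram_det` (`f i = ff a k i`,
`g j = ff b l j`) `|det M| = |det G|`, and `4^(i-k) 4^(j-l) 4 G_(ij)` is 2-integral (`gram_two`). So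
`4^n ∏_i 4^(i-k) ∏_j 4^(j-l) det G` is 2-integral (`Matrix.det_mul_row`, `det_mul_column` or the Leibniz formula),
`∑_{i<n} (i-k) = (n-k)(n-k-1)/2`, and with `n - k, n - l ≤ (n+1)/2`, `(n-k) + (n-l) = n`:
`2 (n + ∑ (i-k) + ∑ (j-l)) ≤ 2n + n^2/2`. `v_2 x ≥ -N` from `padicNorm 2 (2^N x) ≤ 1`
(`padicNorm.eq_zpow_of_nonzero`), `padicValRat` of `|x|` and `x` agree (`padicValRat.neg`).
-/

set_option autoImplicit false

open Finset Polynomial

namespace PWief

private theorem TVal_mem_NN (n : ℕ) (x : ℤ) :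
    x ∈ NN n ↔ -((n / 2 : ℕ) : ℤ) ≤ x ∧ x < (((n + 1) / 2 : ℕ) : ℤ) := by
  simp only [NN, mem_image, mem_range]
  constructor
  · rintro ⟨i, hi, rfl⟩
    unfold nu
    split_ifs with h
    · constructor <;> omega
    · constructor <;> omega
  · rintro ⟨h1, h2⟩
    by_cases hx : 0 ≤ x
    · refine ⟨2 * x.toNat, by omega, ?_⟩
      unfold nu
      rw [if_pos (by omega)]
      omega
    · refine ⟨2 * (-1 - x).toNat + 1, by omega, ?_⟩
      unfold nu
      rw [if_neg (by omega)]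
      omega

private theorem TVal_mem_chn (a : ℤ) (k : ℕ) (x : ℤ) :
    x ∈ chn a k ↔ ∃ t : ℕ, t < k ∧ a + 2 * (t : ℤ) = x := by
  simp only [chn, mem_image, mem_range]

private theorem TVal_split (n : ℕ) : ∃ (a b : ℤ) (k l : ℕ), a % 2 = 0 ∧ b % 2 = 1 ∧
    ((k = (n + 1) / 2 ∧ l = n / 2) ∨ (k = n / 2 ∧ l = (n + 1) / 2)) ∧
    NN n = chn a k ∪ chn b l := by
  by_cases h : (n / 2) % 2 = 0
  · refine ⟨-((n / 2 : ℕ) : ℤ), -((n / 2 : ℕ) : ℤ) + 1, (n + 1) / 2, n / 2, by omega, by omega,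
      Or.inl ⟨rfl, rfl⟩, ?_⟩
    ext x
    rw [mem_union, TVal_mem_NN, TVal_mem_chn, TVal_mem_chn]
    constructor
    · rintro ⟨h1, h2⟩
      by_cases hx : x % 2 = 0
      · left
        exact ⟨((x + ((n / 2 : ℕ) : ℤ)) / 2).toNat, by omega, by omega⟩
      · right
        exact ⟨((x + ((n / 2 : ℕ) : ℤ) - 1) / 2).toNat, by omega, by omega⟩
    · rintro (⟨t, ht, rfl⟩ | ⟨t, ht, rfl⟩)
      · constructor <;> omega
      · constructor <;> omega
  · refine ⟨-((n / 2 : ℕ) : ℤ) + 1, -((n / 2 : ℕ) : ℤ), n / 2, (n + 1) / 2, by omega, by omega,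
      Or.inr ⟨rfl, rfl⟩, ?_⟩
    ext x
    rw [mem_union, TVal_mem_NN, TVal_mem_chn, TVal_mem_chn]
    constructor
    · rintro ⟨h1, h2⟩
      by_cases hx : x % 2 = 0
      · left
        exact ⟨((x + ((n / 2 : ℕ) : ℤ) - 1) / 2).toNat, by omega, by omega⟩
      · right
        exact ⟨((x + ((n / 2 : ℕ) : ℤ)) / 2).toNat, by omega, by omega⟩
    · rintro (⟨t, ht, rfl⟩ | ⟨t, ht, rfl⟩)
      · constructor <;> omega
      · constructor <;> omega

private theorem TVal_sum (k n : ℕ) :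
    2 * ∑ i ∈ range n, (i - k) + (n - k) = (n - k) ^ 2 := by
  induction n with
  | zero => simp
  | succ n ih =>
    rw [sum_range_succ]
    by_cases h : k ≤ n
    · have h1 : n + 1 - k = (n - k) + 1 := by omega
      rw [h1]
      nlinarith [ih]
    · have h1 : n - k = 0 := by omega
      have h2 : n + 1 - k = 0 := by omega
      rw [h1] at ih ⊢
      rw [h2]
      simpa using ih

private theorem TVal_det {n : ℕ} (A : Matrix (Fin n) (Fin n) ℚ) (h : ∀ i j, PInt 2 (A i j)) :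
    PInt 2 A.det := by
  rw [Matrix.det_apply]
  refine pint_sum _ _ fun s _ => ?_
  have h1 : PInt 2 (∏ i, A (s i) i) := pint_prod _ _ fun i _ => h _ _
  rcases Int.units_eq_one_or (Equiv.Perm.sign s) with hs | hs
  · rw [hs, one_smul]
    exact h1
  · rw [hs]
    have h2 : (-1 : ℤˣ) • (∏ i, A (s i) i) = -(∏ i, A (s i) i) := by
      rw [Units.smul_def]
      simp
    rw [h2]
    exact h1.neg

private theorem TVal_scale {n : ℕ} (G : Matrix (Fin n) (Fin n) ℚ) (u v : Fin n → ℚ) :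
    (Matrix.of fun i j => 4 * (u i * v j) * G i j).det =
      4 ^ n * ((∏ i, u i) * ∏ j, v j) * G.det := by
  have h1 : (Matrix.of fun i j => 4 * (u i * v j) * G i j) =
      (4 : ℚ) • (Matrix.of fun i j => u i * (Matrix.of fun i j => v j * G i j) i j) := by
    ext i j
    simp only [Matrix.of_apply, Matrix.smul_apply, smul_eq_mul]
    ring
  rw [h1, Matrix.det_smul, Matrix.det_mul_column, Matrix.det_mul_row, Fintype.card_fin]
  ring

theorem val_two {n : ℕ} (hD : (M n).det ≠ 0) :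
    -((n : ℤ) ^ 2 + 4 * n) ≤ 2 * padicValRat 2 (M n).det := by
  obtain ⟨a, b, k, l, ha, hb, hkl, hN⟩ := TVal_split n
  have hG := gram_det (n := n) (fun i => ff a k i) (fun j => ff b l j)
    (fun i => ⟨ff_monic a k i, ff_deg a k i⟩) (fun j => ⟨ff_monic b l j, ff_deg b l j⟩)
  set G : Matrix (Fin n) (Fin n) ℚ :=
    Matrix.of fun i j : Fin n => LL (NN n) (ff a k i * ff b l j) with hGdef
  have hG0 : G.det ≠ 0 := by
    intro h
    rw [h, abs_zero] at hG
    exact hD (abs_eq_zero.1 hG.symm)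
  have hval : padicValRat 2 (M n).det = padicValRat 2 G.det := by
    rcases abs_eq_abs.1 hG with h | h
    · rw [h]
    · rw [h, padicValRat.neg]
  set s1 : ℕ := ∑ i ∈ range n, (i - k) with hs1
  set s2 : ℕ := ∑ j ∈ range n, (j - l) with hs2
  have hint : PInt 2 ((4 : ℚ) ^ (n + s1 + s2) * G.det) := by
    have h1 := TVal_det (Matrix.of fun i j : Fin n =>
      4 * ((4 : ℚ) ^ ((i : ℕ) - k) * (4 : ℚ) ^ ((j : ℕ) - l)) * G i j) (by
        intro i j
        rw [Matrix.of_apply, ← pow_add, hGdef, Matrix.of_apply, hN]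
        exact gram_two ha hb k l i j)
    rw [TVal_scale, prod_pow_eq_pow_sum, prod_pow_eq_pow_sum,
      Fin.sum_univ_eq_sum_range (fun i => i - k), Fin.sum_univ_eq_sum_range (fun j => j - l),
      ← hs1, ← hs2, ← pow_add, ← pow_add, ← add_assoc] at h1
    exact h1
  have h4 : ((4 : ℚ) ^ (n + s1 + s2)) ≠ 0 := by positivity
  have hv := (pint_iff (p := 2) (mul_ne_zero h4 hG0)).1 hint
  rw [padicValRat.mul h4 hG0] at hv
  have hv4 : padicValRat 2 ((4 : ℚ) ^ (n + s1 + s2)) = 2 * ((n + s1 + s2 : ℕ) : ℤ) := by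
    have h5 : ((4 : ℚ) ^ (n + s1 + s2)) = ((2 : ℕ) : ℚ) ^ (2 * (n + s1 + s2)) := by
      rw [pow_mul]
      norm_num
    rw [h5, padicValRat.pow, padicValRat.self (by norm_num)]
    push_cast
    ring
  rw [hv4] at hv
  have e1 := TVal_sum k n
  have e2 := TVal_sum l n
  rw [← hs1] at e1
  rw [← hs2] at e2
  rw [hval]
  have hk : k ≤ n := by omega
  have hl : l ≤ n := by omega
  have hsum : (n - k) + (n - l) = n := by omega
  have hdiff : (n - k) * (n - l) * 4 + 1 ≥ n * n := by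
    obtain ⟨m, hm | hm⟩ : ∃ m, n = 2 * m ∨ n = 2 * m + 1 := ⟨n / 2, by omega⟩
    · have h6 : n - k = m := by omega
      have h7 : n - l = m := by omega
      rw [h6, h7, hm]
      nlinarith
    · rcases hkl with ⟨h6, h7⟩ | ⟨h6, h7⟩
      · have h8 : n - k = m := by omega
        have h9 : n - l = m + 1 := by omega
        rw [h8, h9, hm]
        nlinarith
      · have h8 : n - k = m + 1 := by omega
        have h9 : n - l = m := by omega
        rw [h8, h9, hm]
        nlinarith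
  set p : ℕ := n - k with hp
  set q : ℕ := n - l with hq
  have z1 : (2 : ℤ) * s1 + p = p ^ 2 := by exact_mod_cast e1
  have z2 : (2 : ℤ) * s2 + q = q ^ 2 := by exact_mod_cast e2
  have z3 : (p : ℤ) + q = n := by exact_mod_cast hsum
  have z4 : (p : ℤ) * q * 4 + 1 ≥ n * n := by exact_mod_cast hdiff
  have z5 : ((n + s1 + s2 : ℕ) : ℤ) = n + s1 + s2 := by push_cast; ring
  rw [z5] at hv
  have z6 : (p : ℤ) ^ 2 + (q : ℤ) ^ 2 + 2 * (p * q) = n ^ 2 := by
    rw [← z3]
    ring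
  have z7 : (n : ℤ) * n = n ^ 2 := by ring
  rw [z7] at z4
  have z8 : -((n : ℤ) ^ 2 + 2 * n + 1) ≤ 2 * padicValRat 2 G.det := by linarith
  rcases Nat.eq_zero_or_pos n with h0 | h0
  · have hp0 : (p : ℤ) = 0 := by omega
    have hq0 : (q : ℤ) = 0 := by omega
    have hn0 : (n : ℤ) = 0 := by omega
    rw [hp0] at z1
    rw [hq0] at z2
    rw [hn0] at hv ⊢
    norm_num at z1 z2 hv ⊢
    have h7 : (s1 : ℤ) = 0 := by exact_mod_cast z1
    have h8 : (s2 : ℤ) = 0 := by exact_mod_cast z2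
    linarith
  · have h0' : (1 : ℤ) ≤ n := by exact_mod_cast h0
    linarith

end PWief
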