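import Pool.Agent.Lib.PWief.GainB
import Pool.Agent.Lib.PWief.Small
import Pool.Agent.Lib.PWief.PF
import Pool.Agent.Lib.PWief.TVal
import Pool.Agent.Lib.PWief.DetReal
import Pool.Agent.Lib.PWief.NonV

/-!
# Below: many primes below a large Pell-Wieferich prime are not Pell-Wieferich

PROOF. `n = mp p = (p+1)/4`, `D = (M n).det ≠ 0` (`det_ne`), `p - 3 ≤ 4n ≤ p + 1`. `B = 4n`. Weights for `log_ge`
(primes `q ≤ 4n`): `w 2 = -(n^2 + 4n)/2` (`val_two`); `q` odd, `q ≤ n/2`: `w = -n Nat.log q (2n)` (`val_all`);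
`n/2 < q`, `IsPW q`: `phi n q - 2` (`val_low`, `n < 2q`); `n/2 < q` not `IsPW`: `-n` (`val_all`,
`Nat.log q (2n) ≤ 1` since `q^2 > 2n` for `n` large). For `q > 4n`: `val_all` gives `≥ 0` (`Nat.log q (2n) = 0`).
`w q ≥ (phi n q - 2) - 1.5 n [not IsPW q]` for `n/2 < q` (`phi n q ≤ n/2`). `log_ge`, `det_real`:
`log n! + n log (20 (n+1)^4) ≥ log |D| ≥ -(n^2/2 + 2n) log 2 - n ∑_{q ≤ n/2} Nat.log q (2n) log q
 + ∑_{n/2<q≤4n} (phi n q - 2) log q - 1.5 n log(4n) N`, `N` = number of primes `q ≤ 4n`, not `IsPW`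
(the prime 2 counted in the second sum only makes it larger). With `small`, `gain`, `log 2 < .6932`:
`1.5 n log(4n) N ≥ (.985 - .505 - .3466) n^2 - o(n^2) ≥ .13 n^2` (`log n! ≤ n log n`). So
`N ≥ .0866 n / log(4n) ≥ p/(60 log p)` for large `p` (`n ≥ (p-3)/4`, `log (4n) ≤ log (p+1)`), and the primes
`q ≤ 4n ≤ p + 1` are `≤ p` (`p + 1` is not prime; or `q = p` is `IsPW` and not counted).
-/

/-!
# Below: many primes below a large Pell-Wieferich prime are not Pell-Wieferich

PROOF. `n = mp p = (p+1)/4`, `D = (M n).det ≠ 0` (`det_ne`), `p - 3 ≤ 4n ≤ p + 1`. `B = 4n`. Weights for `log_ge`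
(primes `q ≤ 4n`): `w 2 = -(n^2 + 4n)/2` (`val_two`); `q` odd, `q ≤ n/2`: `w = -n Nat.log q (2n)` (`val_all`);
`n/2 < q`, `IsPW q`: `phi n q - 2` (`val_low`, `n < 2q`); `n/2 < q` not `IsPW`: `-n` (`val_all`,
`Nat.log q (2n) ≤ 1` since `q^2 > 2n` for `n` large). For `q > 4n`: `val_all` gives `≥ 0` (`Nat.log q (2n) = 0`).
`w q ≥ (phi n q - 2) - 1.5 n [not IsPW q]` for `n/2 < q` (`phi n q ≤ n/2`). `log_ge`, `det_real`:
`log n! + n log (20 (n+1)^4) ≥ log |D| ≥ -(n^2/2 + 2n) log 2 - n ∑_{q ≤ n/2} Nat.log q (2n) log q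
 + ∑_{n/2<q≤4n} (phi n q - 2) log q - 1.5 n log p N`, `N` = number of primes `q ≤ p`, not `IsPW`.
With `small`, `gain`, `log 2 < .6932`: `1.5 n log p N ≥ (.985 - .505 - .3466) n^2 - o(n^2) ≥ .13 n^2`.
-/

set_option autoImplicit false

open Finset
open scoped Classical

namespace PWief

private theorem Below_log : ∃ n0 : ℕ, ∀ n : ℕ, n0 ≤ n →
    Real.log ((n : ℝ) + 1) ≤ 0.0005 * (n : ℝ) := by
  have h := Real.isLittleO_log_id_atTop.bound (show (0 : ℝ) < 0.0004 by norm_num)
  obtain ⟨x0, hx0⟩ := Filter.eventually_atTop.1 h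
  refine ⟨⌈x0⌉₊ + 100, fun n hn => ?_⟩
  have h1 : x0 ≤ (n : ℝ) + 1 := by
    have := Nat.le_ceil x0
    have h2 : ((⌈x0⌉₊ + 100 : ℕ) : ℝ) ≤ n := by exact_mod_cast hn
    push_cast at h2
    linarith
  have h2 := hx0 _ h1
  have h3 : (100 : ℝ) ≤ n := by exact_mod_cast (by omega : 100 ≤ n)
  simp only [Real.norm_eq_abs, id] at h2
  have h4 := (le_abs_self (Real.log ((n : ℝ) + 1))).trans h2
  rw [abs_of_pos (by linarith)] at h4
  nlinarith

private theorem Below_phi (n q : ℕ) : phi n q ≤ (n : ℝ) / 2 :=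
  (min_le_right _ _).trans (min_le_left _ _)

private noncomputable def Below_w (n q : ℕ) : ℝ :=
  if q = 2 then -((n : ℝ) ^ 2 + 4 * n) / 2
  else if q ≤ n / 2 then -((n : ℝ) * (Nat.log q (2 * n) : ℝ))
  else if IsPW q then phi n q - 2 else -(n : ℝ)

private theorem Below_w_le {n q : ℕ} (hn : 20 ≤ n) (hq : q.Prime) (hD : (M n).det ≠ 0) :
    Below_w n q ≤ (padicValRat q (M n).det : ℝ) := by
  unfold Below_w
  by_cases h2 : q = 2
  · subst h2
    rw [if_pos rfl]
    have h := val_two hD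
    have h' : ((-((n : ℤ) ^ 2 + 4 * n) : ℤ) : ℝ) ≤ ((2 * padicValRat 2 (M n).det : ℤ) : ℝ) :=
      Int.cast_le.2 h
    push_cast at h'
    linarith
  · rw [if_neg h2]
    have hall := val_all hq h2 hD
    have hall' : ((-((n : ℤ) * (Nat.log q (2 * n) : ℤ)) : ℤ) : ℝ) ≤
        ((padicValRat q (M n).det : ℤ) : ℝ) := Int.cast_le.2 hall
    push_cast at hall'
    by_cases h3 : q ≤ n / 2
    · rw [if_pos h3]
      exact hall'
    · rw [if_neg h3]
      by_cases h4 : IsPW q
      · rw [if_pos h4]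
        exact val_low h4 (by omega) hD
      · rw [if_neg h4]
        have h5 : Nat.log q (2 * n) ≤ 1 := by
          have h6 : Nat.log q (2 * n) < 2 := by
            refine Nat.log_lt_of_lt_pow (by omega) ?_
            have h7 : n + 1 ≤ 2 * q := by omega
            nlinarith
          omega
        have h6 : (Nat.log q (2 * n) : ℝ) ≤ 1 := by exact_mod_cast h5
        have h7 : (0 : ℝ) ≤ n := Nat.cast_nonneg n
        nlinarith

private theorem Below_big {n q : ℕ} (hn : 20 ≤ n) (hq : q.Prime) (h : 4 * n < q)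
    (hD : (M n).det ≠ 0) : 0 ≤ padicValRat q (M n).det := by
  have h1 := val_all hq (by omega) hD
  rw [Nat.log_of_lt (by omega : 2 * n < q)] at h1
  simpa using h1

private theorem Below_main {n p : ℕ} (hn : 20 ≤ n) (hp : p.Prime) (hp1 : 4 * n ≤ p + 1)
    (hp2 : 4 < p) (hD : (M n).det ≠ 0) :
    -(((n : ℝ) ^ 2 + 4 * n) / 2 * Real.log 2) -
      n * (∑ q ∈ (range (n / 2 + 1)).filter Nat.Prime, (Nat.log q (2 * n) : ℝ) * Real.log q) +
      ∑ q ∈ (Ioc (n / 2) (4 * n)).filter Nat.Prime, (phi n q - 2) * Real.log q -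
      1.5 * n * Real.log p *
        (((range (p + 1)).filter (fun q => q.Prime ∧ ¬ IsPW q)).card : ℝ) ≤
    Real.log |(((M n).det : ℚ) : ℝ)| := by
  have h0 := log_ge hD (4 * n) (Below_w n) (fun q hq _ => Below_w_le hn hq hD)
    (fun q hq h => Below_big hn hq h hD)
  refine le_trans ?_ h0
  have hs : (range (4 * n + 1)).filter Nat.Prime = (range (n / 2 + 1)).filter Nat.Prime ∪
      (Ioc (n / 2) (4 * n)).filter Nat.Prime := by
    rw [← filter_union]
    congr 1
    ext q
    simp only [mem_range, mem_union, mem_Ioc]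
    omega
  have hd : Disjoint ((range (n / 2 + 1)).filter Nat.Prime)
      ((Ioc (n / 2) (4 * n)).filter Nat.Prime) := by
    rw [disjoint_left]
    intro q hq hq'
    simp only [mem_filter, mem_range, mem_Ioc] at hq hq'
    omega
  rw [hs, sum_union hd]
  have hn0 : (0 : ℝ) ≤ n := Nat.cast_nonneg n
  have e1 : -(((n : ℝ) ^ 2 + 4 * n) / 2 * Real.log 2) -
      n * (∑ q ∈ (range (n / 2 + 1)).filter Nat.Prime, (Nat.log q (2 * n) : ℝ) * Real.log q) ≤
      ∑ q ∈ (range (n / 2 + 1)).filter Nat.Prime, Below_w n q * Real.log q := by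
    have f1 : ∀ q ∈ (range (n / 2 + 1)).filter Nat.Prime,
        (if q = 2 then -(((n : ℝ) ^ 2 + 4 * n) / 2 * Real.log 2) else 0) -
          n * ((Nat.log q (2 * n) : ℝ) * Real.log q) ≤ Below_w n q * Real.log q := by
      intro q hq
      obtain ⟨hq1, hq2⟩ := mem_filter.1 hq
      rw [mem_range] at hq1
      have hlog : 0 ≤ Real.log (q : ℝ) := Real.log_natCast_nonneg q
      unfold Below_w
      by_cases h2 : q = 2
      · subst h2
        rw [if_pos rfl, if_pos rfl]
        have : 0 ≤ (n : ℝ) * ((Nat.log 2 (2 * n) : ℝ) * Real.log (2 : ℕ)) := by positivity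
        push_cast at this ⊢
        linarith
      · rw [if_neg h2, if_neg h2, if_pos (by omega)]
        linarith
    refine le_trans ?_ (sum_le_sum f1)
    rw [sum_sub_distrib, ← mul_sum, sum_ite_eq' ((range (n / 2 + 1)).filter Nat.Prime) 2]
    rw [if_pos (mem_filter.2 ⟨mem_range.2 (by omega), Nat.prime_two⟩)]
  have e2 : ∑ q ∈ (Ioc (n / 2) (4 * n)).filter Nat.Prime, (phi n q - 2) * Real.log q -
      1.5 * n * Real.log p *
        (((range (p + 1)).filter (fun q => q.Prime ∧ ¬ IsPW q)).card : ℝ) ≤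
      ∑ q ∈ (Ioc (n / 2) (4 * n)).filter Nat.Prime, Below_w n q * Real.log q := by
    have hle : ∀ q ∈ (Ioc (n / 2) (4 * n)).filter Nat.Prime, q ≤ p := by
      intro q hq
      obtain ⟨hq1, hq2⟩ := mem_filter.1 hq
      rw [mem_Ioc] at hq1
      by_contra hc
      have hqp : q = p + 1 := by omega
      rcases hq2.eq_two_or_odd with h | h
      · omega
      · rcases hp.eq_two_or_odd with h' | h' <;> omega
    have g1 : ∀ q ∈ (Ioc (n / 2) (4 * n)).filter Nat.Prime,
        (phi n q - 2) * Real.log q - (if IsPW q then 0 else 1.5 * n * Real.log p) ≤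
          Below_w n q * Real.log q := by
      intro q hq
      have hqp := hle q hq
      obtain ⟨hq1, hq2⟩ := mem_filter.1 hq
      rw [mem_Ioc] at hq1
      have hlog : 0 ≤ Real.log (q : ℝ) := Real.log_natCast_nonneg q
      have hlog2 : Real.log (q : ℝ) ≤ Real.log p := by
        refine Real.log_le_log (by exact_mod_cast hq2.pos) (by exact_mod_cast hqp)
      unfold Below_w
      rw [if_neg (show ¬ q = 2 by omega), if_neg (show ¬ q ≤ n / 2 by omega)]
      by_cases h4 : IsPW q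
      · rw [if_pos h4, if_pos h4]
        linarith
      · rw [if_neg h4, if_neg h4]
        have h5 := Below_phi n q
        have h6 : (phi n q - 2 + n) * Real.log q ≤ 1.5 * n * Real.log p := by
          have h7 : (phi n q - 2 + n) * Real.log q ≤ (1.5 * n) * Real.log q := by
            refine mul_le_mul_of_nonneg_right ?_ hlog
            linarith
          refine h7.trans ?_
          exact mul_le_mul_of_nonneg_left hlog2 (by positivity)
        linarith
    refine le_trans ?_ (sum_le_sum g1)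
    rw [sum_sub_distrib]
    refine sub_le_sub_left ?_ _
    have g2 : ∑ q ∈ (Ioc (n / 2) (4 * n)).filter Nat.Prime,
        (if IsPW q then (0 : ℝ) else 1.5 * n * Real.log p) =
        ∑ q ∈ ((Ioc (n / 2) (4 * n)).filter Nat.Prime).filter (fun q => ¬ IsPW q),
          1.5 * n * Real.log p := by
      rw [Finset.sum_filter (fun q => ¬ IsPW q)]
      refine sum_congr rfl fun q _ => ?_
      by_cases h4 : IsPW q <;> simp [h4]
    rw [g2, sum_const, nsmul_eq_mul, mul_comm]
    have hlogp : 0 ≤ Real.log (p : ℝ) := Real.log_natCast_nonneg p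
    refine mul_le_mul_of_nonneg_left ?_ (by positivity)
    refine Nat.cast_le.2 (card_le_card fun q hq => ?_)
    obtain ⟨hq1, hq2⟩ := mem_filter.1 hq
    have := hle q hq1
    exact mem_filter.2 ⟨mem_range.2 (by omega), (mem_filter.1 hq1).2, hq2⟩
  linarith

private theorem Below_logdet {n : ℕ} (hn : 20 ≤ n) (hD : (M n).det ≠ 0) :
    Real.log |(((M n).det : ℚ) : ℝ)| ≤ n * Real.log n + n * (Real.log 20 + 4 * Real.log (n + 1)) := by
  have h := det_real n
  generalize (M n).det = d at h hD ⊢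
  have h1 : |(d : ℝ)| ≤ (n.factorial : ℝ) * (20 * ((n : ℝ) + 1) ^ 4) ^ n := by
    have h2 : ((|d| : ℚ) : ℝ) ≤
        (((n.factorial : ℚ) * (20 * ((n : ℚ) + 1) ^ 4) ^ n : ℚ) : ℝ) := Rat.cast_le.2 h
    push_cast at h2
    exact h2
  have hpos : 0 < |(d : ℝ)| := abs_pos.2 (by exact_mod_cast hD)
  have h3 := Real.log_le_log hpos h1
  refine h3.trans ?_
  have hf : (0 : ℝ) < (n.factorial : ℝ) := by exact_mod_cast n.factorial_pos
  have hn0 : (0 : ℝ) < n := by exact_mod_cast (by omega : 0 < n)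
  rw [Real.log_mul hf.ne' (by positivity), Real.log_pow, Real.log_mul (by norm_num) (by positivity),
    Real.log_pow]
  have h4 : Real.log (n.factorial : ℝ) ≤ n * Real.log n := by
    rw [← Real.log_pow]
    refine Real.log_le_log hf ?_
    exact_mod_cast Nat.factorial_le_pow n
  push_cast
  linarith

theorem below : ∃ P0 : ℕ, ∀ p : ℕ, P0 ≤ p → IsPW p →
    (p : ℝ) / (60 * Real.log p) ≤
      (((range (p + 1)).filter (fun q => q.Prime ∧ ¬ IsPW q)).card : ℝ) := by
  obtain ⟨n1, h1⟩ := gain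
  obtain ⟨n2, h2⟩ := small
  obtain ⟨n3, h3⟩ := Below_log
  refine ⟨4 * (n1 + n2 + n3) + 100000, fun p hp hw => ?_⟩
  obtain ⟨n, hn⟩ : ∃ n, n = mp p := ⟨_, rfl⟩
  have hn' : n = (p + 1) / 4 := hn
  have hD : (M n).det ≠ 0 := by
    rw [hn]
    exact det_ne hw
  have b1 : 4 * n ≤ p + 1 := by omega
  have b2 : p ≤ 4 * n + 2 := by omega
  have b3 : 20000 ≤ n := by omega
  have c0 := Below_main (by omega) hw.1 b1 (by omega) hD
  have c1 := Below_logdet (by omega) hD
  have c2 := h1 n (by omega)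
  have c3 := h2 n (by omega)
  have c4 := h3 n (by omega)
  set N := (((range (p + 1)).filter (fun q => q.Prime ∧ ¬ IsPW q)).card : ℝ) with hN
  have hnr : (20000 : ℝ) ≤ n := by exact_mod_cast b3
  have hlp : 0 < Real.log (p : ℝ) := Real.log_pos (by exact_mod_cast (by omega : 1 < p))
  have c5 : Real.log (n : ℝ) ≤ 0.0005 * n :=
    (Real.log_le_log (by linarith) (by linarith)).trans c4
  have c6 : Real.log 20 ≤ 0.0005 * (n : ℝ) := by
    refine le_trans (Real.log_le_log (by norm_num) ?_) c4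
    linarith
  have c7 : (n : ℝ) * (∑ q ∈ (range (n / 2 + 1)).filter Nat.Prime,
      (Nat.log q (2 * n) : ℝ) * Real.log q) ≤ n * (0.505 * n) :=
    mul_le_mul_of_nonneg_left c3 (by linarith)
  have c8 : Real.log 2 < 0.6931472 := by
    have := Real.log_two_lt_d9
    linarith
  have c9 : ((n : ℝ) ^ 2 + 4 * n) / 2 * Real.log 2 ≤ ((n : ℝ) ^ 2 + 4 * n) / 2 * 0.6931472 :=
    mul_le_mul_of_nonneg_left c8.le (by positivity)
  have d1 : (n : ℝ) * Real.log n + n * (Real.log 20 + 4 * Real.log (n + 1)) ≤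
      n * (0.003 * n) := by
    have : Real.log (n : ℝ) + (Real.log 20 + 4 * Real.log ((n : ℝ) + 1)) ≤ 0.003 * n := by
      linarith
    calc (n : ℝ) * Real.log n + n * (Real.log 20 + 4 * Real.log (n + 1)) =
        n * (Real.log n + (Real.log 20 + 4 * Real.log (n + 1))) := by ring
      _ ≤ n * (0.003 * n) := mul_le_mul_of_nonneg_left this (by linarith)
  have d2 : 0.13 * (n : ℝ) ^ 2 ≤ 1.5 * n * Real.log p * N := by
    have d3 : (0.985 - 0.505 - 0.3465736 - 0.003) * (n : ℝ) ^ 2 - 1.3862944 * n ≤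
        1.5 * n * Real.log p * N := by
      nlinarith
    nlinarith
  have hn0 : (0 : ℝ) < n := by linarith
  have d4 : 0.13 * (n : ℝ) ≤ 1.5 * Real.log p * N := by
    have : (n : ℝ) * (0.13 * n) ≤ n * (1.5 * Real.log p * N) := by
      calc (n : ℝ) * (0.13 * n) = 0.13 * (n : ℝ) ^ 2 := by ring
        _ ≤ 1.5 * n * Real.log p * N := d2
        _ = n * (1.5 * Real.log p * N) := by ring
    exact le_of_mul_le_mul_left this hn0
  have d5 : (p : ℝ) ≤ 4 * n + 2 := by exact_mod_cast b2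
  rw [div_le_iff₀ (by positivity)]
  nlinarith

end PWief
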