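import Pool.Agent.Lib.PWief.DefsR

/-!
# PApi: `p`-integral rational numbers and congruences

PROOF. `padicNorm.nonarchimedean`, `padicNorm.mul`, `padicNorm.neg`, `padicNorm.of_int`, `padicNorm.of_nat`,
`padicNorm.int_eq_one_iff` / `padicNorm.nat_eq_one_iff` (`|m| = 1` iff `p ∤ m`), `padicNorm.int_lt_one_iff`;
`Finset.sum_induction`, `Finset.prod_induction`. `Cg.mul`: `x y - x' y' = (x - x') y + x' (y - y')`, `x'` is
`p`-integral because `x' = x - (x - x')`. Values of `padicNorm` are `0` or powers of `p`: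
`padicNorm.eq_zpow_of_nonzero`.
-/

set_option autoImplicit false

open Finset Polynomial

namespace PWief

variable {p : ℕ} [Fact p.Prime] {x y x' y' z : ℚ}

theorem pint_int (m : ℤ) : PInt p (m : ℚ) := padicNorm.of_int m

theorem pint_nat (m : ℕ) : PInt p (m : ℚ) := padicNorm.of_nat m

theorem PInt.add (hx : PInt p x) (hy : PInt p y) : PInt p (x + y) :=
  padicNorm.nonarchimedean.trans (max_le hx hy)

theorem PInt.neg (hx : PInt p x) : PInt p (-x) := by
  unfold PInt at *
  rwa [padicNorm.neg]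

theorem PInt.sub (hx : PInt p x) (hy : PInt p y) : PInt p (x - y) :=
  padicNorm.sub.trans (max_le hx hy)

theorem PInt.mul (hx : PInt p x) (hy : PInt p y) : PInt p (x * y) := by
  unfold PInt at *
  rw [padicNorm.mul]
  exact mul_le_one₀ hx (padicNorm.nonneg _) hy

theorem PInt.pow (hx : PInt p x) (k : ℕ) : PInt p (x ^ k) := by
  induction k with
  | zero => simpa using pint_nat (p := p) 1
  | succ k ih =>
    rw [pow_succ]
    exact ih.mul hx

theorem pint_sum {ι : Type*} (s : Finset ι) (f : ι → ℚ) (h : ∀ i ∈ s, PInt p (f i)) :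
    PInt p (∑ i ∈ s, f i) := by
  refine Finset.sum_induction f (PInt p) (fun _ _ => PInt.add) ?_ h
  simpa using pint_nat (p := p) 0

theorem pint_prod {ι : Type*} (s : Finset ι) (f : ι → ℚ) (h : ∀ i ∈ s, PInt p (f i)) :
    PInt p (∏ i ∈ s, f i) := by
  refine Finset.prod_induction f (PInt p) (fun _ _ => PInt.mul) ?_ h
  simpa using pint_nat (p := p) 1

theorem pint_inv {m : ℤ} (h : ¬ (p : ℤ) ∣ m) : PInt p (1 / (m : ℚ)) := by
  unfold PInt
  rw [padicNorm.div, (padicNorm.int_eq_one_iff m).2 h, padicNorm.one]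
  norm_num

theorem cg_refl (x : ℚ) : Cg p x x := by
  unfold Cg
  rw [sub_self, padicNorm.zero]
  norm_num

theorem Cg.symm (h : Cg p x y) : Cg p y x := by
  unfold Cg at *
  rwa [← neg_sub, padicNorm.neg]

private theorem PApi_add_lt {a b : ℚ} (ha : padicNorm p a < 1) (hb : padicNorm p b < 1) :
    padicNorm p (a + b) < 1 :=
  padicNorm.nonarchimedean.trans_lt (max_lt ha hb)

theorem Cg.trans (h : Cg p x y) (h' : Cg p y z) : Cg p x z := by
  have h1 : x - z = (x - y) + (y - z) := by ring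
  unfold Cg at *
  rw [h1]
  exact PApi_add_lt h h'

theorem Cg.add (h : Cg p x x') (h' : Cg p y y') : Cg p (x + y) (x' + y') := by
  have h1 : x + y - (x' + y') = (x - x') + (y - y') := by ring
  unfold Cg at *
  rw [h1]
  exact PApi_add_lt h h'

theorem Cg.neg (h : Cg p x x') : Cg p (-x) (-x') := by
  have h1 : -x - -x' = -(x - x') := by ring
  unfold Cg at *
  rwa [h1, padicNorm.neg]

theorem Cg.sub (h : Cg p x x') (h' : Cg p y y') : Cg p (x - y) (x' - y') := by
  rw [sub_eq_add_neg, sub_eq_add_neg]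
  exact h.add h'.neg

private theorem PApi_pint (h : Cg p x y) (hy : PInt p y) : PInt p x := by
  have h1 : x = (x - y) + y := by ring
  rw [h1]
  exact PInt.add (le_of_lt h) hy

theorem Cg.mul (h : Cg p x x') (h' : Cg p y y') (hx : PInt p x) (hy : PInt p y) :
    Cg p (x * y) (x' * y') := by
  have hx' : PInt p x' := PApi_pint h.symm hx
  have h1 : x * y - x' * y' = (x - x') * y + x' * (y - y') := by ring
  unfold Cg PInt at *
  rw [h1]
  refine PApi_add_lt ?_ ?_
  · rw [padicNorm.mul]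
    exact mul_lt_one_of_nonneg_of_lt_one_left (padicNorm.nonneg _) h hy
  · rw [padicNorm.mul]
    exact mul_lt_one_of_nonneg_of_lt_one_right hx' (padicNorm.nonneg _) h'

theorem cg_sum {ι : Type*} (s : Finset ι) (f g : ι → ℚ) (h : ∀ i ∈ s, Cg p (f i) (g i)) :
    Cg p (∑ i ∈ s, f i) (∑ i ∈ s, g i) := by
  classical
  induction s using Finset.induction_on with
  | empty => simpa using cg_refl (p := p) 0
  | insert a s ha ih =>
    rw [Finset.sum_insert ha, Finset.sum_insert ha]
    exact (h a (Finset.mem_insert_self a s)).add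
      (ih fun i hi => h i (Finset.mem_insert_of_mem hi))

theorem Cg.pint (h : Cg p x y) (hy : PInt p y) : PInt p x := PApi_pint h hy

theorem cg_int {a b : ℤ} : Cg p (a : ℚ) (b : ℚ) ↔ ((a : ZMod p) = (b : ZMod p)) := by
  unfold Cg
  rw [← Int.cast_sub, padicNorm.int_lt_one_iff, ← ZMod.intCast_zmod_eq_zero_iff_dvd]
  push_cast
  exact sub_eq_zero

theorem cg_inv {a b : ℤ} (h : (a : ZMod p) = (b : ZMod p)) (ha : ¬ (p : ℤ) ∣ a) :
    Cg p (1 / (a : ℚ)) (1 / (b : ℚ)) := by
  have hb : ¬ (p : ℤ) ∣ b := by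
    rw [← ZMod.intCast_zmod_eq_zero_iff_dvd] at *
    rwa [← h]
  have ha0 : (a : ℚ) ≠ 0 := by
    rintro h0
    have : a = 0 := by exact_mod_cast h0
    exact ha (this ▸ dvd_zero _)
  have hb0 : (b : ℚ) ≠ 0 := by
    rintro h0
    have : b = 0 := by exact_mod_cast h0
    exact hb (this ▸ dvd_zero _)
  have h1 : 1 / (a : ℚ) - 1 / (b : ℚ) = ((b : ℚ) - (a : ℚ)) * (1 / (a : ℚ)) * (1 / (b : ℚ)) := by
    field_simp
  have h2 : Cg p (b : ℚ) (a : ℚ) := cg_int.2 h.symm
  unfold Cg at *
  rw [h1, padicNorm.mul, padicNorm.mul, padicNorm.div, padicNorm.div, padicNorm.one,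
    (padicNorm.int_eq_one_iff a).2 ha, (padicNorm.int_eq_one_iff b).2 hb]
  simpa using h2

theorem cg_of_mul {m : ℤ} (hm : ¬ (p : ℤ) ∣ m) (h : Cg p (m * x) (m * y)) : Cg p x y := by
  unfold Cg at *
  rw [← mul_sub, padicNorm.mul, (padicNorm.int_eq_one_iff m).2 hm, one_mul] at h
  exact h

theorem cg_p_mul (hx : PInt p x) : Cg p ((p : ℚ) * x) 0 := by
  unfold Cg PInt at *
  rw [sub_zero, padicNorm.mul]
  exact mul_lt_one_of_nonneg_of_lt_one_left (padicNorm.nonneg _) padicNorm.padicNorm_p_lt_one_of_prime hx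

theorem pint_iff (hx : x ≠ 0) : PInt p x ↔ 0 ≤ padicValRat p x := by
  unfold PInt
  rw [padicNorm.eq_zpow_of_nonzero hx]
  have hp : (1 : ℚ) < p := by exact_mod_cast (Fact.out : p.Prime).one_lt
  rw [zpow_le_one_iff_right₀ hp]
  omega

theorem pint_eval {P : ℚ[X]} (hP : ∀ k, PInt p (P.coeff k)) (hx : PInt p x) : PInt p (P.eval x) := by
  rw [Polynomial.eval_eq_sum_range]
  exact pint_sum _ _ fun i _ => (hP i).mul (hx.pow i)

private theorem PApi_cg_pow (hx : PInt p x) (h : Cg p x y) (k : ℕ) : Cg p (x ^ k) (y ^ k) := by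
  induction k with
  | zero => simpa using cg_refl (p := p) 1
  | succ k ih =>
    rw [pow_succ, pow_succ]
    exact ih.mul h (hx.pow k) hx

theorem cg_eval {P : ℚ[X]} (hP : ∀ k, PInt p (P.coeff k)) (hx : PInt p x) (h : Cg p x y) :
    Cg p (P.eval x) (P.eval y) := by
  rw [Polynomial.eval_eq_sum_range, Polynomial.eval_eq_sum_range]
  exact cg_sum _ _ _ fun i _ => (cg_refl _).mul (PApi_cg_pow hx h i) (hP i) (hx.pow i)

end PWief
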