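import Pool.Agent.Lib.PWief.LLApi
import Pool.Agent.Lib.PWief.PApi

/-!
# TChn: chains of nodes with step 2
-/

set_option autoImplicit false

open Finset Polynomial

namespace PWief

private noncomputable def TChn_dd (e : ℚ) : ℚ := 4 / (4 * e - 1) - 4 / (4 * e - 3)

private theorem TChn_dd_symm (e : ℤ) : TChn_dd ((1 - e : ℤ) : ℚ) = TChn_dd (e : ℚ) := by
  unfold TChn_dd
  have h1 : (4 * (e : ℚ) - 1) ≠ 0 := by
    intro h
    have : (4 * e - 1 : ℤ) = 0 := by exact_mod_cast h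
    omega
  have h3 : (4 * (e : ℚ) - 3) ≠ 0 := by
    intro h
    have : (4 * e - 3 : ℤ) = 0 := by exact_mod_cast h
    omega
  have h1' : (4 * ((1 - e : ℤ) : ℚ) - 1) = -(4 * (e : ℚ) - 3) := by push_cast; ring
  have h3' : (4 * ((1 - e : ℤ) : ℚ) - 3) = -(4 * (e : ℚ) - 1) := by push_cast; ring
  rw [h1', h3', div_neg, div_neg]
  ring

private theorem TChn_kapN (e : ℕ) : kapN (e + 2) - kapN e = TChn_dd ((e : ℚ) + 2) := by
  unfold kapN
  have h1 : (Icc 1 (e + 2)).filter (fun j => j % 2 = (e + 2) % 2) =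
      insert (e + 2) ((Icc 1 e).filter (fun j => j % 2 = e % 2)) := by
    ext j
    simp only [mem_filter, mem_Icc, mem_insert]
    omega
  rw [h1, sum_insert]
  · unfold TChn_dd
    push_cast
    ring
  · simp

private theorem TChn_kap_nat (e : ℕ) : kap (e : ℤ) = kapN e := rfl

private theorem TChn_kap_neg (e : ℤ) : kap (-1 - e) = - kap e := by
  rcases lt_or_ge e 0 with h | h
  · obtain ⟨n, rfl⟩ := Int.eq_negSucc_of_lt_zero h
    have : (-1 - Int.negSucc n : ℤ) = ((n : ℕ) : ℤ) := by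
      rw [Int.negSucc_eq]; ring
    rw [this]
    change kapN n = - - kapN n
    rw [neg_neg]
  · obtain ⟨n, rfl⟩ := Int.eq_ofNat_of_zero_le h
    have : (-1 - (n : ℤ) : ℤ) = Int.negSucc n := by
      rw [Int.negSucc_eq]; ring
    rw [this]
    rfl

private theorem TChn_pos (e : ℤ) (h : 1 ≤ e) : kap e - kap (e - 2) = TChn_dd (e : ℚ) := by
  rcases eq_or_lt_of_le h with h1 | h1
  · subst h1
    have h0 : kap (1 - 2) = 0 := by
      change - kapN 0 = 0
      simp [kapN]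
    rw [h0, sub_zero]
    have : kap (1 : ℤ) = kapN 1 := rfl
    rw [this]
    simp [kapN, TChn_dd, Finset.sum_filter]
  · obtain ⟨n, rfl⟩ : ∃ n : ℕ, e = (n : ℤ) + 2 := ⟨(e - 2).toNat, by omega⟩
    have h2 : ((n : ℤ) + 2 - 2) = (n : ℤ) := by ring
    have h3 : ((n : ℤ) + 2) = ((n + 2 : ℕ) : ℤ) := by push_cast; ring
    rw [h2, h3, TChn_kap_nat, TChn_kap_nat, TChn_kapN]
    push_cast
    rfl

theorem kap_step (e : ℤ) : kap e - kap (e - 2) = 4 / (4 * (e : ℚ) - 1) - 4 / (4 * (e : ℚ) - 3) := by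
  change kap e - kap (e - 2) = TChn_dd (e : ℚ)
  rcases lt_or_ge 0 e with h | h
  · exact TChn_pos e h
  · -- `e ≤ 0`
    have h1 := TChn_pos (1 - e) (by omega)
    have h2 : kap (1 - e) = - kap (e - 2) := by
      rw [← TChn_kap_neg]
      congr 1
      ring
    have h3 : kap (1 - e - 2) = - kap e := by
      rw [← TChn_kap_neg]
      congr 1
      ring
    rw [h2, h3, TChn_dd_symm] at h1
    linarith

private theorem TChn_mem {a : ℤ} {k : ℕ} {x : ℤ} :
    x ∈ chn a k ↔ ∃ i < k, a + 2 * (i : ℤ) = x := by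
  unfold chn
  simp [mem_image, mem_range]

private theorem TChn_first (a : ℤ) (k : ℕ) : (chn a (k + 1)).erase a = chn (a + 2) k := by
  ext x
  rw [mem_erase, TChn_mem, TChn_mem]
  constructor
  · rintro ⟨h1, i, hi, h2⟩
    have hi0 : i ≠ 0 := by
      rintro rfl
      apply h1
      rw [← h2]; simp
    refine ⟨i - 1, by omega, ?_⟩
    have : ((i - 1 : ℕ) : ℤ) = (i : ℤ) - 1 := by omega
    rw [this, ← h2]
    ring
  · rintro ⟨i, hi, h2⟩
    refine ⟨by omega, i + 1, by omega, ?_⟩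
    rw [← h2]
    push_cast
    ring

private theorem TChn_last (a : ℤ) (k : ℕ) :
    (chn a (k + 1)).erase (a + 2 * (k : ℤ)) = chn a k := by
  ext x
  rw [mem_erase, TChn_mem, TChn_mem]
  constructor
  · rintro ⟨h1, i, hi, h2⟩
    refine ⟨i, ?_, h2⟩
    rcases Nat.lt_or_ge i k with h | h
    · exact h
    · exfalso
      have : i = k := by omega
      subst this
      exact h1 h2.symm
  · rintro ⟨i, hi, h2⟩
    exact ⟨by omega, i, by omega, h2⟩

private theorem TChn_U0 (a : ℤ) (i : ℕ) : (1 - 4 * (a : ℚ) - 8 * (i : ℚ)) ≠ 0 := by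
  intro h
  have : (1 - 4 * a - 8 * (i : ℤ) : ℤ) = 0 := by exact_mod_cast h
  omega

private theorem TChn_V0 (a : ℤ) (i : ℕ) : (3 - 4 * (a : ℚ) - 8 * (i : ℚ)) ≠ 0 := by
  intro h
  have : (3 - 4 * a - 8 * (i : ℤ) : ℤ) = 0 := by exact_mod_cast h
  omega

private theorem TChn_shift (a : ℤ) (c : ℚ) (k : ℕ) :
    (∏ i ∈ Icc 1 (k + 1), (c - 4 * (a : ℚ) - 8 * (i : ℚ))) =
      (c - 4 * (a : ℚ) - 8) *
        ∏ i ∈ Icc 1 k, (c - 4 * ((a + 2 : ℤ) : ℚ) - 8 * (i : ℚ)) := by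
  induction k with
  | zero => simp
  | succ k ih =>
    rw [Finset.prod_Icc_succ_top (by omega), ih, Finset.prod_Icc_succ_top (by omega)]
    push_cast
    ring

theorem LL_chn (a : ℤ) {k : ℕ} (hk : 1 ≤ k) :
    LL (chn a (k + 1)) 1 = -((4 : ℚ) ^ k / (2 * k)) *
      (1 / (∏ i ∈ Icc 1 k, (1 - 4 * (a : ℚ) - 8 * (i : ℚ))) -
        1 / (∏ i ∈ Icc 1 k, (3 - 4 * (a : ℚ) - 8 * (i : ℚ)))) := by
  have hres : ∀ (a : ℤ) (k : ℕ), ((2 : ℚ) * ((k : ℚ) + 1)) * LL (chn a (k + 2)) 1 =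
      LL (chn (a + 2) (k + 1)) 1 - LL (chn a (k + 1)) 1 := by
    intro a k
    have ha : a + 2 * ((k + 1 : ℕ) : ℤ) ∈ chn a (k + 2) :=
      TChn_mem.2 ⟨k + 1, by omega, rfl⟩
    have hb : a ∈ chn a (k + 2) := TChn_mem.2 ⟨0, by omega, by simp⟩
    have hab : a + 2 * ((k + 1 : ℕ) : ℤ) ≠ a := by omega
    have h := LL_res ha hb hab 1
    have e1 : (chn a (k + 2)).erase a = chn (a + 2) (k + 1) := TChn_first a (k + 1)
    have e2 : (chn a (k + 2)).erase (a + 2 * ((k + 1 : ℕ) : ℤ)) = chn a (k + 1) :=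
      TChn_last a (k + 1)
    rw [e1, e2] at h
    rw [← h]
    push_cast
    ring
  induction k, hk using Nat.le_induction generalizing a with
  | base =>
    have h := hres a 0
    have h1 : ∀ b : ℤ, chn b (0 + 1) = {b} := by
      intro b
      unfold chn
      simp
    rw [h1, h1, LL_single, LL_single] at h
    have h2 : ∀ b : ℤ, SS b 1 = kap b := by
      intro b
      unfold SS
      have : (1 : ℚ[X]) /ₘ (X - C (b : ℚ)) = 0 := by
        rw [divByMonic_eq_zero_iff (monic_X_sub_C _), degree_one, degree_X_sub_C]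
        exact zero_lt_one
      rw [this, map_zero, eval_one, one_mul, add_zero]
    rw [h2, h2] at h
    have h3 := kap_step (a + 2)
    have h4 : a + 2 - 2 = a := by ring
    rw [h4] at h3
    rw [h3] at h
    have hU := TChn_U0 a 1
    have hV := TChn_V0 a 1
    rw [Nat.cast_one] at hU hV
    have e1 : 4 * ((a + 2 : ℤ) : ℚ) - 1 = -(1 - 4 * (a : ℚ) - 8 * 1) := by push_cast; ring
    have e2 : 4 * ((a + 2 : ℤ) : ℚ) - 3 = -(3 - 4 * (a : ℚ) - 8 * 1) := by push_cast; ring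
    rw [e1, e2, div_neg, div_neg] at h
    rw [Finset.Icc_self, prod_singleton, prod_singleton, Nat.cast_one]
    have h5 : chn a (0 + 2) = chn a (1 + 1) := rfl
    rw [h5] at h
    have h6 : LL (chn a (1 + 1)) 1 = (-(4 / (1 - 4 * (a : ℚ) - 8 * 1)) -
        -(4 / (3 - 4 * (a : ℚ) - 8 * 1))) / 2 := by
      rw [← h]
      push_cast
      ring
    rw [h6]
    ring
  | succ k hk ih =>
    have h := hres a k
    rw [ih a, ih (a + 2)] at h
    have hk0 : (k : ℚ) ≠ 0 := by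
      have : k ≠ 0 := by omega
      exact_mod_cast this
    have hk1 : (k : ℚ) + 1 ≠ 0 := by positivity
    have hU : (∏ i ∈ Icc 1 (k + 1), (1 - 4 * (a : ℚ) - 8 * (i : ℚ))) ≠ 0 :=
      Finset.prod_ne_zero_iff.2 fun i _ => TChn_U0 a i
    have hV : (∏ i ∈ Icc 1 (k + 1), (3 - 4 * (a : ℚ) - 8 * (i : ℚ))) ≠ 0 :=
      Finset.prod_ne_zero_iff.2 fun i _ => TChn_V0 a i
    have hU1 := TChn_shift a 1 k
    have hV1 := TChn_shift a 3 k
    have hU2 : (∏ i ∈ Icc 1 (k + 1), (1 - 4 * (a : ℚ) - 8 * (i : ℚ))) =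
        (∏ i ∈ Icc 1 k, (1 - 4 * (a : ℚ) - 8 * (i : ℚ))) *
          (1 - 4 * (a : ℚ) - 8 * ((k : ℚ) + 1)) := by
      rw [Finset.prod_Icc_succ_top (by omega)]
      push_cast
      rfl
    have hV2 : (∏ i ∈ Icc 1 (k + 1), (3 - 4 * (a : ℚ) - 8 * (i : ℚ))) =
        (∏ i ∈ Icc 1 k, (3 - 4 * (a : ℚ) - 8 * (i : ℚ))) *
          (3 - 4 * (a : ℚ) - 8 * ((k : ℚ) + 1)) := by
      rw [Finset.prod_Icc_succ_top (by omega)]
      push_cast
      rfl
    set U := ∏ i ∈ Icc 1 (k + 1), (1 - 4 * (a : ℚ) - 8 * (i : ℚ))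
    set V := ∏ i ∈ Icc 1 (k + 1), (3 - 4 * (a : ℚ) - 8 * (i : ℚ))
    set u1 := ∏ i ∈ Icc 1 k, (1 - 4 * ((a + 2 : ℤ) : ℚ) - 8 * (i : ℚ))
    set v1 := ∏ i ∈ Icc 1 k, (3 - 4 * ((a + 2 : ℤ) : ℚ) - 8 * (i : ℚ))
    set u2 := ∏ i ∈ Icc 1 k, (1 - 4 * (a : ℚ) - 8 * (i : ℚ))
    set v2 := ∏ i ∈ Icc 1 k, (3 - 4 * (a : ℚ) - 8 * (i : ℚ))
    have a1 : 1 / u1 = (1 - 4 * (a : ℚ) - 8) / U := by
      have : u1 ≠ 0 := fun h => hU (by rw [hU1, h, mul_zero])
      rw [div_eq_div_iff this hU, hU1, one_mul]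
    have a2 : 1 / v1 = (3 - 4 * (a : ℚ) - 8) / V := by
      have : v1 ≠ 0 := fun h => hV (by rw [hV1, h, mul_zero])
      rw [div_eq_div_iff this hV, hV1, one_mul]
    have a3 : 1 / u2 = (1 - 4 * (a : ℚ) - 8 * ((k : ℚ) + 1)) / U := by
      have : u2 ≠ 0 := fun h => hU (by rw [hU2, h, zero_mul])
      rw [div_eq_div_iff this hU, hU2, one_mul, mul_comm]
    have a4 : 1 / v2 = (3 - 4 * (a : ℚ) - 8 * ((k : ℚ) + 1)) / V := by
      have : v2 ≠ 0 := fun h => hV (by rw [hV2, h, zero_mul])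
      rw [div_eq_div_iff this hV, hV2, one_mul, mul_comm]
    rw [a1, a2, a3, a4] at h
    have h5 : chn a (k + 2) = chn a (k + 1 + 1) := rfl
    rw [h5] at h
    have h6 : LL (chn a (k + 1 + 1)) 1 = (-(4 ^ k / (2 * (k : ℚ))) *
        ((1 - 4 * (a : ℚ) - 8) / U - (3 - 4 * (a : ℚ) - 8) / V) -
        -(4 ^ k / (2 * (k : ℚ))) * ((1 - 4 * (a : ℚ) - 8 * ((k : ℚ) + 1)) / U -
          (3 - 4 * (a : ℚ) - 8 * ((k : ℚ) + 1)) / V)) / (2 * ((k : ℚ) + 1)) := by
      rw [← h, mul_div_cancel_left₀]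
      positivity
    rw [h6]
    push_cast
    field_simp
    ring

private theorem TChn_odd (m : ℤ) (h : m % 2 = 1) : PInt 2 (1 / (m : ℚ)) := by
  have : Fact (Nat.Prime 2) := ⟨Nat.prime_two⟩
  exact pint_inv (p := 2) (by
    rw [Nat.cast_ofNat]
    omega)

private theorem TChn_kapN_int (n : ℕ) : PInt 2 (kapN n) := by
  have : Fact (Nat.Prime 2) := ⟨Nat.prime_two⟩
  unfold kapN
  refine pint_sum _ _ fun j _ => ?_
  have h1 : (4 / (4 * (j : ℚ) - 1) : ℚ) = ((4 : ℤ) : ℚ) * (1 / ((4 * (j : ℤ) - 1 : ℤ) : ℚ)) := by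
    push_cast
    ring
  have h3 : (4 / (4 * (j : ℚ) - 3) : ℚ) = ((4 : ℤ) : ℚ) * (1 / ((4 * (j : ℤ) - 3 : ℤ) : ℚ)) := by
    push_cast
    ring
  rw [h1, h3]
  exact ((pint_int 4).mul (TChn_odd _ (by omega))).sub ((pint_int 4).mul (TChn_odd _ (by omega)))

private theorem TChn_kap_int (a : ℤ) : PInt 2 (kap a) := by
  have : Fact (Nat.Prime 2) := ⟨Nat.prime_two⟩
  cases a with
  | ofNat n => exact TChn_kapN_int n
  | negSucc n => exact (TChn_kapN_int n).neg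

theorem two_chn (a : ℤ) {k : ℕ} (hk : 1 ≤ k) : PInt 2 (LL (chn a k) 1) := by
  have : Fact (Nat.Prime 2) := ⟨Nat.prime_two⟩
  rcases eq_or_lt_of_le hk with h1 | h1
  · subst h1
    have h2 : chn a 1 = {a} := by
      unfold chn
      simp
    rw [h2, LL_single]
    unfold SS
    have : (1 : ℚ[X]) /ₘ (X - C (a : ℚ)) = 0 := by
      rw [divByMonic_eq_zero_iff (monic_X_sub_C _), degree_one, degree_X_sub_C]
      exact zero_lt_one
    rw [this, map_zero, eval_one, one_mul, add_zero]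
    exact TChn_kap_int a
  · obtain ⟨n, rfl⟩ : ∃ n, k = n + 1 := ⟨k - 1, by omega⟩
    have hn : 1 ≤ n := by omega
    rw [LL_chn a hn]
    have hU : PInt 2 (1 / (∏ i ∈ Icc 1 n, (1 - 4 * (a : ℚ) - 8 * (i : ℚ)))) := by
      rw [one_div, ← Finset.prod_inv_distrib]
      refine pint_prod _ _ fun i _ => ?_
      have h2 := TChn_odd (1 - 4 * a - 8 * (i : ℤ)) (by omega)
      push_cast at h2
      rwa [one_div] at h2
    have hV : PInt 2 (1 / (∏ i ∈ Icc 1 n, (3 - 4 * (a : ℚ) - 8 * (i : ℚ)))) := by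
      rw [one_div, ← Finset.prod_inv_distrib]
      refine pint_prod _ _ fun i _ => ?_
      have h2 := TChn_odd (3 - 4 * a - 8 * (i : ℤ)) (by omega)
      push_cast at h2
      rwa [one_div] at h2
    have hc : PInt 2 ((4 : ℚ) ^ n / (2 * n)) := by
      obtain ⟨v, m, hm, hv⟩ := Nat.exists_eq_two_pow_mul_odd (n := n) (by omega)
      have hvn : v < n := by
        have h2 : 2 ^ v ≤ n := by
          rw [hv]
          exact Nat.le_mul_of_pos_right _ (by rcases hm with ⟨t, ht⟩; omega)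
        exact lt_of_lt_of_le Nat.lt_two_pow_self h2
      have h3 : (4 : ℚ) ^ n / (2 * n) = ((2 ^ (2 * n - 1 - v) : ℕ) : ℚ) * (1 / ((m : ℤ) : ℚ)) := by
        have hm0 : (m : ℚ) ≠ 0 := by
          rcases hm with ⟨t, ht⟩
          have : m ≠ 0 := by omega
          exact_mod_cast this
        have h4 : (n : ℚ) = 2 ^ v * (m : ℚ) := by exact_mod_cast hv
        have h5 : (4 : ℚ) ^ n = 2 ^ (2 * n - 1 - v) * (2 ^ v * 2) := by
          have : (4 : ℚ) = 2 ^ 2 := by norm_num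
          rw [this, ← pow_mul, ← pow_succ, ← pow_add]
          congr 1
          omega
        rw [h5]
        conv_lhs => rw [h4]
        push_cast
        field_simp
      rw [h3]
      exact (pint_nat _).mul (TChn_odd _ (by rcases hm with ⟨t, ht⟩; omega))
    exact hc.neg.mul (hU.sub hV)

end PWief
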