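import Pool.Agent.Lib.PWief.Defs

/-!
# The Pell world: `∑ 1/s = 0` over `Ω_p`

In `R = (ZMod p²)[ζ]`, `ζ⁴ = -1`, `w = ζ - ζ³` (so `w² = 2`): with `f k = p / k` one has
`(1 - ω)^p = 1 - ω^p - ∑_{k<p} f k ω^k`, the reflection `k ↦ 2p - k` gives
`2 (1 + ω^p) (1 - ω)^p = (1 + ω^(2c)) (2 - U) - 2 ω^c B` (`c = 3` or `1` for `p = 1` resp. `3` mod 4,
`B = 2 ∑_{k = c (8), k < 2p} f k`), and `ω = ζ, ζ³` give `(1 + w)^p = (1 ± w)(1 ± w B)`. If `p² ∣ P_k`,
`(1 + w)^k` is rational, hence `k B = 0`.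
-/

set_option autoImplicit false

open Finset Polynomial

namespace PWief

/-- `p / k` modulo `p²`, and `0` if `p ∣ k` -/
private noncomputable def wf (p k : ℕ) : ZMod (p ^ 2) :=
  if p ∣ k then 0 else (p : ZMod (p ^ 2)) * (k : ZMod (p ^ 2))⁻¹

private theorem wf_dvd {p k : ℕ} (h : p ∣ k) : wf p k = 0 := if_pos h

private theorem pp (p : ℕ) : (p : ZMod (p ^ 2)) * p = 0 := by
  have := ZMod.natCast_self (p ^ 2)
  rw [← Nat.cast_mul, ← pow_two]
  exact this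

private theorem wf_inv {p k : ℕ} (hp : p.Prime) (h : ¬ p ∣ k) :
    (k : ZMod (p ^ 2)) * (k : ZMod (p ^ 2))⁻¹ = 1 :=
  ZMod.coe_mul_inv_eq_one k (Nat.Coprime.pow_right 2 ((Nat.Prime.coprime_iff_not_dvd hp).2 h).symm)

private theorem wf_uniq {p k : ℕ} (hp : p.Prime) (h : ¬ p ∣ k) {y : ZMod (p ^ 2)}
    (hy : (k : ZMod (p ^ 2)) * y = (p : ZMod (p ^ 2))) : wf p k = y := by
  have h1 := wf_inv hp h
  unfold wf
  rw [if_neg h]
  linear_combination y * h1 - (k : ZMod (p ^ 2))⁻¹ * hy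

private theorem wf_mul {p k : ℕ} (hp : p.Prime) (h : ¬ p ∣ k) :
    (k : ZMod (p ^ 2)) * wf p k = (p : ZMod (p ^ 2)) := by
  have h1 := wf_inv hp h
  unfold wf
  rw [if_neg h]
  linear_combination (p : ZMod (p ^ 2)) * h1

private theorem wf_p (p k : ℕ) : (p : ZMod (p ^ 2)) * wf p k = 0 := by
  unfold wf
  split
  · simp
  · rw [← mul_assoc, pp, zero_mul]

private theorem wf_add (p k : ℕ) (hp : p.Prime) : wf p (k + p) = wf p k := by
  by_cases h : p ∣ k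
  · rw [wf_dvd h, wf_dvd (Dvd.dvd.add h (dvd_refl p))]
  · have h' : ¬ p ∣ k + p := fun e => h ((Nat.dvd_add_left (dvd_refl p)).1 e)
    apply wf_uniq hp h'
    rw [Nat.cast_add, add_mul, wf_p, wf_mul hp h, add_zero]

private theorem wf_refl (p k : ℕ) (hp : p.Prime) (hk : k ≤ 2 * p) : wf p (2 * p - k) = - wf p k := by
  by_cases h : p ∣ k
  · rw [wf_dvd h, wf_dvd (Nat.dvd_sub (Dvd.intro_left 2 rfl) h), neg_zero]
  · have h' : ¬ p ∣ 2 * p - k := by
      intro e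
      apply h
      have := Nat.dvd_sub (Dvd.intro_left 2 rfl : p ∣ 2 * p) e
      rwa [Nat.sub_sub_self hk] at this
    apply wf_uniq hp h'
    rw [Nat.cast_sub hk, Nat.cast_mul, sub_mul]
    have h1 := wf_p p k
    have h2 := wf_mul hp h
    push_cast
    linear_combination -2 * h1 + h2

/-- `p C(p-1, j) = p (-1)^j` modulo `p²` -/
private theorem choose_pred {p : ℕ} (hp : p.Prime) (j : ℕ) (hj : j < p) :
    (p : ZMod (p ^ 2)) * ((p - 1).choose j : ℕ) = p * (-1) ^ j := by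
  induction j with
  | zero => simp
  | succ j ih =>
    have ih' := ih (by omega)
    have h1 : (p - 1).choose j + (p - 1).choose (j + 1) = p.choose (j + 1) := by
      have := Nat.choose_succ_succ (p - 1) j
      rw [Nat.succ_eq_add_one, Nat.sub_add_cancel hp.one_lt.le] at this
      exact this.symm
    obtain ⟨c, hc⟩ := hp.dvd_choose_self (Nat.succ_ne_zero j) hj
    have h2 : (p : ZMod (p ^ 2)) * ((p - 1).choose j : ℕ) + p * ((p - 1).choose (j + 1) : ℕ) = 0 := by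
      rw [← mul_add, ← Nat.cast_add, h1]
      rw [Nat.succ_eq_add_one] at hc
      rw [hc, Nat.cast_mul, ← mul_assoc, pp, zero_mul]
    rw [pow_succ (-1 : ZMod (p ^ 2)) j]
    linear_combination h2 - ih'

private theorem choose_wf {p k : ℕ} (hp : p.Prime) (h0 : 0 < k) (hk : k < p) :
    (-1 : ZMod (p ^ 2)) ^ k * (p.choose k : ℕ) = - wf p k := by
  have hnd : ¬ p ∣ k := fun e => absurd (Nat.le_of_dvd h0 e) (by omega)
  have h1 : wf p k = - ((-1 : ZMod (p ^ 2)) ^ k * (p.choose k : ℕ)) := by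
    apply wf_uniq hp hnd
    obtain ⟨j, rfl⟩ : ∃ j, k = j + 1 := ⟨k - 1, by omega⟩
    have h2 := choose_pred hp j (by omega)
    have h3 : p * (p - 1).choose j = p.choose (j + 1) * (j + 1) := by
      have := Nat.add_one_mul_choose_eq (p - 1) j
      rw [Nat.sub_add_cancel hp.one_lt.le] at this
      exact this
    have h4 : (p : ZMod (p ^ 2)) * ((p - 1).choose j : ℕ) =
        (p.choose (j + 1) : ℕ) * ((j + 1 : ℕ) : ZMod (p ^ 2)) := by
      rw [← Nat.cast_mul, h3, Nat.cast_mul]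
    have h5 : ((-1 : ZMod (p ^ 2)) ^ j) * (-1) ^ j = 1 := by
      rw [← mul_pow]; simp
    rw [pow_succ (-1 : ZMod (p ^ 2)) j]
    linear_combination (-1) ^ j * h2 - (-1) ^ j * h4 + (p : ZMod (p ^ 2)) * h5
  rw [h1, neg_neg]

section ring

variable {p : ℕ} {R : Type*} [CommRing R] [Algebra (ZMod (p ^ 2)) R]

private theorem one_sub_pow (hp : p.Prime) (h2 : p ≠ 2) (ω : R) :
    (1 - ω) ^ p = 1 - ω ^ p - ∑ k ∈ range p, algebraMap (ZMod (p ^ 2)) R (wf p k) * ω ^ k := by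
  have hodd : Odd p := hp.odd_of_ne_two h2
  obtain ⟨q, hq⟩ : ∃ q, p = q + 1 := ⟨p - 1, by have := hp.one_lt; omega⟩
  have h1 : (1 - ω) ^ p = ∑ k ∈ range (q + 1 + 1), (-ω) ^ k * 1 ^ (p - k) *
      (p.choose k : ℕ) := by
    rw [← hq, ← add_pow]; ring_nf
  have hr : range p = range (q + 1) := by rw [hq]
  rw [h1, hr, Finset.sum_range_succ, Finset.sum_range_succ', Finset.sum_range_succ' (n := q),
    wf_dvd (dvd_zero _)]
  have h3 : ∑ k ∈ range q, (-ω) ^ (k + 1) * 1 ^ (p - (k + 1)) * (p.choose (k + 1) : ℕ) =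
      - ∑ k ∈ range q, algebraMap (ZMod (p ^ 2)) R (wf p (k + 1)) * ω ^ (k + 1) := by
    rw [← Finset.sum_neg_distrib]
    apply Finset.sum_congr rfl
    intro k hk
    have hk' := Finset.mem_range.1 hk
    have h4 := choose_wf hp (Nat.succ_pos k) (by omega : k + 1 < p)
    have h5 : algebraMap (ZMod (p ^ 2)) R (((-1 : ZMod (p ^ 2)) ^ (k + 1)) * ((p.choose (k + 1) : ℕ) : ZMod (p ^ 2))) =
        algebraMap (ZMod (p ^ 2)) R (- wf p (k + 1)) := congrArg _ h4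
    rw [map_mul, map_pow, map_neg, map_one, map_natCast, map_neg] at h5
    rw [neg_pow ω, one_pow, mul_one]
    linear_combination ω ^ (k + 1) * h5
  rw [h3, ← hq, Nat.choose_self, hodd.neg_pow]
  simp
  ring

private theorem sum_double (hp : p.Prime) (ω : R) :
    (1 + ω ^ p) * ∑ k ∈ range p, algebraMap (ZMod (p ^ 2)) R (wf p k) * ω ^ k =
      ∑ k ∈ range (2 * p + 1), algebraMap (ZMod (p ^ 2)) R (wf p k) * ω ^ k := by
  rw [Finset.sum_range_succ, wf_dvd (Dvd.intro_left 2 rfl : p ∣ 2 * p), two_mul,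
    Finset.sum_range_add, map_zero, zero_mul, add_zero, add_mul, one_mul, Finset.mul_sum]
  congr 1
  apply Finset.sum_congr rfl
  intro k _
  rw [add_comm p k, wf_add p k hp, pow_add]
  ring

private theorem sum_reflect (hp : p.Prime) (g : ℕ → R) :
    ∑ k ∈ range (2 * p + 1), algebraMap (ZMod (p ^ 2)) R (wf p k) * g k =
      - ∑ k ∈ range (2 * p + 1), algebraMap (ZMod (p ^ 2)) R (wf p k) * g (2 * p - k) := by
  rw [← Finset.sum_range_reflect, ← Finset.sum_neg_distrib]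
  apply Finset.sum_congr rfl
  intro k hk
  have hk' := Finset.mem_range.1 hk
  have h1 : 2 * p + 1 - 1 - k = 2 * p - k := by omega
  rw [h1, wf_refl p k hp (by omega), map_neg]
  ring

/-- first table modulo 8 -/
private def ta (k : ℕ) : ℤ := if k % 8 = 0 ∨ k % 8 = 2 then 1 else if k % 8 = 4 ∨ k % 8 = 6 then -1 else 0

/-- second table modulo 8 -/
private def tb (k : ℕ) : ℤ := if k % 8 = 1 then 1 else if k % 8 = 5 then -1 else 0

omit [Algebra (ZMod (p ^ 2)) R] in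
private theorem tab (η : R) (h4 : η ^ 4 = -1) (k l : ℕ) (h : (k + l) % 8 = 6) :
    η ^ k - η ^ l = (1 + η ^ 2) * (ta k : R) + 2 * η * (tb k : R) := by
  have h8 : η ^ 8 = 1 := by linear_combination (η ^ 4 - 1) * h4
  have h5 : η ^ 5 = -η := by linear_combination η * h4
  have h6 : η ^ 6 = -η ^ 2 := by linear_combination η ^ 2 * h4
  have h7 : η ^ 7 = -η ^ 3 := by linear_combination η ^ 3 * h4
  rw [pow_eq_pow_mod k h8, pow_eq_pow_mod l h8]
  have hk : k % 8 < 8 := Nat.mod_lt _ (by norm_num)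
  obtain ⟨r, hr⟩ : ∃ r, k % 8 = r := ⟨_, rfl⟩
  obtain ⟨t, ht⟩ : ∃ t, l % 8 = t := ⟨_, rfl⟩
  have ht' : t = (14 - r) % 8 := by omega
  unfold ta tb
  rw [hr] at hk ⊢
  rw [ht, ht']
  interval_cases r <;> simp [h4, h5, h6, h7] <;> ring

/-- the coefficient `U` -/
private noncomputable def UU (p c : ℕ) : ZMod (p ^ 2) :=
  ∑ k ∈ range (2 * p + 1), wf p k * (ta (c * k) : ZMod (p ^ 2))

/-- the coefficient `B` -/
private noncomputable def BB (p c : ℕ) : ZMod (p ^ 2) :=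
  ∑ k ∈ range (2 * p + 1), wf p k * (tb (c * k) : ZMod (p ^ 2))

private theorem two_mul_pow (hp : p.Prime) (h2 : p ≠ 2) {c : ℕ} (hc : c * c % 8 = 1)
    (hcp : c * (2 * p) % 8 = 6) (ω : R) (h4 : ω ^ 4 = -1) :
    2 * ((1 + ω ^ p) * (1 - ω) ^ p) = (1 + (ω ^ c) ^ 2) * (2 - algebraMap (ZMod (p ^ 2)) R (UU p c)) -
      2 * ω ^ c * algebraMap (ZMod (p ^ 2)) R (BB p c) := by
  have h8 : ω ^ 8 = 1 := by linear_combination (ω ^ 4 - 1) * h4
  have hodd : c % 2 = 1 := by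
    by_contra h
    have h0 : c % 2 = 0 := by omega
    have : c * c % 2 = 0 := by rw [Nat.mul_mod, h0]
    omega
  obtain ⟨d, hd⟩ : ∃ d, c = 2 * d + 1 := ⟨c / 2, by omega⟩
  have hη4 : (ω ^ c) ^ 4 = -1 := by
    rw [← pow_mul, mul_comm, pow_mul, h4, hd, pow_succ, pow_mul]
    simp
  have hk : ∀ k : ℕ, (ω ^ c) ^ (c * k) = ω ^ k := by
    intro k
    rw [← pow_mul, ← mul_assoc, pow_eq_pow_mod (c * c * k) h8, pow_eq_pow_mod k h8]
    congr 1
    rw [Nat.mul_mod, hc, one_mul, Nat.mod_mod]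
  set Y : R := ∑ k ∈ range (2 * p + 1), algebraMap (ZMod (p ^ 2)) R (wf p k) * ω ^ k with hY
  have h2Y : 2 * Y = (1 + (ω ^ c) ^ 2) * algebraMap (ZMod (p ^ 2)) R (UU p c) + 2 * ω ^ c * algebraMap (ZMod (p ^ 2)) R (BB p c) := by
    have e1 : 2 * Y = ∑ k ∈ range (2 * p + 1), algebraMap (ZMod (p ^ 2)) R (wf p k) * (ω ^ k - ω ^ (2 * p - k)) := by
      have e2 := sum_reflect hp (fun k => ω ^ k) (R := R)
      simp only [mul_sub, Finset.sum_sub_distrib]
      linear_combination 2 * hY + e2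
    rw [e1, UU, BB, map_sum, map_sum, Finset.mul_sum, Finset.mul_sum, ← Finset.sum_add_distrib]
    apply Finset.sum_congr rfl
    intro k hk'
    have hk2 := Finset.mem_range.1 hk'
    rw [← hk k, ← hk (2 * p - k), tab (ω ^ c) hη4 (c * k) (c * (2 * p - k))]
    · rw [map_mul, map_mul, map_intCast, map_intCast]
      ring
    · rw [← mul_add, Nat.add_sub_cancel' (by omega : k ≤ 2 * p), hcp]
  have h6 : ω ^ (2 * p) = - (ω ^ c) ^ 2 := by
    rw [← hk (2 * p), pow_eq_pow_mod (c * (2 * p)) (by linear_combination ((ω ^ c) ^ 4 - 1) * hη4 :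
      (ω ^ c) ^ 8 = 1), hcp]
    linear_combination (ω ^ c) ^ 2 * hη4
  rw [one_sub_pow hp h2 ω, mul_sub (1 + ω ^ p), sum_double hp ω, ← hY]
  rw [mul_comm 2 p, pow_mul] at h6
  linear_combination (-2) * h6 - h2Y

/-- the power `(1+w)^p` -/
private theorem pow_formula (hp : p.Prime) (h2 : p ≠ 2) {c : ℕ} (hc : c * c % 8 = 1)
    (hcp : c * (2 * p) % 8 = 6) (ζ : R) (h4 : ζ ^ 4 = -1)
    (hU : UU p c * UU p c = 0) (hUB : UU p c * BB p c = 0) (hB : BB p c * BB p c = 0) :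
    16 * (1 + (ζ - ζ ^ 3)) ^ p = 16 * (1 + (ζ ^ p - (ζ ^ p) ^ 3)) *
      (1 + (ζ ^ c - (ζ ^ c) ^ 3) * algebraMap (ZMod (p ^ 2)) R (BB p c)) := by
  have h8 : ζ ^ 8 = 1 := by linear_combination (ζ ^ 4 - 1) * h4
  have hodd : c % 2 = 1 := by
    by_contra h
    have h0 : c % 2 = 0 := by omega
    have : c * c % 2 = 0 := by rw [Nat.mul_mod, h0]
    omega
  have hpodd : p % 2 = 1 := Nat.odd_iff.1 (hp.odd_of_ne_two h2)
  obtain ⟨d, hd⟩ : ∃ d, c = 2 * d + 1 := ⟨c / 2, by omega⟩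
  obtain ⟨e, he⟩ : ∃ e, p = 2 * e + 1 := ⟨p / 2, by omega⟩
  have hη : (ζ ^ c) ^ 4 = -1 := by
    rw [← pow_mul, mul_comm, pow_mul, h4, hd, pow_succ, pow_mul]
    simp
  have hθ : (ζ ^ p) ^ 4 = -1 := by
    rw [← pow_mul, mul_comm, pow_mul, h4]
    nth_rewrite 1 [he]
    rw [pow_succ, pow_mul]
    simp
  have hηθ : (ζ ^ c) ^ 2 = - (ζ ^ p) ^ 2 := by
    have h6 : (ζ ^ p) ^ 2 = - (ζ ^ c) ^ 2 := by
      have hk : (ζ ^ c) ^ (c * (2 * p)) = ζ ^ (2 * p) := by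
        rw [← pow_mul, ← mul_assoc, pow_eq_pow_mod (c * c * (2 * p)) h8, pow_eq_pow_mod (2 * p) h8]
        congr 1
        rw [Nat.mul_mod, hc, one_mul, Nat.mod_mod]
      rw [← pow_mul, mul_comm p 2, ← hk, pow_eq_pow_mod (c * (2 * p))
        (by linear_combination ((ζ ^ c) ^ 4 - 1) * hη : (ζ ^ c) ^ 8 = 1), hcp]
      linear_combination (ζ ^ c) ^ 2 * hη
    rw [h6, neg_neg]
  have h34 : (ζ ^ 3) ^ 4 = -1 := by linear_combination (ζ ^ 8 - ζ ^ 4 + 1) * h4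
  have e1 := two_mul_pow hp h2 hc hcp ζ h4
  have e2 := two_mul_pow hp h2 hc hcp (ζ ^ 3) h34
  have e3 : (1 - ζ ^ 3) ^ p = (1 - ζ) ^ p * ζ ^ p * (1 + (ζ - ζ ^ 3)) ^ p := by
    rw [← mul_pow, ← mul_pow]
    congr 1
    linear_combination (1 - ζ) * h4
  have e4 : (ζ ^ 3) ^ p = (ζ ^ p) ^ 3 := by rw [← pow_mul, ← pow_mul, mul_comm]
  have e5 : (ζ ^ 3) ^ c = (ζ ^ c) ^ 3 := by rw [← pow_mul, ← pow_mul, mul_comm]
  rw [e3, e4, e5] at e2
  have hUU : algebraMap (ZMod (p ^ 2)) R (UU p c) * algebraMap (ZMod (p ^ 2)) R (UU p c) = 0 := by rw [← map_mul, hU, map_zero]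
  have hUB' : algebraMap (ZMod (p ^ 2)) R (UU p c) * algebraMap (ZMod (p ^ 2)) R (BB p c) = 0 := by rw [← map_mul, hUB, map_zero]
  have hBB : algebraMap (ZMod (p ^ 2)) R (BB p c) * algebraMap (ZMod (p ^ 2)) R (BB p c) = 0 := by rw [← map_mul, hB, map_zero]
  generalize algebraMap (ZMod (p ^ 2)) R (UU p c) = U at *
  generalize algebraMap (ZMod (p ^ 2)) R (BB p c) = B at *
  generalize (1 + (ζ - ζ ^ 3)) ^ p = E at *
  generalize (1 - ζ) ^ p = A at *
  generalize ζ ^ c = η at *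
  generalize ζ ^ p = θ at *
  -- now a computation with `θ⁴ = -1`, `η² = -θ²`
  have E1 : (θ - 1) * E * ((1 + η ^ 2) * (2 - U) - 2 * η * B) =
      (1 + θ) * ((1 + (η ^ 3) ^ 2) * (2 - U) - 2 * η ^ 3 * B) := by
    linear_combination (1 + θ) * e2 - (θ - 1) * E * e1 - 2 * (1 + θ) * A * E * hθ
  have hX : ((1 + η ^ 2) * (2 - U) - 2 * η * B) * (1 + θ ^ 2) =
      2 * (2 - U - (η - η ^ 3) * B) := by
    linear_combination (2 - U) * ((1 + θ ^ 2) * hηθ - hθ) - 2 * η * B * hηθ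
  have hη6 : (η ^ 3) ^ 2 = - η ^ 2 := by linear_combination η ^ 2 * hη
  have hY : ((1 + (η ^ 3) ^ 2) * (2 - U) - 2 * η ^ 3 * B) * (1 + θ ^ 2) =
      2 * θ ^ 2 * (2 - U + (η - η ^ 3) * B) := by
    rw [hη6]
    linear_combination (2 - U) * (-(1 + θ ^ 2) * hηθ + hθ) - 2 * η * B * hηθ
  have hZ1 : (2 - U - (η - η ^ 3) * B) * (2 + U + (η - η ^ 3) * B) = 4 := by
    linear_combination - hUU - 2 * (η - η ^ 3) * hUB' - (η - η ^ 3) ^ 2 * hBB
  have hZ2 : (2 - U + (η - η ^ 3) * B) * (2 + U + (η - η ^ 3) * B) = 4 + 4 * (η - η ^ 3) * B := by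
    linear_combination (η - η ^ 3) ^ 2 * hBB - hUU
  have hT : (θ - 1) * (-(1 + θ + θ ^ 2 + θ ^ 3)) = 2 := by linear_combination - hθ
  have hW : (1 + θ) * θ ^ 2 * (-(1 + θ + θ ^ 2 + θ ^ 3)) = 2 * (1 + θ - θ ^ 3) := by
    linear_combination (-2 - 2 * θ - θ ^ 2) * hθ
  calc 16 * E = E * ((θ - 1) * (-(1 + θ + θ ^ 2 + θ ^ 3))) *
        (2 * ((2 - U - (η - η ^ 3) * B) * (2 + U + (η - η ^ 3) * B))) := by
        rw [hT, hZ1]; ring
    _ = ((θ - 1) * E * ((1 + η ^ 2) * (2 - U) - 2 * η * B)) * (1 + θ ^ 2) *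
        (-(1 + θ + θ ^ 2 + θ ^ 3)) * (2 + U + (η - η ^ 3) * B) := by
        linear_combination (-(E * (θ - 1) * (-(1 + θ + θ ^ 2 + θ ^ 3)) *
          (2 + U + (η - η ^ 3) * B))) * hX
    _ = ((1 + θ) * ((1 + (η ^ 3) ^ 2) * (2 - U) - 2 * η ^ 3 * B)) * (1 + θ ^ 2) *
        (-(1 + θ + θ ^ 2 + θ ^ 3)) * (2 + U + (η - η ^ 3) * B) := by rw [E1]
    _ = (1 + θ) * (-(1 + θ + θ ^ 2 + θ ^ 3)) * (2 + U + (η - η ^ 3) * B) *
        (2 * θ ^ 2 * (2 - U + (η - η ^ 3) * B)) := by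
        linear_combination ((1 + θ) * (-(1 + θ + θ ^ 2 + θ ^ 3)) * (2 + U + (η - η ^ 3) * B)) * hY
    _ = ((1 + θ) * θ ^ 2 * (-(1 + θ + θ ^ 2 + θ ^ 3))) *
        (2 * ((2 - U + (η - η ^ 3) * B) * (2 + U + (η - η ^ 3) * B))) := by ring
    _ = 16 * (1 + (θ - θ ^ 3)) * (1 + (η - η ^ 3) * B) := by
        rw [hZ2, hW]; ring

/-- powers of `1 + w` and Pell numbers -/
private theorem pell_pow (w : R) (hw : w ^ 2 = 2) (k : ℕ) :
    (1 + w) ^ (k + 1) = (pell (k + 1) : R) * (1 + w) + (pell k : R) := by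
  induction k with
  | zero => simp [pell]
  | succ k ih =>
    have h1 : (1 + w) ^ 2 = 2 * (1 + w) + 1 := by linear_combination hw
    have h2 : pell (k + 1 + 1) = 2 * pell (k + 1) + pell k := rfl
    rw [pow_succ, ih, h2]
    push_cast
    linear_combination (pell (k + 1) : R) * h1

/-- independence of `1` and `w` -/
private theorem indep (hp : p.Prime) (a b : ZMod (p ^ 2))
    (h : algebraMap (ZMod (p ^ 2)) (AdjoinRoot (X ^ 4 + 1 : (ZMod (p ^ 2))[X])) a +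
      algebraMap (ZMod (p ^ 2)) (AdjoinRoot (X ^ 4 + 1 : (ZMod (p ^ 2))[X])) b *
        (AdjoinRoot.root (X ^ 4 + 1 : (ZMod (p ^ 2))[X]) -
          AdjoinRoot.root (X ^ 4 + 1 : (ZMod (p ^ 2))[X]) ^ 3) = 0) : b = 0 := by
  have : Fact (1 < p ^ 2) := ⟨Nat.one_lt_pow (by norm_num) hp.one_lt⟩
  have h1 : AdjoinRoot.mk (X ^ 4 + 1 : (ZMod (p ^ 2))[X]) (C a + C b * (X - X ^ 3)) = 0 := by
    rw [← h]
    simp [AdjoinRoot.algebraMap_eq]
  rw [AdjoinRoot.mk_eq_zero] at h1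
  have hm : (X ^ 4 + 1 : (ZMod (p ^ 2))[X]).Monic := by
    have := Polynomial.monic_X_pow_add_C (1 : ZMod (p ^ 2)) (by norm_num : (4 : ℕ) ≠ 0)
    rwa [C_1] at this
  have hd : (X ^ 4 + 1 : (ZMod (p ^ 2))[X]).natDegree = 4 := by
    have := Polynomial.natDegree_X_pow_add_C (n := 4) (r := (1 : ZMod (p ^ 2)))
    rwa [C_1] at this
  have hg : (C a + C b * (X - X ^ 3) : (ZMod (p ^ 2))[X]).natDegree < 4 := by
    have : (C a + C b * (X - X ^ 3) : (ZMod (p ^ 2))[X]).natDegree ≤ 3 := by compute_degree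
    omega
  by_contra hb
  have hne : (C a + C b * (X - X ^ 3) : (ZMod (p ^ 2))[X]) ≠ 0 := by
    intro h0
    have h2 := congrArg (fun P : (ZMod (p ^ 2))[X] => P.coeff 1) h0
    simp [coeff_X, coeff_X_pow] at h2
    exact hb h2
  exact hm.not_dvd_of_natDegree_lt hne (by rw [hd]; exact hg) h1

end ring

private theorem wf_mul_wf (p k l : ℕ) : wf p k * wf p l = 0 := by
  by_cases h : p ∣ k
  · rw [wf_dvd h, zero_mul]
  · have h1 := wf_p p l
    have h2 : wf p k = (p : ZMod (p ^ 2)) * (k : ZMod (p ^ 2))⁻¹ := if_neg h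
    rw [h2]
    linear_combination (k : ZMod (p ^ 2))⁻¹ * h1

private theorem sum_wf_mul (p : ℕ) (s t : Finset ℕ) (a b : ℕ → ZMod (p ^ 2)) :
    (∑ k ∈ s, wf p k * a k) * ∑ k ∈ t, wf p k * b k = 0 := by
  rw [Finset.sum_mul_sum]
  apply Finset.sum_eq_zero
  intro i _
  apply Finset.sum_eq_zero
  intro j _
  linear_combination a i * b j * wf_mul_wf p i j

private theorem one_add_pow_nil {R : Type*} [CommRing R] (x : R) (hx : x * x = 0) (K : ℕ) :
    (1 + x) ^ K = 1 + K * x := by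
  induction K with
  | zero => simp
  | succ K ih =>
    rw [pow_succ, ih]
    push_cast
    linear_combination (K : R) * hx

private theorem BB_zero_aux {p : ℕ} {R : Type*} [CommRing R] [Algebra (ZMod (p ^ 2)) R] (hw : IsPW p)
    {c : ℕ} (hc : c = 1 ∨ c = 3) (hcp : c * (2 * p) % 8 = 6) (ζ w : R) (h4 : ζ ^ 4 = -1)
    (hw : w = ζ - ζ ^ 3)
    (hind : ∀ a b : ZMod (p ^ 2), algebraMap (ZMod (p ^ 2)) R a +
      algebraMap (ZMod (p ^ 2)) R b * w = 0 → b = 0) : BB p c = 0 := by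
  rename_i _ _ hpw
  obtain ⟨hp, h2, K, hK, hdvd⟩ := hpw
  obtain ⟨j, rfl⟩ : ∃ j, K = j + 1 := by
    refine ⟨K - 1, ?_⟩
    have : K ≠ 0 := by rintro rfl; exact hK (dvd_zero _)
    omega
  have hodd : p % 2 = 1 := Nat.odd_iff.1 (hp.odd_of_ne_two h2)
  have h8 : ζ ^ 8 = 1 := by linear_combination (ζ ^ 4 - 1) * h4
  have hw2 : w ^ 2 = 2 := by rw [hw]; linear_combination (ζ ^ 2 - 2) * h4
  have hcc : c * c % 8 = 1 := by rcases hc with rfl | rfl <;> norm_num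
  have hBB : BB p c * BB p c = 0 := sum_wf_mul _ _ _ _ _
  have hF := pow_formula hp h2 hcc hcp ζ h4 (sum_wf_mul _ _ _ _ _) (sum_wf_mul _ _ _ _ _) hBB
  rw [← hw] at hF
  obtain ⟨B, hB⟩ : ∃ B : R, algebraMap (ZMod (p ^ 2)) R (BB p c) = B := ⟨_, rfl⟩
  rw [hB] at hF
  have hB2 : B * B = 0 := by rw [← hB, ← map_mul, hBB, map_zero]
  -- `16` is a unit
  have h16 : ¬ p ∣ 16 := by
    intro h
    have h' : p ∣ 2 ^ 4 := by norm_num; exact h
    have := hp.dvd_of_dvd_pow h'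
    have := (Nat.prime_dvd_prime_iff_eq hp Nat.prime_two).1 this
    exact h2 this
  have hu := wf_inv hp h16
  have hu' : (16 : R) * algebraMap (ZMod (p ^ 2)) R
      (((16 : ℕ) : ZMod (p ^ 2))⁻¹) = 1 := by
    have := congrArg (algebraMap (ZMod (p ^ 2)) R) hu
    rw [map_mul, map_natCast, map_one] at this
    exact_mod_cast this
  have hF' : (1 + w) ^ p = (1 + (ζ ^ p - (ζ ^ p) ^ 3)) * (1 + (ζ ^ c - (ζ ^ c) ^ 3) * B) := by
    linear_combination (algebraMap (ZMod (p ^ 2)) R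
      (((16 : ℕ) : ZMod (p ^ 2))⁻¹)) * hF + ((1 + (ζ ^ p - (ζ ^ p) ^ 3)) *
      (1 + (ζ ^ c - (ζ ^ c) ^ 3) * B) - (1 + w) ^ p) * hu'
  -- signs
  obtain ⟨τ, hτ, hτc⟩ : ∃ τ : ℤ, (τ = 1 ∨ τ = -1) ∧ ζ ^ c - (ζ ^ c) ^ 3 = τ * w := by
    rcases hc with rfl | rfl
    · exact ⟨1, Or.inl rfl, by push_cast; rw [hw]; ring⟩
    · exact ⟨-1, Or.inr rfl, by push_cast; rw [hw]; linear_combination (-ζ) * h8⟩
  have hδ : ζ ^ p - (ζ ^ p) ^ 3 = w ∨ ζ ^ p - (ζ ^ p) ^ 3 = -w := by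
    rw [pow_eq_pow_mod p h8]
    have hr : p % 8 = 1 ∨ p % 8 = 3 ∨ p % 8 = 5 ∨ p % 8 = 7 := by omega
    rcases hr with h | h | h | h
    · left; rw [h, hw]; ring
    · right; rw [h, hw]; linear_combination (-ζ) * h8
    · right; rw [h, hw]; linear_combination ζ * h4 - ζ ^ 7 * h8 - ζ ^ 3 * h4
    · left; rw [h, hw]; linear_combination ζ ^ 3 * h4 - (ζ ^ 13 + ζ ^ 5) * h8 - ζ * h4
  rw [hτc] at hF'
  have hEu : (1 + w) * (w - 1) = 1 := by linear_combination hw2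
  obtain ⟨N, hN⟩ : ∃ N : ℕ, (1 + w) ^ N = 1 + (2 * τ : ℤ) * (w * B) := by
    rcases hδ with h | h
    · obtain ⟨n, hn⟩ : ∃ n, p = n + 1 := ⟨p - 1, by have := hp.one_lt; omega⟩
      refine ⟨2 * n, ?_⟩
      rw [h, show (1 + w) ^ p = (1 + w) ^ n * (1 + w) by rw [← pow_succ, ← hn]] at hF'
      have h5 : (1 + w) ^ n = 1 + τ * w * B := by
        linear_combination (w - 1) * hF' - ((1 + w) ^ n - (1 + τ * w * B)) * hEu
      rw [mul_comm 2 n, pow_mul, h5]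
      push_cast
      linear_combination (τ : R) ^ 2 * w ^ 2 * hB2
    · refine ⟨2 * (p + 1), ?_⟩
      rw [h] at hF'
      have h5 : (1 + w) ^ (p + 1) = -(1 + τ * w * B) := by
        rw [pow_succ, hF']
        linear_combination (-(1 + τ * w * B)) * hw2
      rw [mul_comm 2 (p + 1), pow_mul, h5]
      push_cast
      linear_combination (τ : R) ^ 2 * w ^ 2 * hB2
  -- the Pell number
  have hE : (1 + w) ^ (j + 1) = algebraMap (ZMod (p ^ 2)) R (pell j : ZMod (p ^ 2)) := by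
    rw [pell_pow w hw2 j]
    have h0 : ((pell (j + 1) : ℕ) : ZMod (p ^ 2)) = 0 := (ZMod.natCast_eq_zero_iff _ _).2 hdvd
    have h0' : ((pell (j + 1) : ℕ) : R) = 0 := by
      rw [← map_natCast (algebraMap (ZMod (p ^ 2)) R), h0, map_zero]
    rw [h0', zero_mul, zero_add, map_natCast]
  have hwB : ((2 * τ : ℤ) * (w * B) : R) * ((2 * τ : ℤ) * (w * B)) = 0 := by
    linear_combination ((2 * τ : ℤ) : R) ^ 2 * w ^ 2 * hB2
  have h7 : (algebraMap (ZMod (p ^ 2)) R (pell j : ZMod (p ^ 2))) ^ N =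
      1 + ((j + 1 : ℕ) : R) * ((2 * τ : ℤ) * (w * B)) := by
    rw [← hE, ← pow_mul, mul_comm (j + 1) N, pow_mul, hN, one_add_pow_nil _ hwB]
  have h9 : (2 * τ : ZMod (p ^ 2)) * ((j + 1 : ℕ) : ZMod (p ^ 2)) * BB p c = 0 := by
    apply hind (1 - (pell j : ZMod (p ^ 2)) ^ N)
    rw [map_sub, map_one, map_pow, h7, map_mul, map_mul, map_mul, map_natCast,
      map_intCast, map_ofNat, hB]
    push_cast
    ring
  -- `2 τ (j+1)` is a unit
  have hK2 : ¬ p ∣ 2 * (j + 1) := by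
    intro h
    rcases (Nat.Prime.dvd_mul hp).1 h with h | h
    · exact h2 ((Nat.prime_dvd_prime_iff_eq hp Nat.prime_two).1 h)
    · exact hK h
  have hu2 := wf_inv hp hK2
  have hτ2 : (τ : ZMod (p ^ 2)) * τ = 1 := by
    rcases hτ with rfl | rfl <;> simp
  push_cast at hu2 h9
  linear_combination (τ : ZMod (p ^ 2)) * (2 * ((j : ZMod (p ^ 2)) + 1))⁻¹ * h9 -
    BB p c * hu2 - (2 * ((j : ZMod (p ^ 2)) + 1)) * (2 * ((j : ZMod (p ^ 2)) + 1))⁻¹ * BB p c * hτ2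

private theorem BB_zero {p : ℕ} (hw : IsPW p) {c : ℕ} (hc : c = 1 ∨ c = 3)
    (hcp : c * (2 * p) % 8 = 6) : BB p c = 0 := by
  refine BB_zero_aux (R := AdjoinRoot (X ^ 4 + 1 : (ZMod (p ^ 2))[X])) hw hc hcp
    (AdjoinRoot.root _) _ ?_ rfl ?_
  · have h : AdjoinRoot.mk (X ^ 4 + 1 : (ZMod (p ^ 2))[X]) (X ^ 4 + 1) = 0 := AdjoinRoot.mk_self
    rw [map_add, map_pow, AdjoinRoot.mk_X, map_one] at h
    exact eq_neg_of_add_eq_zero_left h
  · intro a b h
    exact indep hw.1 a b h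

/-- `B` as a sum over the class `c` -/
private theorem BB_eq {p c m : ℕ} (hp : p.Prime) (h : (c = 1 ∧ p % 4 = 3 ∧ m = (p + 1) / 4) ∨
    (c = 3 ∧ p % 4 = 1 ∧ m = (p + 1) / 4)) :
    BB p c = 2 * ∑ x ∈ range m, wf p (c + 8 * x) := by
  have h1 : ∀ k ∈ range (2 * p + 1), wf p k * (tb (c * k) : ZMod (p ^ 2)) =
      wf p k * (if k % 8 = c then 1 else 0) - wf p k * (if (2 * p - k) % 8 = c then 1 else 0) := by
    intro k hk
    have hk' := Finset.mem_range.1 hk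
    rw [← mul_sub]
    congr 1
    unfold tb
    rcases h with ⟨rfl, h3, -⟩ | ⟨rfl, h3, -⟩
    · by_cases e1 : k % 8 = 1
      · rw [if_pos (by omega), if_pos e1, if_neg (by omega)]; simp
      · by_cases e5 : k % 8 = 5
        · rw [if_neg (by omega), if_pos (by omega), if_neg e1, if_pos (by omega)]; simp
        · rw [if_neg (by omega), if_neg (by omega), if_neg e1, if_neg (by omega)]; simp
    · by_cases e1 : k % 8 = 3
      · rw [if_pos (by omega), if_pos e1, if_neg (by omega)]; simp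
      · by_cases e5 : k % 8 = 7
        · rw [if_neg (by omega), if_pos (by omega), if_neg e1, if_pos (by omega)]; simp
        · rw [if_neg (by omega), if_neg (by omega), if_neg e1, if_neg (by omega)]; simp
  have h2 := sum_reflect (R := ZMod (p ^ 2)) hp (fun k => if k % 8 = c then 1 else 0)
  simp only [Algebra.algebraMap_self, RingHom.id_apply] at h2
  unfold BB
  rw [Finset.sum_congr rfl h1, Finset.sum_sub_distrib]
  have h3 : ∑ k ∈ range (2 * p + 1), wf p k * (if k % 8 = c then (1 : ZMod (p ^ 2)) else 0) =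
      ∑ x ∈ range m, wf p (c + 8 * x) := by
    have e1 : (range (2 * p + 1)).filter (fun k => k % 8 = c) = (range m).image (fun x => c + 8 * x) := by
      ext k
      simp only [Finset.mem_filter, Finset.mem_range, Finset.mem_image]
      constructor
      · rintro ⟨ha, hb⟩
        refine ⟨k / 8, ?_, ?_⟩ <;> omega
      · rintro ⟨x, ha, rfl⟩
        constructor <;> omega
    simp only [mul_ite, mul_one, mul_zero]
    rw [← Finset.sum_filter, e1, Finset.sum_image]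
    intro x _ y _ hxy
    simpa using hxy
  rw [← h3]
  linear_combination -h2

private theorem wf_four {p s : ℕ} (hp : p.Prime) (h2 : p ≠ 2) (hs : ¬ p ∣ s) :
    wf p s = 4 * wf p (4 * s) := by
  have h4 : ¬ p ∣ 4 * s := by
    intro h
    rcases (Nat.Prime.dvd_mul hp).1 h with h | h
    · have h' : p ∣ 2 ^ 2 := by norm_num; exact h
      exact h2 ((Nat.prime_dvd_prime_iff_eq hp Nat.prime_two).1 (hp.dvd_of_dvd_pow h'))
    · exact hs h
  apply wf_uniq hp hs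
  have := wf_mul hp h4
  push_cast at this
  linear_combination this

theorem world_sum {p : ℕ} (hw : IsPW p) :
    ∑ x ∈ range (mp p), (((ap p + 2 * x : ℕ)) : ZMod p)⁻¹ = 0 := by
  have hp := hw.1
  have h2 := hw.2.1
  have hodd : p % 2 = 1 := Nat.odd_iff.1 (hp.odd_of_ne_two h2)
  obtain ⟨c, h, hcp⟩ : ∃ c, ((c = 1 ∧ p % 4 = 3 ∧ mp p = (p + 1) / 4) ∨
      (c = 3 ∧ p % 4 = 1 ∧ mp p = (p + 1) / 4)) ∧ c * (2 * p) % 8 = 6 := by
    by_cases e : p % 4 = 3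
    · exact ⟨1, Or.inl ⟨rfl, e, rfl⟩, by omega⟩
    · exact ⟨3, Or.inr ⟨rfl, by omega, rfl⟩, by omega⟩
  have hc : c = 1 ∨ c = 3 := by rcases h with ⟨h, -⟩ | ⟨h, -⟩ <;> simp [h]
  have hB := BB_zero hw hc hcp
  rw [BB_eq hp h] at hB
  have hnd : ∀ x ∈ range (mp p), ¬ p ∣ ap p + 2 * x := by
    intro x hx e
    have hx' := Finset.mem_range.1 hx
    have h5 := Nat.le_of_dvd (by unfold ap; omega) e
    unfold mp at hx'
    unfold ap at h5
    omega
  have h6 : ∑ x ∈ range (mp p), wf p (ap p + 2 * x) = 0 := by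
    have h7 : ∑ x ∈ range (mp p), wf p (ap p + 2 * x) =
        2 * (2 * ∑ x ∈ range (mp p), wf p (c + 8 * x)) := by
      rw [← mul_assoc, Finset.mul_sum]
      apply Finset.sum_congr rfl
      intro x hx
      rw [wf_four hp h2 (hnd x hx), ← wf_add p (c + 8 * x) hp]
      have h8 : 4 * (ap p + 2 * x) = c + 8 * x + p := by unfold ap; omega
      rw [h8]
      norm_num
    rw [h7, hB, mul_zero]
  have h9 : (p : ZMod (p ^ 2)) *
      ∑ x ∈ range (mp p), (((ap p + 2 * x : ℕ)) : ZMod (p ^ 2))⁻¹ = 0 := by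
    rw [Finset.mul_sum, ← h6]
    apply Finset.sum_congr rfl
    intro x hx
    rw [wf, if_neg (hnd x hx)]
  have : NeZero (p ^ 2) := ⟨by have := hp.pos; positivity⟩
  let φ : ZMod (p ^ 2) →+* ZMod p := ZMod.castHom (Dvd.intro p (pow_two p).symm) (ZMod p)
  have h10 : φ (∑ x ∈ range (mp p), (((ap p + 2 * x : ℕ)) : ZMod (p ^ 2))⁻¹) = 0 := by
    obtain ⟨y, hy⟩ : ∃ y : ZMod (p ^ 2),
        ∑ x ∈ range (mp p), (((ap p + 2 * x : ℕ)) : ZMod (p ^ 2))⁻¹ = y := ⟨_, rfl⟩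
    rw [hy] at h9 ⊢
    have h11 : y = ((y.val : ℕ) : ZMod (p ^ 2)) := (ZMod.natCast_zmod_val y).symm
    rw [h11, ← Nat.cast_mul, ZMod.natCast_eq_zero_iff] at h9
    have h9' : p * p ∣ p * y.val := by rw [← pow_two]; exact h9
    have h12 : p ∣ y.val := Nat.dvd_of_mul_dvd_mul_left hp.pos h9'
    rw [h11, map_natCast, ZMod.natCast_eq_zero_iff]
    exact h12
  rw [map_sum] at h10
  rw [← h10]
  apply Finset.sum_congr rfl
  intro x hx
  have h13 := wf_inv hp (hnd x hx)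
  have h14 := congrArg φ h13
  rw [map_mul, map_natCast, map_one] at h14
  have : Fact p.Prime := ⟨hp⟩
  exact (eq_inv_of_mul_eq_one_right h14).symm

end PWief
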