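import Pool.Agent.Lib.PWief.PApi
import Pool.Agent.Lib.PWief.World
import Pool.Agent.Lib.PWief.TChn

/-!
# ColMod: the values `kap` modulo `p`
-/

set_option autoImplicit false

open Finset Polynomial

namespace PWief

private theorem ColMod_odd {p : ℕ} [Fact p.Prime] (h2 : p ≠ 2) : p % 2 = 1 :=
  Nat.odd_iff.1 ((Fact.out : p.Prime).odd_of_ne_two h2)

private theorem ColMod_am {p : ℕ} [Fact p.Prime] (h2 : p ≠ 2) :
    2 * ap p + 2 * mp p = p + 1 ∧ ap p + 2 * mp p ≤ p ∧ 1 ≤ ap p ∧ 1 ≤ mp p := by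
  have h := ColMod_odd h2
  have h3 : 2 ≤ p := (Fact.out : p.Prime).two_le
  unfold ap mp
  omega

private theorem ColMod_nu (j : ℕ) :
    (nu j = ((j / 2 : ℕ) : ℤ)) ∨ (nu j = -1 - ((j / 2 : ℕ) : ℤ)) := by
  unfold nu
  split_ifs
  · left; rfl
  · right; rfl

/-- not divisible when in `(-p, 2p)` and neither `0` nor `p` -/
private theorem ColMod_nd {p : ℕ} {d : ℤ} (h1 : -(p : ℤ) < d) (h2 : d < 2 * (p : ℤ)) (h3 : d ≠ 0)
    (h4 : d ≠ (p : ℤ)) : ¬ (p : ℤ) ∣ d := by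
  rintro ⟨c, hc⟩
  have hp : (0 : ℤ) < p := by
    rcases Nat.eq_zero_or_pos p with h | h
    · subst h
      simp at h1 h2
      omega
    · exact_mod_cast h
  have hc1 : -1 < c := by
    by_contra hh
    have : c ≤ -1 := by omega
    nlinarith
  have hc2 : c < 2 := by
    by_contra hh
    have : 2 ≤ c := by omega
    nlinarith
  have : c = 0 ∨ c = 1 := by omega
  rcases this with rfl | rfl
  · apply h3; rw [hc]; ring
  · apply h4; rw [hc]; ring

theorem col_unit {p j : ℕ} [Fact p.Prime] (h2 : p ≠ 2) (hj : j < 2 * p) (hb : ¬ Bad p j) {x : ℕ}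
    (hx : x < mp p) : ¬ (p : ℤ) ∣ ((ap p + 2 * x : ℕ) : ℤ) - nu j := by
  obtain ⟨h3, h4, h5, h6⟩ := ColMod_am h2
  unfold Bad at hb
  have hj2 : j / 2 < p := by omega
  rcases ColMod_nu j with h | h
  · rw [h]
    apply ColMod_nd
    · push_cast; omega
    · push_cast; omega
    · intro h7
      apply hb
      omega
    · intro h7
      omega
  · rw [h]
    apply ColMod_nd
    · push_cast; omega
    · push_cast; omega
    · intro h7
      omega
    · intro h7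
      apply hb
      omega

private theorem ColMod_kap_neg (e : ℕ) : kap (-1 - (e : ℤ)) = - kap (e : ℤ) := by
  have : (-1 - (e : ℤ) : ℤ) = Int.negSucc e := by
    rw [Int.negSucc_eq]; ring
  rw [this]
  rfl

/-- the sum -/
private noncomputable def ColMod_Y (p : ℕ) (e : ℤ) : ℚ :=
  ∑ x ∈ range (mp p), 1 / (((ap p + 2 * x : ℕ) : ℚ) - (e : ℚ))

private theorem ColMod_term (p x : ℕ) (e : ℤ) :
    (((ap p + 2 * x : ℕ) : ℚ) - (e : ℚ)) = (((ap p : ℤ) + 2 * (x : ℤ) - e : ℤ) : ℚ) := by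
  push_cast
  ring

private theorem ColMod_zero {p : ℕ} [Fact p.Prime] (hw : IsPW p) : Cg p (ColMod_Y p 0) 0 := by
  have h2 := hw.2.1
  obtain ⟨h3, h4, h5, h6⟩ := ColMod_am h2
  have hw' := world_sum hw
  have hinv : ∀ x ∈ range (mp p), Cg p (1 / (((ap p + 2 * x : ℕ) : ℚ) - ((0 : ℤ) : ℚ)))
      ((((((ap p + 2 * x : ℕ) : ZMod p)⁻¹).val : ℕ) : ℤ) : ℚ) := by
    intro x hx
    have hx' := Finset.mem_range.1 hx
    have hnd : ¬ p ∣ ap p + 2 * x := by
      intro e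
      have h7 := Nat.le_of_dvd (by omega) e
      omega
    have hndz : ¬ (p : ℤ) ∣ ((ap p + 2 * x : ℕ) : ℤ) := by
      intro e
      exact hnd (Int.natCast_dvd_natCast.1 e)
    have hz : ((ap p + 2 * x : ℕ) : ZMod p) ≠ 0 := by
      intro e
      exact hnd ((ZMod.natCast_eq_zero_iff _ _).1 e)
    apply cg_of_mul hndz
    have hq : (((ap p + 2 * x : ℕ) : ℤ) : ℚ) ≠ 0 := by
      have : ((ap p + 2 * x : ℕ) : ℤ) ≠ 0 := by omega
      exact_mod_cast this
    have e1 : (((ap p + 2 * x : ℕ) : ℤ) : ℚ) * (1 / (((ap p + 2 * x : ℕ) : ℚ) - ((0 : ℤ) : ℚ))) =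
        ((1 : ℤ) : ℚ) := by
      rw [Int.cast_natCast] at hq ⊢
      rw [Int.cast_zero, sub_zero, mul_one_div, div_self hq, Int.cast_one]
    rw [e1, ← Int.cast_mul, cg_int]
    rw [Int.cast_mul, Int.cast_natCast, Int.cast_natCast, ZMod.natCast_zmod_val, Int.cast_one,
      mul_inv_cancel₀ hz]
  have hs := cg_sum (p := p) _ _ _ hinv
  rw [← Int.cast_sum] at hs
  refine hs.trans ?_
  have : ((0 : ℤ) : ℚ) = 0 := Int.cast_zero
  rw [← this, cg_int, Int.cast_sum, Int.cast_zero, ← hw']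
  apply Finset.sum_congr rfl
  intro x hx
  rw [Int.cast_natCast, ZMod.natCast_zmod_val]

/-- reflection -/
private theorem ColMod_refl {p : ℕ} [Fact p.Prime] (h2 : p ≠ 2) (e : ℤ)
    (hg : ∀ x < mp p, ¬ (p : ℤ) ∣ (ap p : ℤ) + 2 * (x : ℤ) - e) :
    Cg p (ColMod_Y p (-1 - e)) (-ColMod_Y p e) := by
  obtain ⟨h3, h4, h5, h6⟩ := ColMod_am h2
  unfold ColMod_Y
  rw [← Finset.sum_range_reflect (fun x => 1 / (((ap p + 2 * x : ℕ) : ℚ) - (e : ℚ))),
    ← Finset.sum_neg_distrib]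
  apply cg_sum
  intro x hx
  have hx' := Finset.mem_range.1 hx
  rw [ColMod_term, ColMod_term]
  have e1 : (ap p : ℤ) + 2 * (x : ℤ) - (-1 - e) =
      (p : ℤ) - ((ap p : ℤ) + 2 * ((mp p - 1 - x : ℕ) : ℤ) - e) := by
    omega
  have hd := hg (mp p - 1 - x) (by omega)
  rw [e1]
  have e2 : -(1 / (((ap p : ℤ) + 2 * ((mp p - 1 - x : ℕ) : ℤ) - e : ℤ) : ℚ)) =
      1 / (((-((ap p : ℤ) + 2 * ((mp p - 1 - x : ℕ) : ℤ) - e) : ℤ)) : ℚ) := by
    rw [Int.cast_neg, div_neg]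
  rw [e2]
  apply cg_inv
  · push_cast
    rw [CharP.cast_eq_zero (ZMod p) p]
    ring
  · intro h
    apply hd
    have := dvd_sub (dvd_refl (p : ℤ)) h
    rw [sub_sub_cancel] at this
    exact this

private theorem ColMod_tel (p : ℕ) (e : ℤ) :
    ColMod_Y p e - ColMod_Y p (e - 2) =
      1 / (((ap p : ℤ) - e : ℤ) : ℚ) - 1 / (((ap p : ℤ) + 2 * (mp p : ℤ) - e : ℤ) : ℚ) := by
  unfold ColMod_Y
  rw [← Finset.sum_sub_distrib]
  have h : ∀ x ∈ range (mp p), 1 / (((ap p + 2 * x : ℕ) : ℚ) - (e : ℚ)) -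
      1 / (((ap p + 2 * x : ℕ) : ℚ) - ((e - 2 : ℤ) : ℚ)) =
      (fun x : ℕ => 1 / ((ap p : ℚ) + 2 * (x : ℚ) - (e : ℚ))) x -
        (fun x : ℕ => 1 / ((ap p : ℚ) + 2 * (x : ℚ) - (e : ℚ))) (x + 1) := by
    intro x _
    have e1 : (((ap p + 2 * x : ℕ) : ℚ) - (e : ℚ)) = (ap p : ℚ) + 2 * (x : ℚ) - (e : ℚ) := by
      push_cast; ring
    have e2 : (((ap p + 2 * x : ℕ) : ℚ) - ((e - 2 : ℤ) : ℚ)) =
        (ap p : ℚ) + 2 * ((x + 1 : ℕ) : ℚ) - (e : ℚ) := by
      push_cast; ring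
    rw [e1, e2]
  rw [Finset.sum_congr rfl h, Finset.sum_range_sub']
  push_cast
  ring

private theorem ColMod_four {p : ℕ} [Fact p.Prime] (h2 : p ≠ 2) {d : ℤ} (hd : ¬ (p : ℤ) ∣ d) :
    ¬ (p : ℤ) ∣ 4 * d := by
  intro h
  have hp : Prime (p : ℤ) := Nat.prime_iff_prime_int.1 (Fact.out : p.Prime)
  rcases hp.dvd_or_dvd h with h3 | h3
  · have h4 : (p : ℤ) ∣ 2 := by
      have : (p : ℤ) ∣ 2 ^ 2 := by norm_num; exact h3
      exact hp.dvd_of_dvd_pow this
    have h5 : p ∣ 2 := by exact_mod_cast h4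
    exact h2 ((Nat.prime_dvd_prime_iff_eq Fact.out Nat.prime_two).1 h5)
  · exact hd h3

/-- `1/d = 4/(4d) ≡ 4/c` -/
private theorem ColMod_quarter {p : ℕ} [Fact p.Prime] (h2 : p ≠ 2) {d c : ℤ} (hd : ¬ (p : ℤ) ∣ d)
    (h : ((4 * d : ℤ) : ZMod p) = (c : ZMod p)) : Cg p (1 / (d : ℚ)) (4 / (c : ℚ)) := by
  have h3 := cg_inv (p := p) h (ColMod_four h2 hd)
  have hd0 : (d : ℚ) ≠ 0 := by
    intro h0
    have : d = 0 := by exact_mod_cast h0
    exact hd (this ▸ dvd_zero _)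
  have e1 : 1 / (d : ℚ) = ((4 : ℤ) : ℚ) * (1 / ((4 * d : ℤ) : ℚ)) := by
    push_cast
    field_simp
  have e2 : 4 / (c : ℚ) = ((4 : ℤ) : ℚ) * (1 / (c : ℚ)) := by
    push_cast
    ring
  rw [e1, e2]
  exact (cg_refl _).mul h3 (pint_int 4) (pint_inv (ColMod_four h2 hd))

private theorem ColMod_step {p : ℕ} [Fact p.Prime] (h2 : p ≠ 2) (e : ℤ)
    (ha : ¬ (p : ℤ) ∣ (ap p : ℤ) - e) (hm : ¬ (p : ℤ) ∣ (ap p : ℤ) + 2 * (mp p : ℤ) - e) :
    Cg p (kap e - kap (e - 2)) (sg p * ColMod_Y p e - sg p * ColMod_Y p (e - 2)) := by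
  rw [← mul_sub, ColMod_tel, kap_step]
  have hodd := ColMod_odd h2
  obtain ⟨h3, h4, h5, h6⟩ := ColMod_am h2
  have hp0 : ((p : ℤ) : ZMod p) = 0 := by
    rw [Int.cast_natCast]
    exact CharP.cast_eq_zero (ZMod p) p
  by_cases hc : p % 4 = 1
  · have e1 : 4 * ((ap p : ℤ) - e) = (p : ℤ) + (3 - 4 * e) := by
      have : 4 * ap p = p + 3 := by unfold ap; omega
      omega
    have e2 : 4 * ((ap p : ℤ) + 2 * (mp p : ℤ) - e) = 3 * (p : ℤ) + (1 - 4 * e) := by
      have : 4 * ap p = p + 3 := by unfold ap; omega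
      omega
    have q1 := ColMod_quarter (c := 3 - 4 * e) h2 ha (by
      rw [e1, Int.cast_add, hp0, zero_add])
    have q2 := ColMod_quarter (c := 1 - 4 * e) h2 hm (by
      rw [e2, Int.cast_add, Int.cast_mul, hp0, mul_zero, zero_add])
    have hsg : sg p = 1 := by unfold sg; rw [if_pos hc]
    rw [hsg, one_mul]
    have e3 : 4 / (4 * (e : ℚ) - 1) - 4 / (4 * (e : ℚ) - 3) =
        4 / ((3 - 4 * e : ℤ) : ℚ) - 4 / ((1 - 4 * e : ℤ) : ℚ) := by
      have f1 : ((3 - 4 * e : ℤ) : ℚ) = -(4 * (e : ℚ) - 3) := by push_cast; ring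
      have f2 : ((1 - 4 * e : ℤ) : ℚ) = -(4 * (e : ℚ) - 1) := by push_cast; ring
      rw [f1, f2, div_neg, div_neg]
      ring
    rw [e3]
    exact (q1.sub q2).symm
  · have hc3 : p % 4 = 3 := by omega
    have e1 : 4 * ((ap p : ℤ) - e) = (p : ℤ) + (1 - 4 * e) := by
      have : 4 * ap p = p + 1 := by unfold ap; omega
      omega
    have e2 : 4 * ((ap p : ℤ) + 2 * (mp p : ℤ) - e) = 3 * (p : ℤ) + (3 - 4 * e) := by
      have : 4 * ap p = p + 1 := by unfold ap; omega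
      omega
    have q1 := ColMod_quarter (c := 1 - 4 * e) h2 ha (by
      rw [e1, Int.cast_add, hp0, zero_add])
    have q2 := ColMod_quarter (c := 3 - 4 * e) h2 hm (by
      rw [e2, Int.cast_add, Int.cast_mul, hp0, mul_zero, zero_add])
    have hsg : sg p = -1 := by unfold sg; rw [if_neg hc]
    rw [hsg, neg_one_mul, neg_sub]
    have e3 : 4 / (4 * (e : ℚ) - 1) - 4 / (4 * (e : ℚ) - 3) =
        4 / ((3 - 4 * e : ℤ) : ℚ) - 4 / ((1 - 4 * e : ℤ) : ℚ) := by
      have f1 : ((3 - 4 * e : ℤ) : ℚ) = -(4 * (e : ℚ) - 3) := by push_cast; ring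
      have f2 : ((1 - 4 * e : ℤ) : ℚ) = -(4 * (e : ℚ) - 1) := by push_cast; ring
      rw [f1, f2, div_neg, div_neg]
      ring
    rw [e3]
    exact (q2.sub q1).symm

private theorem ColMod_nat {p : ℕ} [Fact p.Prime] (hw : IsPW p) (e : ℕ) :
    e < p → ¬ (ap p ≤ e ∧ e % 2 = ap p % 2) → Cg p (kap (e : ℤ)) (sg p * ColMod_Y p (e : ℤ)) := by
  have h2 := hw.2.1
  obtain ⟨h3, h4, h5, h6⟩ := ColMod_am h2
  have hsg : PInt p (sg p) := by
    unfold sg
    split_ifs
    · exact_mod_cast pint_int (p := p) 1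
    · have := pint_int (p := p) (-1)
      push_cast at this
      exact this
  have hY0 : Cg p (sg p * ColMod_Y p 0) 0 := by
    have h7 := ColMod_zero hw
    have h8 : PInt p (ColMod_Y p 0) := h7.pint (by exact_mod_cast pint_int (p := p) 0)
    have := (cg_refl (sg p)).mul h7 hsg h8
    rwa [mul_zero] at this
  have h00 : Cg p (kap ((0 : ℕ) : ℤ)) (sg p * ColMod_Y p ((0 : ℕ) : ℤ)) := by
    have hk : kap ((0 : ℕ) : ℤ) = 0 := by
      change kapN 0 = 0
      simp [kapN]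
    rw [hk]
    exact_mod_cast hY0.symm
  have hm1 : Cg p (kap (-1)) (sg p * ColMod_Y p (-1)) := by
    have hk : kap (-1) = 0 := by
      change -kapN 0 = 0
      simp [kapN]
    rw [hk]
    have h7 := ColMod_refl h2 0 (by
      intro x hx
      apply ColMod_nd
      · omega
      · omega
      · omega
      · omega)
    rw [sub_zero] at h7
    have h8 : Cg p (-ColMod_Y p 0) (-0) := (ColMod_zero hw).neg
    rw [neg_zero] at h8
    have h9 := h7.trans h8
    have h10 : PInt p (ColMod_Y p (-1)) := h9.pint (by exact_mod_cast pint_int (p := p) 0)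
    have := (cg_refl (sg p)).mul h9 hsg h10
    rw [mul_zero] at this
    exact this.symm
  induction e using Nat.strong_induction_on with
  | _ e ih =>
    intro he hb
    rcases Nat.eq_zero_or_pos e with h0 | hpos
    · subst h0
      exact h00
    · have hprev : Cg p (kap ((e : ℤ) - 2)) (sg p * ColMod_Y p ((e : ℤ) - 2)) := by
        rcases Nat.lt_or_ge e 2 with h1 | h1
        · have : e = 1 := by omega
          subst this
          have e1 : (((1 : ℕ) : ℤ) - 2) = -1 := by norm_num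
          rw [e1]
          exact hm1
        · have h7 := ih (e - 2) (by omega) (by omega) (by
            intro hh
            apply hb
            omega)
          have e1 : ((e - 2 : ℕ) : ℤ) = (e : ℤ) - 2 := by omega
          rw [e1] at h7
          exact h7
      have hst := ColMod_step h2 (e : ℤ) (by
        apply ColMod_nd
        · omega
        · omega
        · intro h7
          apply hb
          omega
        · omega) (by
        apply ColMod_nd
        · omega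
        · omega
        · intro h7
          apply hb
          omega
        · omega)
      have h7 := hst.add hprev
      rwa [sub_add_cancel, sub_add_cancel] at h7

theorem col_good {p j : ℕ} [Fact p.Prime] (hw : IsPW p) (hj : j < 2 * p) (hb : ¬ Bad p j) :
    Cg p (kap (nu j)) (sg p * ∑ x ∈ range (mp p), 1 / (((ap p + 2 * x : ℕ) : ℚ) - (nu j : ℚ))) := by
  have h2 := hw.2.1
  obtain ⟨h3, h4, h5, h6⟩ := ColMod_am h2
  change Cg p (kap (nu j)) (sg p * ColMod_Y p (nu j))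
  have hb' : ¬ (ap p ≤ j / 2 ∧ (j / 2) % 2 = ap p % 2) := hb
  have hj2 : j / 2 < p := by omega
  have hn := ColMod_nat hw (j / 2) hj2 hb'
  rcases ColMod_nu j with h | h
  · rw [h]
    exact hn
  · rw [h, ColMod_kap_neg]
    have hg : ∀ x < mp p, ¬ (p : ℤ) ∣ (ap p : ℤ) + 2 * (x : ℤ) - ((j / 2 : ℕ) : ℤ) := by
      intro x hx
      apply ColMod_nd
      · omega
      · omega
      · intro h7
        apply hb'
        omega
      · omega
    have h7 := ColMod_refl h2 _ hg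
    have hYp : PInt p (ColMod_Y p (((j / 2 : ℕ) : ℤ))) := by
      unfold ColMod_Y
      apply pint_sum
      intro x hx
      rw [ColMod_term]
      exact pint_inv (hg x (Finset.mem_range.1 hx))
    have hsg : PInt p (sg p) := by
      unfold sg
      split_ifs
      · exact_mod_cast pint_int (p := p) 1
      · have := pint_int (p := p) (-1)
        push_cast at this
        exact this
    have h8 : Cg p (sg p * ColMod_Y p (-1 - ((j / 2 : ℕ) : ℤ)))
        (sg p * -ColMod_Y p (((j / 2 : ℕ) : ℤ))) :=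
      (cg_refl (sg p)).mul h7 hsg (h7.pint hYp.neg)
    refine hn.neg.trans ?_
    rw [mul_neg] at h8
    exact h8.symm

/-- `p/d` for `p^2 ∤ d` -/
private theorem ColMod_pdiv {p : ℕ} [Fact p.Prime] {d : ℤ} (hd : ¬ (p : ℤ) ^ 2 ∣ d) :
    PInt p ((p : ℚ) * (1 / (d : ℚ))) := by
  have hp0 : (p : ℚ) ≠ 0 := by
    have := (Fact.out : p.Prime).pos
    positivity
  by_cases h : (p : ℤ) ∣ d
  · obtain ⟨t, rfl⟩ := h
    have ht : ¬ (p : ℤ) ∣ t := by
      intro ht
      apply hd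
      rw [pow_two]
      exact mul_dvd_mul_left _ ht
    have e1 : (p : ℚ) * (1 / (((p : ℤ) * t : ℤ) : ℚ)) = 1 / (t : ℚ) := by
      push_cast
      rw [mul_one_div, div_mul_eq_div_div, div_self hp0]
    rw [e1]
    exact pint_inv ht
  · exact (pint_nat p).mul (pint_inv h)

private theorem ColMod_sq {p : ℕ} {d : ℤ} (h0 : 0 < d) (h1 : d + 5 ≤ 4 * (p : ℤ)) :
    ¬ (p : ℤ) ^ 2 ∣ d := by
  intro h
  have := Int.le_of_dvd h0 h
  nlinarith [sq_nonneg ((p : ℤ) - 2)]

private theorem ColMod_kapN {p e : ℕ} [Fact p.Prime] (he : e < p) :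
    PInt p ((p : ℚ) * kapN e) := by
  unfold kapN
  rw [Finset.mul_sum]
  apply pint_sum
  intro j hj
  have hj' := (Finset.mem_filter.1 hj).1
  rw [Finset.mem_Icc] at hj'
  have e1 : (p : ℚ) * (4 / (4 * (j : ℚ) - 1) - 4 / (4 * (j : ℚ) - 3)) =
      ((4 : ℤ) : ℚ) * ((p : ℚ) * (1 / ((4 * (j : ℤ) - 1 : ℤ) : ℚ))) -
        ((4 : ℤ) : ℚ) * ((p : ℚ) * (1 / ((4 * (j : ℤ) - 3 : ℤ) : ℚ))) := by
    push_cast
    ring
  rw [e1]
  refine PInt.sub ((pint_int 4).mul (ColMod_pdiv (ColMod_sq ?_ ?_)))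
    ((pint_int 4).mul (ColMod_pdiv (ColMod_sq ?_ ?_)))
  · omega
  · omega
  · omega
  · omega

theorem col_bad {p j : ℕ} [Fact p.Prime] (h2 : p ≠ 2) (hj : j < 2 * p) :
    PInt p ((p : ℚ) * kap (nu j)) := by
  have hj2 : j / 2 < p := by omega
  have h := ColMod_kapN hj2
  rcases ColMod_nu j with h3 | h3
  · rw [h3]
    exact h
  · rw [h3, ColMod_kap_neg, mul_neg]
    exact PInt.neg h

theorem col_pt {p j : ℕ} [Fact p.Prime] (h2 : p ≠ 2) (hb : Bad p j)
    (h : j / 2 < ap p + 2 * mp p) : ∃ x < mp p, (p : ℤ) ∣ nu j - ((ap p + 2 * x : ℕ) : ℤ) := by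
  obtain ⟨h3, h4, h5, h6⟩ := ColMod_am h2
  unfold Bad at hb
  obtain ⟨hb1, hb2⟩ := hb
  rcases ColMod_nu j with h7 | h7
  · refine ⟨(j / 2 - ap p) / 2, by omega, ?_⟩
    have : nu j - ((ap p + 2 * ((j / 2 - ap p) / 2) : ℕ) : ℤ) = 0 := by
      rw [h7]
      omega
    rw [this]
    exact dvd_zero _
  · refine ⟨mp p - 1 - (j / 2 - ap p) / 2, by omega, ?_⟩
    have : nu j - ((ap p + 2 * (mp p - 1 - (j / 2 - ap p) / 2) : ℕ) : ℤ) = -(p : ℤ) := by
      rw [h7]
      omega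
    rw [this]
    exact (dvd_refl _).neg_right

end PWief
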