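import Mathlib

/-!
# A determinant for the Pell-Wieferich primes: definitions

`S` is the linear functional on polynomials with `S (P(X+2) - P(X)) = P(1/4) - P(3/4)`
(the sum from `3/4` to `1/4` with step `2`); for a prime `p` it is, modulo `p`, plus or minus the sum over
`Ω_p = {ap p + 2 x : x < mp p}` (polynomials of degree at most `p - 2`). `kap e` is the value of `S` at
`1/(X - e)` in the Pell world (`kap 0 = 0`), `SS e P` the value at `P/(X - e)`.
`M n` is the matrix of the values at `bb i / (X - nu j)`, where `nu = 0, -1, 1, -2, 2, ...` and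
`bb i = ∏_{k<i} (X - nu k) / i!`.
-/

set_option autoImplicit false

open Finset Polynomial

namespace PWief

/-- the moments of the functional `S` -/
def mu : ℕ → ℚ
  | k => (((1 / 4 : ℚ) ^ (k + 1) - (3 / 4 : ℚ) ^ (k + 1)) -
      ∑ j : Fin k, ((k + 1).choose j : ℚ) * 2 ^ (k + 1 - (j : ℕ)) * mu j) / (2 * (k + 1))
decreasing_by exact j.2

/-- the functional on polynomials -/
noncomputable def S : ℚ[X] →ₗ[ℚ] ℚ := Polynomial.lsum fun k => (mu k) • (LinearMap.id : ℚ →ₗ[ℚ] ℚ)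

/-- `kapN e = ∑ 4/(4j-1) - 4/(4j-3)`, `1 ≤ j ≤ e`, `j ≡ e (mod 2)` -/
def kapN (e : ℕ) : ℚ :=
  ∑ j ∈ (Icc 1 e).filter (fun j => j % 2 = e % 2), (4 / (4 * (j : ℚ) - 1) - 4 / (4 * (j : ℚ) - 3))

/-- the value at `1/(X - e)`; `kap (-1-e) = - kap e` -/
def kap : ℤ → ℚ
  | Int.ofNat e => kapN e
  | Int.negSucc e => - kapN e

/-- the nodes `0, -1, 1, -2, 2, -3, ...` -/
def nu (i : ℕ) : ℤ := if i % 2 = 0 then (i / 2 : ℕ) else -1 - ((i / 2 : ℕ) : ℤ)

/-- `qq k = ∏_{i<k} (X - nu i)` -/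
noncomputable def qq (k : ℕ) : ℚ[X] := ∏ i ∈ range k, (X - C (nu i : ℚ))

/-- `bb k = qq k / k!`, an integer valued polynomial -/
noncomputable def bb (k : ℕ) : ℚ[X] := C (1 / (k.factorial : ℚ)) * qq k

/-- the value at `P/(X - e)` -/
noncomputable def SS (e : ℤ) (P : ℚ[X]) : ℚ :=
  P.eval (e : ℚ) * kap e + S (P /ₘ (X - C (e : ℚ)))

/-- the matrix -/
noncomputable def M (n : ℕ) : Matrix (Fin n) (Fin n) ℚ :=
  Matrix.of fun i j => SS (nu j) (bb i)

/-- the first point of `Ω_p` -/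
def ap (p : ℕ) : ℕ := (p + 3) / 4

/-- the number of points of `Ω_p` -/
def mp (p : ℕ) : ℕ := (p + 1) / 4

/-- the sign -/
def sg (p : ℕ) : ℚ := if p % 4 = 1 then 1 else -1

/-- `p`-integral rational numbers -/
def PInt (p : ℕ) (x : ℚ) : Prop := padicNorm p x ≤ 1

/-- congruence modulo `p` of rational numbers -/
def Cg (p : ℕ) (x y : ℚ) : Prop := padicNorm p (x - y) < 1

/-- the Pell numbers `0, 1, 2, 5, 12, 29, ...` -/
def pell : ℕ → ℕ
  | 0 => 0
  | 1 => 1
  | (n + 2) => 2 * pell (n + 1) + pell n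

/-- `p` is an odd prime and `p^2` divides a Pell number whose index is prime to `p` -/
def IsPW (p : ℕ) : Prop := p.Prime ∧ p ≠ 2 ∧ ∃ k : ℕ, ¬ p ∣ k ∧ p ^ 2 ∣ pell k

/-- the column `j` is bad for `p`: `nu j` is a point of the form `ap p + 2 x` or `- 1 - (ap p + 2 x)`, `x ≥ 0` -/
def Bad (p j : ℕ) : Prop := ap p ≤ j / 2 ∧ (j / 2) % 2 = ap p % 2

instance (p j : ℕ) : Decidable (Bad p j) := by unfold Bad; infer_instance

end PWief
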