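import Pool.Agent.Lib.PWief.Defs

/-!
# Auxiliary definitions: real side and 2-adic side
-/

set_option autoImplicit false

open Finset Polynomial

namespace PWief

/-- `mm k = ∏_{i<k} (⌊i/2⌋ + 1) = ⌊k/2⌋! ⌈k/2⌉!` -/
def mm (k : ℕ) : ℕ := ∏ i ∈ range k, (i / 2 + 1)

/-- `qq j / (X - nu r)` for `r < j` -/
noncomputable def qd (j r : ℕ) : ℚ[X] := ∏ i ∈ (range j).erase r, (X - C (nu i : ℚ))

/-- `∏_{i<n, i≠r} |nu r - nu i|` -/
def dQ (n r : ℕ) : ℚ := ∏ i ∈ (range n).erase r, |(nu r : ℚ) - (nu i : ℚ)|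

/-- the value at `P / ∏_{e ∈ A} (X - e)` -/
noncomputable def LL (A : Finset ℤ) (P : ℚ[X]) : ℚ :=
  ∑ e ∈ A, P.eval (e : ℚ) * kap e / ∏ f ∈ A.erase e, ((e : ℚ) - (f : ℚ)) +
    S (P /ₘ ∏ e ∈ A, (X - C (e : ℚ)))

/-- the set of nodes -/
def NN (n : ℕ) : Finset ℤ := (range n).image nu

/-- the chain `a, a+2, ..., a+2(k-1)` -/
def chn (a : ℤ) (k : ℕ) : Finset ℤ := (range k).image fun i : ℕ => a + 2 * (i : ℤ)

/-- monic polynomials of degree `i`: the product over the last `i` elements of the chain `chn a k`, times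
`(X - 3/4)^(i-k)` for `i > k` -/
noncomputable def ff (a : ℤ) (k i : ℕ) : ℚ[X] :=
  (∏ t ∈ Ico (k - i) k, (X - C (((a + 2 * (t : ℤ) : ℤ)) : ℚ))) * (X - C (3 / 4)) ^ (i - k)

end PWief
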