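import Pool.Agent.Lib.PWief.NuFac

/-!
# LMat: the matrix in the Lagrange basis

`Lm n = (SS_(nu r) (qd n s) / q'(s))_(s,r)`, `q'(s) = (qd n s).eval (nu s)`.

PROOF. `lagrange`: for `natDegree P < n`: `P = ∑_{s<n} C (P(nu s)/q'(s)) * qd n s` (both sides have degree `< n` and
agree at the `n` distinct points `nu s`: `Polynomial.eq_of_degree_sub_lt_of_eval_finset_eq` or
`Lagrange.eq_interpolate`...; `(qd n s).eval (nu r) = 0` for `r ≠ s`, `r < n`). `SS_lin`: `SS e` is additive and
homogeneous (`Polynomial.eval_add`, `Polynomial.add_divByMonic`, `Polynomial.smul_divByMonic`, `map_add`, `map_smul`).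
`M_eq`: `M n = E * Lm n`, `E i s = (bb i).eval (nu s)` (`natDegree (bb i) ≤ i < n`). `E` is upper triangular:
`(bb i).eval (nu s) = 0` for `s < i` (factor `X - nu s` of `qq i`), diagonal `±1` (`prod_nu_self`):
`Matrix.det_of_upperTriangular`, so `|det E| = 1`. `abs_qp`: `|q'(s)| = dQ n s` (`eval_prod`, `abs_prod`).
-/

set_option autoImplicit false

open Finset Polynomial

namespace PWief

/-- the matrix of the values at `qd n s / (q'(s) (X - nu r))` -/
noncomputable def Lm (n : ℕ) : Matrix (Fin n) (Fin n) ℚ :=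
  Matrix.of fun s r => SS (nu r) (qd n s) / (qd n s).eval (nu s : ℚ)

private theorem LMat_div_add (a : ℚ) (P Q : ℚ[X]) :
    (P + Q) /ₘ (X - C a) = P /ₘ (X - C a) + Q /ₘ (X - C a) := by
  refine (div_modByMonic_unique (P /ₘ (X - C a) + Q /ₘ (X - C a))
    (P %ₘ (X - C a) + Q %ₘ (X - C a)) (monic_X_sub_C a) ⟨?_, ?_⟩).1
  · have h1 := modByMonic_add_div P (X - C a)
    have h2 := modByMonic_add_div Q (X - C a)
    linear_combination h1 + h2
  · exact lt_of_le_of_lt (degree_add_le _ _) (max_lt (degree_modByMonic_lt _ (monic_X_sub_C a))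
      (degree_modByMonic_lt _ (monic_X_sub_C a)))

private theorem LMat_div_smul (a c : ℚ) (P : ℚ[X]) :
    (C c * P) /ₘ (X - C a) = c • (P /ₘ (X - C a)) := by
  rw [smul_eq_C_mul]
  refine (div_modByMonic_unique (C c * (P /ₘ (X - C a)))
    (C c * (P %ₘ (X - C a))) (monic_X_sub_C a) ⟨?_, ?_⟩).1
  · have h1 := modByMonic_add_div P (X - C a)
    linear_combination C c * h1
  · rw [← smul_eq_C_mul]
    exact lt_of_le_of_lt (degree_smul_le _ _) (degree_modByMonic_lt _ (monic_X_sub_C a))

theorem SS_add (e : ℤ) (P Q : ℚ[X]) : SS e (P + Q) = SS e P + SS e Q := by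
  unfold SS
  rw [eval_add, LMat_div_add, map_add]
  ring

theorem SS_C_mul (e : ℤ) (c : ℚ) (P : ℚ[X]) : SS e (C c * P) = c * SS e P := by
  unfold SS
  rw [LMat_div_smul, map_smul, eval_mul, eval_C, smul_eq_mul]
  ring

theorem SS_sum {ι : Type*} (s : Finset ι) (e : ℤ) (f : ι → ℚ[X]) :
    SS e (∑ i ∈ s, f i) = ∑ i ∈ s, SS e (f i) := by
  classical
  induction s using Finset.induction_on with
  | empty => simp [SS, zero_divByMonic]
  | insert a s ha ih => rw [sum_insert ha, sum_insert ha, SS_add, ih]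

theorem abs_qp {n s : ℕ} (hs : s < n) : |(qd n s).eval (nu s : ℚ)| = dQ n s := by
  unfold qd dQ
  rw [eval_prod, abs_prod]
  simp

theorem qp_ne {n s : ℕ} (hs : s < n) : (qd n s).eval (nu s : ℚ) ≠ 0 := by
  unfold qd
  rw [eval_prod, Finset.prod_ne_zero_iff]
  intro i hi h
  have h1 : ((nu s : ℤ) : ℚ) = ((nu i : ℤ) : ℚ) := by
    simp only [eval_sub, eval_X, eval_C] at h
    linarith
  have h2 : s = i := nu_inj (by exact_mod_cast h1)
  exact (Finset.mem_erase.1 hi).1 h2.symm

theorem qd_eval_ne {n r s : ℕ} (hr : r < n) (hne : r ≠ s) : (qd n s).eval (nu r : ℚ) = 0 := by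
  unfold qd
  rw [eval_prod]
  apply Finset.prod_eq_zero (Finset.mem_erase.2 ⟨hne, Finset.mem_range.2 hr⟩)
  simp

theorem lagrange {n : ℕ} {P : ℚ[X]} (hP : P.natDegree < n) :
    P = ∑ s ∈ range n, C (P.eval (nu s : ℚ) / (qd n s).eval (nu s : ℚ)) * qd n s := by
  have hinj : Set.InjOn (fun i : ℕ => ((nu i : ℤ) : ℚ)) (range n : Finset ℕ) := by
    intro a _ b _ hab
    have hab' : ((nu a : ℤ) : ℚ) = ((nu b : ℤ) : ℚ) := hab
    exact nu_inj (by exact_mod_cast hab')
  apply eq_of_degrees_lt_of_eval_index_eq (range n) hinj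
  · rw [card_range]
    exact lt_of_le_of_lt degree_le_natDegree (by exact_mod_cast hP)
  · rw [card_range, ← mem_degreeLT]
    apply Submodule.sum_mem
    intro s hs
    rw [mem_degreeLT]
    refine lt_of_le_of_lt degree_le_natDegree ?_
    have h1 : (C (P.eval (nu s : ℚ) / (qd n s).eval (nu s : ℚ)) * qd n s).natDegree ≤ n - 1 := by
      refine le_trans (natDegree_C_mul_le _ _) ?_
      unfold qd
      refine le_trans (natDegree_prod_le _ _) ?_
      refine le_trans (Finset.sum_le_card_nsmul _ _ 1 ?_) ?_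
      · intro i _
        exact le_of_eq (natDegree_X_sub_C _)
      · rw [Finset.card_erase_of_mem hs, card_range]
        simp
    have h2 : n - 1 < n := by omega
    exact_mod_cast lt_of_le_of_lt h1 h2
  · intro r hr
    have hr' := Finset.mem_range.1 hr
    rw [eval_finsetSum, Finset.sum_eq_single r]
    · rw [eval_mul, eval_C, div_mul_cancel₀ _ (qp_ne hr')]
    · intro s _ hsr
      rw [eval_mul, qd_eval_ne hr' hsr.symm, mul_zero]
    · intro h; exact absurd hr h

private theorem LMat_natDegree_bb (i : ℕ) : (bb i).natDegree ≤ i := by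
  unfold bb qq
  refine le_trans (natDegree_C_mul_le _ _) ?_
  refine le_trans (natDegree_prod_le _ _) ?_
  refine le_trans (Finset.sum_le_card_nsmul _ _ 1 ?_) ?_
  · intro i _
    exact le_of_eq (natDegree_X_sub_C _)
  · simp

theorem abs_det_M (n : ℕ) : |(M n).det| = |(Lm n).det| := by
  let E : Matrix (Fin n) (Fin n) ℚ := Matrix.of fun i s => (bb i).eval (nu s : ℚ)
  have h1 : M n = E * Lm n := by
    ext i j
    rw [Matrix.mul_apply]
    have h2 := lagrange (lt_of_le_of_lt (LMat_natDegree_bb i) i.2)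
    have h3 : M n i j = SS (nu j) (bb i) := rfl
    rw [h3]
    nth_rewrite 1 [h2]
    rw [SS_sum, Finset.sum_range]
    apply Finset.sum_congr rfl
    intro s _
    rw [SS_C_mul]
    simp only [E, Lm, Matrix.of_apply]
    ring
  have h4 : E.det = ∏ i, E i i := by
    apply Matrix.det_of_isUpperTriangular
    intro i j hij
    have hij' : (j : ℕ) < (i : ℕ) := hij
    simp only [E, Matrix.of_apply, bb, qq]
    rw [eval_mul, eval_prod, Finset.prod_eq_zero (Finset.mem_range.2 hij'), mul_zero]
    simp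
  have h5 : |E.det| = 1 := by
    rw [h4, abs_prod]
    apply Finset.prod_eq_one
    intro i _
    simp only [E, Matrix.of_apply, bb, qq]
    rw [eval_mul, eval_prod, abs_mul, abs_prod]
    have h6 : ∏ x ∈ range (i : ℕ), |eval (nu i : ℚ) (X - C (nu x : ℚ))| = ((i : ℕ).factorial : ℚ) := by
      rw [← prod_nu_self]
      simp
    rw [h6, eval_C, abs_of_pos (by positivity)]
    field_simp
  rw [h1, Matrix.det_mul, abs_mul, h5, one_mul]

end PWief
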