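import Pool.Agent.Lib.PWief.SInt
import Pool.Agent.Lib.PWief.LMat

/-!
# EntInt: denominators of the entries, odd primes

PROOF. `bb_eq`: `bb i = chp (i/2) i` (the same factors: `qq (2a) = ∏_{-a≤j<a} (X - j) = ∏_{i<2a} (X + a - i)`,
`qq (2a+1) = ∏_{-a≤j≤a}`; induction on `a`). `SS_chp`: for an integer `e`:
`chp c i = ∑_{l ≤ i} C(e + c, i - l) chp (-e) l` (Vandermonde: `C(X + c, i)`, `X + c = (X - e) + (e + c)`;
`Ring.add_choose_eq` or induction), `chp (-e) l = (X - e) (1/l) chp (-e-1) (l-1)` for `l ≥ 1`, so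
`(chp c i - value at e)/(X - e) = ∑_{l=1}^i C(e+c,i-l) (1/l) chp (-e-1) (l-1)` and
`SS e (chp c i) = C(e+c,i) kap e + ∑_{l=1}^{i} C(e+c,i-l) (1/l) S (chp (-e-1) (l-1))`.
`ent_int`: `t = Nat.log p (2n)`, so `p^(t+1) > 2n` and `p^t / d` is `p`-integral for `0 < |d| ≤ 2n`: `l ≤ i < n`,
and `kap (nu j)` is a sum of `4/(4k-1) - 4/(4k-3)` with `k ≤ j/2`, `4k - 1 ≤ 2n`. The binomials are integers,
`S (chp ..)` is `p`-integral (`S_chp_int`).
-/

set_option autoImplicit false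

open Finset Polynomial

namespace PWief

private theorem EntInt_even (a : ℕ) :
    qq (2 * a) = ∏ j ∈ range (2 * a), (X + C ((a : ℚ) - (j : ℚ))) := by
  induction a with
  | zero => simp [qq]
  | succ a ih =>
    have h1 : qq (2 * a + 1) = qq (2 * a) * (X - C (a : ℚ)) := by
      have h : nu (2 * a) = (a : ℤ) := by
        unfold nu
        rw [if_pos (by omega)]
        congr 1
        omega
      unfold qq
      rw [prod_range_succ, h]
      simp
    have h2 : qq (2 * a + 2) = qq (2 * a + 1) * (X + C ((a : ℚ) + 1)) := by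
      have h : nu (2 * a + 1) = -1 - (a : ℤ) := by
        unfold nu
        rw [if_neg (by omega)]
        have : (2 * a + 1) / 2 = a := by omega
        rw [this]
      unfold qq
      rw [prod_range_succ, h]
      congr 1
      push_cast
      rw [sub_eq_add_neg, ← C_neg]
      congr 2
      ring
    have h3 : (∏ j ∈ range (2 * a + 1), (X + C ((a : ℚ) - (j : ℚ)))) = qq (2 * a + 1) := by
      rw [prod_range_succ, ← ih, h1]
      congr 1
      push_cast
      rw [sub_eq_add_neg X, ← C_neg]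
      congr 2
      ring
    have h4 : 2 * (a + 1) = (2 * a + 1) + 1 := by ring
    rw [h4, h2, prod_range_succ', ← h3]
    congr 1
    · refine prod_congr rfl fun j _ => ?_
      congr 2
      push_cast
      ring
    · congr 2
      push_cast
      ring

private theorem EntInt_odd (a : ℕ) :
    qq (2 * a + 1) = ∏ j ∈ range (2 * a + 1), (X + C ((a : ℚ) - (j : ℚ))) := by
  have h : nu (2 * a) = (a : ℤ) := by
    unfold nu
    rw [if_pos (by omega)]
    congr 1
    omega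
  have h1 : qq (2 * a + 1) = qq (2 * a) * (X - C (a : ℚ)) := by
    unfold qq
    rw [prod_range_succ, h]
    simp
  rw [h1, prod_range_succ, EntInt_even]
  congr 1
  push_cast
  rw [sub_eq_add_neg X, ← C_neg]
  congr 2
  ring

theorem bb_eq (i : ℕ) : bb i = chp ((i / 2 : ℕ) : ℤ) i := by
  unfold bb chp
  congr 1
  rcases Nat.even_or_odd' i with ⟨a, h | h⟩
  · subst h
    rw [EntInt_even]
    have : 2 * a / 2 = a := by omega
    rw [this]
    simp
  · subst h
    rw [EntInt_odd]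
    have : (2 * a + 1) / 2 = a := by omega
    rw [this]
    simp

private theorem EntInt_choose (r : ℤ) (k : ℕ) :
    (k.factorial : ℤ) * Ring.choose r k = ∏ j ∈ range k, (r - (j : ℤ)) := by
  rw [← descPochhammer_eval_eq_prod_range, Polynomial.eval_eq_smeval,
    Ring.descPochhammer_eq_factorial_smul_choose, nsmul_eq_mul]

private theorem EntInt_eval (c x : ℤ) (k : ℕ) :
    (chp c k).eval (x : ℚ) = ((Ring.choose (x + c) k : ℤ) : ℚ) := by
  have h := EntInt_choose (x + c) k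
  have h' : ((k.factorial : ℤ) : ℚ) * ((Ring.choose (x + c) k : ℤ) : ℚ) =
      ∏ j ∈ range k, ((x : ℚ) + (c : ℚ) - (j : ℚ)) := by
    rw [← Int.cast_mul, h]
    push_cast
    rfl
  have hk : (k.factorial : ℚ) ≠ 0 := by exact_mod_cast k.factorial_ne_zero
  unfold chp
  rw [eval_mul, eval_C, eval_prod]
  have h2 : (∏ j ∈ range k, eval (x : ℚ) (X + C ((c : ℚ) - (j : ℚ)))) =
      ∏ j ∈ range k, ((x : ℚ) + (c : ℚ) - (j : ℚ)) := by
    refine prod_congr rfl fun j _ => ?_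
    rw [eval_add, eval_X, eval_C]
    ring
  rw [h2, ← h']
  push_cast
  field_simp

private theorem EntInt_vand (e c : ℤ) (i : ℕ) :
    chp c i = ∑ l ∈ range (i + 1), C ((Ring.choose (e + c) (i - l) : ℤ) : ℚ) * chp (-e) l := by
  apply Polynomial.eq_of_infinite_eval_eq
  have hinf : (Set.range fun x : ℤ => (x : ℚ)).Infinite :=
    Set.infinite_range_of_injective Int.cast_injective
  refine hinf.mono ?_
  rintro _ ⟨x, rfl⟩
  show eval (x : ℚ) (chp c i) = eval (x : ℚ) _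
  rw [EntInt_eval, eval_finsetSum]
  have h1 : x + c = (x + -e) + (e + c) := by ring
  rw [h1, Ring.add_choose_eq i (Commute.all _ _), Nat.sum_antidiagonal_eq_sum_range_succ_mk]
  push_cast
  refine sum_congr rfl fun l _ => ?_
  rw [eval_mul, eval_C, EntInt_eval, mul_comm]

private theorem EntInt_step (e : ℤ) {l : ℕ} (hl : 1 ≤ l) :
    chp (-e) l = (X - C (e : ℚ)) * (C (1 / (l : ℚ)) * chp (-e - 1) (l - 1)) := by
  obtain ⟨m, rfl⟩ : ∃ m, l = m + 1 := ⟨l - 1, by omega⟩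
  rw [Nat.add_sub_cancel]
  unfold chp
  rw [prod_range_succ']
  have h1 : (∏ k ∈ range m, (X + C (((-e : ℤ) : ℚ) - ((k + 1 : ℕ) : ℚ)))) =
      ∏ k ∈ range m, (X + C (((-e - 1 : ℤ) : ℚ) - (k : ℚ))) := by
    refine prod_congr rfl fun k _ => ?_
    congr 2
    push_cast
    ring
  rw [h1]
  have h2 : (C (1 / ((m + 1).factorial : ℚ)) : ℚ[X]) =
      C (1 / ((m + 1 : ℕ) : ℚ)) * C (1 / (m.factorial : ℚ)) := by
    rw [← C_mul]
    congr 1
    rw [Nat.factorial_succ]
    push_cast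
    have hm : (m.factorial : ℚ) ≠ 0 := by exact_mod_cast m.factorial_ne_zero
    have hm1 : (m : ℚ) + 1 ≠ 0 := by positivity
    field_simp
  have h3 : (X + C (((-e : ℤ) : ℚ) - ((0 : ℕ) : ℚ)) : ℚ[X]) = X - C (e : ℚ) := by
    rw [sub_eq_add_neg X, ← C_neg]
    congr 2
    push_cast
    ring
  rw [h2, h3]
  ring

theorem SS_chp (e c : ℤ) (i : ℕ) :
    SS e (chp c i) = ((Ring.choose (e + c) i : ℤ) : ℚ) * kap e +
      ∑ l ∈ Icc 1 i, ((Ring.choose (e + c) (i - l) : ℤ) : ℚ) * (1 / (l : ℚ)) *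
        S (chp (-e - 1) (l - 1)) := by
  have h0 : chp (-e) 0 = 1 := by
    unfold chp
    simp
  have hsplit : chp c i = C ((Ring.choose (e + c) i : ℤ) : ℚ) + (X - C (e : ℚ)) *
      ∑ l ∈ Icc 1 i, C (((Ring.choose (e + c) (i - l) : ℤ) : ℚ) * (1 / (l : ℚ))) *
        chp (-e - 1) (l - 1) := by
    rw [EntInt_vand e c i, range_eq_Ico, sum_eq_sum_Ico_succ_bot (by omega)]
    rw [h0, mul_one, Nat.sub_zero, mul_sum]
    congr 1
    have hI : Ico (0 + 1) (i + 1) = Icc 1 i := by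
      ext x
      simp only [mem_Ico, mem_Icc]
      omega
    rw [hI]
    refine sum_congr rfl fun l hl => ?_
    rw [EntInt_step e (mem_Icc.mp hl).1, C_mul]
    ring
  have hdiv : chp c i /ₘ (X - C (e : ℚ)) =
      ∑ l ∈ Icc 1 i, C (((Ring.choose (e + c) (i - l) : ℤ) : ℚ) * (1 / (l : ℚ))) *
        chp (-e - 1) (l - 1) := by
    refine (div_modByMonic_unique _ (C ((Ring.choose (e + c) i : ℤ) : ℚ))
      (monic_X_sub_C (e : ℚ)) ⟨hsplit.symm, ?_⟩).1
    rw [degree_X_sub_C]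
    exact lt_of_le_of_lt degree_C_le (by norm_num)
  unfold SS
  rw [hdiv, EntInt_eval, map_sum]
  congr 1
  refine sum_congr rfl fun l _ => ?_
  rw [← smul_eq_C_mul, map_smul, smul_eq_mul]

private theorem EntInt_div {p : ℕ} [Fact p.Prime] {n d : ℕ} (hd : d ≠ 0) (hdn : d ≤ 2 * n) :
    PInt p ((p : ℚ) ^ (Nat.log p (2 * n)) * (1 / (d : ℚ))) := by
  have hp : p.Prime := Fact.out
  obtain ⟨v, m, hm, hdm⟩ := Nat.exists_eq_pow_mul_and_not_dvd hd p hp.one_lt.ne'
  have hm0 : m ≠ 0 := by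
    rintro rfl
    exact hm (dvd_zero p)
  have hv : v ≤ Nat.log p (2 * n) := by
    apply Nat.le_log_of_pow_le hp.one_lt
    refine le_trans ?_ hdn
    rw [hdm]
    exact Nat.le_mul_of_pos_right _ (Nat.pos_of_ne_zero hm0)
  have h1 : (p : ℚ) ^ (Nat.log p (2 * n)) * (1 / (d : ℚ)) =
      ((p ^ (Nat.log p (2 * n) - v) : ℕ) : ℚ) * (1 / ((m : ℤ) : ℚ)) := by
    have hp0 : (p : ℚ) ≠ 0 := by exact_mod_cast hp.ne_zero
    have hm0' : (m : ℚ) ≠ 0 := by exact_mod_cast hm0
    rw [hdm]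
    push_cast
    have h2 : (p : ℚ) ^ (Nat.log p (2 * n)) =
        (p : ℚ) ^ (Nat.log p (2 * n) - v) * (p : ℚ) ^ v := by
      rw [← pow_add]
      congr 1
      omega
    rw [h2]
    field_simp
  rw [h1]
  refine (pint_nat _).mul (pint_inv ?_)
  intro h
  exact hm (by exact_mod_cast h)

private theorem EntInt_kapN {p : ℕ} [Fact p.Prime] {n e : ℕ} (he : 2 * e < n) :
    PInt p ((p : ℚ) ^ (Nat.log p (2 * n)) * kapN e) := by
  unfold kapN
  rw [mul_sum]
  refine pint_sum _ _ fun k hk => ?_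
  have hk' := mem_Icc.mp (mem_filter.mp hk).1
  have e1 : (4 * (k : ℚ) - 1) = ((4 * k - 1 : ℕ) : ℚ) := by
    rw [Nat.cast_sub (by omega)]
    push_cast
    ring
  have e2 : (4 * (k : ℚ) - 3) = ((4 * k - 3 : ℕ) : ℚ) := by
    rw [Nat.cast_sub (by omega)]
    push_cast
    ring
  have h : (p : ℚ) ^ (Nat.log p (2 * n)) * (4 / (4 * (k : ℚ) - 1) - 4 / (4 * (k : ℚ) - 3)) =
      ((4 : ℕ) : ℚ) * ((p : ℚ) ^ (Nat.log p (2 * n)) * (1 / ((4 * k - 1 : ℕ) : ℚ))) -
      ((4 : ℕ) : ℚ) * ((p : ℚ) ^ (Nat.log p (2 * n)) * (1 / ((4 * k - 3 : ℕ) : ℚ))) := by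
    rw [e1, e2]
    push_cast
    ring
  rw [h]
  exact ((pint_nat 4).mul (EntInt_div (by omega) (by omega))).sub
    ((pint_nat 4).mul (EntInt_div (by omega) (by omega)))

private theorem EntInt_kap {p : ℕ} [Fact p.Prime] {n j : ℕ} (hj : j < n) :
    PInt p ((p : ℚ) ^ (Nat.log p (2 * n)) * kap (nu j)) := by
  rcases Nat.lt_or_ge (j % 2) 1 with h | h
  · by_cases h0 : 2 * (j / 2) < n
    · have h1 : kap (nu j) = kapN (j / 2) := by
        unfold nu
        rw [if_pos (by omega)]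
        rfl
      rw [h1]
      exact EntInt_kapN h0
    · omega
  · have h1 : kap (nu j) = - kapN (j / 2) := by
      unfold nu
      rw [if_neg (by omega)]
      have h2 : (-1 - ((j / 2 : ℕ) : ℤ)) = Int.negSucc (j / 2) := by
        rw [Int.negSucc_eq]
        ring
      rw [h2]
      rfl
    rw [h1, mul_neg]
    exact (EntInt_kapN (by omega)).neg

theorem ent_int {p : ℕ} [Fact p.Prime] (h2 : p ≠ 2) {n i j : ℕ} (hi : i < n) (hj : j < n) :
    PInt p ((p : ℚ) ^ (Nat.log p (2 * n)) * SS (nu j) (bb i)) := by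
  rw [bb_eq, SS_chp, mul_add, mul_sum]
  refine PInt.add ?_ (pint_sum _ _ fun l hl => ?_)
  · have h := (pint_int (p := p) (Ring.choose (nu j + ((i / 2 : ℕ) : ℤ)) i)).mul
      (EntInt_kap (p := p) hj)
    have e : (p : ℚ) ^ (Nat.log p (2 * n)) *
        (((Ring.choose (nu j + ((i / 2 : ℕ) : ℤ)) i : ℤ) : ℚ) * kap (nu j)) =
        ((Ring.choose (nu j + ((i / 2 : ℕ) : ℤ)) i : ℤ) : ℚ) *
        ((p : ℚ) ^ (Nat.log p (2 * n)) * kap (nu j)) := by ring
    rw [e]
    exact h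
  · have hl' := mem_Icc.mp hl
    have e : (p : ℚ) ^ (Nat.log p (2 * n)) *
        (((Ring.choose (nu j + ((i / 2 : ℕ) : ℤ)) (i - l) : ℤ) : ℚ) * (1 / (l : ℚ)) *
          S (chp (-nu j - 1) (l - 1))) =
        ((Ring.choose (nu j + ((i / 2 : ℕ) : ℤ)) (i - l) : ℤ) : ℚ) *
        ((p : ℚ) ^ (Nat.log p (2 * n)) * (1 / (l : ℚ))) * S (chp (-nu j - 1) (l - 1)) := by ring
    rw [e]
    exact ((pint_int _).mul (EntInt_div (by omega) (by omega))).mul (S_chp_int h2 _ _)

end PWief
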