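import Pool.Agent.Lib.PWief.DefsR

/-!
# SShift: moments, shift rule

PROOF. `S_X_pow`: `Polynomial.lsum_apply`, `X_pow` is `monomial k 1`; `mu k • 1`. `S_shift`: both sides are linear
in `P`, so it suffices to take `P = X^k` (`Polynomial.induction_on'` or `Polynomial.induction_on`: `C a * X^k`).
`k = 0`: both sides are `0`. `k+1`: `(X + 2)^(k+1) - X^(k+1) = ∑_{j ≤ k} C(k+1,j) 2^(k+1-j) X^j`, apply `S`:
`∑_{j<k} C(k+1,j) 2^(k+1-j) mu j + (k+1) 2 mu k`, and by the defining equation of `mu k` (unfold once,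
`rw [mu]`) this is `(1/4)^(k+1) - (3/4)^(k+1)`. `C 2` acts as the constant polynomial, `(X + C 2)^(k+1)` by
`add_pow` / `Commute.add_pow`, `Finset.sum_range_succ` twice.
-/

set_option autoImplicit false

open Finset Polynomial

namespace PWief

theorem S_X_pow (k : ℕ) : S ((X : ℚ[X]) ^ k) = mu k := by
  rw [S, Polynomial.lsum_apply, Polynomial.X_pow_eq_monomial, Polynomial.sum_monomial_index]
  · simp
  · simp

private theorem sshift_S_C_mul (a : ℚ) (P : ℚ[X]) : S (C a * P) = a * S P := by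
  rw [← Polynomial.smul_eq_C_mul, map_smul, smul_eq_mul]

private theorem sshift_mu (k : ℕ) :
    (∑ j ∈ range k, ((k + 1).choose j : ℚ) * 2 ^ (k + 1 - j) * mu j) + 2 * ((k : ℚ) + 1) * mu k
      = (1 / 4 : ℚ) ^ (k + 1) - (3 / 4 : ℚ) ^ (k + 1) := by
  have h : mu k = (((1 / 4 : ℚ) ^ (k + 1) - (3 / 4 : ℚ) ^ (k + 1)) -
      ∑ j : Fin k, ((k + 1).choose j : ℚ) * 2 ^ (k + 1 - (j : ℕ)) * mu j) / (2 * (k + 1)) := by
    rw [mu]
  have h2 : (∑ j : Fin k, ((k + 1).choose j : ℚ) * 2 ^ (k + 1 - (j : ℕ)) * mu j)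
      = ∑ j ∈ range k, ((k + 1).choose j : ℚ) * 2 ^ (k + 1 - j) * mu j :=
    Fin.sum_univ_eq_sum_range (fun j => ((k + 1).choose j : ℚ) * 2 ^ (k + 1 - j) * mu j) k
  rw [h2] at h
  have h3 : (2 * ((k : ℚ) + 1)) ≠ 0 := by positivity
  rw [eq_div_iff h3] at h
  linarith

private theorem sshift_pow (k : ℕ) :
    S (((X : ℚ[X]) ^ k).comp (X + C 2) - X ^ k)
      = ((X : ℚ[X]) ^ k).eval (1 / 4) - ((X : ℚ[X]) ^ k).eval (3 / 4) := by
  rw [Polynomial.X_pow_comp, Polynomial.eval_pow, Polynomial.eval_pow, Polynomial.eval_X,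
    Polynomial.eval_X]
  cases k with
  | zero => simp
  | succ k =>
    rw [← sshift_mu k, add_pow, Finset.sum_range_succ]
    simp only [Nat.sub_self, pow_zero, mul_one, Nat.choose_self, Nat.cast_one, add_sub_cancel_right]
    have h : ∀ j : ℕ, (X : ℚ[X]) ^ j * C 2 ^ (k + 1 - j) * (((k + 1).choose j : ℕ) : ℚ[X])
        = C (((k + 1).choose j : ℚ) * 2 ^ (k + 1 - j)) * X ^ j := by
      intro j
      rw [map_mul, map_pow, map_natCast]
      ring
    simp only [h]
    rw [map_sum, Finset.sum_range_succ]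
    simp only [sshift_S_C_mul, S_X_pow]
    congr 1
    have h5 : k + 1 - k = 1 := by omega
    rw [h5, Nat.choose_succ_self_right]
    push_cast
    ring

theorem S_shift (P : ℚ[X]) : S (P.comp (X + C 2) - P) = P.eval (1 / 4) - P.eval (3 / 4) := by
  induction P using Polynomial.induction_on' with
  | add p q hp hq =>
    rw [Polynomial.add_comp, Polynomial.eval_add, Polynomial.eval_add]
    have h : p.comp (X + C 2) + q.comp (X + C 2) - (p + q)
        = (p.comp (X + C 2) - p) + (q.comp (X + C 2) - q) := by ring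
    rw [h, map_add, hp, hq]
    ring
  | monomial n a =>
    rw [← Polynomial.C_mul_X_pow_eq_monomial]
    have h : (C a * X ^ n : ℚ[X]).comp (X + C 2) - C a * X ^ n
        = C a * (((X : ℚ[X]) ^ n).comp (X + C 2) - X ^ n) := by
      rw [Polynomial.mul_comp, Polynomial.C_comp]; ring
    rw [h, sshift_S_C_mul, sshift_pow, Polynomial.eval_mul, Polynomial.eval_mul, Polynomial.eval_C,
      Polynomial.eval_C]
    ring

end PWief
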