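import Pool.Agent.Lib.PWief.PApi
import Pool.Agent.Lib.PWief.SShift

/-!
# SMod: the functional modulo `p` on polynomials of degree at most `p - 2`

`antideriv`: a `p`-integral polynomial of degree at most `p - 2` is a difference `F(X+2) - F` with `F`
`p`-integral. `S_mod`: so the functional `S` is, modulo `p`, plus or minus the sum over `Ω_p`.
-/

set_option autoImplicit false

open Finset Polynomial

namespace PWief

private theorem SMod_nd {p : ℕ} [Fact p.Prime] (h2 : p ≠ 2) {d : ℕ} (hd : d + 1 < p) :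
    ¬ (p : ℤ) ∣ 2 * ((d : ℤ) + 1) := by
  intro h
  have h1 : p ∣ 2 * (d + 1) := by exact_mod_cast h
  rcases (Nat.Prime.dvd_mul (Fact.out : p.Prime)).1 h1 with h3 | h3
  · exact h2 ((Nat.prime_dvd_prime_iff_eq (Fact.out : p.Prime) Nat.prime_two).1 h3)
  · have := Nat.le_of_dvd (Nat.succ_pos d) h3
    omega

private theorem SMod_aux {p : ℕ} [Fact p.Prime] (h2 : p ≠ 2) : ∀ d : ℕ, d + 1 ≤ p → ∀ P : ℚ[X],
    (∀ k, PInt p (P.coeff k)) → (∀ k, d ≤ k → P.coeff k = 0) →
    ∃ F : ℚ[X], (∀ k, PInt p (F.coeff k)) ∧ F.comp (X + C 2) - F = P := by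
  intro d
  induction d with
  | zero =>
    intro _ P _ h0
    have hP0 : P = 0 := by
      ext k
      simpa using h0 k (Nat.zero_le k)
    refine ⟨0, fun k => ?_, ?_⟩
    · simpa using pint_nat (p := p) 0
    · simp [hP0]
  | succ d ih =>
    intro hd P hP h0
    set e : ℚ := (1 / ((2 * ((d : ℤ) + 1) : ℤ) : ℚ)) * P.coeff d with hedef
    have he : PInt p e := (pint_inv (SMod_nd h2 (by omega))).mul (hP d)
    have hGc : ∀ k, ((C e * X ^ (d + 1) : ℚ[X]).comp (X + C 2) - C e * X ^ (d + 1)).coeff k =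
        e * ((2 : ℕ) ^ (d + 1 - k) * ((d + 1).choose k : ℕ) - if k = d + 1 then 1 else 0) := by
      intro k
      have h1 : ((C e * X ^ (d + 1) : ℚ[X]).comp (X + C 2) - C e * X ^ (d + 1)) =
          C e * ((X + C 2) ^ (d + 1) - X ^ (d + 1)) := by
        simp only [mul_comp, C_comp, X_pow_comp]
        ring
      rw [h1, coeff_C_mul, coeff_sub, coeff_X_add_C_pow, coeff_X_pow]
      simp
    have hec : e * (2 * ((d : ℚ) + 1)) = P.coeff d := by
      rw [hedef]
      have : (2 * ((d : ℚ) + 1)) ≠ 0 := by positivity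
      push_cast
      field_simp
    obtain ⟨F, hF, hFe⟩ := ih (by omega)
      (P - ((C e * X ^ (d + 1) : ℚ[X]).comp (X + C 2) - C e * X ^ (d + 1)))
      (fun k => by
        rw [coeff_sub, hGc]
        refine (hP k).sub (he.mul (((pint_nat 2).pow _ |>.mul (pint_nat _)).sub ?_))
        split_ifs
        · simpa using pint_nat (p := p) 1
        · simpa using pint_nat (p := p) 0)
      (fun k hk => by
        rw [coeff_sub, hGc]
        rcases Nat.lt_or_ge d k with h | h
        · rw [h0 k h]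
          rcases Nat.lt_or_ge (d + 1) k with h' | h'
          · rw [Nat.choose_eq_zero_of_lt h', if_neg (by omega)]
            simp
          · have : k = d + 1 := by omega
            subst this
            simp
        · have : k = d := by omega
          subst this
          rw [if_neg (by omega), ← hec]
          have h3 : k + 1 - k = 1 := by omega
          rw [h3, Nat.choose_succ_self_right]
          push_cast
          ring)
    refine ⟨F + C e * X ^ (d + 1), fun k => ?_, ?_⟩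
    · rw [coeff_add, coeff_C_mul, coeff_X_pow]
      refine (hF k).add (he.mul ?_)
      split_ifs
      · simpa using pint_nat (p := p) 1
      · simpa using pint_nat (p := p) 0
    · have h4 : (F + C e * X ^ (d + 1)).comp (X + C 2) - (F + C e * X ^ (d + 1)) =
          (F.comp (X + C 2) - F) +
            ((C e * X ^ (d + 1) : ℚ[X]).comp (X + C 2) - C e * X ^ (d + 1)) := by
        rw [add_comp]
        ring
      rw [h4, hFe]
      ring

theorem antideriv {p : ℕ} [Fact p.Prime] (h2 : p ≠ 2) (d : ℕ) (hd : d + 2 ≤ p) (P : ℚ[X])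
    (hP : ∀ k, PInt p (P.coeff k)) (hdeg : P.natDegree ≤ d) :
    ∃ F : ℚ[X], (∀ k, PInt p (F.coeff k)) ∧ F.comp (X + C 2) - F = P :=
  SMod_aux h2 (d + 1) (by omega) P hP fun k hk =>
    coeff_eq_zero_of_natDegree_lt (by omega)

private theorem SMod_four {p : ℕ} [Fact p.Prime] (h2 : p ≠ 2) : ¬ (p : ℤ) ∣ 4 := by
  intro h
  have h1 : p ∣ 4 := by exact_mod_cast h
  have h3 : p ∣ 2 ^ 2 := by simpa using h1
  exact h2 ((Nat.prime_dvd_prime_iff_eq (Fact.out : p.Prime) Nat.prime_two).1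
    ((Fact.out : p.Prime).dvd_of_dvd_pow h3))

private theorem SMod_cg {p : ℕ} [Fact p.Prime] (h2 : p ≠ 2) {r n t : ℕ} (h : 4 * n = t * p + r) :
    Cg p ((r : ℚ) / 4) (n : ℚ) := by
  refine cg_of_mul (SMod_four h2) ?_
  have h1 : ((4 : ℤ) : ℚ) * ((r : ℚ) / 4) = ((r : ℤ) : ℚ) := by
    push_cast
    ring
  have h3 : ((4 : ℤ) : ℚ) * (n : ℚ) = (((t * p + r : ℕ) : ℤ) : ℚ) := by
    rw [← h]
    push_cast
    ring
  rw [h1, h3, cg_int]
  push_cast
  simp

private theorem SMod_pint {p : ℕ} [Fact p.Prime] (h2 : p ≠ 2) (r : ℕ) : PInt p ((r : ℚ) / 4) := by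
  have h := (pint_nat (p := p) r).mul (pint_inv (SMod_four h2))
  have h1 : (r : ℚ) * (1 / ((4 : ℤ) : ℚ)) = (r : ℚ) / 4 := by
    push_cast
    ring
  rwa [h1] at h

theorem S_mod {p : ℕ} [Fact p.Prime] (h2 : p ≠ 2) {P : ℚ[X]} (hP : ∀ k, PInt p (P.coeff k))
    (hd : P.natDegree + 2 ≤ p) :
    Cg p (S P) (sg p * ∑ x ∈ range (mp p), P.eval ((ap p + 2 * x : ℕ) : ℚ)) := by
  obtain ⟨F, hF, hFP⟩ := antideriv h2 P.natDegree hd P hP le_rfl
  have h1 : S P = F.eval (1 / 4) - F.eval (3 / 4) := by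
    rw [← S_shift, hFP]
  have h3 : ∑ x ∈ range (mp p), P.eval ((ap p + 2 * x : ℕ) : ℚ) =
      F.eval ((ap p + 2 * mp p : ℕ) : ℚ) - F.eval ((ap p + 2 * 0 : ℕ) : ℚ) := by
    rw [← Finset.sum_range_sub (fun x : ℕ => F.eval ((ap p + 2 * x : ℕ) : ℚ))]
    refine Finset.sum_congr rfl fun x _ => ?_
    rw [← hFP, eval_sub, eval_comp]
    simp only [eval_add, eval_X, eval_C]
    congr 2
    push_cast
    ring
  rw [h1, h3]
  have hodd : p % 2 = 1 := (Nat.Prime.eq_two_or_odd (Fact.out : p.Prime)).resolve_left h2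
  have e1 : (1 / 4 : ℚ) = ((1 : ℕ) : ℚ) / 4 := by norm_num
  have e3 : (3 / 4 : ℚ) = ((3 : ℕ) : ℚ) / 4 := by norm_num
  rcases (by omega : p % 4 = 1 ∨ p % 4 = 3) with h4 | h4
  · have hs : sg p = 1 := by simp [sg, h4]
    have ha : 4 * (ap p + 2 * 0) = 1 * p + 3 := by unfold ap; omega
    have hb : 4 * (ap p + 2 * mp p) = 3 * p + 1 := by unfold ap mp; omega
    rw [hs, one_mul, e1, e3]
    exact (cg_eval hF (SMod_pint h2 1) (SMod_cg h2 hb)).sub
      (cg_eval hF (SMod_pint h2 3) (SMod_cg h2 ha))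
  · have hs : sg p = -1 := by simp [sg, h4]
    have ha : 4 * (ap p + 2 * 0) = 1 * p + 1 := by unfold ap; omega
    have hb : 4 * (ap p + 2 * mp p) = 3 * p + 3 := by unfold ap mp; omega
    have h5 : (-1 : ℚ) * (F.eval ((ap p + 2 * mp p : ℕ) : ℚ) - F.eval ((ap p + 2 * 0 : ℕ) : ℚ)) =
        F.eval ((ap p + 2 * 0 : ℕ) : ℚ) - F.eval ((ap p + 2 * mp p : ℕ) : ℚ) := by ring
    rw [hs, h5, e1, e3]
    exact (cg_eval hF (SMod_pint h2 1) (SMod_cg h2 ha)).sub
      (cg_eval hF (SMod_pint h2 3) (SMod_cg h2 hb))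

end PWief
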