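import Pool.Agent.Lib.PWief.ColMod
import Pool.Agent.Lib.PWief.SMod
import Pool.Agent.Lib.PWief.LMat

/-!
# EntMod: the entries modulo `p`, rows `i < p`

PROOF. `e = nu j`. For `i < p` the polynomial `bb i` is `p`-integral (`i!` is prime to `p`), degree `≤ i ≤ p-1`;
`D = bb i /ₘ (X - C e)` is `p`-integral of degree `≤ p - 2` (`bb i = C (bb i (e)) + (X - C e) D`; synthetic division,
or induction; coefficients: `Polynomial.coeff_divByMonic_X_sub_C`), so by `S_mod`
`S D ≡ sg ∑_x D(a+2x)`, and `D(s) = (bb i (s) - bb i (e))/(s - e)` for `s ≠ e`.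
Good column: `a + 2x - e` is prime to `p` (`col_unit`), so
`SS e (bb i) ≡ bb i (e) sg ∑ 1/(a+2x-e) + sg ∑ (bb i (a+2x) - bb i (e))/(a+2x-e)` (`col_good`).
Any column: `p SS e (bb i) = (p kap e) bb i (e) + p S D` and `S D` is `p`-integral (`S_mod` and integral values).
-/

set_option autoImplicit false

open Finset Polynomial

namespace PWief

/-- the integer polynomial behind `qq` -/
private noncomputable def entMod_qz (i : ℕ) : ℤ[X] := ∏ k ∈ range i, (X - C (nu k))

private theorem entMod_map (i : ℕ) : (entMod_qz i).map (Int.castRingHom ℚ) = qq i := by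
  unfold entMod_qz qq
  rw [Polynomial.map_prod]
  refine Finset.prod_congr rfl fun k _ => ?_
  simp

private theorem entMod_fact {p i : ℕ} [Fact p.Prime] (hi : i < p) :
    ¬ (p : ℤ) ∣ ((i.factorial : ℕ) : ℤ) := by
  intro h
  have h1 : p ∣ i.factorial := by exact_mod_cast h
  have h2 := (Nat.Prime.dvd_factorial (Fact.out : p.Prime)).1 h1
  omega

private theorem entMod_inv {p i : ℕ} [Fact p.Prime] (hi : i < p) :
    PInt p (1 / (i.factorial : ℚ)) := by
  have h := pint_inv (p := p) (entMod_fact (p := p) hi)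
  simpa using h

theorem bb_pint {p i : ℕ} [Fact p.Prime] (hi : i < p) (k : ℕ) : PInt p ((bb i).coeff k) := by
  unfold bb
  rw [← entMod_map, coeff_C_mul, coeff_map]
  exact (entMod_inv hi).mul (pint_int _)

private theorem entMod_D (i : ℕ) (e : ℤ) : bb i /ₘ (X - C (e : ℚ)) =
    C (1 / (i.factorial : ℚ)) * ((entMod_qz i) /ₘ (X - C e)).map (Int.castRingHom ℚ) := by
  have h1 : ((entMod_qz i) /ₘ (X - C e)).map (Int.castRingHom ℚ) = qq i /ₘ (X - C (e : ℚ)) := by
    rw [Polynomial.map_divByMonic _ (monic_X_sub_C e), entMod_map]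
    simp
  rw [h1]
  refine (div_modByMonic_unique (C (1 / (i.factorial : ℚ)) * (qq i /ₘ (X - C (e : ℚ))))
    (C (1 / (i.factorial : ℚ)) * C ((qq i).eval (e : ℚ))) (monic_X_sub_C (e : ℚ)) ⟨?_, ?_⟩).1
  · have h := modByMonic_add_div (qq i) (X - C (e : ℚ))
    rw [modByMonic_X_sub_C_eq_C_eval] at h
    unfold bb
    conv_rhs => rw [← h]
    ring
  · rw [← C_mul, degree_X_sub_C]
    exact lt_of_le_of_lt degree_C_le (by norm_num)

private theorem entMod_D_pint {p i : ℕ} [Fact p.Prime] (hi : i < p) (e : ℤ) (k : ℕ) :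
    PInt p ((bb i /ₘ (X - C (e : ℚ))).coeff k) := by
  rw [entMod_D, coeff_C_mul, coeff_map]
  exact (entMod_inv hi).mul (pint_int _)

private theorem entMod_deg (i : ℕ) : (bb i).natDegree ≤ i := by
  unfold bb qq
  refine (natDegree_C_mul_le _ _).trans ?_
  refine (natDegree_prod_le _ _).trans ?_
  refine (Finset.sum_le_sum (g := fun _ => 1) fun k _ => ?_).trans ?_
  · exact natDegree_X_sub_C_le _
  · simp

private theorem entMod_D_deg {p i : ℕ} [Fact p.Prime] (hi : i < p) (e : ℤ) :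
    (bb i /ₘ (X - C (e : ℚ))).natDegree + 2 ≤ p := by
  rw [natDegree_divByMonic _ (monic_X_sub_C _), natDegree_X_sub_C]
  have h1 := entMod_deg i
  have h2 := (Fact.out : p.Prime).two_le
  omega

private theorem entMod_eval (P : ℚ[X]) (e s : ℚ) :
    P.eval s = P.eval e + (s - e) * (P /ₘ (X - C e)).eval s := by
  have h := congrArg (Polynomial.eval s) (modByMonic_add_div P (X - C e))
  rw [modByMonic_X_sub_C_eq_C_eval] at h
  simp only [eval_add, eval_C, eval_mul, eval_sub, eval_X] at h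
  exact h.symm

private theorem entMod_sg {p : ℕ} [Fact p.Prime] : PInt p (sg p) := by
  unfold sg
  split_ifs
  · exact_mod_cast pint_int (p := p) 1
  · exact_mod_cast pint_int (p := p) (-1)

private theorem entMod_pt {p : ℕ} [Fact p.Prime] (m : ℕ) : PInt p ((m : ℕ) : ℚ) := pint_nat m

theorem ent_good {p i j : ℕ} [Fact p.Prime] (hw : IsPW p) (hi : i < p) (hj : j < 2 * p)
    (hb : ¬ Bad p j) :
    Cg p (SS (nu j) (bb i)) (∑ x ∈ range (mp p), (bb i).eval ((ap p + 2 * x : ℕ) : ℚ) *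
      (sg p / (((ap p + 2 * x : ℕ) : ℚ) - (nu j : ℚ)))) := by
  have h2 : p ≠ 2 := hw.2.1
  have hne : ∀ x ∈ range (mp p), (((ap p + 2 * x : ℕ) : ℚ) - (nu j : ℚ)) ≠ 0 := by
    intro x hx h0
    have hu := col_unit h2 hj hb (mem_range.1 hx)
    apply hu
    have h1 : (((ap p + 2 * x : ℕ) : ℤ) - nu j) = 0 := by exact_mod_cast h0
    rw [h1]
    exact dvd_zero _
  have hpi : ∀ x ∈ range (mp p), PInt p (1 / (((ap p + 2 * x : ℕ) : ℚ) - (nu j : ℚ))) := by
    intro x hx
    have hu := pint_inv (col_unit h2 hj hb (mem_range.1 hx))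
    rw [Int.cast_sub, Int.cast_natCast] at hu
    exact hu
  have hE : PInt p ((bb i).eval (nu j : ℚ)) := pint_eval (bb_pint hi) (pint_int _)
  have hk := col_good hw hj hb
  have hkp : PInt p (kap (nu j)) := hk.pint (entMod_sg.mul (pint_sum _ _ hpi))
  have hA := Cg.mul (cg_refl (p := p) ((bb i).eval (nu j : ℚ))) hk hE hkp
  have hB := S_mod h2 (entMod_D_pint (p := p) hi (nu j)) (entMod_D_deg (p := p) hi (nu j))
  have hC := hA.add hB
  unfold SS
  refine hC.trans ?_
  have hs : (bb i).eval (nu j : ℚ) *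
        (sg p * ∑ x ∈ range (mp p), 1 / (((ap p + 2 * x : ℕ) : ℚ) - (nu j : ℚ))) +
      sg p * ∑ x ∈ range (mp p), (bb i /ₘ (X - C (nu j : ℚ))).eval ((ap p + 2 * x : ℕ) : ℚ) =
      ∑ x ∈ range (mp p), (bb i).eval ((ap p + 2 * x : ℕ) : ℚ) *
        (sg p / (((ap p + 2 * x : ℕ) : ℚ) - (nu j : ℚ))) := by
    rw [Finset.mul_sum, Finset.mul_sum, Finset.mul_sum, ← Finset.sum_add_distrib]
    refine Finset.sum_congr rfl fun x hx => ?_
    rw [entMod_eval (bb i) (nu j : ℚ) ((ap p + 2 * x : ℕ) : ℚ)]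
    have h0 := hne x hx
    field_simp
  rw [hs]
  exact cg_refl _

theorem ent_bad {p i j : ℕ} [Fact p.Prime] (h2 : p ≠ 2) (hi : i < p) (hj : j < 2 * p) :
    Cg p ((p : ℚ) * SS (nu j) (bb i)) ((bb i).eval (nu j : ℚ) * ((p : ℚ) * kap (nu j))) := by
  have hB := S_mod h2 (entMod_D_pint (p := p) hi (nu j)) (entMod_D_deg (p := p) hi (nu j))
  have hS : PInt p (S (bb i /ₘ (X - C (nu j : ℚ)))) := by
    refine hB.pint (entMod_sg.mul (pint_sum _ _ fun x _ => ?_))
    exact pint_eval (entMod_D_pint hi (nu j)) (pint_nat _)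
  have h0 := cg_p_mul hS
  have h1 := (cg_refl (p := p) ((bb i).eval (nu j : ℚ) * ((p : ℚ) * kap (nu j)))).add h0
  rw [add_zero] at h1
  have h3 : (p : ℚ) * SS (nu j) (bb i) = (bb i).eval (nu j : ℚ) * ((p : ℚ) * kap (nu j)) +
      (p : ℚ) * S (bb i /ₘ (X - C (nu j : ℚ))) := by
    unfold SS
    ring
  rw [h3]
  exact h1

end PWief
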