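import Pool.Agent.Lib.PWief.Count

/-!
# Fin: the final form, without definitions

`a + b √2 = (1 + √2)^k`, i.e. `b` is the `k`-th Pell number and `a = ((1+√2)^k + (1-√2)^k)/2`, which for odd `k` is
the NSW number `S_k`.

PROOF. `pow_pell`: `(1+√2)^k = a_k + (pell k) √2` with `a_0 = 1, a_(k+1) = a_k + 2 pell k`, `pell (k+1) = a_k + pell k`
(induction; from the recursion `pell (k+2) = 2 pell (k+1) + pell k`: `a_k = pell (k+1) - pell k`). `√2` is irrational, so
`a, b` are unique (`irrational_sqrt_two`). `pell (2k) = 2 (pell k) a_k` (square). If `q` is an odd prime which is not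
`IsPW` and `q ∤ k`: `q^2 ∤ pell k` by definition and `q^2 ∤ a_k` because otherwise `q^2 ∣ pell (2k)`, `q ∤ 2k`.
`q = 2`, `k` odd: `a_k` is odd for all `k` and `pell k ≡ k (mod 2)`.
-/

set_option autoImplicit false

open Finset
open scoped Classical

namespace PWief

private def Fin_A : ℕ → ℕ
  | 0 => 1
  | (k + 1) => Fin_A k + 2 * pell k

private theorem Fin_pell_succ (k : ℕ) : pell (k + 1) = Fin_A k + pell k := by
  induction k with
  | zero => rfl
  | succ k ih =>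
    have h1 : pell (k + 1 + 1) = 2 * pell (k + 1) + pell k := rfl
    have h2 : Fin_A (k + 1) = Fin_A k + 2 * pell k := rfl
    omega

private theorem Fin_pow (k : ℕ) :
    (1 + Real.sqrt 2) ^ k = (Fin_A k : ℝ) + (pell k : ℝ) * Real.sqrt 2 := by
  induction k with
  | zero =>
    have h1 : Fin_A 0 = 1 := rfl
    have h2 : pell 0 = 0 := rfl
    rw [h1, h2]; simp
  | succ k ih =>
    have h1 : Fin_A (k + 1) = Fin_A k + 2 * pell k := rfl
    have h2 := Fin_pell_succ k
    have h3 : Real.sqrt 2 * Real.sqrt 2 = 2 := Real.mul_self_sqrt (by norm_num)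
    rw [pow_succ, ih, h1, h2]
    push_cast
    linear_combination (pell k : ℝ) * h3

private theorem Fin_unique {a b c d : ℕ}
    (h : (a : ℝ) + (b : ℝ) * Real.sqrt 2 = (c : ℝ) + (d : ℝ) * Real.sqrt 2) : a = c ∧ b = d := by
  have hbd : b = d := by
    by_contra hne
    have hne' : ((b : ℝ) - (d : ℝ)) ≠ 0 := by
      intro h0
      apply hne
      have : (b : ℝ) = (d : ℝ) := by linarith
      exact_mod_cast this
    have h1 : Real.sqrt 2 = ((c : ℝ) - (a : ℝ)) / ((b : ℝ) - (d : ℝ)) := by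
      rw [eq_div_iff hne']
      linear_combination h
    apply irrational_sqrt_two
    refine ⟨((c : ℚ) - (a : ℚ)) / ((b : ℚ) - (d : ℚ)), ?_⟩
    rw [h1]
    push_cast
    ring
  refine ⟨?_, hbd⟩
  rw [hbd] at h
  have h2 : (a : ℝ) = (c : ℝ) := by linarith
  exact_mod_cast h2

private theorem Fin_double (k : ℕ) : pell (2 * k) = 2 * (pell k * Fin_A k) := by
  have h1 := Fin_pow (2 * k)
  have h2 := Fin_pow k
  have h3 : Real.sqrt 2 * Real.sqrt 2 = 2 := Real.mul_self_sqrt (by norm_num)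
  have h4 : (Fin_A (2 * k) : ℝ) + (pell (2 * k) : ℝ) * Real.sqrt 2 =
      ((Fin_A k * Fin_A k + 2 * (pell k * pell k) : ℕ) : ℝ) +
        ((2 * (pell k * Fin_A k) : ℕ) : ℝ) * Real.sqrt 2 := by
    rw [← h1, two_mul, pow_add, h2]
    push_cast
    linear_combination (pell k : ℝ) * (pell k : ℝ) * h3
  exact (Fin_unique h4).2

private theorem Fin_odd (k : ℕ) : Fin_A k % 2 = 1 := by
  induction k with
  | zero => rfl
  | succ k ih =>
    have h1 : Fin_A (k + 1) = Fin_A k + 2 * pell k := rfl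
    omega

private theorem Fin_par (k : ℕ) : pell k % 2 = k % 2 ∧ pell (k + 1) % 2 = (k + 1) % 2 := by
  induction k with
  | zero => exact ⟨rfl, rfl⟩
  | succ k ih =>
    refine ⟨ih.2, ?_⟩
    have h1 : pell (k + 1 + 1) = 2 * pell (k + 1) + pell k := rfl
    have h2 := ih.1
    omega

theorem not_sq_dvd {q : ℕ} (hq : q.Prime) (h : ¬ IsPW q) {k a b : ℕ} (hk : ¬ q ∣ k)
    (hab : (1 + Real.sqrt 2) ^ k = (a : ℝ) + (b : ℝ) * Real.sqrt 2) :
    ¬ q ^ 2 ∣ a ∧ ¬ q ^ 2 ∣ b := by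
  rw [Fin_pow k] at hab
  obtain ⟨ha, hb⟩ := Fin_unique hab
  subst ha
  subst hb
  by_cases h2 : q = 2
  · subst h2
    have hk' : k % 2 = 1 := by omega
    have h3 := Fin_odd k
    have h4 := (Fin_par k).1
    constructor
    · rintro ⟨c, hc⟩
      omega
    · rintro ⟨c, hc⟩
      omega
  · have hno : ∀ m : ℕ, ¬ q ∣ m → ¬ q ^ 2 ∣ pell m := by
      intro m hm hd
      exact h ⟨hq, h2, m, hm, hd⟩
    refine ⟨?_, hno k hk⟩
    intro hd
    have h5 : ¬ q ∣ 2 * k := by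
      intro h6
      rcases (hq.dvd_mul).1 h6 with h7 | h7
      · exact h2 ((Nat.prime_dvd_prime_iff_eq hq Nat.prime_two).1 h7)
      · exact hk h7
    apply hno (2 * k) h5
    rw [Fin_double]
    exact Dvd.dvd.mul_left (Dvd.dvd.mul_left hd _) _

theorem count_final : ∃ X0 : ℕ, ∀ X : ℕ, X0 ≤ X →
    (X : ℝ) / (120 * Real.log X) ≤
      (((range (X + 1)).filter (fun q => q.Prime ∧ ∀ k a b : ℕ, ¬ q ∣ k →
        (1 + Real.sqrt 2) ^ k = (a : ℝ) + (b : ℝ) * Real.sqrt 2 →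
          ¬ q ^ 2 ∣ a ∧ ¬ q ^ 2 ∣ b)).card : ℝ) := by
  obtain ⟨X0, h⟩ := count
  refine ⟨X0, fun X hX => (h X hX).trans ?_⟩
  refine Nat.cast_le.2 (card_le_card ?_)
  intro q hq
  rw [mem_filter] at hq ⊢
  exact ⟨hq.1, hq.2.1, fun k a b hk hab => not_sq_dvd hq.2.1 hq.2.2 hk hab⟩

end PWief
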