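import Pool.Agent.Lib.PNT.Theta

/-!
# GainA: sums of `(c - p) log p` over primes

PROOF (see Lib/Wief/Gain.lean). `∑_{a<p≤c} (c - p) log p = ∑_{k=a}^{c-1} (θ(k) - θ(a))` (exchange: `c - p` is the
number of `k` with `p ≤ k < c`). Let `δ = ε/4`; by `PNT.theta_tendsto` there is `K` with `|θ(k) - k| ≤ δ k` for
`k ≥ K`, and `|θ(k) - k| ≤ C` for `k < K`; so `|θ(k) - k| ≤ δ c + C` for all `k ≤ c`. The sum differs from
`∑_{k=a}^{c-1} (k - a) = (c-a)(c-a-1)/2` by at most `c (2 δ c + 2 C)`, and this from `(c-a)^2/2` by at most `c/2`;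
total `≤ ε c^2/2 + (2C + 1) c ≤ ε c^2` for `c ≥ N0`.
-/

set_option autoImplicit false

open Finset

namespace PWief

private theorem GainA_diff {a k : ℕ} (h : a ≤ k) :
    ∑ q ∈ (Ioc a k).filter Nat.Prime, Real.log q = Chebyshev.theta k - Chebyshev.theta a := by
  have h0 : ∀ n : ℕ, Chebyshev.theta (n : ℝ) =
      ∑ q ∈ (Ioc 0 n).filter Nat.Prime, Real.log q := fun n => by
    unfold Chebyshev.theta
    rw [Nat.floor_natCast]
  have h1 : (Ioc 0 k).filter Nat.Prime =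
      (Ioc 0 a).filter Nat.Prime ∪ (Ioc a k).filter Nat.Prime := by
    rw [← filter_union, Ioc_union_Ioc_eq_Ioc (Nat.zero_le _) h]
  rw [h0, h0, h1, sum_union]
  · ring
  · refine disjoint_left.2 fun q hq hq' => ?_
    simp only [mem_filter, mem_Ioc] at hq hq'
    omega

private theorem GainA_exch (a b : ℕ) :
    ∑ q ∈ (Ioc a b).filter Nat.Prime, ((b : ℝ) - q) * Real.log q =
      ∑ k ∈ Ico a b, ∑ q ∈ (Ioc a k).filter Nat.Prime, Real.log q := by
  have h1 : ∀ q ∈ (Ioc a b).filter Nat.Prime, ((b : ℝ) - q) * Real.log q =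
      ∑ k ∈ Ico q b, Real.log q := by
    intro q hq
    simp only [mem_filter, mem_Ioc] at hq
    rw [sum_const, Nat.card_Ico, nsmul_eq_mul, Nat.cast_sub hq.1.2]
  rw [sum_congr rfl h1]
  refine sum_comm' fun q k => ?_
  simp only [mem_filter, mem_Ico, mem_Ioc]
  constructor
  · rintro ⟨⟨⟨h1, h2⟩, h3⟩, h4, h5⟩
    exact ⟨⟨⟨h1, h4⟩, h3⟩, by omega, h5⟩
  · rintro ⟨⟨⟨h1, h4⟩, h3⟩, h6, h5⟩
    exact ⟨⟨⟨h1, by omega⟩, h3⟩, h4, h5⟩

private theorem GainA_sumk (a n : ℕ) :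
    ∑ k ∈ Ico a (a + n), ((k : ℝ) - a) = (n : ℝ) * (n - 1) / 2 := by
  induction n with
  | zero => simp
  | succ n ih =>
    rw [← add_assoc, sum_Ico_succ_top (by omega), ih]
    push_cast
    ring

private theorem GainA_unif (δ : ℝ) (hδ : 0 < δ) : ∃ C : ℝ, 0 ≤ C ∧ ∀ k : ℕ,
    |Chebyshev.theta (k : ℝ) - k| ≤ δ * k + C := by
  have hT := PNT.theta_tendsto
  rw [Metric.tendsto_atTop] at hT
  obtain ⟨N, hN⟩ := hT δ hδ
  obtain ⟨N', hN'⟩ := exists_nat_ge N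
  have hθ : ∀ x : ℝ, 0 ≤ Chebyshev.theta x := fun x => Chebyshev.theta_nonneg x
  refine ⟨Chebyshev.theta (N' : ℝ) + N', add_nonneg (hθ _) (Nat.cast_nonneg _), fun k => ?_⟩
  have hk0 : (0 : ℝ) ≤ k := Nat.cast_nonneg _
  rcases le_or_gt N' k with hk | hk
  · rcases hk0.eq_or_lt with h0 | h0
    · have : k = 0 := by exact_mod_cast h0.symm
      subst this
      have h1 : Chebyshev.theta ((0 : ℕ) : ℝ) = 0 := by
        unfold Chebyshev.theta
        simp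
      rw [h1]
      simp only [Nat.cast_zero, sub_zero, abs_zero, mul_zero, zero_add]
      exact add_nonneg (hθ _) (Nat.cast_nonneg _)
    · have h1 := hN (k : ℝ) (hN'.trans (by exact_mod_cast hk))
      rw [Real.dist_eq] at h1
      have h2 : Chebyshev.theta (k : ℝ) - k = (Chebyshev.theta (k : ℝ) / k - 1) * k := by
        rw [sub_mul, div_mul_cancel₀ _ h0.ne', one_mul]
      rw [h2, abs_mul, abs_of_pos h0]
      have h3 := mul_le_mul_of_nonneg_right h1.le h0.le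
      have h4 := add_nonneg (hθ N') (Nat.cast_nonneg (α := ℝ) N')
      linarith
  · have hkN : (k : ℝ) ≤ N' := by exact_mod_cast hk.le
    have h1 : Chebyshev.theta (k : ℝ) ≤ Chebyshev.theta (N' : ℝ) := Chebyshev.theta_mono hkN
    have h2 := hθ k
    have h3 : 0 ≤ δ * k := mul_nonneg hδ.le hk0
    have h4 : (0 : ℝ) ≤ N' := Nat.cast_nonneg _
    rw [abs_le]
    constructor <;> linarith

theorem fsum (ε : ℝ) (hε : 0 < ε) : ∃ N0 : ℕ, ∀ a c : ℕ, a ≤ c → N0 ≤ c →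
    |∑ p ∈ (Ioc a c).filter Nat.Prime, ((c : ℝ) - p) * Real.log p - ((c : ℝ) - a) ^ 2 / 2| ≤
      ε * (c : ℝ) ^ 2 := by
  obtain ⟨C, hC0, hC⟩ := GainA_unif (ε / 4) (by positivity)
  obtain ⟨N0, hN0⟩ := exists_nat_ge ((2 * C + 1) / (ε / 2))
  refine ⟨N0, fun a c hac hc => ?_⟩
  rw [GainA_exch]
  have hcR : (0 : ℝ) ≤ c := Nat.cast_nonneg _
  have haR : (0 : ℝ) ≤ a := Nat.cast_nonneg _
  have hacR : (a : ℝ) ≤ c := by exact_mod_cast hac
  obtain ⟨n, rfl⟩ := Nat.exists_eq_add_of_le hac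
  have h1 : ∀ k ∈ Ico a (a + n), |∑ q ∈ (Ioc a k).filter Nat.Prime, Real.log q - ((k : ℝ) - a)| ≤
      2 * (ε / 4 * ((a + n : ℕ) : ℝ) + C) := by
    intro k hk
    rw [mem_Ico] at hk
    rw [GainA_diff hk.1]
    have h2 := hC k
    have h3 := hC a
    have hk' : (k : ℝ) ≤ ((a + n : ℕ) : ℝ) := by exact_mod_cast hk.2.le
    have h4 : ε / 4 * (k : ℝ) ≤ ε / 4 * ((a + n : ℕ) : ℝ) :=
      mul_le_mul_of_nonneg_left hk' (by positivity)
    have h5 : ε / 4 * (a : ℝ) ≤ ε / 4 * ((a + n : ℕ) : ℝ) :=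
      mul_le_mul_of_nonneg_left hacR (by positivity)
    have h6 : Chebyshev.theta (k : ℝ) - Chebyshev.theta (a : ℝ) - ((k : ℝ) - a) =
        (Chebyshev.theta (k : ℝ) - k) - (Chebyshev.theta (a : ℝ) - a) := by ring
    rw [h6]
    have h7 := abs_sub (Chebyshev.theta (k : ℝ) - k) (Chebyshev.theta (a : ℝ) - a)
    linarith
  have h2 := (abs_sum_le_sum_abs _ _).trans (sum_le_sum h1)
  rw [sum_sub_distrib, GainA_sumk, sum_const, Nat.card_Ico, nsmul_eq_mul] at h2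
  have h3 : ((a + n - a : ℕ) : ℝ) = n := by
    rw [Nat.add_sub_cancel_left]
  rw [h3] at h2
  have hnR : (0 : ℝ) ≤ n := Nat.cast_nonneg _
  have hc2 : (2 * C + 1) ≤ ε / 2 * ((a + n : ℕ) : ℝ) := by
    have h4 : ((2 * C + 1) / (ε / 2)) ≤ ((a + n : ℕ) : ℝ) := hN0.trans (by exact_mod_cast hc)
    rw [div_le_iff₀ (by positivity)] at h4
    linarith
  push_cast at h2 hc2 hacR ⊢
  have h5 : ((a : ℝ) + n - a) ^ 2 / 2 = (n : ℝ) * (n - 1) / 2 + n / 2 := by ring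
  rw [h5]
  have h6 : (n : ℝ) * (2 * (ε / 4 * (a + n) + C)) ≤ (a + n) * (2 * (ε / 4 * (a + n) + C)) :=
    mul_le_mul_of_nonneg_right (by linarith) (by positivity)
  have h7 : ((a : ℝ) + n) * (2 * C + 1) ≤ (a + n) * (ε / 2 * (a + n)) :=
    mul_le_mul_of_nonneg_left hc2 (by positivity)
  rw [abs_le] at h2 ⊢
  constructor <;> nlinarith [h2.1, h2.2, h6, h7]

end PWief
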