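import Pool.Agent.Lib.PWief.ValW

/-!
# WLow: the lower bound as a real function

PROOF. `a = ap p ≥ (p+1)/4`, `m = mp p ≤ (p+1)/4` (as reals). `badcard`: the number of bad `j < n` is at most
`max 0 ((n - 2a)/2 + 1)`: bad `j` are `j = 2a + i`, `i < n - 2a`, `i % 4 ∈ {0, 1}` (`(j/2) % 2 = a % 2`,
`j/2 ≥ a`), so at most `(n-2a)/2 + 1` if `n > 2a`, none otherwise. Similarly the number of `j < n` with
`Bad p j` and `j/2 ≥ a + 2m` (`a + 2m ≥ (3p+1)/4`) is at most `max 0 ((n - 3p/2)/2 + 1)`.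
So (`n/2 < p`): `p > 2n`: `n < 2a`: value `≥ n - (p+1)/4`. `n ≤ p ≤ 2n`: `≥ n - (p+1)/4 - max(0, (n - (p+1)/2)/2 + 1)
≥ n/2 - 1`. `n/2 < p < n`: `≥ p - (p+1)/4 - max(0,(n-3p/2)/2+1) - (n-p) - ((n-(p+1)/2)/2+1)
= 2p - 3n/2 - 1 - max(0,(n-3p/2)/2+1)`, which is `≥ min (2p - 3n/2) (11p/4 - 2n) - 2`.
-/

set_option autoImplicit false

open Finset Polynomial

namespace PWief

/-- the gain of a world prime, up to a constant -/
noncomputable def phi (n p : ℕ) : ℝ :=
  min (min (2.75 * (p : ℝ) - 2 * n) (2 * (p : ℝ) - 1.5 * n)) (min ((n : ℝ) / 2) (n - (p : ℝ) / 4))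

private theorem WLow_cnt (b N : ℕ) :
    ((range (2 * b + N)).filter (fun j => b ≤ j / 2 ∧ (j / 2) % 2 = b % 2)).card =
      2 * (N / 4) + min (N % 4) 2 := by
  induction N with
  | zero =>
    simp only [Nat.add_zero, Nat.zero_div, Nat.zero_mod, Nat.mul_zero, Nat.zero_add,
      Nat.zero_min]
    rw [Finset.card_eq_zero, Finset.filter_eq_empty_iff]
    intro j hj
    rw [Finset.mem_range] at hj
    omega
  | succ N ih =>
    rw [show 2 * b + (N + 1) = (2 * b + N) + 1 from rfl, Finset.range_add_one,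
      Finset.filter_insert]
    split_ifs with h
    · rw [Finset.card_insert_of_notMem (by simp), ih]
      omega
    · rw [ih]
      omega

private theorem WLow_cnt_le (b n : ℕ) (h : 2 * b ≤ n) :
    2 * ((range n).filter (fun j => b ≤ j / 2 ∧ (j / 2) % 2 = b % 2)).card + 2 * b ≤ n + 2 := by
  obtain ⟨N, rfl⟩ := Nat.exists_eq_add_of_le h
  rw [WLow_cnt]
  omega

private theorem WLow_cnt_zero (b n : ℕ) (h : n ≤ 2 * b) :
    ((range n).filter (fun j => b ≤ j / 2 ∧ (j / 2) % 2 = b % 2)).card = 0 := by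
  rw [Finset.card_eq_zero, Finset.filter_eq_empty_iff]
  intro j hj
  rw [Finset.mem_range] at hj
  omega

theorem val_low {n p : ℕ} (hw : IsPW p) (h : n < 2 * p) (hD : (M n).det ≠ 0) :
    phi n p - 2 ≤ (padicValRat p (M n).det : ℝ) := by
  have hv := val_world hw h hD
  have hp : p.Prime := hw.1
  have hodd : p % 2 = 1 := by
    rcases hp.eq_two_or_odd with h2 | h2
    · exact absurd h2 hw.2.1
    · exact h2
  have hp3 : 3 ≤ p := by
    have := hp.two_le
    omega
  have hB1 : ((range n).filter (fun j => Bad p j)).card ≤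
      ((range n).filter (fun j => ap p ≤ j / 2 ∧ (j / 2) % 2 = ap p % 2)).card := by
    refine Finset.card_le_card fun j hj => ?_
    rw [Finset.mem_filter] at hj ⊢
    exact hj
  have hB2 : ((range n).filter (fun j => Bad p j ∧ ap p + 2 * mp p ≤ j / 2)).card ≤
      ((range n).filter (fun j => ap p + 2 * mp p ≤ j / 2 ∧
        (j / 2) % 2 = (ap p + 2 * mp p) % 2)).card := by
    refine Finset.card_le_card fun j hj => ?_
    rw [Finset.mem_filter] at hj ⊢
    obtain ⟨h1, ⟨_, h3⟩, h4⟩ := hj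
    exact ⟨h1, h4, by omega⟩
  set B1 := ((range n).filter (fun j => Bad p j)).card with hB1d
  set B2 := ((range n).filter (fun j => Bad p j ∧ ap p + 2 * mp p ≤ j / 2)).card with hB2d
  have ha1 : p + 1 ≤ 4 * ap p := by unfold ap; omega
  have ha2 : 2 * ap p ≤ p := by unfold ap; omega
  have hm1 : 4 * mp p ≤ p + 1 := by unfold mp; omega
  have ham : 3 * p + 1 ≤ 4 * (ap p + 2 * mp p) := by unfold ap mp; omega
  have hphi1 : phi n p ≤ 2.75 * (p : ℝ) - 2 * n := (min_le_left _ _).trans (min_le_left _ _)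
  have hphi2 : phi n p ≤ 2 * (p : ℝ) - 1.5 * n := (min_le_left _ _).trans (min_le_right _ _)
  have hphi3 : phi n p ≤ (n : ℝ) / 2 := (min_le_right _ _).trans (min_le_left _ _)
  have hphi4 : phi n p ≤ (n : ℝ) - (p : ℝ) / 4 := (min_le_right _ _).trans (min_le_right _ _)
  have ha1' : (p : ℝ) + 1 ≤ 4 * (ap p : ℝ) := by exact_mod_cast ha1
  have hm1' : 4 * (mp p : ℝ) ≤ (p : ℝ) + 1 := by exact_mod_cast hm1
  have ham' : 3 * (p : ℝ) + 1 ≤ 4 * ((ap p : ℝ) + 2 * (mp p : ℝ)) := by exact_mod_cast ham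
  rcases le_or_gt n p with hnp | hnp
  · -- `n ≤ p`
    rw [Nat.min_eq_right hnp, Nat.sub_eq_zero_of_le hnp] at hv
    have hB20 : B2 = 0 := by
      have := WLow_cnt_zero (ap p + 2 * mp p) n (by omega)
      omega
    rw [hB20] at hv
    rcases le_or_gt n (2 * ap p) with h2 | h2
    · have hB10 : B1 = 0 := by
        have := WLow_cnt_zero (ap p) n h2
        omega
      rw [hB10] at hv
      have hv' : (n : ℝ) - (mp p : ℝ) ≤ (padicValRat p (M n).det : ℝ) := by
        have : (n : ℤ) - (mp p : ℤ) ≤ padicValRat p (M n).det := by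
          push_cast at hv
          linarith
        exact_mod_cast this
      linarith
    · have hc : 2 * B1 + 2 * ap p ≤ n + 2 := by
        have := WLow_cnt_le (ap p) n h2.le
        omega
      have hc' : 2 * (B1 : ℝ) + 2 * (ap p : ℝ) ≤ (n : ℝ) + 2 := by exact_mod_cast hc
      have hv' : (n : ℝ) - (mp p : ℝ) - (B1 : ℝ) ≤ (padicValRat p (M n).det : ℝ) := by
        have : (n : ℤ) - (mp p : ℤ) - (B1 : ℤ) ≤ padicValRat p (M n).det := by
          push_cast at hv
          linarith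
        exact_mod_cast this
      linarith
  · -- `p < n`
    rw [Nat.min_eq_left hnp.le, Nat.cast_sub hnp.le] at hv
    have hc : 2 * B1 + 2 * ap p ≤ n + 2 := by
      have := WLow_cnt_le (ap p) n (by omega)
      omega
    have hc' : 2 * (B1 : ℝ) + 2 * (ap p : ℝ) ≤ (n : ℝ) + 2 := by exact_mod_cast hc
    have hv' : (p : ℝ) - (mp p : ℝ) - (B2 : ℝ) - ((n : ℝ) - (p : ℝ)) - (B1 : ℝ) ≤
        (padicValRat p (M n).det : ℝ) := by
      have : ((p : ℤ) - (mp p : ℤ) - (B2 : ℤ) - ((n : ℤ) - (p : ℤ)) - (B1 : ℤ) : ℤ) ≤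
          padicValRat p (M n).det := hv
      exact_mod_cast this
    rcases le_or_gt n (2 * (ap p + 2 * mp p)) with h2 | h2
    · have hB20 : B2 = 0 := by
        have := WLow_cnt_zero (ap p + 2 * mp p) n h2
        omega
      rw [hB20] at hv'
      push_cast at hv'
      linarith
    · have hd : 2 * B2 + 2 * (ap p + 2 * mp p) ≤ n + 2 := by
        have := WLow_cnt_le (ap p + 2 * mp p) n h2.le
        omega
      have hd' : 2 * (B2 : ℝ) + 2 * ((ap p : ℝ) + 2 * (mp p : ℝ)) ≤ (n : ℝ) + 2 := by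
        exact_mod_cast hd
      linarith

end PWief
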