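import Pool.Agent.Lib.PWief.GainA
import Pool.Agent.Lib.PWief.WLow

/-!
# GainB: the total gain

PROOF. `phi n p` is concave piecewise linear in `p` with the breaks `2n/3, n, 2n`, so for `p ≤ 4n`
`phi n p = (4n-p)/4 - (2n-p)^+/4 - 2 (n-p)^+ - (3/4) (2n/3-p)^+` (check the four ranges), hence with
`c = (2n+2)/3` (natural division, `c ≥ 2n/3`) `phi n p ≥ (4n-p)/4 - (2n-p)^+/4 - 2(n-p)^+ - (3/4)(c-p)^+`.
Sum over the primes in `(n/2, 4n]` (`n/2` natural division, call it `h`) with `fsum`, `ε = 10^(-4)`: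
`≥ (1/4)(4n-h)^2/2 - (1/4)(2n-h)^2/2 - 2 (n-h)^2/2 - (3/4)(c-h)^2/2 - ε (4 n^2 + n^2 + 2 n^2 + n^2)`, and
`n/2 - 1 ≤ h ≤ n/2`, `c ≤ 2n/3 + 1`: `≥ (1.53125 - .28125 - .25 - .01042) n^2 - O(n) - 8 ε n^2 ≥ .988 n^2`. The
constant: `2 ∑_{p ≤ 4n} log p = 2 θ(4n) ≤ 16 n` (`Chebyshev.theta_le_log4_mul_x` or the PNT) `≤ .003 n^2`.
-/

set_option autoImplicit false

open Finset

namespace PWief

private theorem GainB_cut (h c N : ℕ) (hc : c ≤ N) (f : ℕ → ℝ) :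
    ∑ p ∈ (Ioc h N).filter Nat.Prime, (if p ≤ c then f p else 0) =
      ∑ p ∈ (Ioc h c).filter Nat.Prime, f p := by
  rw [← Finset.sum_filter]
  congr 1
  ext p
  simp only [Finset.mem_filter, Finset.mem_Ioc]
  constructor
  · rintro ⟨⟨⟨h1, h2⟩, h3⟩, h4⟩
    exact ⟨⟨h1, h4⟩, h3⟩
  · rintro ⟨⟨h1, h2⟩, h3⟩
    exact ⟨⟨⟨h1, h2.trans hc⟩, h3⟩, h2⟩

private theorem GainB_phi (n p c : ℕ) (hp : p ≤ 4 * n) (hc1 : 2 * n ≤ 3 * c) (hc2 : c ≤ n) :
    (1 / 4) * (((4 * n : ℕ) : ℝ) - p) - (1 / 4) * (if p ≤ 2 * n then ((2 * n : ℕ) : ℝ) - p else 0)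
      - 2 * (if p ≤ n then (n : ℝ) - p else 0) - (3 / 4) * (if p ≤ c then (c : ℝ) - p else 0) ≤
      phi n p := by
  have h1 : (2 : ℝ) * n ≤ 3 * c := by exact_mod_cast hc1
  have h2 : (c : ℝ) ≤ n := by exact_mod_cast hc2
  have h3 : (p : ℝ) ≤ 4 * n := by exact_mod_cast hp
  have h0 : (0 : ℝ) ≤ n := Nat.cast_nonneg n
  unfold phi
  push_cast
  refine le_min (le_min ?_ ?_) (le_min ?_ ?_)
  all_goals
    split_ifs with ha hb hd hd hb hd hd
  all_goals
    first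
    | (have ha' : (p : ℝ) ≤ 2 * n := by exact_mod_cast ha)
      | (have ha' : (2 : ℝ) * n < p := by exact_mod_cast (not_le.mp ha))
    first
    | (have hb' : (p : ℝ) ≤ n := by exact_mod_cast hb)
      | (have hb' : (n : ℝ) < p := by exact_mod_cast (not_le.mp hb))
    first
    | (have hd' : (p : ℝ) ≤ c := by exact_mod_cast hd)
      | (have hd' : (c : ℝ) < p := by exact_mod_cast (not_le.mp hd))
    linarith

theorem gain : ∃ n0 : ℕ, ∀ n : ℕ, n0 ≤ n →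
    0.985 * (n : ℝ) ^ 2 ≤
      ∑ p ∈ (Ioc (n / 2) (4 * n)).filter Nat.Prime, (phi n p - 2) * Real.log p := by
  obtain ⟨N0, hN⟩ := fsum (1 / 10000) (by norm_num)
  refine ⟨2 * N0 + 100000, fun n hn => ?_⟩
  have hc1 : 2 * n ≤ 3 * ((2 * n + 2) / 3) := by omega
  have hc2 : (2 * n + 2) / 3 ≤ n := by omega
  have hc3 : 3 * ((2 * n + 2) / 3) ≤ 2 * n + 2 := by omega
  have hc4 : N0 ≤ (2 * n + 2) / 3 := by omega
  have hh1 : 2 * (n / 2) ≤ n := by omega
  have hh2 : n ≤ 2 * (n / 2) + 1 := by omega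
  have hhc : n / 2 ≤ (2 * n + 2) / 3 := by omega
  obtain ⟨c, hc⟩ : ∃ c, c = (2 * n + 2) / 3 := ⟨_, rfl⟩
  obtain ⟨h, hh⟩ : ∃ h, h = n / 2 := ⟨_, rfl⟩
  rw [← hc] at hc1 hc2 hc3 hc4 hhc
  rw [← hh] at hh1 hh2 hhc ⊢
  have e1 := abs_le.mp (hN h (4 * n) (by omega) (by omega))
  have e2 := abs_le.mp (hN h (2 * n) (by omega) (by omega))
  have e3 := abs_le.mp (hN h n (by omega) (by omega))
  have e4 := abs_le.mp (hN h c hhc hc4)
  have hth : ∑ p ∈ (Ioc h (4 * n)).filter Nat.Prime, Real.log p ≤ 8 * (n : ℝ) := by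
    have t1 := Chebyshev.theta_le_log4_mul_x (x := ((4 * n : ℕ) : ℝ)) (Nat.cast_nonneg _)
    have t2 : ∑ p ∈ (Ioc h (4 * n)).filter Nat.Prime, Real.log p ≤
        Chebyshev.theta ((4 * n : ℕ) : ℝ) := by
      unfold Chebyshev.theta
      rw [Nat.floor_natCast]
      refine Finset.sum_le_sum_of_subset_of_nonneg ?_ ?_
      · intro p hp
        simp only [Finset.mem_filter, Finset.mem_Ioc] at hp ⊢
        exact ⟨⟨hp.2.pos, hp.1.2⟩, hp.2⟩
      · intro p _ _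
        exact Real.log_natCast_nonneg p
    have t3 : Real.log 4 ≤ 2 := by
      have : Real.log 4 = 2 * Real.log 2 := by
        rw [show (4 : ℝ) = 2 ^ 2 by norm_num, Real.log_pow]
        norm_num
      rw [this]
      have := Real.log_two_lt_d9
      linarith
    have t4 : (0 : ℝ) ≤ n := Nat.cast_nonneg n
    push_cast at t1 t2
    nlinarith
  have hpt : ∀ p ∈ (Ioc h (4 * n)).filter Nat.Prime,
      (1 / 4) * ((((4 * n : ℕ) : ℝ) - p) * Real.log p)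
        - (1 / 4) * (if p ≤ 2 * n then (((2 * n : ℕ) : ℝ) - p) * Real.log p else 0)
        - 2 * (if p ≤ n then ((n : ℝ) - p) * Real.log p else 0)
        - (3 / 4) * (if p ≤ c then ((c : ℝ) - p) * Real.log p else 0) - 2 * Real.log p ≤
      (phi n p - 2) * Real.log p := by
    intro p hp
    simp only [Finset.mem_filter, Finset.mem_Ioc] at hp
    have hphi := GainB_phi n p c hp.1.2 hc1 hc2
    have hlog : 0 ≤ Real.log p := Real.log_natCast_nonneg p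
    have hm := mul_le_mul_of_nonneg_right hphi hlog
    have k1 : (if p ≤ 2 * n then (((2 * n : ℕ) : ℝ) - p) * Real.log p else 0) =
        (if p ≤ 2 * n then ((2 * n : ℕ) : ℝ) - p else 0) * Real.log p := by
      split_ifs <;> simp
    have k2 : (if p ≤ n then ((n : ℝ) - p) * Real.log p else 0) =
        (if p ≤ n then (n : ℝ) - p else 0) * Real.log p := by
      split_ifs <;> simp
    have k3 : (if p ≤ c then ((c : ℝ) - p) * Real.log p else 0) =
        (if p ≤ c then (c : ℝ) - p else 0) * Real.log p := by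
      split_ifs <;> simp
    rw [k1, k2, k3]
    nlinarith [hm]
  have hsum := Finset.sum_le_sum hpt
  rw [Finset.sum_sub_distrib, Finset.sum_sub_distrib, Finset.sum_sub_distrib,
    Finset.sum_sub_distrib, ← Finset.mul_sum, ← Finset.mul_sum, ← Finset.mul_sum,
    ← Finset.mul_sum, ← Finset.mul_sum, GainB_cut h (2 * n) (4 * n) (by omega),
    GainB_cut h n (4 * n) (by omega), GainB_cut h c (4 * n) (by omega)] at hsum
  refine le_trans ?_ hsum
  have n1 : (100000 : ℝ) ≤ n := by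
    have : 100000 ≤ n := by omega
    exact_mod_cast this
  have r1 : (2 : ℝ) * n ≤ 3 * c := by exact_mod_cast hc1
  have r2 : (c : ℝ) ≤ n := by exact_mod_cast hc2
  have r3 : (3 : ℝ) * c ≤ 2 * n + 2 := by exact_mod_cast hc3
  have r4 : (2 : ℝ) * h ≤ n := by exact_mod_cast hh1
  have r5 : (n : ℝ) ≤ 2 * h + 1 := by exact_mod_cast hh2
  have r6 : (h : ℝ) ≤ c := by exact_mod_cast hhc
  have q1 : (3.5 * (n : ℝ)) ^ 2 ≤ (((4 * n : ℕ) : ℝ) - h) ^ 2 := by
    push_cast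
    have : 3.5 * (n : ℝ) ≤ 4 * n - h := by linarith
    exact pow_le_pow_left₀ (by positivity) this 2
  have q2 : (((2 * n : ℕ) : ℝ) - h) ^ 2 ≤ (1.5 * (n : ℝ) + 1) ^ 2 := by
    push_cast
    have : 2 * (n : ℝ) - h ≤ 1.5 * n + 1 := by linarith
    exact pow_le_pow_left₀ (by linarith) this 2
  have q3 : ((n : ℝ) - h) ^ 2 ≤ (0.5 * (n : ℝ) + 1) ^ 2 := by
    have : (n : ℝ) - h ≤ 0.5 * n + 1 := by linarith
    exact pow_le_pow_left₀ (by linarith) this 2
  have q4 : ((c : ℝ) - h) ^ 2 ≤ ((n : ℝ) / 6 + 2) ^ 2 := by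
    have : (c : ℝ) - h ≤ n / 6 + 2 := by linarith
    exact pow_le_pow_left₀ (by linarith) this 2
  have q5 : (c : ℝ) ^ 2 ≤ (n : ℝ) ^ 2 := pow_le_pow_left₀ (by linarith) r2 2
  have f1 := e1.1
  have f2 := e2.2
  have f3 := e3.2
  have f4 := e4.2
  push_cast at q1 q2 f1 f2 ⊢
  nlinarith

end PWief
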