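import Pool.Agent.Lib.PWief.LLApi

/-!
# GramDet: change of basis

PROOF. `q'(s) = (qd n s).eval (nu s)`. For `g` of degree `< n`: `g = ∑_r C (g(nu r)/q'(r)) * qd n r` (`lagrange`), so
`LL (NN n) (f * g) = ∑_r (g(nu r)/q'(r)) SS (nu r) f` (`LL_NN_qd`, `LL_sum`, `LL_C_mul`), and
`SS (nu r) f = ∑_s f(nu s) Lm n s r` (`lagrange`, `SS_sum`, `SS_C_mul`). Hence
`Gram = Ev_f * Lm n * W`, `Ev_f i s = (f i).eval (nu s)`, `W r j = (g j).eval (nu r) / q'(r)`.
`|det Ev_f| = ∏_{k<n} k!`: `Matrix.det_eval_matrixOfPolynomials_eq_det_vandermonde` (monic of degree `i`), the same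
value for every such family, e.g. for `f i = qq i`, where the matrix is triangular with diagonal entries
`± i!` (`prod_nu_self`; `(qq i).eval (nu s) = 0` for `s < i`). `|det W| = ∏ k! / ∏_r |q'(r)| = ∏ k! / (∏ k!)^2`
(`prod_dQ`, `abs_qp`). So `|det Gram| = |det Lm| = |det M|`.
-/

set_option autoImplicit false

open Finset Polynomial

namespace PWief

private lemma GramDet_qq_monic (k : ℕ) : (qq k).Monic := by
  unfold qq
  exact monic_prod_of_monic _ _ fun i _ => monic_X_sub_C _

private lemma GramDet_qq_deg (k : ℕ) : (qq k).natDegree = k := by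
  unfold qq
  rw [natDegree_prod_of_monic _ _ fun i _ => monic_X_sub_C _,
    Finset.sum_congr rfl fun i _ => natDegree_X_sub_C _]
  simp

private lemma GramDet_vdm (n : ℕ) :
    |(Matrix.vandermonde fun i : Fin n => (nu i : ℚ)).det| = ∏ k ∈ range n, (k.factorial : ℚ) := by
  rw [Matrix.det_eval_matrixOfPolynomials_eq_det_vandermonde _ (fun i : Fin n => qq i)
    (fun i => GramDet_qq_deg i) (fun i => GramDet_qq_monic i),
    Matrix.det_of_lowerTriangular, abs_prod]
  · rw [← Fin.prod_univ_eq_prod_range (fun k => (k.factorial : ℚ))]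
    refine Finset.prod_congr rfl fun i _ => ?_
    rw [Matrix.of_apply, ← prod_nu_self]
    unfold qq
    rw [eval_prod, abs_prod]
    simp
  · intro i j hij
    have hij' : (i : ℕ) < j := by simpa using hij
    rw [Matrix.of_apply]
    unfold qq
    rw [eval_prod]
    refine Finset.prod_eq_zero (Finset.mem_range.2 hij') ?_
    simp

private lemma GramDet_ev {n : ℕ} (f : Fin n → ℚ[X])
    (hf : ∀ i, (f i).Monic ∧ (f i).natDegree = i) :
    |(Matrix.of fun s i : Fin n => (f i).eval (nu s : ℚ)).det| =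
      ∏ k ∈ range n, (k.factorial : ℚ) := by
  rw [← GramDet_vdm, Matrix.det_eval_matrixOfPolynomials_eq_det_vandermonde _ f
    (fun i => (hf i).2) (fun i => (hf i).1)]

private lemma GramDet_SS {n : ℕ} {P : ℚ[X]} (hP : P.natDegree < n) (r : ℕ) :
    SS (nu r) P = ∑ s : Fin n, P.eval (nu s : ℚ) *
      (SS (nu r) (qd n s) / (qd n s).eval (nu s : ℚ)) := by
  conv_lhs => rw [lagrange hP]
  rw [SS_sum, Finset.sum_range]
  refine Finset.sum_congr rfl fun s _ => ?_
  rw [SS_C_mul]
  ring

private lemma GramDet_LL {n : ℕ} (P : ℚ[X]) {Q : ℚ[X]} (hQ : Q.natDegree < n) :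
    LL (NN n) (P * Q) = ∑ r : Fin n, SS (nu r) P *
      ((1 / (qd n r).eval (nu r : ℚ)) * Q.eval (nu r : ℚ)) := by
  conv_lhs => rw [lagrange hQ]
  rw [Finset.mul_sum, LL_sum, Finset.sum_range]
  refine Finset.sum_congr rfl fun r _ => ?_
  rw [mul_left_comm, LL_C_mul, LL_NN_qd r.2]
  ring

theorem gram_det {n : ℕ} (f g : Fin n → ℚ[X]) (hf : ∀ i, (f i).Monic ∧ (f i).natDegree = i)
    (hg : ∀ i, (g i).Monic ∧ (g i).natDegree = i) :
    |(Matrix.of fun i j => LL (NN n) (f i * g j)).det| = |(M n).det| := by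
  have hfac : (Matrix.of fun i j => LL (NN n) (f i * g j)) =
      (Matrix.of fun s i : Fin n => (f i).eval (nu s : ℚ)).transpose * Lm n *
        (Matrix.of fun r j : Fin n => (1 / (qd n r).eval (nu r : ℚ)) *
          (Matrix.of fun s i : Fin n => (g i).eval (nu s : ℚ)) r j) := by
    ext i j
    rw [Matrix.of_apply, GramDet_LL (f i) (Q := g j) (by rw [(hg j).2]; exact j.2),
      Matrix.mul_apply]
    refine Finset.sum_congr rfl fun r _ => ?_
    rw [GramDet_SS (P := f i) (n := n) (by rw [(hf i).2]; exact i.2) r, Matrix.mul_apply,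
      Matrix.of_apply, Matrix.of_apply]
    congr 1
  have hW : (∏ r : Fin n, |1 / (qd n r).eval (nu r : ℚ)|) =
      1 / (∏ k ∈ range n, (k.factorial : ℚ)) ^ 2 := by
    rw [← prod_dQ, Finset.prod_range, one_div, ← Finset.prod_inv_distrib]
    refine Finset.prod_congr rfl fun r _ => ?_
    rw [abs_div, abs_one, abs_qp r.2, one_div]
  have hne : (∏ k ∈ range n, (k.factorial : ℚ)) ≠ 0 :=
    Finset.prod_ne_zero_iff.2 fun k _ => by exact_mod_cast k.factorial_ne_zero
  rw [hfac, Matrix.det_mul, Matrix.det_mul, Matrix.det_transpose, Matrix.det_mul_column, abs_mul,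
    abs_mul, abs_mul, abs_prod, hW, GramDet_ev f hf, GramDet_ev g hg, abs_det_M]
  field_simp

end PWief
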