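import Pool.Agent.Lib.PWief.LMat

/-!
# LLApi: the functional on rational functions with simple poles

PROOF. `LL_add`, `LL_C_mul`, `LL_sum`: `Polynomial.add_divByMonic`, `Polynomial.smul_divByMonic` (`C c * P = c • P`),
`S` linear. `LL_insert`: in the sum over `insert b A` (`Finset.sum_insert`) the term `e = b` vanishes
(`eval b (X - b) = 0`), for `e ∈ A`: `(insert b A).erase e = insert b (A.erase e)`, the factor `(e - b)` of the
denominator cancels against `(X - b).eval e = e - b ≠ 0`; and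
`((X - C b) * P) /ₘ ((X - C b) * Q) = P /ₘ Q` for monic `Q`: from `P = Q * (P /ₘ Q) + P %ₘ Q`,
`(X - b) P = ((X-b) Q)(P /ₘ Q) + (X-b)(P %ₘ Q)` and `Polynomial.div_modByMonic_unique` (degree of the remainder).
`LL_empty`: `P /ₘ 1 = P` (`Polynomial.divByMonic_one`). `LL_single`: one term, empty product.
`LL_res`: `(a - b) P = (X - b) P - (X - a) P`, `A = insert b (A.erase b)`.
`LL_NN_qd`: `NN n` is `insert`ed from `{nu r}` by the other nodes: `LL (NN n) (f * qd n r) = SS (nu r) f`
(induction over the finite set `A ⊆ (range n).erase r`: `LL ({nu r} ∪ A.image nu) (f * ∏_{i ∈ A} (X - nu i))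
= LL {nu r} f`, `nu_inj`).
-/

set_option autoImplicit false

open Finset Polynomial

namespace PWief

private theorem LLApi_monic (A : Finset ℤ) : (∏ e ∈ A, (X - C (e : ℚ))).Monic :=
  monic_prod_of_monic _ _ fun _ _ => monic_X_sub_C _

private theorem LLApi_div_add {D : ℚ[X]} (hD : D.Monic) (P Q : ℚ[X]) :
    (P + Q) /ₘ D = P /ₘ D + Q /ₘ D := by
  refine (div_modByMonic_unique (P /ₘ D + Q /ₘ D) (P %ₘ D + Q %ₘ D) hD ⟨?_, ?_⟩).1
  · have h1 := modByMonic_add_div P D
    have h2 := modByMonic_add_div Q D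
    linear_combination h1 + h2
  · exact lt_of_le_of_lt (degree_add_le _ _) (max_lt (degree_modByMonic_lt _ hD)
      (degree_modByMonic_lt _ hD))

private theorem LLApi_div_C_mul {D : ℚ[X]} (hD : D.Monic) (c : ℚ) (P : ℚ[X]) :
    (C c * P) /ₘ D = c • (P /ₘ D) := by
  rw [smul_eq_C_mul]
  refine (div_modByMonic_unique (C c * (P /ₘ D)) (C c * (P %ₘ D)) hD ⟨?_, ?_⟩).1
  · have h1 := modByMonic_add_div P D
    linear_combination C c * h1
  · rw [← smul_eq_C_mul]
    exact lt_of_le_of_lt (degree_smul_le _ _) (degree_modByMonic_lt _ hD)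

private theorem LLApi_div_cancel {D : ℚ[X]} (hD : D.Monic) (b : ℚ) (P : ℚ[X]) :
    ((X - C b) * P) /ₘ ((X - C b) * D) = P /ₘ D := by
  refine (div_modByMonic_unique (P /ₘ D) ((X - C b) * (P %ₘ D)) ((monic_X_sub_C b).mul hD)
    ⟨?_, ?_⟩).1
  · have h1 := modByMonic_add_div P D
    linear_combination (X - C b) * h1
  · rw [degree_mul, degree_mul]
    have h1 := degree_modByMonic_lt P hD
    rw [degree_X_sub_C]
    by_cases h0 : P %ₘ D = 0
    · rw [h0, degree_zero, WithBot.add_bot]
      rw [degree_eq_natDegree hD.ne_zero]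
      exact WithBot.bot_lt_coe (1 + D.natDegree)
    · rw [degree_eq_natDegree h0, degree_eq_natDegree hD.ne_zero] at *
      have h2 : (P %ₘ D).natDegree < D.natDegree := by exact_mod_cast h1
      have h3 : 1 + (P %ₘ D).natDegree < 1 + D.natDegree := by omega
      exact_mod_cast h3

theorem LL_add (A : Finset ℤ) (P Q : ℚ[X]) : LL A (P + Q) = LL A P + LL A Q := by
  unfold LL
  rw [LLApi_div_add (LLApi_monic A), map_add]
  have h : ∑ e ∈ A, (P + Q).eval (e : ℚ) * kap e / ∏ f ∈ A.erase e, ((e : ℚ) - (f : ℚ)) =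
      ∑ e ∈ A, P.eval (e : ℚ) * kap e / ∏ f ∈ A.erase e, ((e : ℚ) - (f : ℚ)) +
      ∑ e ∈ A, Q.eval (e : ℚ) * kap e / ∏ f ∈ A.erase e, ((e : ℚ) - (f : ℚ)) := by
    rw [← sum_add_distrib]
    apply sum_congr rfl
    intro e _
    rw [eval_add]
    ring
  rw [h]
  ring

theorem LL_C_mul (A : Finset ℤ) (c : ℚ) (P : ℚ[X]) : LL A (C c * P) = c * LL A P := by
  unfold LL
  rw [LLApi_div_C_mul (LLApi_monic A), map_smul, smul_eq_mul, mul_add, mul_sum]
  congr 1
  apply sum_congr rfl
  intro e _
  rw [eval_mul, eval_C]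
  ring

private theorem LLApi_zero (A : Finset ℤ) : LL A 0 = 0 := by
  have h := LL_C_mul A 0 0
  rw [zero_mul, mul_zero] at h
  exact h

theorem LL_sum {ι : Type*} (s : Finset ι) (A : Finset ℤ) (f : ι → ℚ[X]) :
    LL A (∑ i ∈ s, f i) = ∑ i ∈ s, LL A (f i) := by
  classical
  induction s using Finset.induction_on with
  | empty => rw [sum_empty, sum_empty, LLApi_zero]
  | insert a s ha ih => rw [sum_insert ha, sum_insert ha, LL_add, ih]

theorem LL_empty (P : ℚ[X]) : LL ∅ P = S P := by
  unfold LL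
  rw [sum_empty, prod_empty, divByMonic_one, zero_add]

theorem LL_single (e : ℤ) (P : ℚ[X]) : LL {e} P = SS e P := by
  unfold LL SS
  rw [sum_singleton, prod_singleton, erase_singleton, prod_empty, div_one]

theorem LL_insert {A : Finset ℤ} {b : ℤ} (hb : b ∉ A) (P : ℚ[X]) :
    LL (insert b A) ((X - C (b : ℚ)) * P) = LL A P := by
  unfold LL
  rw [sum_insert hb, prod_insert hb, LLApi_div_cancel (LLApi_monic A)]
  have h1 : ((X - C (b : ℚ)) * P).eval (b : ℚ) = 0 := by simp
  rw [h1, zero_mul, zero_div, zero_add]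
  congr 1
  apply sum_congr rfl
  intro e he
  have hne : e ≠ b := fun h => hb (h ▸ he)
  have h2 : (insert b A).erase e = insert b (A.erase e) := by
    rw [erase_insert_of_ne hne.symm]
  have h3 : b ∉ A.erase e := fun h => hb (mem_of_mem_erase h)
  rw [h2, prod_insert h3, eval_mul, eval_sub, eval_X, eval_C]
  have h4 : (e : ℚ) - (b : ℚ) ≠ 0 := by
    rw [sub_ne_zero]
    exact_mod_cast hne
  rw [mul_assoc, mul_div_mul_left _ _ h4]

theorem LL_union {A B : Finset ℤ} (h : Disjoint A B) (P : ℚ[X]) :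
    LL (A ∪ B) ((∏ b ∈ B, (X - C (b : ℚ))) * P) = LL A P := by
  classical
  induction B using Finset.induction_on with
  | empty => simp
  | insert b B hb ih =>
    rw [disjoint_insert_right] at h
    have h1 : b ∉ A ∪ B := by
      rw [mem_union, not_or]
      exact ⟨h.1, hb⟩
    rw [union_insert, prod_insert hb, mul_assoc, LL_insert h1, ih h.2]

theorem LL_res {A : Finset ℤ} {a b : ℤ} (ha : a ∈ A) (hb : b ∈ A) (hab : a ≠ b) (P : ℚ[X]) :
    ((a : ℚ) - b) * LL A P = LL (A.erase b) P - LL (A.erase a) P := by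
  have h1 : LL A ((X - C (b : ℚ)) * P) = LL (A.erase b) P := by
    have h := LL_insert (notMem_erase b A) P
    rwa [insert_erase hb] at h
  have h2 : LL A ((X - C (a : ℚ)) * P) = LL (A.erase a) P := by
    have h := LL_insert (notMem_erase a A) P
    rwa [insert_erase ha] at h
  have _ := hab
  rw [← LL_C_mul, ← h1, ← h2]
  have h3 : (X - C (b : ℚ)) * P = C ((a : ℚ) - b) * P + (X - C (a : ℚ)) * P := by
    rw [C_sub]
    ring
  rw [h3, LL_add]
  ring

private theorem LLApi_aux {r : ℕ} (f : ℚ[X]) (A : Finset ℕ) (hA : r ∉ A) :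
    LL (insert (nu r) (A.image nu)) (f * ∏ i ∈ A, (X - C (nu i : ℚ))) = SS (nu r) f := by
  classical
  induction A using Finset.induction_on with
  | empty =>
    rw [prod_empty, mul_one, image_empty]
    exact LL_single (nu r) f
  | insert b B hb ih =>
    rw [mem_insert, not_or] at hA
    have h1 : nu b ∉ insert (nu r) (B.image nu) := by
      rw [mem_insert, mem_image, not_or]
      refine ⟨fun h => hA.1 (nu_inj h).symm, ?_⟩
      rintro ⟨c, hc, hcb⟩
      exact hb (nu_inj hcb ▸ hc)
    have h2 : insert (nu r) ((insert b B).image nu) = insert (nu b) (insert (nu r) (B.image nu)) := by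
      rw [image_insert, Finset.insert_comm]
    have h3 : f * ∏ i ∈ insert b B, (X - C (nu i : ℚ)) =
        (X - C (nu b : ℚ)) * (f * ∏ i ∈ B, (X - C (nu i : ℚ))) := by
      rw [prod_insert hb]
      ring
    rw [h2, h3, LL_insert h1, ih hA.2]

theorem LL_NN_qd {n r : ℕ} (hr : r < n) (f : ℚ[X]) : LL (NN n) (f * qd n r) = SS (nu r) f := by
  have h := LLApi_aux f ((range n).erase r) (notMem_erase r _)
  have h1 : insert (nu r) (((range n).erase r).image nu) = NN n := by
    rw [← image_insert, insert_erase (mem_range.2 hr)]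
    rfl
  rw [h1] at h
  exact h

end PWief
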