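import Pool.Agent.Lib.PWief.DefsR

/-!
# NuProd: products of differences of the nodes

PROOF. `β i = i/2 + 1`. For `r < i`: `|nu r - nu i| ≤ 2 β i` (`|nu i| ≤ β i`, `|nu r| ≤ β r ≤ β i`; `nu (2k) = k`,
`nu (2k+1) = -1-k`). For `r < 2k`, `e = nu r` (`-k ≤ e ≤ k-1`): `|e - k| |e + 1 + k| = |e(e+1) - k(k+1)| ≤ k(k+1)
≤ (k+1)^2 = β (2k) β (2k+1)` (`0 ≤ e(e+1) ≤ k(k+1)`). So for even `a` and even `b` (pairs) the product over
`Ico a b` is `≤ ∏ β`; one unpaired factor at each end gives at most the factor `2 · 2`. Formally: induction on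
`b` for `a` even with the statement: `b` even: `≤ ∏ β`; `b` odd: `≤ 2 ∏ β`; for `a` odd split off the first
factor (`r < a`). `nu_prod_mm`: multiply by `mm a`, `mm b = mm a * ∏_{Ico a b} β`
(`Finset.prod_range_mul_prod_Ico`).
-/

set_option autoImplicit false

open Finset Polynomial

namespace PWief

private lemma NuProd_abs (i : ℕ) : |nu i| ≤ ((i / 2 + 1 : ℕ) : ℤ) := by
  unfold nu
  split_ifs with h
  · rw [abs_le]; constructor <;> push_cast <;> omega
  · rw [abs_le]; constructor <;> push_cast <;> omega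

private lemma NuProd_two {r i : ℕ} (h : r < i) : |nu r - nu i| ≤ 2 * ((i / 2 + 1 : ℕ) : ℤ) := by
  have h1 := NuProd_abs r
  have h2 := NuProd_abs i
  have h3 : ((r / 2 + 1 : ℕ) : ℤ) ≤ ((i / 2 + 1 : ℕ) : ℤ) := by
    have : r / 2 ≤ i / 2 := Nat.div_le_div_right h.le
    push_cast; omega
  have h4 : |nu r - nu i| ≤ |nu r| + |nu i| := abs_sub _ _
  linarith

private lemma NuProd_range {r k : ℕ} (h : r < 2 * k) : -(k : ℤ) ≤ nu r ∧ nu r ≤ (k : ℤ) - 1 := by
  unfold nu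
  split_ifs with h'
  · constructor <;> omega
  · constructor <;> omega

private lemma NuProd_pair {r k : ℕ} (h : r < 2 * k) :
    |nu r - nu (2 * k)| * |nu r - nu (2 * k + 1)| ≤
      ((2 * k / 2 + 1 : ℕ) : ℤ) * (((2 * k + 1) / 2 + 1 : ℕ) : ℤ) := by
  obtain ⟨h1, h2⟩ := NuProd_range h
  have e1 : nu (2 * k) = (k : ℤ) := by
    unfold nu
    rw [if_pos (by omega)]
    congr 1
    omega
  have e2 : nu (2 * k + 1) = -1 - (k : ℤ) := by
    unfold nu
    rw [if_neg (by omega)]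
    congr 2
    omega
  have e3 : (2 * k / 2 + 1 : ℕ) = k + 1 := by omega
  have e4 : ((2 * k + 1) / 2 + 1 : ℕ) = k + 1 := by omega
  rw [e1, e2, e3, e4]
  generalize nu r = e at *
  rw [abs_of_nonpos (by linarith), abs_of_nonneg (by linarith)]
  have h5 : 0 ≤ e * (e + 1) := by
    rcases le_or_gt 0 e with h0 | h0
    · positivity
    · nlinarith
  push_cast
  nlinarith

private lemma NuProd_even {r c : ℕ} (h : r < 2 * c) (m : ℕ) :
    ∏ i ∈ Ico (2 * c) (2 * c + 2 * m), |nu r - nu i| ≤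
      ∏ i ∈ Ico (2 * c) (2 * c + 2 * m), (((i / 2 + 1 : ℕ)) : ℤ) := by
  induction m with
  | zero => simp
  | succ m ih =>
    have e : 2 * c + 2 * (m + 1) = 2 * (c + m) + 1 + 1 := by ring
    have e' : 2 * c + 2 * m = 2 * (c + m) := by ring
    rw [e' ] at ih
    rw [e, prod_Ico_succ_top (by omega), prod_Ico_succ_top (by omega),
      prod_Ico_succ_top (by omega : 2 * c ≤ 2 * (c + m) + 1),
      prod_Ico_succ_top (by omega : 2 * c ≤ 2 * (c + m))]
    have h1 := NuProd_pair (r := r) (k := c + m) (by omega)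
    rw [mul_assoc, mul_assoc]
    exact mul_le_mul ih h1 (by positivity) (by positivity)

private lemma NuProd_ev {r c b : ℕ} (h : r < 2 * c) (hb : 2 * c ≤ b) :
    ∏ i ∈ Ico (2 * c) b, |nu r - nu i| ≤ 2 * ∏ i ∈ Ico (2 * c) b, (((i / 2 + 1 : ℕ)) : ℤ) := by
  obtain ⟨d, rfl⟩ := Nat.exists_eq_add_of_le hb
  rcases Nat.even_or_odd' d with ⟨m, hm | hm⟩
  · subst hm
    have h1 := NuProd_even h m
    have h2 : (0 : ℤ) ≤ ∏ i ∈ Ico (2 * c) (2 * c + 2 * m), (((i / 2 + 1 : ℕ)) : ℤ) := by positivity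
    linarith
  · subst hm
    rw [← add_assoc, prod_Ico_succ_top (by omega), prod_Ico_succ_top (by omega)]
    have h1 := NuProd_even h m
    have h2 := NuProd_two (r := r) (i := 2 * c + 2 * m) (by omega)
    calc _ ≤ (∏ i ∈ Ico (2 * c) (2 * c + 2 * m), (((i / 2 + 1 : ℕ)) : ℤ)) *
          (2 * (((2 * c + 2 * m) / 2 + 1 : ℕ) : ℤ)) := mul_le_mul h1 h2 (by positivity) (by positivity)
      _ = _ := by ring

theorem nu_prod {r a b : ℕ} (hr : r < a) (hab : a ≤ b) :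
    ∏ i ∈ Ico a b, |nu r - nu i| ≤ 4 * ∏ i ∈ Ico a b, (((i / 2 + 1 : ℕ)) : ℤ) := by
  rcases Nat.even_or_odd' a with ⟨c, hc | hc⟩
  · subst hc
    have h1 := NuProd_ev hr hab
    have h2 : (0 : ℤ) ≤ ∏ i ∈ Ico (2 * c) b, (((i / 2 + 1 : ℕ)) : ℤ) := by positivity
    linarith
  · rcases hab.eq_or_lt with h | h
    · subst h; simp
    · rw [prod_eq_prod_Ico_succ_bot h, prod_eq_prod_Ico_succ_bot h]
      have h1 : a + 1 = 2 * (c + 1) := by omega
      have h2 := NuProd_ev (r := r) (c := c + 1) (b := b) (by omega) (by omega)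
      rw [← h1] at h2
      have h3 := NuProd_two hr
      calc _ ≤ (2 * ((a / 2 + 1 : ℕ) : ℤ)) * (2 * ∏ i ∈ Ico (a + 1) b, (((i / 2 + 1 : ℕ)) : ℤ)) :=
            mul_le_mul h3 h2 (by positivity) (by positivity)
        _ = _ := by ring

theorem nu_prod_mm {r a b : ℕ} (hr : r < a) (hab : a ≤ b) :
    (mm a : ℤ) * ∏ i ∈ Ico a b, |nu r - nu i| ≤ 4 * (mm b : ℤ) := by
  have h1 := nu_prod hr hab
  have h2 : (mm b : ℤ) = (mm a : ℤ) * ∏ i ∈ Ico a b, (((i / 2 + 1 : ℕ)) : ℤ) := by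
    unfold mm
    rw [← prod_range_mul_prod_Ico _ hab]
    push_cast
    rfl
  rw [h2]
  have h3 : (0 : ℤ) ≤ (mm a : ℤ) := by positivity
  calc _ ≤ (mm a : ℤ) * (4 * ∏ i ∈ Ico a b, (((i / 2 + 1 : ℕ)) : ℤ)) :=
        mul_le_mul_of_nonneg_left h1 h3
    _ = _ := by ring

end PWief
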