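import Pool.Agent.Lib.PWief.SQq
import Pool.Agent.Lib.PWief.NuProd

/-!
# Newton: `qq j / (X - nu r)` in the basis `qq k`

PROOF of `qd_eq`. Multiply by `X - nu r` (`mul_left_cancel₀`, `(X - C _) * qd j r = qq j` by
`Finset.mul_prod_erase`): `qq k (X - nu r) = qq (k+1) - (nu r - nu k) qq k`, so the sum telescopes to
`qq j - qq r ∏_{r ≤ i < j} (nu r - nu i) = qq j` (induction on `j` from `r + 1`; the factor `i = r` is zero).
More directly, induction on `j ≥ r+1`: `qd (r+1) r = qq r` and `qd (j+1) r = (X - nu j) qd j r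
= (X - nu r) qd j r + (nu r - nu j) qd j r = qq j + (nu r - nu j) qd j r`.
`S_qd_le`: `|S (qd j r)| ≤ ∑_{k=r}^{j-1} |∏_{k<i<j} (nu r - nu i)| (k+2) mm k ≤ ∑ 4 (k+2) mm j`
(`nu_prod_mm` with `a = k+1`: `mm k ≤ mm (k+1)`), at most `j` terms, each `≤ 4 (j+1) mm j`.
-/

set_option autoImplicit false

open Finset Polynomial

namespace PWief

theorem mul_qd {j r : ℕ} (h : r < j) : (X - C (nu r : ℚ)) * qd j r = qq j := by
  unfold qd qq
  exact Finset.mul_prod_erase (range j) (fun i => (X - C (nu i : ℚ))) (mem_range.2 h)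

private theorem Newton_base (r : ℕ) : qd (r + 1) r = qq r := by
  unfold qd qq
  congr 1
  ext i
  simp only [mem_erase, mem_range]
  omega

private theorem Newton_step {j r : ℕ} (h : r < j) :
    qd (j + 1) r = qq j + C ((nu r : ℚ) - (nu j : ℚ)) * qd j r := by
  have h1 : qd (j + 1) r = (X - C (nu j : ℚ)) * qd j r := by
    unfold qd
    have : (range (j + 1)).erase r = insert j ((range j).erase r) := by
      ext i
      simp only [mem_erase, mem_range, mem_insert]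
      omega
    rw [this, prod_insert]
    simp
  rw [h1, ← mul_qd h, C_sub]
  ring

theorem qd_eq {j r : ℕ} (h : r < j) :
    qd j r = ∑ k ∈ Ico r j, C (∏ i ∈ Ico (k + 1) j, ((nu r : ℚ) - (nu i : ℚ))) * qq k := by
  induction j, h using Nat.le_induction with
  | base =>
    rw [Newton_base, Nat.Ico_succ_singleton]
    simp
  | succ j hj ih =>
    have hrj : r < j := hj
    rw [Newton_step hrj, Finset.sum_Ico_succ_top hrj.le, ih, Finset.mul_sum, add_comm]
    congr 1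
    · refine Finset.sum_congr rfl fun k hk => ?_
      rw [mem_Ico] at hk
      rw [Finset.prod_Ico_succ_top (by omega), C_mul]
      ring
    · simp

private theorem Newton_S_C_mul (a : ℚ) (q : ℚ[X]) : S (C a * q) = a * S q := by
  rw [← smul_eq_C_mul, map_smul, smul_eq_mul]

private theorem Newton_mm_le (k : ℕ) : mm k ≤ mm (k + 1) := by
  unfold mm
  rw [prod_range_succ]
  exact Nat.le_mul_of_pos_right _ (by omega)

theorem S_qd_le {j r : ℕ} (h : r < j) : |S (qd j r)| ≤ 4 * ((j : ℚ) + 1) ^ 2 * (mm j : ℚ) := by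
  rw [qd_eq h, map_sum]
  have hterm : ∀ k ∈ Ico r j,
      |S (C (∏ i ∈ Ico (k + 1) j, ((nu r : ℚ) - (nu i : ℚ))) * qq k)| ≤
        4 * ((j : ℚ) + 1) * (mm j : ℚ) := by
    intro k hk
    rw [mem_Ico] at hk
    rw [Newton_S_C_mul, abs_mul, Finset.abs_prod]
    have h1 := S_qq_le k
    have h2 := nu_prod_mm (r := r) (a := k + 1) (b := j) (by omega) (by omega)
    have h3 : ((mm (k + 1) : ℕ) : ℚ) * ∏ i ∈ Ico (k + 1) j, |(nu r : ℚ) - (nu i : ℚ)| ≤
        4 * (mm j : ℚ) := by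
      exact_mod_cast h2
    have hP0 : 0 ≤ ∏ i ∈ Ico (k + 1) j, |(nu r : ℚ) - (nu i : ℚ)| :=
      prod_nonneg fun _ _ => abs_nonneg _
    set P := ∏ i ∈ Ico (k + 1) j, |(nu r : ℚ) - (nu i : ℚ)|
    have h4 : (mm k : ℚ) ≤ (mm (k + 1) : ℕ) := by exact_mod_cast Newton_mm_le k
    have h5 : P * (mm k : ℚ) ≤ 4 * (mm j : ℚ) := by
      calc P * (mm k : ℚ) ≤ P * (mm (k + 1) : ℕ) := mul_le_mul_of_nonneg_left h4 hP0
        _ = (mm (k + 1) : ℕ) * P := mul_comm _ _
        _ ≤ _ := h3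
    have h6 : (k : ℚ) + 2 ≤ (j : ℚ) + 1 := by
      have : k + 1 ≤ j := by omega
      have : (k : ℚ) + 1 ≤ j := by exact_mod_cast this
      linarith
    have hj0 : (0 : ℚ) ≤ 4 * (mm j : ℚ) := by positivity
    calc P * |S (qq k)| ≤ P * (((k : ℚ) + 2) * (mm k : ℚ)) := mul_le_mul_of_nonneg_left h1 hP0
      _ = ((k : ℚ) + 2) * (P * (mm k : ℚ)) := by ring
      _ ≤ ((k : ℚ) + 2) * (4 * (mm j : ℚ)) := mul_le_mul_of_nonneg_left h5 (by positivity)
      _ ≤ ((j : ℚ) + 1) * (4 * (mm j : ℚ)) := mul_le_mul_of_nonneg_right h6 hj0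
      _ = _ := by ring
  calc |∑ k ∈ Ico r j, S (C (∏ i ∈ Ico (k + 1) j, ((nu r : ℚ) - (nu i : ℚ))) * qq k)|
      ≤ ∑ k ∈ Ico r j, |S (C (∏ i ∈ Ico (k + 1) j, ((nu r : ℚ) - (nu i : ℚ))) * qq k)| :=
        Finset.abs_sum_le_sum_abs _ _
    _ ≤ ∑ _k ∈ Ico r j, 4 * ((j : ℚ) + 1) * (mm j : ℚ) := Finset.sum_le_sum hterm
    _ = ((j - r : ℕ) : ℚ) * (4 * ((j : ℚ) + 1) * (mm j : ℚ)) := by
        rw [sum_const, Nat.card_Ico, nsmul_eq_mul]
    _ ≤ ((j : ℚ) + 1) * (4 * ((j : ℚ) + 1) * (mm j : ℚ)) := by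
        apply mul_le_mul_of_nonneg_right _ (by positivity)
        have : j - r ≤ j := Nat.sub_le _ _
        have : ((j - r : ℕ) : ℚ) ≤ j := by exact_mod_cast this
        linarith
    _ = _ := by ring

end PWief
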