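import Pool.Agent.Lib.PWief.PApi
import Pool.Agent.Lib.PWief.SShift

/-!
# SInt: integrality at the odd primes

`chp c k` is the polynomial `C(X + c, k)`.
-/

set_option autoImplicit false

open Finset Polynomial

namespace PWief

/-- the polynomial `C(X + c, k)` -/
noncomputable def chp (c : ℤ) (k : ℕ) : ℚ[X] :=
  C (1 / (k.factorial : ℚ)) * ∏ i ∈ range k, (X + C ((c : ℚ) - (i : ℚ)))

private theorem SInt_asc {p : ℕ} [Fact p.Prime] (y : ℤ_[p]) (k : ℕ) :
    (ascPochhammer ℤ_[p] k).eval y = ∏ i ∈ range k, (y + (i : ℤ_[p])) := by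
  induction k with
  | zero => simp
  | succ k ih => rw [ascPochhammer_succ_eval, prod_range_succ, ih]

theorem choose_pint {p : ℕ} [Fact p.Prime] {x : ℚ} (hx : PInt p x) (k : ℕ) :
    PInt p ((∏ i ∈ range k, (x - (i : ℚ))) / (k.factorial : ℚ)) := by
  have hx' : ‖(x : ℚ_[p])‖ ≤ 1 := by
    rw [Padic.eq_padicNorm]
    exact_mod_cast hx
  let y : ℤ_[p] := ⟨-(x : ℚ_[p]), by simpa using hx'⟩
  have h := PadicInt.norm_ascPochhammer_le k y
  rw [SInt_asc] at h
  have h1 : ((∏ i ∈ range k, (y + (i : ℤ_[p])) : ℤ_[p]) : ℚ_[p]) =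
      ((∏ i ∈ range k, (-x + (i : ℚ)) : ℚ) : ℚ_[p]) := by
    have hc : ∀ n : ℕ, ((∏ i ∈ range n, (y + (i : ℤ_[p])) : ℤ_[p]) : ℚ_[p]) =
        ∏ i ∈ range n, (-(x : ℚ_[p]) + (i : ℚ_[p])) := by
      intro n
      induction n with
      | zero => simp
      | succ n ih =>
        rw [prod_range_succ, prod_range_succ, PadicInt.coe_mul, ih, PadicInt.coe_add,
          PadicInt.coe_natCast]
    rw [hc]
    push_cast
    rfl
  have h2 : padicNorm p (∏ i ∈ range k, (-x + (i : ℚ))) ≤ padicNorm p (k.factorial : ℚ) := by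
    have h3 : ‖((∏ i ∈ range k, (-x + (i : ℚ)) : ℚ) : ℚ_[p])‖ ≤ ‖((k.factorial : ℚ) : ℚ_[p])‖ := by
      rw [← h1]
      have : (((k.factorial : ℚ)) : ℚ_[p]) = ((k.factorial : ℤ_[p]) : ℚ_[p]) := by
        push_cast; rfl
      rw [this]
      exact h
    rw [Padic.eq_padicNorm, Padic.eq_padicNorm] at h3
    exact_mod_cast h3
  have h4 : ∏ i ∈ range k, (x - (i : ℚ)) = (-1) ^ k * ∏ i ∈ range k, (-x + (i : ℚ)) := by
    rw [← Finset.card_range k, ← Finset.prod_const, Finset.card_range, ← Finset.prod_mul_distrib]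
    refine Finset.prod_congr rfl fun i _ => ?_
    ring
  have hk : (k.factorial : ℚ) ≠ 0 := by exact_mod_cast k.factorial_ne_zero
  have hk0 : 0 < padicNorm p (k.factorial : ℚ) := by
    rcases lt_or_eq_of_le (padicNorm.nonneg (p := p) (k.factorial : ℚ)) with h | h
    · exact h
    · exact absurd (padicNorm.zero_of_padicNorm_eq_zero h.symm) hk
  unfold PInt
  rw [padicNorm.div, div_le_one hk0, h4, padicNorm.mul]
  have h5 : padicNorm p ((-1 : ℚ) ^ k) = 1 := by
    rcases neg_one_pow_eq_or ℚ k with h | h <;> rw [h]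
    · exact padicNorm.one
    · rw [padicNorm.neg]; exact padicNorm.one
  rw [h5, one_mul]
  exact h2

/-- `C(x, k)` for `x = (X - 3/4)/2` -/
private noncomputable def SInt_N (k : ℕ) : ℚ[X] :=
  C (1 / (2 ^ k * (k.factorial : ℚ))) * ∏ i ∈ range k, (X - C (3 / 4 + 2 * (i : ℚ)))

private theorem SInt_eval (k : ℕ) (x : ℚ) :
    (SInt_N k).eval (3 / 4 + 2 * x) = (∏ i ∈ range k, (x - (i : ℚ))) / (k.factorial : ℚ) := by
  unfold SInt_N
  rw [eval_mul, eval_C, eval_prod]
  have : ∀ i ∈ range k, (X - C (3 / 4 + 2 * (i : ℚ)) : ℚ[X]).eval (3 / 4 + 2 * x) =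
      2 * (x - (i : ℚ)) := by
    intro i _
    simp
    ring
  rw [Finset.prod_congr rfl this, Finset.prod_mul_distrib, Finset.prod_const, Finset.card_range]
  have hk : (k.factorial : ℚ) ≠ 0 := by exact_mod_cast k.factorial_ne_zero
  field_simp

private theorem SInt_step (k : ℕ) :
    (SInt_N (k + 1)).comp (X + C 2) - SInt_N (k + 1) = SInt_N k := by
  have hk : (k.factorial : ℚ) ≠ 0 := by exact_mod_cast k.factorial_ne_zero
  have h1 : (SInt_N (k + 1)).comp (X + C 2) = C (1 / (2 ^ (k + 1) * ((k + 1).factorial : ℚ))) *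
      ((∏ i ∈ range k, (X - C (3 / 4 + 2 * (i : ℚ)))) * (X + C 2 - C (3 / 4 : ℚ))) := by
    unfold SInt_N
    rw [mul_comp, C_comp, Polynomial.prod_comp, prod_range_succ']
    congr 2
    · refine Finset.prod_congr rfl fun i _ => ?_
      simp only [sub_comp, X_comp, C_comp]
      push_cast
      simp only [map_add, map_mul, map_one]
      have : (C (2 : ℚ) : ℚ[X]) = 2 := rfl
      rw [this]
      ring
    · simp
  have h2 : SInt_N (k + 1) = C (1 / (2 ^ (k + 1) * ((k + 1).factorial : ℚ))) *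
      ((∏ i ∈ range k, (X - C (3 / 4 + 2 * (i : ℚ)))) * (X - C (3 / 4 + 2 * (k : ℚ)))) := by
    unfold SInt_N
    rw [prod_range_succ]
  have h3 : (C (1 / (2 ^ k * (k.factorial : ℚ))) : ℚ[X]) =
      C (1 / (2 ^ (k + 1) * ((k + 1).factorial : ℚ))) * C (2 * ((k : ℚ) + 1)) := by
    rw [← C_mul]
    congr 1
    rw [Nat.factorial_succ]
    push_cast
    field_simp
    ring
  rw [h1, h2]
  conv_rhs => rw [SInt_N, h3]
  have h4 : (C (2 * ((k : ℚ) + 1)) : ℚ[X]) =
      (X + C 2 - C (3 / 4 : ℚ)) - (X - C (3 / 4 + 2 * (k : ℚ))) := by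
    have : (X + C 2 - C (3 / 4 : ℚ)) - (X - C (3 / 4 + 2 * (k : ℚ))) =
        (C (2 : ℚ) - C (3 / 4 : ℚ) + C (3 / 4 + 2 * (k : ℚ)) : ℚ[X]) := by ring
    rw [this, ← C_sub, ← C_add]
    congr 1
    ring
  rw [h4]
  ring

private theorem SInt_S (k : ℕ) :
    S (SInt_N k) = (∏ i ∈ range (k + 1), (-1 / 4 - (i : ℚ))) / ((k + 1).factorial : ℚ) := by
  rw [← SInt_step k, S_shift]
  have h1 : (1 / 4 : ℚ) = 3 / 4 + 2 * (-1 / 4) := by norm_num
  have h2 : (3 / 4 : ℚ) = 3 / 4 + 2 * 0 := by norm_num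
  have h3 : (SInt_N (k + 1)).eval (3 / 4) = 0 := by
    conv_lhs => rw [h2]
    rw [SInt_eval, prod_range_succ']
    simp
  rw [h3, h1, SInt_eval, sub_zero]

private theorem SInt_deg (k : ℕ) : (SInt_N k).natDegree ≤ k := by
  unfold SInt_N
  refine natDegree_C_mul_le _ _ |>.trans ?_
  refine (natDegree_prod_le _ _).trans ?_
  refine (Finset.sum_le_sum fun i _ => (natDegree_X_sub_C_le _)).trans ?_
  simp

private theorem SInt_lead (k : ℕ) : (SInt_N k).coeff k = 1 / (2 ^ k * (k.factorial : ℚ)) := by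
  unfold SInt_N
  rw [coeff_C_mul]
  have h1 : (∏ i ∈ range k, (X - C (3 / 4 + 2 * (i : ℚ))) : ℚ[X]).Monic :=
    monic_prod_of_monic _ _ fun i _ => monic_X_sub_C _
  have h2 : (∏ i ∈ range k, (X - C (3 / 4 + 2 * (i : ℚ))) : ℚ[X]).natDegree = k := by
    rw [natDegree_prod_of_monic _ _ fun i _ => monic_X_sub_C _,
      Finset.sum_congr rfl fun i _ => natDegree_X_sub_C _]
    simp
  have h3 := h1.coeff_natDegree
  rw [h2] at h3
  rw [h3, mul_one]

private theorem SInt_basis (k : ℕ) : ∀ P : ℚ[X], P.natDegree ≤ k →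
    ∃ γ : ℕ → ℚ, P = ∑ j ∈ range (k + 1), C (γ j) * SInt_N j := by
  induction k with
  | zero =>
    intro P hP
    refine ⟨fun _ => P.coeff 0, ?_⟩
    rw [eq_C_of_natDegree_le_zero hP]
    simp [SInt_N]
  | succ k ih =>
    intro P hP
    set a : ℚ := P.coeff (k + 1) * (2 ^ (k + 1) * ((k + 1).factorial : ℚ)) with ha
    have hk : ((k + 1).factorial : ℚ) ≠ 0 := by exact_mod_cast (k + 1).factorial_ne_zero
    have hdeg : (P - C a * SInt_N (k + 1)).natDegree ≤ k := by
      rw [natDegree_le_iff_coeff_eq_zero]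
      intro N hN
      rcases Nat.lt_or_ge (k + 1) N with h | h
      · rw [coeff_sub, coeff_C_mul, coeff_eq_zero_of_natDegree_lt (lt_of_le_of_lt hP h),
          coeff_eq_zero_of_natDegree_lt (lt_of_le_of_lt (SInt_deg _) h)]
        simp
      · have : N = k + 1 := by omega
        subst this
        rw [coeff_sub, coeff_C_mul, SInt_lead, ha]
        field_simp
        ring
    obtain ⟨γ, hγ⟩ := ih _ hdeg
    refine ⟨fun j => if j = k + 1 then a else γ j, ?_⟩
    rw [sum_range_succ]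
    have h1 : ∑ j ∈ range (k + 1), C (if j = k + 1 then a else γ j) * SInt_N j =
        ∑ j ∈ range (k + 1), C (γ j) * SInt_N j := by
      refine Finset.sum_congr rfl fun j hj => ?_
      rw [mem_range] at hj
      rw [if_neg (by omega)]
    rw [h1, ← hγ]
    simp only [if_true]
    ring

private theorem SInt_evalN (j i : ℕ) :
    (SInt_N j).eval (3 / 4 + 2 * (i : ℚ)) = (Nat.choose i j : ℚ) := by
  rw [SInt_eval]
  have hj : (j.factorial : ℚ) ≠ 0 := by exact_mod_cast j.factorial_ne_zero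
  rw [div_eq_iff hj]
  have h1 : ∏ l ∈ range j, ((i : ℚ) - (l : ℚ)) = (i.descFactorial j : ℚ) := by
    rcases Nat.lt_or_ge i j with h | h
    · rw [Nat.descFactorial_of_lt h]
      rw [Nat.cast_zero]
      exact Finset.prod_eq_zero (mem_range.2 h) (sub_self _)
    · rw [Nat.descFactorial_eq_prod_range]
      push_cast
      refine Finset.prod_congr rfl fun l hl => ?_
      rw [mem_range] at hl
      rw [Nat.cast_sub (by omega)]
  rw [h1, Nat.descFactorial_eq_factorial_mul_choose]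
  push_cast
  ring

private theorem SInt_main {p : ℕ} [Fact p.Prime] (h2 : p ≠ 2) (P : ℚ[X])
    (hP : ∀ i : ℕ, PInt p (P.eval (3 / 4 + 2 * (i : ℚ)))) : PInt p (S P) := by
  obtain ⟨γ, hγ⟩ := SInt_basis P.natDegree P le_rfl
  set k := P.natDegree
  have hg : ∀ j, j < k + 1 → PInt p (γ j) := by
    intro j
    induction j using Nat.strong_induction_on with
    | _ j ih =>
      intro hj
      have h1 := hP j
      rw [hγ, eval_finsetSum] at h1
      have h3 : ∑ i ∈ range (k + 1), (C (γ i) * SInt_N i).eval (3 / 4 + 2 * (j : ℚ)) =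
          γ j + ∑ i ∈ range j, γ i * (Nat.choose j i : ℚ) := by
        have h4 : ∀ i ∈ range (k + 1), (C (γ i) * SInt_N i).eval (3 / 4 + 2 * (j : ℚ)) =
            γ i * (Nat.choose j i : ℚ) := by
          intro i _
          rw [eval_mul, eval_C, SInt_evalN]
        rw [Finset.sum_congr rfl h4]
        have h5 : range (j + 1) ⊆ range (k + 1) := by
          intro i hi
          rw [mem_range] at *
          omega
        rw [← Finset.sum_subset h5]
        · rw [sum_range_succ, Nat.choose_self, Nat.cast_one, mul_one, add_comm]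
        · intro i _ hi
          rw [mem_range] at hi
          rw [Nat.choose_eq_zero_of_lt (by omega), Nat.cast_zero, mul_zero]
      rw [h3] at h1
      have h6 : PInt p (∑ i ∈ range j, γ i * (Nat.choose j i : ℚ)) := by
        refine pint_sum _ _ fun i hi => ?_
        rw [mem_range] at hi
        exact (ih i hi (by omega)).mul (pint_nat _)
      have h7 := h1.sub h6
      rwa [add_sub_cancel_right] at h7
  have h14 : PInt p (-1 / 4 : ℚ) := by
    have h4 : ¬ (p : ℤ) ∣ 4 := by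
      intro h
      have h' : p ∣ 4 := by exact_mod_cast h
      have : p ∣ 2 ^ 2 := by norm_num; exact h'
      have := (Nat.prime_dvd_prime_iff_eq (Fact.out : p.Prime) Nat.prime_two).1
        ((Fact.out : p.Prime).dvd_of_dvd_pow this)
      exact h2 this
    have h5 := (pint_inv (p := p) h4).neg
    have : (-1 / 4 : ℚ) = -(1 / ((4 : ℤ) : ℚ)) := by norm_num
    rw [this]
    exact h5
  rw [hγ, map_sum]
  refine pint_sum _ _ fun j hj => ?_
  rw [mem_range] at hj
  rw [← smul_eq_C_mul, map_smul, smul_eq_mul, SInt_S]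
  exact (hg j hj).mul (choose_pint h14 (j + 1))

theorem S_chp_int {p : ℕ} [Fact p.Prime] (h2 : p ≠ 2) (c : ℤ) (k : ℕ) : PInt p (S (chp c k)) := by
  refine SInt_main h2 _ fun i => ?_
  have h34 : PInt p (3 / 4 + 2 * (i : ℚ) + (c : ℚ)) := by
    have h4 : ¬ (p : ℤ) ∣ 4 := by
      intro h
      have h' : p ∣ 4 := by exact_mod_cast h
      have : p ∣ 2 ^ 2 := by norm_num; exact h'
      have := (Nat.prime_dvd_prime_iff_eq (Fact.out : p.Prime) Nat.prime_two).1
        ((Fact.out : p.Prime).dvd_of_dvd_pow this)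
      exact h2 this
    have h5 := (pint_int (p := p) 3).mul (pint_inv (p := p) h4)
    have h6 : (3 / 4 + 2 * (i : ℚ) + (c : ℚ)) =
        ((3 : ℤ) : ℚ) * (1 / ((4 : ℤ) : ℚ)) + (((2 * (i : ℤ) + c : ℤ)) : ℚ) := by
      push_cast
      ring
    rw [h6]
    exact h5.add (pint_int _)
  have h7 := choose_pint h34 k
  have h8 : (chp c k).eval (3 / 4 + 2 * (i : ℚ)) =
      (∏ l ∈ range k, (3 / 4 + 2 * (i : ℚ) + (c : ℚ) - (l : ℚ))) / (k.factorial : ℚ) := by
    unfold chp
    rw [eval_mul, eval_C, eval_prod, mul_comm, mul_one_div]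
    congr 1
    refine Finset.prod_congr rfl fun l _ => ?_
    simp
    ring
  rw [h8]
  exact h7

end PWief
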