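import Pool.Agent.Lib.PWief.SShift

/-!
# SQq: `|S (qq k)| ≤ (k+2) mm k`

PROOF. `qq (2a) = ∏_{-a ≤ j < a} (X - j)`, `qq (2a+1) = (X - a) qq (2a)`, `qq (2a+2) = (X - a)(X + 1 + a) qq (2a)`
(`nu (2a) = a`, `nu (2a+1) = -1-a`, `prod_range_succ`). Write `Q_a = qq (2a)`, `s` the variable.
Shifts (by induction on `a` from the recursion; `T`: comp with `X + 1`): `Q_a(s+1) (s+1-a) = Q_a(s) (s+1+a)`,
equivalently `Q_(a+1)(s+1) = (s+a+2)(s+a+1) Q_a(s)` and `Q_(a+1)(s-1) = (s-a)(s-a-1) Q_a(s)` (induction on `a`).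
(1) `C_a := Q_a/(2a)!`, `g_a := (2s+1) Q_a/(2a+1)!`. For `a ≥ 1`:
`g_a(s+1) - g_a(s-1) = 4 C_a + C_(a-1)`, since with `a = b+1` both sides are `Q_b(s)/(2a+1)!` times
`(2s+3)(s+a+1)(s+a) - (2s-1)(s-a+1)(s-a) = 4(2a+1)(s+a)(s-a+1) + (2a+1)(2a)(2a-1)` (`ring`); `a = 0`: `4`.
Shift rule for `P(s) = g_a(s-1)` (`P(s+2) = g_a(s+1)`): `4 c_a + c_(a-1) = g_a(-3/4) - g_a(-1/4)`, `c_a = S C_a`,
`c_(-1) = 0`. Symmetry `Q_a(-1-s) = Q_a(s)` (each factor pair `(s-j)(s+1+j)`): `Q_a(-3/4) = Q_a(-1/4)`, so the right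
side is `-Q_a(-1/4)/(2a+1)!`, and `|Q_a(-1/4)| = ∏_{k<a} (k+1/4)(k+3/4) ≤ ∏_{k<a} (k+1/2)(k+1) = (2a)!/4^a`.
So `|c_a| ≤ (|c_(a-1)| + 4^(-a))/4` and by induction `|c_a| ≤ (a+1)/4^(a+1)`.
`|S Q_a| ≤ (a+1) (2a)!/4^(a+1) ≤ (a+1) (a!)^2` (`C(2a,a) ≤ 4^a`, `Nat.centralBinom`).
(2) `Q_(a+1)(s+1) - Q_(a+1)(s-1) = ((s+a+2)(s+a+1) - (s-a)(s-a-1)) Q_a = 2(a+1)(2s+1) Q_a`, shift rule for
`P(s) = Q_(a+1)(s-1)` and the symmetry: `S((2s+1) Q_a) = 0`, so `S (qq (2a+1)) = -(a+1/2) S Q_a`.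
(3) `mm (2a) = (a!)^2`, `mm (2a+1) = a! (a+1)!` (induction).
-/

set_option autoImplicit false

open Finset Polynomial

namespace PWief

/-- the values of `qq (2a)` -/
private def sqq_q : ℕ → ℚ → ℚ
  | 0, _ => 1
  | a + 1, s => sqq_q a s * ((s - a) * (s + a + 1))

private theorem sqq_q_up (a : ℕ) (s : ℚ) :
    sqq_q (a + 1) (s + 1) = (s + a + 2) * (s + a + 1) * sqq_q a s := by
  induction a with
  | zero => simp [sqq_q]; ring
  | succ a ih =>
    rw [sqq_q, ih]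
    conv_rhs => rw [sqq_q]
    push_cast
    ring

private theorem sqq_q_down (a : ℕ) (s : ℚ) :
    sqq_q (a + 1) (s - 1) = (s - a) * (s - a - 1) * sqq_q a s := by
  induction a with
  | zero => simp [sqq_q]; ring
  | succ a ih =>
    rw [sqq_q, ih]
    conv_rhs => rw [sqq_q]
    push_cast
    ring

private theorem sqq_q_symm (a : ℕ) (s : ℚ) : sqq_q a (-1 - s) = sqq_q a s := by
  induction a with
  | zero => simp [sqq_q]
  | succ a ih =>
    rw [sqq_q, ih]
    conv_rhs => rw [sqq_q]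
    ring

private theorem sqq_q_quarter (a : ℕ) :
    |sqq_q a (-1 / 4)| ≤ ((2 * a).factorial : ℚ) / 4 ^ a := by
  induction a with
  | zero => simp [sqq_q]
  | succ a ih =>
    rw [sqq_q, abs_mul]
    have h1 : |((-1 / 4 : ℚ) - a) * (-1 / 4 + a + 1)| ≤ (2 * a + 1) * (2 * a + 2) / 4 := by
      have e : ((-1 / 4 : ℚ) - a) * (-1 / 4 + a + 1) = -((a + 1 / 4) * (a + 3 / 4)) := by ring
      rw [e, abs_neg, abs_of_nonneg (by positivity)]
      nlinarith [Nat.cast_nonneg (α := ℚ) a]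
    have h2 : ((2 * (a + 1)).factorial : ℚ) = (2 * a + 2) * ((2 * a + 1) * ((2 * a).factorial : ℚ)) := by
      have : 2 * (a + 1) = 2 * a + 1 + 1 := by ring
      rw [this, Nat.factorial_succ, Nat.factorial_succ]
      push_cast
      ring
    calc |sqq_q a (-1 / 4)| * |((-1 / 4 : ℚ) - a) * (-1 / 4 + a + 1)|
        ≤ (((2 * a).factorial : ℚ) / 4 ^ a) * ((2 * a + 1) * (2 * a + 2) / 4) := by
          gcongr
      _ = ((2 * (a + 1)).factorial : ℚ) / 4 ^ (a + 1) := by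
          rw [h2, pow_succ]; field_simp

private theorem sqq_nu_even (a : ℕ) : nu (2 * a) = (a : ℤ) := by
  unfold nu
  rw [if_pos (by omega)]
  congr 1
  omega

private theorem sqq_nu_odd (a : ℕ) : nu (2 * a + 1) = -1 - (a : ℤ) := by
  unfold nu
  rw [if_neg (by omega)]
  congr 2
  omega

private theorem sqq_qq_even_eval (a : ℕ) (s : ℚ) : (qq (2 * a)).eval s = sqq_q a s := by
  induction a with
  | zero => simp [qq, sqq_q]
  | succ a ih =>
    have e : 2 * (a + 1) = 2 * a + 1 + 1 := by ring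
    rw [qq] at ih
    rw [e, qq, prod_range_succ, prod_range_succ, eval_mul, eval_mul, ih, sqq_nu_even, sqq_nu_odd,
      sqq_q]
    simp
    ring

private theorem sqq_qq_odd (a : ℕ) : qq (2 * a + 1) = qq (2 * a) * (X - C (a : ℚ)) := by
  rw [qq, prod_range_succ, ← qq, sqq_nu_even]
  simp

private theorem sqq_mm_even (a : ℕ) : mm (2 * a) = a.factorial ^ 2 := by
  induction a with
  | zero => simp [mm]
  | succ a ih =>
    have e : 2 * (a + 1) = 2 * a + 1 + 1 := by ring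
    rw [mm] at ih
    rw [e, mm, prod_range_succ, prod_range_succ, ih, Nat.factorial_succ]
    have e1 : 2 * a / 2 = a := by omega
    have e2 : (2 * a + 1) / 2 = a := by omega
    rw [e1, e2]
    ring

private theorem sqq_mm_odd (a : ℕ) : mm (2 * a + 1) = a.factorial ^ 2 * (a + 1) := by
  have h := sqq_mm_even a
  rw [mm] at h
  rw [mm, prod_range_succ, h]
  have e1 : 2 * a / 2 = a := by omega
  rw [e1]

/-- the shift rule for `R(s-1)` -/
private theorem sqq_shift (R T : ℚ[X]) (h : ∀ s, T.eval s = R.eval (s + 1) - R.eval (s - 1)) :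
    S T = R.eval (-3 / 4) - R.eval (-1 / 4) := by
  have h1 := S_shift (R.comp (X - C 1))
  have h2 : (R.comp (X - C 1)).comp (X + C 2) - R.comp (X - C 1) = T := by
    apply Polynomial.funext
    intro s
    rw [h]
    simp only [eval_sub, eval_comp, eval_add, eval_X, eval_C]
    congr 2
    ring
  rw [h2] at h1
  rw [h1]
  simp only [eval_comp, eval_sub, eval_X, eval_C]
  norm_num

private theorem sqq_sym_quarter (a : ℕ) : sqq_q a (-3 / 4) = sqq_q a (-1 / 4) := by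
  have := sqq_q_symm a (-1 / 4)
  rw [← this]
  congr 1
  norm_num

/-- the recursion -/
private theorem sqq_rec (b : ℕ) :
    4 * (S (qq (2 * (b + 1))) / ((2 * (b + 1)).factorial : ℚ)) + S (qq (2 * b)) / ((2 * b).factorial : ℚ)
      = - (sqq_q (b + 1) (-1 / 4) / ((2 * b + 3).factorial : ℚ)) := by
  have f1 : ((2 * b + 3).factorial : ℚ) = (2 * b + 3) * ((2 * b + 2) * ((2 * b + 1) * ((2 * b).factorial : ℚ))) := by
    rw [show 2 * b + 3 = 2 * b + 1 + 1 + 1 by ring, Nat.factorial_succ, Nat.factorial_succ,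
      Nat.factorial_succ]
    push_cast
    ring
  have f2 : ((2 * (b + 1)).factorial : ℚ) = (2 * b + 2) * ((2 * b + 1) * ((2 * b).factorial : ℚ)) := by
    rw [show 2 * (b + 1) = 2 * b + 1 + 1 by ring, Nat.factorial_succ, Nat.factorial_succ]
    push_cast
    ring
  have f0 : ((2 * b).factorial : ℚ) ≠ 0 := by positivity
  have hS := sqq_shift (C (1 / ((2 * b + 3).factorial : ℚ)) * (C 2 * X + C 1) * qq (2 * (b + 1)))
    (C (4 / ((2 * (b + 1)).factorial : ℚ)) * qq (2 * (b + 1)) + C (1 / ((2 * b).factorial : ℚ)) * qq (2 * b))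
    (by
      intro s
      simp only [eval_add, eval_mul, eval_C, eval_X, sqq_qq_even_eval]
      rw [sqq_q_up, sqq_q_down, sqq_q, f1, f2]
      field_simp
      ring)
  have hl : S (C (4 / ((2 * (b + 1)).factorial : ℚ)) * qq (2 * (b + 1)) +
      C (1 / ((2 * b).factorial : ℚ)) * qq (2 * b))
      = 4 / ((2 * (b + 1)).factorial : ℚ) * S (qq (2 * (b + 1))) +
        1 / ((2 * b).factorial : ℚ) * S (qq (2 * b)) := by
    rw [map_add, ← smul_eq_C_mul, ← smul_eq_C_mul, map_smul, map_smul, smul_eq_mul, smul_eq_mul]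
  rw [hl] at hS
  simp only [eval_add, eval_mul, eval_C, eval_X, sqq_qq_even_eval] at hS
  rw [sqq_sym_quarter] at hS
  calc 4 * (S (qq (2 * (b + 1))) / ((2 * (b + 1)).factorial : ℚ)) + S (qq (2 * b)) / ((2 * b).factorial : ℚ)
      = 4 / ((2 * (b + 1)).factorial : ℚ) * S (qq (2 * (b + 1))) +
        1 / ((2 * b).factorial : ℚ) * S (qq (2 * b)) := by ring
    _ = - (sqq_q (b + 1) (-1 / 4) / ((2 * b + 3).factorial : ℚ)) := by
        rw [hS]; ring

private theorem sqq_zero : S (qq (2 * 0)) / ((2 * 0).factorial : ℚ) = -1 / 4 := by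
  have hS := sqq_shift (C 2 * X + C 1) (C 4 * qq (2 * 0)) (by
    intro s
    simp only [eval_add, eval_mul, eval_C, eval_X, sqq_qq_even_eval, sqq_q]
    ring)
  rw [← smul_eq_C_mul, map_smul, smul_eq_mul] at hS
  simp only [eval_add, eval_mul, eval_C, eval_X] at hS
  norm_num at hS ⊢
  linarith

private theorem sqq_c_le (a : ℕ) :
    |S (qq (2 * a)) / ((2 * a).factorial : ℚ)| ≤ ((a : ℚ) + 1) / 4 ^ (a + 1) := by
  induction a with
  | zero => rw [sqq_zero]; norm_num [abs_le]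
  | succ b ih =>
    have h := sqq_rec b
    have f1 : ((2 * b + 3).factorial : ℚ) = (2 * b + 3) * ((2 * (b + 1)).factorial : ℚ) := by
      rw [show 2 * b + 3 = 2 * (b + 1) + 1 by ring, Nat.factorial_succ]
      push_cast
      ring
    have f0 : (0 : ℚ) < ((2 * (b + 1)).factorial : ℚ) := by positivity
    have hq : |sqq_q (b + 1) (-1 / 4) / ((2 * b + 3).factorial : ℚ)| ≤ 1 / 4 ^ (b + 1) := by
      rw [abs_div, f1, abs_of_pos (show (0 : ℚ) < (2 * b + 3) * ((2 * (b + 1)).factorial : ℚ) by positivity)]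
      rw [div_le_div_iff₀ (by positivity) (by positivity)]
      have h3 := sqq_q_quarter (b + 1)
      rw [le_div_iff₀ (by positivity)] at h3
      have h4 : (1 : ℚ) ≤ 2 * b + 3 := by
        have : (0 : ℚ) ≤ b := Nat.cast_nonneg b
        linarith
      nlinarith
    have h5 : S (qq (2 * (b + 1))) / ((2 * (b + 1)).factorial : ℚ)
        = (- (sqq_q (b + 1) (-1 / 4) / ((2 * b + 3).factorial : ℚ)) -
            S (qq (2 * b)) / ((2 * b).factorial : ℚ)) / 4 := by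
      linarith
    rw [h5, abs_div, abs_of_pos (show (0 : ℚ) < 4 by norm_num), div_le_iff₀ (by norm_num)]
    calc |-(sqq_q (b + 1) (-1 / 4) / ((2 * b + 3).factorial : ℚ)) -
            S (qq (2 * b)) / ((2 * b).factorial : ℚ)|
        ≤ |-(sqq_q (b + 1) (-1 / 4) / ((2 * b + 3).factorial : ℚ))| +
            |S (qq (2 * b)) / ((2 * b).factorial : ℚ)| := abs_sub _ _
      _ ≤ 1 / 4 ^ (b + 1) + ((b : ℚ) + 1) / 4 ^ (b + 1) := by
          rw [abs_neg]; exact add_le_add hq ih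
      _ = (((b + 1 : ℕ) : ℚ) + 1) / 4 ^ (b + 1 + 1) * 4 := by
          push_cast
          rw [pow_succ (4 : ℚ) (b + 1)]
          field_simp
          ring

private theorem sqq_even (a : ℕ) : |S (qq (2 * a))| ≤ ((a : ℚ) + 1) * ((a.factorial : ℚ) ^ 2) / 4 := by
  have h := sqq_c_le a
  have f0 : (0 : ℚ) < ((2 * a).factorial : ℚ) := by positivity
  rw [abs_div, abs_of_pos f0, div_le_iff₀ f0] at h
  refine h.trans ?_
  have hc : ((2 * a).factorial : ℚ) ≤ 4 ^ a * (a.factorial : ℚ) ^ 2 := by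
    have h1 : (2 * a).choose a * a.factorial * (2 * a - a).factorial = (2 * a).factorial :=
      Nat.choose_mul_factorial_mul_factorial (by omega)
    have h2 : (2 * a).choose a ≤ 4 ^ a := by
      have h3 := Nat.choose_le_two_pow (2 * a) a
      calc (2 * a).choose a ≤ 2 ^ (2 * a) := h3
        _ = 4 ^ a := by rw [pow_mul]; norm_num
    have h4 : (2 * a).factorial ≤ 4 ^ a * a.factorial ^ 2 := by
      rw [← h1, show 2 * a - a = a by omega]
      calc (2 * a).choose a * a.factorial * a.factorial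
          ≤ 4 ^ a * a.factorial * a.factorial := by gcongr
        _ = 4 ^ a * a.factorial ^ 2 := by ring
    exact_mod_cast h4
  calc ((a : ℚ) + 1) / 4 ^ (a + 1) * ((2 * a).factorial : ℚ)
      ≤ ((a : ℚ) + 1) / 4 ^ (a + 1) * (4 ^ a * (a.factorial : ℚ) ^ 2) := by gcongr
    _ = ((a : ℚ) + 1) * ((a.factorial : ℚ) ^ 2) / 4 := by
        rw [pow_succ]; field_simp

private theorem sqq_odd (a : ℕ) : S (qq (2 * a + 1)) = -((a : ℚ) + 1 / 2) * S (qq (2 * a)) := by
  have h0 : S ((C 2 * X + C 1) * qq (2 * a)) = 0 := by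
    have hS := sqq_shift (qq (2 * (a + 1))) (C (2 * ((a : ℚ) + 1)) * ((C 2 * X + C 1) * qq (2 * a))) (by
      intro s
      simp only [eval_add, eval_mul, eval_C, eval_X, sqq_qq_even_eval]
      rw [sqq_q_up, sqq_q_down]
      ring)
    rw [← smul_eq_C_mul, map_smul, smul_eq_mul, sqq_qq_even_eval, sqq_qq_even_eval,
      sqq_sym_quarter, sub_self] at hS
    have h2 : (2 * ((a : ℚ) + 1)) ≠ 0 := by positivity
    exact (mul_eq_zero.1 hS).resolve_left h2
  have e : qq (2 * a + 1) = C (1 / 2 : ℚ) * ((C 2 * X + C 1) * qq (2 * a)) -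
      C ((a : ℚ) + 1 / 2) * qq (2 * a) := by
    rw [sqq_qq_odd]
    apply Polynomial.funext
    intro s
    simp only [eval_sub, eval_add, eval_mul, eval_C, eval_X]
    ring
  rw [e, map_sub, ← smul_eq_C_mul (1 / 2 : ℚ), ← smul_eq_C_mul ((a : ℚ) + 1 / 2), map_smul, map_smul,
    h0]
  simp only [smul_eq_mul]
  ring

theorem S_qq_le (k : ℕ) : |S (qq k)| ≤ ((k : ℚ) + 2) * (mm k : ℚ) := by
  rcases Nat.even_or_odd' k with ⟨a, rfl | rfl⟩
  · refine (sqq_even a).trans ?_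
    rw [sqq_mm_even]
    push_cast
    have h1 : (0 : ℚ) ≤ (a.factorial : ℚ) ^ 2 := by positivity
    have h2 : (0 : ℚ) ≤ a := Nat.cast_nonneg a
    nlinarith [mul_nonneg h2 h1]
  · rw [sqq_odd, abs_mul, sqq_mm_odd]
    have h := sqq_even a
    have h2 : (0 : ℚ) ≤ a := Nat.cast_nonneg a
    have h1 : (0 : ℚ) ≤ (a.factorial : ℚ) ^ 2 := by positivity
    rw [abs_neg, abs_of_nonneg (show (0 : ℚ) ≤ (a : ℚ) + 1 / 2 by positivity)]
    push_cast
    calc ((a : ℚ) + 1 / 2) * |S (qq (2 * a))|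
        ≤ ((a : ℚ) + 1 / 2) * (((a : ℚ) + 1) * ((a.factorial : ℚ) ^ 2) / 4) := by gcongr
      _ ≤ (2 * (a : ℚ) + 1 + 2) * ((a.factorial : ℚ) ^ 2 * (a + 1)) := by
          have h3 : (0 : ℚ) ≤ ((a : ℚ) + 1) * (a.factorial : ℚ) ^ 2 := by positivity
          have h4 : ((a : ℚ) + 1 / 2) / 4 ≤ 2 * (a : ℚ) + 1 + 2 := by linarith
          calc ((a : ℚ) + 1 / 2) * (((a : ℚ) + 1) * ((a.factorial : ℚ) ^ 2) / 4)
              = (((a : ℚ) + 1 / 2) / 4) * (((a : ℚ) + 1) * (a.factorial : ℚ) ^ 2) := by ring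
            _ ≤ (2 * (a : ℚ) + 1 + 2) * (((a : ℚ) + 1) * (a.factorial : ℚ) ^ 2) := by gcongr
            _ = (2 * (a : ℚ) + 1 + 2) * ((a.factorial : ℚ) ^ 2 * (a + 1)) := by ring

end PWief
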