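import Pool.Agent.Lib.PWief.TChn
import Pool.Agent.Lib.PWief.PApi

/-!
# TMix: an even and an odd chain

PROOF. Induction on `k + l`. If `k = 0` or `l = 0`: `two_chn`. Otherwise let `x = a + 2(k-1)` (even) and
`y = b + 2(l-1)` (odd) be the last elements: `LL_res`: `(x - y) LL (A ∪ B) 1 = LL ((A ∪ B).erase y) 1 -
LL ((A ∪ B).erase x) 1`, `(A ∪ B).erase y = chn a k ∪ chn b (l-1)` and `(A ∪ B).erase x = chn a (k-1) ∪ chn b l`
(the chains have different parity; `chn a (k+1) = insert (a+2k) (chn a k)`), both 2-integral by induction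
(`k + l - 1 ≥ 1`), and `x - y` is odd, so `padicNorm 2 (x - y) = 1`.
-/

set_option autoImplicit false

open Finset Polynomial

namespace PWief

private theorem tmix_succ (a : ℤ) (k : ℕ) : chn a (k + 1) = insert (a + 2 * (k : ℤ)) (chn a k) := by
  unfold chn
  rw [Finset.range_add_one, Finset.image_insert]

private theorem tmix_mem {a : ℤ} {k : ℕ} {x : ℤ} :
    x ∈ chn a k ↔ ∃ i : ℕ, i < k ∧ a + 2 * (i : ℤ) = x := by
  unfold chn
  simp [Finset.mem_image, Finset.mem_range]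

private theorem tmix_zero (a : ℤ) : chn a 0 = ∅ := by
  unfold chn
  simp

theorem two_mix {a b : ℤ} (ha : a % 2 = 0) (hb : b % 2 = 1) {k l : ℕ} (h : 1 ≤ k + l) :
    PInt 2 (LL (chn a k ∪ chn b l) 1) := by
  induction hN : k + l generalizing k l with
  | zero => omega
  | succ N ih =>
    rcases Nat.eq_zero_or_pos k with hk | hk
    · subst hk
      rw [tmix_zero, Finset.empty_union]
      exact two_chn b (by omega)
    rcases Nat.eq_zero_or_pos l with hl | hl
    · subst hl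
      rw [tmix_zero, Finset.union_empty]
      exact two_chn a (by omega)
    obtain ⟨k', rfl⟩ : ∃ k', k = k' + 1 := ⟨k - 1, by omega⟩
    obtain ⟨l', rfl⟩ : ∃ l', l = l' + 1 := ⟨l - 1, by omega⟩
    have hx : a + 2 * (k' : ℤ) ∈ chn a (k' + 1) := tmix_mem.2 ⟨k', by omega, rfl⟩
    have hy : b + 2 * (l' : ℤ) ∈ chn b (l' + 1) := tmix_mem.2 ⟨l', by omega, rfl⟩
    have hne : a + 2 * (k' : ℤ) ≠ b + 2 * (l' : ℤ) := by omega
    have e1 : (chn a (k' + 1) ∪ chn b (l' + 1)).erase (b + 2 * (l' : ℤ)) =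
        chn a (k' + 1) ∪ chn b l' := by
      ext z
      simp only [Finset.mem_erase, Finset.mem_union, tmix_mem]
      constructor
      · rintro ⟨h1, h2 | ⟨i, hi, rfl⟩⟩
        · exact Or.inl h2
        · refine Or.inr ⟨i, ?_, rfl⟩
          rcases Nat.lt_succ_iff_lt_or_eq.1 hi with h3 | h3
          · exact h3
          · exact absurd (by rw [h3]) h1
      · rintro (⟨i, hi, rfl⟩ | ⟨i, hi, rfl⟩)
        · exact ⟨by omega, Or.inl ⟨i, hi, rfl⟩⟩
        · exact ⟨by omega, Or.inr ⟨i, by omega, rfl⟩⟩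
    have e2 : (chn a (k' + 1) ∪ chn b (l' + 1)).erase (a + 2 * (k' : ℤ)) =
        chn a k' ∪ chn b (l' + 1) := by
      ext z
      simp only [Finset.mem_erase, Finset.mem_union, tmix_mem]
      constructor
      · rintro ⟨h1, ⟨i, hi, rfl⟩ | h2⟩
        · refine Or.inl ⟨i, ?_, rfl⟩
          rcases Nat.lt_succ_iff_lt_or_eq.1 hi with h3 | h3
          · exact h3
          · exact absurd (by rw [h3]) h1
        · exact Or.inr h2
      · rintro (⟨i, hi, rfl⟩ | ⟨i, hi, rfl⟩)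
        · exact ⟨by omega, Or.inl ⟨i, by omega, rfl⟩⟩
        · exact ⟨by omega, Or.inr ⟨i, hi, rfl⟩⟩
    have hr := LL_res (Finset.mem_union_left (chn b (l' + 1)) hx)
      (Finset.mem_union_right (chn a (k' + 1)) hy) hne (1 : ℚ[X])
    rw [e1, e2] at hr
    have p1 : PInt 2 (LL (chn a (k' + 1) ∪ chn b l') 1) := ih (by omega) (by omega)
    have p2 : PInt 2 (LL (chn a k' ∪ chn b (l' + 1)) 1) := ih (by omega) (by omega)
    have hodd : ¬ ((2 : ℕ) : ℤ) ∣ ((a + 2 * (k' : ℤ)) - (b + 2 * (l' : ℤ))) := by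
      push_cast
      omega
    have hinv : PInt 2 (1 / (((a + 2 * (k' : ℤ)) - (b + 2 * (l' : ℤ)) : ℤ) : ℚ)) := pint_inv hodd
    have hnz : (((a + 2 * (k' : ℤ)) - (b + 2 * (l' : ℤ)) : ℤ) : ℚ) ≠ 0 := by
      have : ((a + 2 * (k' : ℤ)) - (b + 2 * (l' : ℤ))) ≠ 0 := sub_ne_zero.2 hne
      exact_mod_cast this
    have heq : LL (chn a (k' + 1) ∪ chn b (l' + 1)) 1 =
        1 / (((a + 2 * (k' : ℤ)) - (b + 2 * (l' : ℤ)) : ℤ) : ℚ) *
          (LL (chn a (k' + 1) ∪ chn b l') 1 - LL (chn a k' ∪ chn b (l' + 1)) 1) := by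
      rw [← hr]
      rw [Int.cast_sub] at hnz ⊢
      field_simp
    rw [heq]
    exact hinv.mul (p1.sub p2)

end PWief
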