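import Pool.Agent.Lib.PWief.SShift

/-!
# TS: the moments of `4X - 3` at the prime 2

PROOF. `L_i = S ((4X-3)^i)`. Shift rule for `(4X-3)^(i+1)` (`comp`: `(4X+5)^(i+1) = ((4X-3) + 8)^(i+1)`):
`∑_{j ≤ i} C(i+1,j) 8^(i+1-j) L_j = (4·1/4-3)^(i+1) - (4·3/4-3)^(i+1) = (-2)^(i+1)`. Divide by `8 (i+1)`:
`L_i = (-2)^(i+1)/(8(i+1)) - ∑_{j<i} (C(i,j)/(i+1-j)) 8^(i-j) L_j`
(`C(i+1,j)/(i+1) = C(i,j)/(i+1-j)`: `Nat.succ_mul_choose_eq` type identity). Multiply by `4`:
`4 (-2)^(i+1)/(8 (i+1)) = ± 2^i/(i+1)` is 2-integral (`2^(v) ≤ i+1 ≤ 2^i`, so `v_2(i+1) ≤ i`), and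
`8^(i-j)/(i+1-j)` is 2-integral (`v_2(k+1) ≤ k`). Strong induction; `PInt 2` is closed under sums, products,
contains the integers: `padicNorm.nonarchimedean`, `padicNorm.mul`, `padicNorm.of_int`.
-/

set_option autoImplicit false

open Finset Polynomial

namespace PWief

private theorem TS_fact : Fact (Nat.Prime 2) := ⟨Nat.prime_two⟩

attribute [local instance] TS_fact

private theorem TS_int (m : ℤ) : PInt 2 (m : ℚ) := padicNorm.of_int m

private theorem TS_nat (m : ℕ) : PInt 2 (m : ℚ) := padicNorm.of_nat m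

private theorem TS_mul {x y : ℚ} (hx : PInt 2 x) (hy : PInt 2 y) : PInt 2 (x * y) := by
  unfold PInt at *
  rw [padicNorm.mul]
  exact mul_le_one₀ hx (padicNorm.nonneg _) hy

private theorem TS_add {x y : ℚ} (hx : PInt 2 x) (hy : PInt 2 y) : PInt 2 (x + y) := by
  unfold PInt at *
  exact (padicNorm.nonarchimedean).trans (max_le hx hy)

private theorem TS_neg {x : ℚ} (hx : PInt 2 x) : PInt 2 (-x) := by
  unfold PInt at *
  rwa [padicNorm.neg]

private theorem TS_sub {x y : ℚ} (hx : PInt 2 x) (hy : PInt 2 y) : PInt 2 (x - y) := by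
  rw [sub_eq_add_neg]
  exact TS_add hx (TS_neg hy)

private theorem TS_sum {ι : Type*} (s : Finset ι) (f : ι → ℚ) (h : ∀ i ∈ s, PInt 2 (f i)) :
    PInt 2 (∑ i ∈ s, f i) := by
  apply Finset.sum_induction f (PInt 2) (fun _ _ => TS_add) _ h
  have := TS_int 0
  simpa using this

/-- `2^k/(k+1)` is `2`-integral -/
private theorem TS_two_pow (k : ℕ) : PInt 2 ((2 : ℚ) ^ k / ((k : ℚ) + 1)) := by
  obtain ⟨v, m, hm, hkm⟩ := Nat.exists_eq_pow_mul_and_not_dvd (Nat.succ_ne_zero k) 2 (by norm_num)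
  have hm0 : m ≠ 0 := by
    rintro rfl
    exact hm (dvd_zero _)
  have hv : v ≤ k := by
    by_contra hlt
    push Not at hlt
    have h1 : 2 ^ (k + 1) ≤ 2 ^ v := Nat.pow_le_pow_right (by norm_num) hlt
    have h2 : 2 ^ v ≤ k + 1 := by
      have : 2 ^ v * 1 ≤ 2 ^ v * m := Nat.mul_le_mul_left _ (Nat.one_le_iff_ne_zero.mpr hm0)
      have h3 : k + 1 = 2 ^ v * m := hkm
      omega
    have h3 : k + 1 < 2 ^ (k + 1) := Nat.lt_two_pow_self
    omega
  have hk : ((k : ℚ) + 1) = 2 ^ v * (m : ℚ) := by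
    have : ((k + 1 : ℕ) : ℚ) = ((2 ^ v * m : ℕ) : ℚ) := congrArg _ hkm
    push_cast at this
    exact this
  have hmQ : (m : ℚ) ≠ 0 := by exact_mod_cast hm0
  have heq : (2 : ℚ) ^ k / ((k : ℚ) + 1) = ((2 ^ (k - v) : ℕ) : ℚ) * (1 / (m : ℚ)) := by
    rw [hk]
    push_cast
    have h2 : (2 : ℚ) ^ k = 2 ^ (k - v) * 2 ^ v := by
      rw [← pow_add, Nat.sub_add_cancel hv]
    rw [h2]
    have h2v : (2 : ℚ) ^ v ≠ 0 := pow_ne_zero _ (by norm_num)
    field_simp
  rw [heq]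
  refine TS_mul (TS_nat _) ?_
  unfold PInt
  rw [padicNorm.div, padicNorm.one, (padicNorm.nat_eq_one_iff m).2 hm]
  norm_num

private theorem TS_eight_pow (k : ℕ) : PInt 2 ((8 : ℚ) ^ k / ((k : ℚ) + 1)) := by
  have h : (8 : ℚ) ^ k / ((k : ℚ) + 1) = ((4 ^ k : ℕ) : ℚ) * ((2 : ℚ) ^ k / ((k : ℚ) + 1)) := by
    have : (8 : ℚ) ^ k = 4 ^ k * 2 ^ k := by
      rw [← mul_pow]
      norm_num
    rw [this]
    push_cast
    ring
  rw [h]
  exact TS_mul (TS_nat _) (TS_two_pow k)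

private theorem TS_rec (i : ℕ) :
    ∑ j ∈ range (i + 1), ((i + 1).choose j : ℚ) * 8 ^ (i + 1 - j) * S ((C 4 * X - C 3) ^ j) =
      (-2) ^ (i + 1) := by
  have hs := S_shift ((C 4 * X - C 3) ^ (i + 1))
  have hcomp : ((C 4 * X - C 3 : ℚ[X]) ^ (i + 1)).comp (X + C 2) =
      ((C 4 * X - C 3) + C 8) ^ (i + 1) := by
    rw [pow_comp, sub_comp, mul_comp, C_comp, C_comp, X_comp]
    congr 1
    have h8 : (C 8 : ℚ[X]) = C 4 * C 2 := by
      rw [← C_mul]
      norm_num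
    rw [h8]
    ring
  have hexp : ((C 4 * X - C 3 : ℚ[X]) + C 8) ^ (i + 1) - (C 4 * X - C 3) ^ (i + 1) =
      ∑ j ∈ range (i + 1), (((i + 1).choose j : ℚ) * 8 ^ (i + 1 - j)) • (C 4 * X - C 3 : ℚ[X]) ^ j := by
    rw [add_pow, Finset.sum_range_succ]
    simp only [Nat.sub_self, pow_zero, mul_one, Nat.choose_self, Nat.cast_one]
    rw [add_sub_cancel_right]
    refine Finset.sum_congr rfl fun j _ => ?_
    rw [smul_eq_C_mul, C_mul, C_pow, map_natCast]
    ring
  rw [hcomp, hexp, map_sum] at hs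
  simp only [map_smul, smul_eq_mul] at hs
  rw [hs]
  simp only [eval_pow, eval_sub, eval_mul, eval_C, eval_X]
  norm_num

theorem two_S (i : ℕ) : PInt 2 (4 * S ((C 4 * X - C 3) ^ i)) := by
  induction i using Nat.strong_induction_on with
  | _ i ih =>
    have hrec := TS_rec i
    rw [Finset.sum_range_succ] at hrec
    have hi : ((i : ℚ) + 1) ≠ 0 := by positivity
    have hlast : ((i + 1).choose i : ℚ) * 8 ^ (i + 1 - i) = ((i : ℚ) + 1) * 8 := by
      rw [Nat.choose_succ_self_right, Nat.add_sub_cancel_left]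
      push_cast
      ring
    rw [hlast] at hrec
    have hmain : 4 * S ((C 4 * X - C 3) ^ i) =
        -(((-1) ^ i : ℤ) : ℚ) * ((2 : ℚ) ^ i / ((i : ℚ) + 1)) -
        ∑ j ∈ range i, (i.choose j : ℚ) * ((8 : ℚ) ^ (i - j) / (((i - j : ℕ) : ℚ) + 1)) *
          (4 * S ((C 4 * X - C 3) ^ j)) := by
      have hterm : ∀ j ∈ range i, (i.choose j : ℚ) * ((8 : ℚ) ^ (i - j) / (((i - j : ℕ) : ℚ) + 1)) *
          (4 * S ((C 4 * X - C 3) ^ j)) = (1 / (2 * ((i : ℚ) + 1))) *
          (((i + 1).choose j : ℚ) * 8 ^ (i + 1 - j) * S ((C 4 * X - C 3) ^ j)) := by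
        intro j hj
        rw [Finset.mem_range] at hj
        have hc : (i.choose j : ℚ) * ((i : ℚ) + 1) = ((i + 1).choose j : ℚ) * (((i - j : ℕ) : ℚ) + 1) := by
          have h := Nat.choose_mul_succ_eq i j
          have h' : i + 1 - j = (i - j) + 1 := by omega
          rw [h'] at h
          exact_mod_cast h
        have h8 : (8 : ℚ) ^ (i + 1 - j) = 8 * 8 ^ (i - j) := by
          have h' : i + 1 - j = (i - j) + 1 := by omega
          rw [h', pow_succ]
          ring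
        have hij : (((i - j : ℕ) : ℚ) + 1) ≠ 0 := by positivity
        have hc' : (i.choose j : ℚ) / (((i - j : ℕ) : ℚ) + 1) = ((i + 1).choose j : ℚ) / ((i : ℚ) + 1) := by
          rw [div_eq_div_iff hij hi]
          exact hc
        rw [h8]
        calc (i.choose j : ℚ) * ((8 : ℚ) ^ (i - j) / (((i - j : ℕ) : ℚ) + 1)) *
              (4 * S ((C 4 * X - C 3) ^ j))
            = ((i.choose j : ℚ) / (((i - j : ℕ) : ℚ) + 1)) * 8 ^ (i - j) *
              (4 * S ((C 4 * X - C 3) ^ j)) := by ring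
          _ = (((i + 1).choose j : ℚ) / ((i : ℚ) + 1)) * 8 ^ (i - j) *
              (4 * S ((C 4 * X - C 3) ^ j)) := by rw [hc']
          _ = _ := by
              field_simp
              ring
      rw [Finset.sum_congr rfl hterm, ← Finset.mul_sum]
      have hsum := eq_sub_of_add_eq hrec
      rw [hsum]
      have hp : (-2 : ℚ) ^ (i + 1) = -2 * ((-1) ^ i * 2 ^ i) := by
        rw [pow_succ, ← mul_pow]
        norm_num
        ring
      rw [hp]
      push_cast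
      field_simp
      ring
    rw [hmain]
    refine TS_sub (TS_mul ?_ (TS_two_pow i)) (TS_sum _ _ fun j hj => ?_)
    · have := TS_int (-((-1) ^ i))
      push_cast at this ⊢
      exact this
    · rw [Finset.mem_range] at hj
      exact TS_mul (TS_mul (TS_nat _) (TS_eight_pow _)) (ih j hj)

end PWief
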