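import Pool.Agent.Lib.PWief.TMix
import Pool.Agent.Lib.PWief.TS

/-!
# TPol: with a power of `4X - 3`

PROOF. Induction on `i` (for all `k, l`). `i = 0`: `two_mix` if `k + l ≥ 1` (times 4), `two_S 0` if `k = l = 0`
(`LL_empty`). Step: if `k = l = 0`: `two_S (i+1)`. If `k ≥ 1`: `x = a + 2(k-1)` the last element of the even chain,
`4X - 3 = 4 (X - x) + (4x - 3)`, so `LL A ((4X-3)^(i+1)) = 4 LL A ((X-x)(4X-3)^i) + (4x-3) LL A ((4X-3)^i)`
and `LL A ((X-x) P) = LL (A.erase x) P` (`LL_insert`), `A.erase x = chn a (k-1) ∪ chn b l`. If `k = 0`, `l ≥ 1`: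
the same with the last element of the odd chain.
-/

set_option autoImplicit false

open Finset Polynomial

namespace PWief

private lemma pint_int_mul (c : ℤ) {x : ℚ} (h : PInt 2 x) : PInt 2 ((c : ℚ) * x) := by
  unfold PInt at h ⊢
  have : Fact (Nat.Prime 2) := ⟨Nat.prime_two⟩
  rw [padicNorm.mul]
  exact mul_le_one₀ (padicNorm.of_int c) (padicNorm.nonneg _) h

private lemma pint_add {x y : ℚ} (hx : PInt 2 x) (hy : PInt 2 y) : PInt 2 (x + y) := by
  unfold PInt at hx hy ⊢
  have : Fact (Nat.Prime 2) := ⟨Nat.prime_two⟩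
  exact padicNorm.nonarchimedean.trans (max_le hx hy)

private lemma chn_succ' (a : ℤ) (k : ℕ) : chn a (k + 1) = insert (a + 2 * (k : ℤ)) (chn a k) := by
  unfold chn
  rw [Finset.range_add_one, Finset.image_insert]

private lemma mem_chn' {a x : ℤ} {k : ℕ} (h : x ∈ chn a k) : ∃ i : ℕ, i < k ∧ x = a + 2 * (i : ℤ) := by
  unfold chn at h
  rw [Finset.mem_image] at h
  obtain ⟨i, hi, rfl⟩ := h
  exact ⟨i, Finset.mem_range.1 hi, rfl⟩

private lemma pol_step {A : Finset ℤ} {x : ℤ} (hx : x ∉ A) (i : ℕ)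
    (h1 : PInt 2 (4 * LL A ((C 4 * X - C 3) ^ i)))
    (h2 : PInt 2 (4 * LL (insert x A) ((C 4 * X - C 3) ^ i))) :
    PInt 2 (4 * LL (insert x A) ((C 4 * X - C 3) ^ (i + 1))) := by
  have hQ : ((C 4 * X - C 3 : ℚ[X]) ^ (i + 1)) =
      C 4 * ((X - C (x : ℚ)) * (C 4 * X - C 3) ^ i) + C (4 * (x : ℚ) - 3) * (C 4 * X - C 3) ^ i := by
    have : (C (4 * (x : ℚ) - 3) : ℚ[X]) = C 4 * C (x : ℚ) - C 3 := by
      rw [C_sub, C_mul]
    rw [this, pow_succ]
    ring
  rw [hQ, LL_add, LL_C_mul, LL_C_mul, LL_insert hx]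
  have e : 4 * (4 * LL A ((C 4 * X - C 3) ^ i) +
      (4 * (x : ℚ) - 3) * LL (insert x A) ((C 4 * X - C 3) ^ i)) =
      ((4 : ℤ) : ℚ) * (4 * LL A ((C 4 * X - C 3) ^ i)) +
      ((4 * x - 3 : ℤ) : ℚ) * (4 * LL (insert x A) ((C 4 * X - C 3) ^ i)) := by
    push_cast
    ring
  rw [e]
  exact pint_add (pint_int_mul _ h1) (pint_int_mul _ h2)

theorem two_pol {a b : ℤ} (ha : a % 2 = 0) (hb : b % 2 = 1) (k l i : ℕ) :
    PInt 2 (4 * LL (chn a k ∪ chn b l) ((C 4 * X - C 3) ^ i)) := by
  induction i generalizing k l with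
  | zero =>
    rcases Nat.eq_zero_or_pos (k + l) with h | h
    · obtain ⟨rfl, rfl⟩ : k = 0 ∧ l = 0 := by omega
      have h0 : chn a 0 ∪ chn b 0 = ∅ := by
        unfold chn
        simp
      rw [h0, LL_empty]
      exact two_S 0
    · rw [pow_zero]
      have := pint_int_mul 4 (two_mix ha hb (k := k) (l := l) h)
      exact_mod_cast this
  | succ i ih =>
    rcases k with _ | k
    · rcases l with _ | l
      · have h0 : chn a 0 ∪ chn b 0 = ∅ := by
          unfold chn
          simp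
        rw [h0, LL_empty]
        exact two_S (i + 1)
      · have e : chn a 0 ∪ chn b (l + 1) = insert (b + 2 * (l : ℤ)) (chn a 0 ∪ chn b l) := by
          rw [chn_succ', Finset.union_insert]
        have i1 := ih 0 l
        have i2 := ih 0 (l + 1)
        rw [e] at i2 ⊢
        refine pol_step ?_ i i1 i2
        rw [Finset.mem_union, not_or]
        constructor
        · intro h
          obtain ⟨j, hj, _⟩ := mem_chn' h
          omega
        · intro h
          obtain ⟨j, hj, h'⟩ := mem_chn' h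
          omega
    · have e : chn a (k + 1) ∪ chn b l = insert (a + 2 * (k : ℤ)) (chn a k ∪ chn b l) := by
        rw [chn_succ', Finset.insert_union]
      have i1 := ih k l
      have i2 := ih (k + 1) l
      rw [e] at i2 ⊢
      refine pol_step ?_ i i1 i2
      rw [Finset.mem_union, not_or]
      constructor
      · intro h
        obtain ⟨j, hj, h'⟩ := mem_chn' h
        omega
      · intro h
        obtain ⟨j, hj, h'⟩ := mem_chn' h
        omega

end PWief
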