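import Pool.Agent.Lib.PWief.EntMod
import Pool.Agent.Lib.PWief.EntInt
import Pool.Agent.Lib.PWief.RankDet

/-!
# ValW: the valuations of the determinant at the odd primes

PROOF. `val_all`: `t = Nat.log p (2n)`: the matrix `p^t M` is `p`-integral (`ent_int`), `det (p^t M) = p^(nt) det M`
(`Matrix.det_smul`), so `padicValRat ≥ -nt`.
`val_world`: `n < 2p`. Scale the rows `i ≥ p` (there are `n - p`) and the bad columns by `p`: `A i j = p^(r_i + c_j)
M i j`, `r_i = 1` iff `p ≤ i`, `c_j = 1` iff `Bad p j`; `det A = p^(∑ r + ∑ c) det M`.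
`A` is `p`-integral: rows `i < p`: `ent_good`, `ent_bad` (`Cg.pint`); rows `i ≥ p`: by `SS_chp`, `bb_eq` the entry is
`C kap e + ∑_{l ≤ i} C (1/l) S(..)`, `l ≤ i < n < 2p`: `p/l` is `p`-integral, `kap e` is `p`-integral in a good column
(`col_good`) and `p kap e` always (`col_bad`) (in bad columns even `p^2` is available).
`R = {i : i < p}` (`card = min p n`). `κ = Fin (mp p) ⊕ {j < n : Bad p j ∧ ap p + 2 mp p ≤ j/2}`. For `i ∈ R`:
good `j`: `A i j ≡ ∑_x bb i (a+2x) · (sg/(a+2x-nu j))`; bad `j` with `j/2 < a + 2m`: `nu j ≡ a + 2x₀` (`col_pt`),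
`A i j ≡ (p kap) bb i (nu j) ≡ bb i (a+2x₀) · (p kap)` (`cg_eval`, `bb_pint`): `G x j = p kap (nu j)` for `x = x₀`,
else 0; the other bad `j`: `F i j' = bb i (nu j')`, `G j' j = δ p kap (nu j)`. `det_rank`.
-/

set_option autoImplicit false

open Finset Polynomial

namespace PWief

private theorem ValW_val_pow {p : ℕ} [Fact p.Prime] (k : ℕ) :
    padicValRat p ((p : ℚ) ^ k) = k := by
  have hp : p.Prime := Fact.out
  rw [padicValRat.pow, padicValRat.self hp.one_lt, mul_one]

private theorem ValW_log {p n : ℕ} [Fact p.Prime] (h2 : p ≠ 2) (hD : (M n).det ≠ 0) :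
    -((n : ℤ) * (Nat.log p (2 * n) : ℤ)) ≤ padicValRat p (M n).det := by
  have hp : p.Prime := Fact.out
  have hp0 : (p : ℚ) ≠ 0 := by exact_mod_cast hp.ne_zero
  have h1 : PInt p (((p : ℚ) ^ (Nat.log p (2 * n))) • (M n)).det := by
    refine det_pint _ fun i j => ?_
    rw [Matrix.smul_apply, smul_eq_mul]
    exact ent_int h2 i.2 j.2
  have h3 : (((p : ℚ) ^ (Nat.log p (2 * n))) • (M n)).det =
      (p : ℚ) ^ (Nat.log p (2 * n) * n) * (M n).det := by
    rw [Matrix.det_smul, Fintype.card_fin, ← pow_mul]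
  rw [h3] at h1
  have hpow : (p : ℚ) ^ (Nat.log p (2 * n) * n) ≠ 0 := pow_ne_zero _ hp0
  have h4 := (pint_iff (mul_ne_zero hpow hD)).1 h1
  rw [padicValRat.mul hpow hD, ValW_val_pow] at h4
  push_cast at h4
  linarith

private theorem ValW_div {p l : ℕ} [Fact p.Prime] (hl : 1 ≤ l) (hl2 : l < 2 * p) :
    PInt p ((p : ℚ) * (1 / (l : ℚ))) := by
  have hp : p.Prime := Fact.out
  have hp0 : (p : ℚ) ≠ 0 := by exact_mod_cast hp.ne_zero
  by_cases h : p ∣ l
  · obtain ⟨c, rfl⟩ := h
    have hc : c = 1 := by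
      have h1 : c < 2 := by
        by_contra h2
        push Not at h2
        have := Nat.mul_le_mul_left p h2
        omega
      have h3 : c ≠ 0 := by
        rintro rfl
        omega
      omega
    subst hc
    have : (p : ℚ) * (1 / ((p * 1 : ℕ) : ℚ)) = ((1 : ℤ) : ℚ) := by
      push_cast
      field_simp
    rw [this]
    exact pint_int 1
  · have h1 := pint_inv (p := p) (m := (l : ℤ)) (by
      intro h'
      exact h (by exact_mod_cast h'))
    rw [Int.cast_natCast] at h1
    exact (pint_nat p).mul h1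

private theorem ValW_sg {p : ℕ} [Fact p.Prime] : PInt p (sg p) := by
  unfold sg
  split_ifs
  · exact_mod_cast pint_int (p := p) 1
  · exact_mod_cast pint_int (p := p) (-1)

private theorem ValW_inv {p j x : ℕ} [Fact p.Prime] (h2 : p ≠ 2) (hj : j < 2 * p) (hb : ¬ Bad p j)
    (hx : x < mp p) : PInt p (1 / (((ap p + 2 * x : ℕ) : ℚ) - (nu j : ℚ))) := by
  have hu := pint_inv (col_unit h2 hj hb hx)
  rw [Int.cast_sub, Int.cast_natCast] at hu
  exact hu

private theorem ValW_kap {p j : ℕ} [Fact p.Prime] (hw : IsPW p) (hj : j < 2 * p) (hb : ¬ Bad p j) :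
    PInt p (kap (nu j)) :=
  (col_good hw hj hb).pint (ValW_sg.mul (pint_sum _ _ fun _ hx =>
    ValW_inv hw.2.1 hj hb (mem_range.1 hx)))

private theorem ValW_sgd {p j x : ℕ} [Fact p.Prime] (h2 : p ≠ 2) (hj : j < 2 * p) (hb : ¬ Bad p j)
    (hx : x < mp p) : PInt p (sg p / (((ap p + 2 * x : ℕ) : ℚ) - (nu j : ℚ))) := by
  have h := (ValW_sg (p := p)).mul (ValW_inv h2 hj hb hx)
  rwa [mul_one_div] at h

private theorem ValW_big {p n j i : ℕ} [Fact p.Prime] (h2 : p ≠ 2) (hn : n < 2 * p) (hi : i < n)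
    {c : ℚ} (hc : PInt p c) (hk : PInt p (c * ((p : ℚ) * kap (nu j)))) :
    PInt p (c * ((p : ℚ) * SS (nu j) (bb i))) := by
  rw [bb_eq, SS_chp, mul_add, mul_add, mul_sum, mul_sum]
  refine PInt.add ?_ (pint_sum _ _ fun l hl => ?_)
  · have h := (pint_int (p := p) (Ring.choose (nu j + ((i / 2 : ℕ) : ℤ)) i)).mul hk
    have e : c * ((p : ℚ) * (((Ring.choose (nu j + ((i / 2 : ℕ) : ℤ)) i : ℤ) : ℚ) * kap (nu j))) =
        ((Ring.choose (nu j + ((i / 2 : ℕ) : ℤ)) i : ℤ) : ℚ) * (c * ((p : ℚ) * kap (nu j))) := by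
      ring
    rw [e]
    exact h
  · have hl' := mem_Icc.mp hl
    have e : c * ((p : ℚ) *
        (((Ring.choose (nu j + ((i / 2 : ℕ) : ℤ)) (i - l) : ℤ) : ℚ) * (1 / (l : ℚ)) *
          S (chp (-nu j - 1) (l - 1)))) =
        c * ((((Ring.choose (nu j + ((i / 2 : ℕ) : ℤ)) (i - l) : ℤ) : ℚ) *
        ((p : ℚ) * (1 / (l : ℚ)))) * S (chp (-nu j - 1) (l - 1))) := by ring
    rw [e]
    exact hc.mul (((pint_int _).mul (ValW_div (by omega) (by omega))).mul (S_chp_int h2 _ _))

/-- the row weights -/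
private def ValW_r (p i : ℕ) : ℕ := if p ≤ i then 1 else 0

/-- the column weights -/
private def ValW_c (p j : ℕ) : ℕ := if Bad p j then 1 else 0

private noncomputable def ValW_A (n p : ℕ) : Matrix (Fin n) (Fin n) ℚ :=
  Matrix.of fun i j => (p : ℚ) ^ (ValW_r p i) *
    (Matrix.of fun (i : Fin n) (j : Fin n) => (p : ℚ) ^ (ValW_c p j) * M n i j) i j

private theorem ValW_A_apply (n p : ℕ) (i j : Fin n) : ValW_A n p i j =
    (p : ℚ) ^ (ValW_r p i) * ((p : ℚ) ^ (ValW_c p j) * SS (nu j) (bb i)) := rfl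

private theorem ValW_A_det (n p : ℕ) : (ValW_A n p).det =
    (p : ℚ) ^ (∑ i : Fin n, ValW_r p i) * ((p : ℚ) ^ (∑ j : Fin n, ValW_c p j) * (M n).det) := by
  unfold ValW_A
  rw [Matrix.det_mul_column, Matrix.det_mul_row, Finset.prod_pow_eq_pow_sum,
    Finset.prod_pow_eq_pow_sum]

private theorem ValW_A_int {n p : ℕ} [Fact p.Prime] (hw : IsPW p) (h : n < 2 * p)
    (i j : Fin n) : PInt p (ValW_A n p i j) := by
  have h2 : p ≠ 2 := hw.2.1
  have hj : (j : ℕ) < 2 * p := by have := j.2; omega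
  have h1 : PInt p (1 : ℚ) := by exact_mod_cast pint_int (p := p) 1
  rw [ValW_A_apply]
  unfold ValW_r ValW_c
  by_cases hi : p ≤ (i : ℕ)
  · rw [if_pos hi, pow_one]
    by_cases hb : Bad p j
    · rw [if_pos hb, pow_one]
      exact ValW_big h2 h i.2 (pint_nat p) ((pint_nat p).mul (col_bad h2 hj))
    · rw [if_neg hb, pow_zero, one_mul]
      have := ValW_big (j := j) h2 h i.2 h1 (by
        rw [one_mul]
        exact (pint_nat p).mul (ValW_kap hw hj hb))
      rwa [one_mul] at this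
  · rw [if_neg hi, pow_zero, one_mul]
    push Not at hi
    by_cases hb : Bad p j
    · rw [if_pos hb, pow_one]
      exact (ent_bad h2 hi hj).pint ((pint_eval (bb_pint hi) (pint_int _)).mul (col_bad h2 hj))
    · rw [if_neg hb, pow_zero, one_mul]
      refine (ent_good hw hi hj hb).pint (pint_sum _ _ fun x hx => ?_)
      exact (pint_eval (bb_pint hi) (pint_nat _)).mul (ValW_sgd h2 hj hb (mem_range.1 hx))

private abbrev ValW_K (n p : ℕ) : Type :=
  Fin (mp p) ⊕ {j : ℕ // j ∈ (range n).filter (fun j => Bad p j ∧ ap p + 2 * mp p ≤ j / 2)}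

private noncomputable def ValW_F (n p : ℕ) (i : Fin n) (k : ValW_K n p) : ℚ :=
  if (i : ℕ) < p then
    Sum.elim (fun x : Fin (mp p) => (bb i).eval ((ap p + 2 * (x : ℕ) : ℕ) : ℚ))
      (fun j' => (bb i).eval (nu j'.1 : ℚ)) k
  else 0

open Classical in
private noncomputable def ValW_G (n p : ℕ) (k : ValW_K n p) (j : Fin n) : ℚ :=
  Sum.elim (fun x : Fin (mp p) =>
      if Bad p j then
        (if hh : ∃ x < mp p, (p : ℤ) ∣ nu j - ((ap p + 2 * x : ℕ) : ℤ) then
          (if ((j : ℕ) / 2 < ap p + 2 * mp p) ∧ (x : ℕ) = hh.choose then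
            (p : ℚ) * kap (nu j) else 0) else 0)
      else sg p / (((ap p + 2 * (x : ℕ) : ℕ) : ℚ) - (nu j : ℚ)))
    (fun j' => if (j : ℕ) = j'.1 then (p : ℚ) * kap (nu j) else 0) k

private theorem ValW_zero {p : ℕ} [Fact p.Prime] : PInt p (0 : ℚ) := by
  exact_mod_cast pint_int (p := p) 0

private theorem ValW_F_int {n p : ℕ} [Fact p.Prime] (i : Fin n) (k : ValW_K n p) :
    PInt p (ValW_F n p i k) := by
  unfold ValW_F
  split_ifs with hi
  · rcases k with x | j'
    · exact pint_eval (bb_pint hi) (pint_nat _)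
    · exact pint_eval (bb_pint hi) (pint_int _)
  · exact ValW_zero

private theorem ValW_G_int {n p : ℕ} [Fact p.Prime] (hw : IsPW p) (h : n < 2 * p)
    (k : ValW_K n p) (j : Fin n) : PInt p (ValW_G n p k j) := by
  have h2 : p ≠ 2 := hw.2.1
  have hj : (j : ℕ) < 2 * p := by have := j.2; omega
  unfold ValW_G
  rcases k with x | j'
  · simp only [Sum.elim_inl]
    by_cases hb : Bad p j
    · rw [if_pos hb]
      split_ifs
      · exact col_bad h2 hj
      · exact ValW_zero
      · exact ValW_zero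
    · rw [if_neg hb]
      exact ValW_sgd h2 hj hb x.2
  · simp only [Sum.elim_inr]
    split_ifs
    · exact col_bad h2 hj
    · exact ValW_zero

private theorem ValW_cg {n p : ℕ} [Fact p.Prime] (hw : IsPW p) (h : n < 2 * p)
    (i : Fin n) (hi : (i : ℕ) < p) (j : Fin n) :
    Cg p (ValW_A n p i j) (∑ k, ValW_F n p i k * ValW_G n p k j) := by
  classical
  have h2 : p ≠ 2 := hw.2.1
  have hj : (j : ℕ) < 2 * p := by have := j.2; omega
  have hr : ValW_r p i = 0 := by
    unfold ValW_r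
    rw [if_neg (by omega)]
  rw [ValW_A_apply, hr, pow_zero, one_mul, Fintype.sum_sum_type]
  by_cases hb : Bad p j
  · have hc : ValW_c p j = 1 := by
      unfold ValW_c
      rw [if_pos hb]
    rw [hc, pow_one]
    by_cases hlt : (j : ℕ) / 2 < ap p + 2 * mp p
    · -- a point of the range
      have hex := col_pt h2 hb hlt
      have hx0 := hex.choose_spec
      have hs2 : ∑ j' : {j : ℕ // j ∈ (range n).filter (fun j => Bad p j ∧ ap p + 2 * mp p ≤ j / 2)},
          ValW_F n p i (Sum.inr j') * ValW_G n p (Sum.inr j') j = 0 := by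
        refine Finset.sum_eq_zero fun j' _ => ?_
        have hne : (j : ℕ) ≠ j'.1 := by
          intro he
          have := (mem_filter.1 j'.2).2.2
          omega
        unfold ValW_G
        simp only [Sum.elim_inr]
        rw [if_neg hne, mul_zero]
      have hs1 : ∑ x : Fin (mp p), ValW_F n p i (Sum.inl x) * ValW_G n p (Sum.inl x) j =
          (bb i).eval ((ap p + 2 * hex.choose : ℕ) : ℚ) * ((p : ℚ) * kap (nu j)) := by
        rw [Finset.sum_eq_single (⟨hex.choose, hx0.1⟩ : Fin (mp p))]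
        · unfold ValW_F ValW_G
          simp only [Sum.elim_inl]
          rw [if_pos hi, if_pos hb, dif_pos hex, if_pos ⟨hlt, by trivial⟩]
        · intro x _ hx
          unfold ValW_G
          simp only [Sum.elim_inl]
          rw [if_pos hb, dif_pos hex, if_neg, mul_zero]
          rintro ⟨_, he⟩
          exact hx (Fin.ext he)
        · intro hx
          exact absurd (Finset.mem_univ _) hx
      rw [hs1, hs2, add_zero]
      refine (ent_bad h2 hi hj).trans ?_
      have hcg : Cg p (nu j : ℚ) ((ap p + 2 * hex.choose : ℕ) : ℚ) := by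
        have h3 : Cg p (((nu j : ℤ)) : ℚ) (((ap p + 2 * hex.choose : ℕ) : ℤ) : ℚ) := by
          rw [cg_int]
          have h4 := (ZMod.intCast_zmod_eq_zero_iff_dvd _ p).2 hx0.2
          rw [Int.cast_sub] at h4
          exact sub_eq_zero.1 h4
        rwa [Int.cast_natCast] at h3
      have h5 := cg_eval (bb_pint (p := p) hi) (pint_int (nu j)) hcg
      exact h5.mul (cg_refl _) (pint_eval (bb_pint hi) (pint_int _)) (col_bad h2 hj)
    · push Not at hlt
      have hmem : (j : ℕ) ∈ (range n).filter (fun j => Bad p j ∧ ap p + 2 * mp p ≤ j / 2) :=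
        mem_filter.2 ⟨mem_range.2 j.2, hb, hlt⟩
      have hs1 : ∑ x : Fin (mp p), ValW_F n p i (Sum.inl x) * ValW_G n p (Sum.inl x) j = 0 := by
        refine Finset.sum_eq_zero fun x _ => ?_
        unfold ValW_G
        simp only [Sum.elim_inl]
        rw [if_pos hb]
        split_ifs with h3 h4
        · omega
        · rw [mul_zero]
        · rw [mul_zero]
      have hs2 : ∑ j' : {j : ℕ // j ∈ (range n).filter (fun j => Bad p j ∧ ap p + 2 * mp p ≤ j / 2)},
          ValW_F n p i (Sum.inr j') * ValW_G n p (Sum.inr j') j =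
          (bb i).eval (nu j : ℚ) * ((p : ℚ) * kap (nu j)) := by
        rw [Finset.sum_eq_single (⟨(j : ℕ), hmem⟩ :
          {j : ℕ // j ∈ (range n).filter (fun j => Bad p j ∧ ap p + 2 * mp p ≤ j / 2)})]
        · unfold ValW_F ValW_G
          simp only [Sum.elim_inr]
          rw [if_pos hi, if_pos trivial]
        · intro j' _ hj'
          unfold ValW_G
          simp only [Sum.elim_inr]
          rw [if_neg, mul_zero]
          intro he
          exact hj' (Subtype.ext he.symm)
        · intro hx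
          exact absurd (Finset.mem_univ _) hx
      rw [hs1, hs2, zero_add]
      exact ent_bad h2 hi hj
  · have hc : ValW_c p j = 0 := by
      unfold ValW_c
      rw [if_neg hb]
    rw [hc, pow_zero, one_mul]
    have hs2 : ∑ j' : {j : ℕ // j ∈ (range n).filter (fun j => Bad p j ∧ ap p + 2 * mp p ≤ j / 2)},
        ValW_F n p i (Sum.inr j') * ValW_G n p (Sum.inr j') j = 0 := by
      refine Finset.sum_eq_zero fun j' _ => ?_
      have hne : (j : ℕ) ≠ j'.1 := by
        intro he
        have := (mem_filter.1 j'.2).2.1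
        rw [← he] at this
        exact hb this
      unfold ValW_G
      simp only [Sum.elim_inr]
      rw [if_neg hne, mul_zero]
    have hs1 : ∑ x : Fin (mp p), ValW_F n p i (Sum.inl x) * ValW_G n p (Sum.inl x) j =
        ∑ x ∈ range (mp p), (bb i).eval ((ap p + 2 * x : ℕ) : ℚ) *
          (sg p / (((ap p + 2 * x : ℕ) : ℚ) - (nu j : ℚ))) := by
      rw [← Fin.sum_univ_eq_sum_range (fun x => (bb i).eval ((ap p + 2 * x : ℕ) : ℚ) *
          (sg p / (((ap p + 2 * x : ℕ) : ℚ) - (nu j : ℚ))))]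
      refine Finset.sum_congr rfl fun x _ => ?_
      unfold ValW_F ValW_G
      simp only [Sum.elim_inl]
      rw [if_pos hi, if_neg hb]
    rw [hs1, hs2, add_zero]
    exact ent_good hw hi hj hb

private theorem ValW_sr (n p : ℕ) : ∑ i : Fin n, ValW_r p i = n - p := by
  have h1 : ∑ i : Fin n, ValW_r p i = ∑ i ∈ range n, ValW_r p i :=
    Fin.sum_univ_eq_sum_range (fun i => ValW_r p i) n
  rw [h1]
  unfold ValW_r
  rw [← Finset.sum_filter, Finset.sum_const, smul_eq_mul, mul_one]
  have h2 : (range n).filter (fun i => p ≤ i) = Ico p n := by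
    ext x
    simp only [mem_filter, mem_range, mem_Ico]
    omega
  rw [h2, Nat.card_Ico]

private theorem ValW_sc (n p : ℕ) : ∑ j : Fin n, ValW_c p j =
    ((range n).filter (fun j => Bad p j)).card := by
  have h1 : ∑ i : Fin n, ValW_c p i = ∑ i ∈ range n, ValW_c p i :=
    Fin.sum_univ_eq_sum_range (fun i => ValW_c p i) n
  rw [h1]
  unfold ValW_c
  rw [← Finset.sum_filter, Finset.sum_const, smul_eq_mul, mul_one]

private theorem ValW_R (n p : ℕ) :
    ((univ : Finset (Fin n)).filter (fun i : Fin n => (i : ℕ) < p)).card = min p n := by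
  rw [min_comm]
  exact Fin.card_filter_val_lt

theorem val_all {n p : ℕ} (hp : p.Prime) (h2 : p ≠ 2) (hD : (M n).det ≠ 0) :
    -((n : ℤ) * (Nat.log p (2 * n) : ℤ)) ≤ padicValRat p (M n).det := by
  have : Fact p.Prime := ⟨hp⟩
  exact ValW_log h2 hD

theorem val_world {n p : ℕ} (hw : IsPW p) (h : n < 2 * p) (hD : (M n).det ≠ 0) :
    ((min p n : ℕ) : ℤ) - (mp p : ℤ) -
      (((range n).filter (fun j => Bad p j ∧ ap p + 2 * mp p ≤ j / 2)).card : ℤ) -
      ((n - p : ℕ) : ℤ) - (((range n).filter (fun j => Bad p j)).card : ℤ) ≤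
    padicValRat p (M n).det := by
  have : Fact p.Prime := ⟨hw.1⟩
  have hp : p.Prime := hw.1
  have hp0 : (p : ℚ) ≠ 0 := by exact_mod_cast hp.ne_zero
  have hp1 : (1 : ℚ) < p := by exact_mod_cast hp.one_lt
  have hr := det_rank (ValW_A n p) (ValW_A_int hw h)
    ((univ : Finset (Fin n)).filter (fun i : Fin n => (i : ℕ) < p)) (ValW_F n p) (ValW_G n p)
    (ValW_F_int) (ValW_G_int hw h) (fun i hi j => ValW_cg hw h i (mem_filter.1 hi).2 j)
  have hA0 : (ValW_A n p).det ≠ 0 := by
    rw [ValW_A_det]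
    exact mul_ne_zero (pow_ne_zero _ hp0) (mul_ne_zero (pow_ne_zero _ hp0) hD)
  rw [ValW_R, Fintype.card_sum, Fintype.card_fin, Fintype.card_coe,
    padicNorm.eq_zpow_of_nonzero hA0] at hr
  set K : ℕ := ((range n).filter (fun j => Bad p j ∧ ap p + 2 * mp p ≤ j / 2)).card with hK
  have h3 : (p : ℚ) ^ (-padicValRat p (ValW_A n p).det + ((min p n - (mp p + K) : ℕ) : ℤ)) ≤ 1 := by
    rw [zpow_add₀ hp0, zpow_natCast]
    exact hr
  rw [zpow_le_one_iff_right₀ hp1] at h3
  have h4 : padicValRat p (ValW_A n p).det = ((n - p : ℕ) : ℤ) +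
      ((((range n).filter (fun j => Bad p j)).card : ℤ) + padicValRat p (M n).det) := by
    rw [ValW_A_det, padicValRat.mul (pow_ne_zero _ hp0) (mul_ne_zero (pow_ne_zero _ hp0) hD),
      padicValRat.mul (pow_ne_zero _ hp0) hD, ValW_val_pow, ValW_val_pow, ValW_sr, ValW_sc]
  rw [h4] at h3
  omega

end PWief
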